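import Mathlib

set_option autoImplicit false

namespace Pool.Agent.Lib.NMX.AA

open MeasureTheory Measure ProbabilityTheory unitInterval Finset

theorem block_pi {E ι κ : Type} [Finite E] [Fintype κ] (ν : E → Measure Prop)
    [∀ a, IsProbabilityMeasure (ν a)] (e : ι → κ → E)
    (hinj : ∀ i j i' j', e i j = e i' j' → i = i' ∧ j = j') (π : κ → Prop) (w : ℝ)
    (hw : ∀ i, ∏ j, (ν (e i j)).real {π j} = w) (s : Finset ι) :
    ∀ t : Finset ι, Disjoint s t → (infinitePi ν).real
      {x | (∀ i ∈ t, ∀ j, x (e i j) = π j) ∧ ∀ i ∈ s, ¬ ∀ j, x (e i j) = π j} =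
      w ^ t.card * (1 - w) ^ s.card := by
  classical
  induction s using Finset.induction_on with
  | empty =>
    intro t _
    let T : E → Set Prop := fun a => {y | ∀ i ∈ t, ∀ j, e i j = a → y = π j}
    have h1 : {x : E → Prop | (∀ i ∈ t, ∀ j, x (e i j) = π j) ∧
        ∀ i ∈ (∅ : Finset ι), ¬ ∀ j, x (e i j) = π j} =
        Set.pi ((t ×ˢ (univ : Finset κ)).image fun c => e c.1 c.2 : Finset E) T := by
      ext x
      simp only [Set.mem_ofPred_eq, notMem_empty, false_imp_iff, implies_true, and_true,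
        Set.mem_pi, coe_image, Set.mem_image, mem_coe, mem_product, mem_univ, T]
      constructor
      · rintro h a - i hi j rfl
        exact h i hi j
      · intro h i hi j
        exact h _ ⟨(i, j), hi, rfl⟩ i hi j rfl
    have h2 : ∀ i ∈ t, ∀ j, T (e i j) = {π j} := fun i hi j => by
      ext y
      simp only [Set.mem_ofPred_eq, Set.mem_singleton_iff, T]
      exact ⟨fun h => h i hi j rfl, fun h i' _ j' k => by rw [(hinj _ _ _ _ k).2]; exact h⟩
    rw [h1, measureReal_def, infinitePi_pi _ (fun _ _ => .of_discrete), ENNReal.toReal_prod,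
      prod_image (fun a _ b _ k => Prod.ext (hinj _ _ _ _ k).1 (hinj _ _ _ _ k).2), prod_product]
    simp only [card_empty, pow_zero, mul_one]
    rw [← prod_const]
    refine prod_congr rfl fun i hi => ?_
    rw [← hw i]
    exact prod_congr rfl fun j _ => by rw [h2 i hi j, measureReal_def]
  | insert a s ha ih =>
    intro t hd
    rw [disjoint_insert_left] at hd
    have h1 := ih t hd.2
    have h2 := ih (insert a t) (disjoint_insert_right.2 ⟨ha, hd.2⟩)
    have h3 := measureReal_inter_add_sdiff (μ := infinitePi ν)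
      (s := {x : E → Prop | (∀ i ∈ t, ∀ j, x (e i j) = π j) ∧ ∀ i ∈ s, ¬ ∀ j, x (e i j) = π j})
      (t := {x | ∀ j, x (e a j) = π j}) .of_discrete
    have e1 : {x : E → Prop | (∀ i ∈ t, ∀ j, x (e i j) = π j) ∧ ∀ i ∈ s, ¬ ∀ j, x (e i j) = π j} ∩
        {x | ∀ j, x (e a j) = π j} = {x | (∀ i ∈ insert a t, ∀ j, x (e i j) = π j) ∧
          ∀ i ∈ s, ¬ ∀ j, x (e i j) = π j} := by
      ext x
      simp only [Set.mem_inter_iff, Set.mem_ofPred_eq, forall_mem_insert]
      tauto
    have e2 : {x : E → Prop | (∀ i ∈ t, ∀ j, x (e i j) = π j) ∧ ∀ i ∈ s, ¬ ∀ j, x (e i j) = π j} \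
        {x | ∀ j, x (e a j) = π j} = {x | (∀ i ∈ t, ∀ j, x (e i j) = π j) ∧
          ∀ i ∈ insert a s, ¬ ∀ j, x (e i j) = π j} := by
      ext x
      simp only [Set.mem_sdiff, Set.mem_ofPred_eq, forall_mem_insert]
      tauto
    rw [e1, e2, h1, h2, card_insert_of_notMem hd.1] at h3
    rw [card_insert_of_notMem ha]
    linear_combination h3

open Classical in
/-- Disjoint blocks of pairs all avoid a fixed pattern with the expected probability. -/
theorem block {V ι κ : Type} [Finite V] [Fintype κ] (p : I) (s : Finset ι) (e : ι → κ → Sym2 V)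
    (hinj : ∀ i ∈ s, ∀ i' ∈ s, ∀ j j', e i j = e i' j' → i = i' ∧ j = j')
    (hnd : ∀ i ∈ s, ∀ j, ¬ (e i j).IsDiag) (π : κ → Prop) (S : Set (SimpleGraph V))
    (hS : ∀ M ∈ S, ∀ i ∈ s, ¬ ∀ j, (e i j ∈ M.edgeSet ↔ π j)) :
    (SimpleGraph.binomialRandom V p).real S ≤
      Real.exp (-((∏ j, if π j then (p : ℝ) else 1 - p) * s.card)) := by
  set w : ℝ := ∏ j, if π j then (p : ℝ) else 1 - p with hw
  have hp0 : (0 : ℝ) ≤ p := p.2.1
  have hp1 : (p : ℝ) ≤ 1 := p.2.2
  have w1 : w ≤ 1 := prod_le_one (fun j _ => by split_ifs <;> linarith)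
    fun j _ => by split_ifs <;> linarith
  have key := block_pi (ι := s)
    (fun a : Sym2 V => toNNReal p • (dirac (¬ a.IsDiag) : Measure Prop) +
      toNNReal (σ p) • dirac False) (fun i j => e i j)
    (fun i j i' j' k => ⟨Subtype.ext (hinj _ i.2 _ i'.2 _ _ k).1, (hinj _ i.2 _ i'.2 _ _ k).2⟩) π w
    (fun i => prod_congr rfl fun j _ => by
      have := hnd _ i.2 j
      by_cases h : π j <;> simp [measureReal_def, h, this]) univ ∅ (disjoint_empty_right _)
  simp only [card_empty, pow_zero, one_mul, card_univ, Fintype.card_coe] at key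
  rw [measureReal_def, SimpleGraph.binomialRandom_apply, ← measureReal_def]
  refine le_trans (measureReal_mono ?_) (key.le.trans ?_)
  · rintro _ ⟨M, hM, rfl⟩
    exact ⟨by simp, fun i _ h => hS M hM i i.2 fun j => by rw [← h j]⟩
  · rw [← neg_mul, mul_comm, Real.exp_nat_mul]
    exact pow_le_pow_left₀ (by linarith) (by linarith [Real.add_one_le_exp (-w)]) _

end Pool.Agent.Lib.NMX.AA
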