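import Pool.Agent.Lib.MP_fb430f_co.Ham

set_option autoImplicit false

namespace Pool.Agent.Lib.NMX

open Finset Polynomial Pool.Agent.Lib.MP_fb430f_co Pool.Agent.Lib.helper63.Chains

/-- sign vectors having a constant block -/
def WV (d L : ℕ) : Type := {x : Fin d × Fin L → Bool // ∃ β ε, ∀ t, x (β, t) = ε}

instance (d L : ℕ) : Finite (WV d L) := by unfold WV; infer_instance

/-- almost antipodal sign vectors are adjacent -/
def WG (d L : ℕ) : SimpleGraph (WV d L) where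
  Adj x y := x ≠ y ∧ (univ.filter fun c => x.1 c = y.1 c).card ≤ 2 * d
  symm := ⟨fun _ _ h => ⟨h.1.symm, by simpa [eq_comm] using h.2⟩⟩
  loopless := ⟨fun _ h => h.1 rfl⟩

/-- the levelled colour classes -/
def WB (d L : ℕ) (j : Fin d × Bool) (i : ℕ) : Set (WV d L) :=
  {x | (univ.filter fun t : Fin L => x.1 (j.1, t) ≠ xor j.2 (decide (Odd i))).card ≤ 2 * d * i}

theorem WB_cover (d L : ℕ) (x : WV d L) : ∃ j, x ∈ WB d L j 0 := by
  obtain ⟨β, ε, h⟩ := x.2
  refine ⟨(β, ε), ?_⟩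
  simp [WB, h]

theorem agree_le {d L : ℕ} {x y : WV d L} (h : (WG d L).Adj x y) (β : Fin d) :
    (univ.filter fun t : Fin L => x.1 (β, t) = y.1 (β, t)).card ≤ 2 * d := by
  refine le_trans ?_ h.2
  refine card_le_card_of_injOn (fun t => (β, t)) (fun t ht => ?_) (fun t _ t' _ e => ?_)
  · simpa using ht
  · exact (Prod.ext_iff.1 e).2

theorem WB_step (d L : ℕ) (j : Fin d × Bool) (i : ℕ) (x y : WV d L) (hx : x ∈ WB d L j i)
    (h : (WG d L).Adj x y) : y ∈ WB d L j (i + 1) := by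
  have h1 := agree_le h j.1
  simp only [WB, Set.mem_ofPred_eq] at hx ⊢
  have hs : xor j.2 (decide (Odd (i + 1))) = !(xor j.2 (decide (Odd i))) := by
    rcases Nat.even_or_odd i with h' | h'
    · have a1 : ¬ Odd i := Nat.not_odd_iff_even.2 h'
      have a2 : Odd (i + 1) := h'.add_one
      simp [a1, a2]
    · have a2 : ¬ Odd (i + 1) := Nat.not_odd_iff_even.2 h'.add_one
      simp [h', a2]
  rw [hs]
  generalize xor j.2 (decide (Odd i)) = σ at hx ⊢
  refine le_trans (card_le_card (t := (univ.filter fun t : Fin L => x.1 (j.1, t) ≠ σ) ∪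
    (univ.filter fun t : Fin L => x.1 (j.1, t) = y.1 (j.1, t))) fun t ht => ?_) ?_
  · simp only [mem_filter, mem_univ, true_and, mem_union] at ht ⊢
    revert ht
    cases x.1 (j.1, t) <;> cases y.1 (j.1, t) <;> cases σ <;> simp
  · refine le_trans (card_union_le _ _) ?_
    rw [Nat.mul_add]
    omega

theorem WB_indep (d L : ℕ) (j : Fin d × Bool) (i : ℕ) (hL : 4 * d * i + 2 * d < L)
    (x y : WV d L) (hx : x ∈ WB d L j i) (hy : y ∈ WB d L j i) : ¬ (WG d L).Adj x y := by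
  intro h
  have h1 := agree_le h j.1
  simp only [WB, Set.mem_ofPred_eq] at hx hy
  generalize xor j.2 (decide (Odd i)) = σ at hx hy
  have h2 : (univ : Finset (Fin L)) ⊆ ((univ.filter fun t : Fin L => x.1 (j.1, t) ≠ σ) ∪
      (univ.filter fun t : Fin L => y.1 (j.1, t) ≠ σ)) ∪
      (univ.filter fun t : Fin L => x.1 (j.1, t) = y.1 (j.1, t)) := by
    intro t _
    simp only [mem_filter, mem_univ, true_and, mem_union]
    cases x.1 (j.1, t) <;> cases y.1 (j.1, t) <;> cases σ <;> simp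
  have h3 := card_le_card h2
  have h4 := le_trans h3 (card_union_le _ _)
  have h5 := card_union_le (univ.filter fun t : Fin L => x.1 (j.1, t) ≠ σ)
    (univ.filter fun t : Fin L => y.1 (j.1, t) ≠ σ)
  rw [card_univ, Fintype.card_fin] at h4
  have : 4 * d * i = 2 * d * i + 2 * d * i := by ring
  omega

/-- sample points on the line -/
def wpt {d L : ℕ} (c : Fin d × Fin L) : ℝ := ((c.1 : ℕ) * L + (c.2 : ℕ) : ℕ)

theorem wpt_inj {d L : ℕ} : Function.Injective (wpt : Fin d × Fin L → ℝ) := by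
  rintro ⟨a, s⟩ ⟨b, t⟩ h
  simp only [wpt, Nat.cast_inj] at h
  have hs := s.2
  have ht := t.2
  have h1 : ((a : ℕ) * L + s) / L = a := by
    rw [Nat.add_comm, Nat.add_mul_div_right _ _ (by omega), Nat.div_eq_of_lt hs, Nat.zero_add]
  have h2 : ((b : ℕ) * L + t) / L = b := by
    rw [Nat.add_comm, Nat.add_mul_div_right _ _ (by omega), Nat.div_eq_of_lt ht, Nat.zero_add]
  have h3 : (a : ℕ) = b := by rw [← h1, h, h2]
  have h4 : (s : ℕ) = t := by rw [h3] at h; omega
  exact Prod.ext (Fin.ext h3) (Fin.ext h4)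

theorem roots_lt {d : ℕ} {p : ℝ[X]} (hp : p ≠ 0) (hd : p ∈ degreeLT ℝ d) {ι : Type}
    (s : Finset ι) (u : ι → ℝ) (hu : Set.InjOn u s) (h0 : ∀ i ∈ s, p.eval (u i) = 0) :
    s.card < d := by
  classical
  have h1 : p.natDegree < d := (natDegree_lt_iff_degree_lt hp).2 (mem_degreeLT.1 hd)
  have h2 : (s.image u).card ≤ p.natDegree := by
    refine card_le_degree_of_subset_roots fun x hx => ?_
    obtain ⟨i, hi, rfl⟩ := mem_image.1 (show x ∈ s.image u from hx)
    exact (mem_roots hp).2 (h0 i hi)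
  rw [card_image_of_injOn hu] at h2
  omega

theorem const_block {d L : ℕ} {p : ℝ[X]} (hp : p ≠ 0) (hd : p ∈ degreeLT ℝ d) :
    ∃ (β : Fin d) (ε : Bool), ∀ t : Fin L, decide (0 < p.eval (wpt (β, t))) = ε := by
  by_contra hn
  push Not at hn
  have key : ∀ β : Fin d, ∃ r : ℝ, (((β : ℕ) * L : ℕ) : ℝ) ≤ r ∧ r < ((((β : ℕ) + 1) * L : ℕ) : ℝ) ∧
      p.eval r = 0 := by
    intro β
    obtain ⟨s, hs⟩ := hn β true
    obtain ⟨t, ht⟩ := hn β false
    have hs' : p.eval (wpt (β, s)) ≤ 0 := by simpa using hs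
    have ht' : 0 < p.eval (wpt (β, t)) := by simpa using ht
    have hm : (0 : ℝ) ∈ Set.uIcc (p.eval (wpt (β, s))) (p.eval (wpt (β, t))) :=
      Set.mem_uIcc.2 (Or.inl ⟨hs', ht'.le⟩)
    obtain ⟨r, hr, hr0⟩ := intermediate_value_uIcc (f := fun x => p.eval x)
      p.continuous.continuousOn hm
    have b1 : ∀ u : Fin L, (((β : ℕ) * L : ℕ) : ℝ) ≤ wpt (β, u) ∧
        wpt (β, u) < ((((β : ℕ) + 1) * L : ℕ) : ℝ) := fun u => by
      have := u.2
      simp only [wpt, Nat.cast_le, Nat.cast_lt, Nat.add_mul]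
      omega
    refine ⟨r, ?_, ?_, hr0⟩
    · rcases Set.mem_uIcc.1 hr with h | h
      · exact (b1 s).1.trans h.1
      · exact (b1 t).1.trans h.1
    · rcases Set.mem_uIcc.1 hr with h | h
      · exact h.2.trans_lt (b1 t).2
      · exact h.2.trans_lt (b1 s).2
  choose r h1 h2 h3 using key
  have mono : ∀ a b : Fin d, a < b → r a < r b := fun a b hab => by
    refine (h2 a).trans_le (le_trans ?_ (h1 b))
    exact Nat.cast_le.2 (Nat.mul_le_mul_right _ hab)
  have := roots_lt hp hd (univ : Finset (Fin d)) r (fun a _ b _ e => by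
    rcases lt_trichotomy a b with h | h | h
    · exact absurd e (mono a b h).ne
    · exact h
    · exact absurd e (mono b a h).ne') (fun i _ => h3 i)
  simp at this

open Classical in
theorem tucker_lin {W : Type} [AddCommGroup W] [Module ℝ W] [FiniteDimensional ℝ W]
    (Φ : List (W →ₗ[ℝ] ℝ)) {κ : Type} [Fintype κ] (c0 : {f : W // f ≠ 0} → κ)
    (sgn : {f : W // f ≠ 0} → Bool) (a : {f : W // f ≠ 0} → {f : W // f ≠ 0})
    (ha : ∀ f, (a f).1 = -f.1) (hc0 : ∀ v, c0 (a v) = c0 v) (hsgn : ∀ v, sgn (a v) = !sgn v)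
    (hr : Fintype.card κ < Module.finrank ℝ W) :
    ∃ v w, (∀ h ∈ Φ, (0 ≤ h v.1 ∧ 0 ≤ h w.1) ∨ (h v.1 ≤ 0 ∧ h w.1 ≤ 0)) ∧
      (∀ h ∈ Φ, (0 ≤ h w.1 ∧ 0 ≤ h v.1) ∨ (h w.1 ≤ 0 ∧ h v.1 ≤ 0)) ∧ c0 v = c0 w ∧
      sgn v ≠ sgn w := by
  have hac := conf_sub Φ (⊤ : Submodule ℝ W)
  rw [finrank_top] at hac
  obtain ⟨s, hs, v, hv, w, hw, e1, e2⟩ := tucker (κ := κ) (Conf Φ (⊤ : Submodule ℝ W)) _
    c0 sgn a (fun f => Subtype.ext (by rw [ha, ha, neg_neg])) hc0 hsgn
    (fun s hs => ⟨fun _ _ => trivial, fun h hh => by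
      rcases hs.2 h hh with h1 | h1
      · refine Or.inr fun f hf => ?_
        obtain ⟨g, hg, rfl⟩ := mem_image.1 hf
        simpa [ha] using h1 g hg
      · refine Or.inl fun f hf => ?_
        obtain ⟨g, hg, rfl⟩ := mem_image.1 hf
        simpa [ha] using h1 g hg⟩)
    ⟨fun _ h => by simp at h, fun _ _ => Or.inl fun _ h => by simp at h⟩ hac hr
  refine ⟨v, w, fun h hh => ?_, fun h hh => ?_, e1, e2⟩
  · exact (hs.2 h hh).imp (fun k => ⟨k v hv, k w hw⟩) (fun k => ⟨k v hv, k w hw⟩)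
  · exact (hs.2 h hh).imp (fun k => ⟨k w hw, k v hv⟩) (fun k => ⟨k w hw, k v hv⟩)

theorem WG_not_colorable (d L n : ℕ) (hn : n < d) (hL : 2 < L) : ¬ (WG d L).Colorable n := by
  classical
  rintro ⟨col⟩
  let W := degreeLT ℝ d
  have hfin : Module.finrank ℝ W = d := by
    rw [(degreeLTEquiv ℝ d).finrank_eq]; simp
  have : FiniteDimensional ℝ W := (degreeLTEquiv ℝ d).symm.finiteDimensional
  let φ : Fin d × Fin L → W →ₗ[ℝ] ℝ := fun c => (leval (wpt c)).comp W.subtype
  have hφ : ∀ c (f : W), φ c f = (f : ℝ[X]).eval (wpt c) := fun c f => by simp [φ]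
  have hne : ∀ f : {f : W // f ≠ 0}, ((f.1 : W) : ℝ[X]) ≠ 0 := fun f h => f.2 (Subtype.ext h)
  let x : {f : W // f ≠ 0} → WV d L := fun f =>
    ⟨fun c => decide (0 < (f.1 : ℝ[X]).eval (wpt c)), const_block (hne f) f.1.2⟩
  let a : {f : W // f ≠ 0} → {f : W // f ≠ 0} := fun f => ⟨-f.1, neg_ne_zero.2 f.2⟩
  have ha : ∀ f, a (a f) = f := fun f => Subtype.ext (neg_neg _)
  let Φ : List (W →ₗ[ℝ] ℝ) := (univ.image φ).toList
  have adj : ∀ f g : {f : W // f ≠ 0}, (∀ c, (0 ≤ φ c f.1 ∧ 0 ≤ φ c g.1) ∨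
      (φ c f.1 ≤ 0 ∧ φ c g.1 ≤ 0)) → (WG d L).Adj (x f) (x (a g)) := by
    intro f g h
    have hc : (univ.filter fun c => (x f).1 c = (x (a g)).1 c).card ≤ 2 * d := by
      have z1 := roots_lt (hne f) f.1.2 (univ.filter fun c : Fin d × Fin L =>
        (f.1 : ℝ[X]).eval (wpt c) = 0) wpt wpt_inj.injOn (fun i hi => (mem_filter.1 hi).2)
      have z2 := roots_lt (hne g) g.1.2 (univ.filter fun c : Fin d × Fin L =>
        (g.1 : ℝ[X]).eval (wpt c) = 0) wpt wpt_inj.injOn (fun i hi => (mem_filter.1 hi).2)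
      refine le_trans (card_le_card (t := (univ.filter fun c : Fin d × Fin L =>
        (f.1 : ℝ[X]).eval (wpt c) = 0) ∪ (univ.filter fun c : Fin d × Fin L =>
        (g.1 : ℝ[X]).eval (wpt c) = 0)) fun c hc => ?_) (le_trans (card_union_le _ _) (by omega))
      simp only [mem_filter, mem_univ, true_and, mem_union, x, a, decide_eq_decide,
        Submodule.coe_neg, eval_neg] at hc ⊢
      have h' := h c
      rw [hφ, hφ] at h'
      by_contra hz
      push Not at hz
      rcases h' with h' | h'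
      · have := hc.1 (lt_of_le_of_ne h'.1 hz.1.symm)
        linarith [h'.2]
      · have := hc.2 (by have := lt_of_le_of_ne h'.2 hz.2; linarith)
        linarith [h'.1]
    refine ⟨fun e => ?_, hc⟩
    rw [e] at hc
    simp only [filter_true, card_univ, Fintype.card_prod, Fintype.card_fin] at hc
    nlinarith
  have self : ∀ f, col (x f) ≠ col (x (a f)) := fun f =>
    col.valid (adj f f fun c => (le_total 0 (φ c f.1)).imp (fun h => ⟨h, h⟩) (fun h => ⟨h, h⟩))
  obtain ⟨v, w, k1, k2, e1, e2⟩ := tucker_lin (κ := Fin n) Φ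
    (fun f => min (col (x f)) (col (x (a f)))) (fun f => decide (col (x f) < col (x (a f)))) a
    (fun _ => rfl) (fun f => by simp only [ha, min_comm])
    (fun f => by
      simp only [ha]
      rcases lt_or_gt_of_ne (self f) with h | h
      · simp [h, h.le]
      · simp [h, h.le])
    (by simpa [hfin] using hn)
  have c1 := col.valid (adj v w fun c => k1 (φ c) (by simp [Φ]))
  have c2 := col.valid (adj w v fun c => k2 (φ c) (by simp [Φ]))
  rcases lt_or_gt_of_ne (self v) with h | h <;> rcases lt_or_gt_of_ne (self w) with h' | h'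
  · simp [h, h'] at e2
  · rw [min_eq_left h.le, min_eq_right h'.le] at e1
    exact c1 e1
  · rw [min_eq_right h.le, min_eq_left h'.le] at e1
    exact c2 e1.symm
  · simp [h.not_gt, h'.not_gt] at e2

/-- Graphs of large chromatic number covered by boundedly many classes all of whose
walk-neighbourhoods up to level `R` are independent. -/
theorem exists_wide (n : ℕ) : ∃ m : ℕ, ∀ R : ℕ, ∃ (A : Type) (_ : Finite A) (G : SimpleGraph A)
    (B : Fin m → ℕ → Set A), ¬ G.Colorable n ∧ (∀ x, ∃ j, x ∈ B j 0) ∧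
    (∀ j i x y, x ∈ B j i → G.Adj x y → y ∈ B j (i + 1)) ∧
    (∀ j i, i ≤ R → ∀ x y, x ∈ B j i → y ∈ B j i → ¬ G.Adj x y) := by
  refine ⟨Fintype.card (Fin (n + 1) × Bool), fun R => ?_⟩
  let e := Fintype.equivFin (Fin (n + 1) × Bool)
  let L := 4 * (n + 1) * R + 2 * (n + 1) + 3
  refine ⟨WV (n + 1) L, inferInstance, WG (n + 1) L, fun j => WB (n + 1) L (e.symm j),
    WG_not_colorable _ _ n (by omega) (by omega), fun x => ?_,
    fun j i x y hx h => WB_step _ _ _ _ x y hx h, fun j i hi x y hx hy => ?_⟩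
  · obtain ⟨j, hj⟩ := WB_cover _ _ x
    exact ⟨e j, by simpa using hj⟩
  · refine WB_indep _ _ _ i ?_ x y hx hy
    have : 4 * (n + 1) * i ≤ 4 * (n + 1) * R := Nat.mul_le_mul_left _ hi
    omega

end Pool.Agent.Lib.NMX
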