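import Pool.Agent.Lib.NMX.Defs
import Pool.Agent.Lib.NMX.Wide

set_option autoImplicit false

namespace Pool.Agent.Lib.NMX

variable {V : Type}

/-- every endomorphism is injective -/
def IsCore (M : SimpleGraph V) : Prop := ∀ f : M →g M, Function.Injective f

/-- a chain of idempotent binary operations, consecutive ones linked by the step rule -/
def Chain (M : SimpleGraph V) (β : ℕ → V → V → V) : Prop :=
  (∀ i a, β i a a = a) ∧ ∀ i a b e d, M.Adj a e → M.Adj a d → M.Adj b d →
    M.Adj (β i a b) (β (i + 1) e d)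

def Indep (M : SimpleGraph V) (β : V → V → V) : Prop :=
  ∀ a b c d, M.Adj a c → M.Adj b c → M.Adj a d → M.Adj (β a b) (β c d)

/-- `m` is adjacent to all common neighbours of `a` and `b` -/
def Cl (M : SimpleGraph V) (a b m : V) : Prop := ∀ u, M.Adj a u → M.Adj b u → M.Adj m u

def Split (M : SimpleGraph V) (β : V → V → V) : Prop :=
  ∀ a b e c d, M.Adj a e → M.Adj a c → M.Adj a d → M.Adj b c → M.Adj b d →
    ∃ m, M.Adj (β a b) m ∧ Cl M e c m ∧ Cl M e d m

def Small (M : SimpleGraph V) (β : V → V → V) : Prop :=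
  ∀ a b c, M.Adj a c → M.Adj b c → β a b = a

theorem Chain.cl {M : SimpleGraph V} {β : ℕ → V → V → V} (h : Chain M β) (i : ℕ) (a b : V) :
    Cl M a b (β i a b) := fun u ha hb => by
  have := h.2 i a b u u ha ha hb
  rwa [h.1] at this

theorem Chain.shift {M : SimpleGraph V} {β : ℕ → V → V → V} (h : Chain M β) (j : ℕ) :
    Chain M (fun i => β (j + i)) := ⟨fun _ a => h.1 _ a, fun i => h.2 (j + i)⟩

theorem exists_phi [Finite V] {M : SimpleGraph V} (hM : IsCore M) (hm : Multiplicative M)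
    {A : Type} [Finite A] (G : SimpleGraph A) (hG : ¬ G.Colorable (Nat.card V)) :
    ∃ φ : (A → V) → V, (∀ a, φ (fun _ => a) = a) ∧
      ∀ f g, (∀ x y, G.Adj x y → M.Adj (f x) (g y)) → M.Adj (φ f) (φ g) := by
  classical
  have hGM : ¬ Nonempty (G →g M) := by
    rintro ⟨f⟩
    have := Fintype.ofFinite V
    refine hG (SimpleGraph.Colorable.of_hom f ?_)
    rw [Nat.card_eq_fintype_card]
    exact M.colorable_of_fintype
  let H : SimpleGraph (A → V) :=
    { Adj := fun f g => ∀ x y, G.Adj x y → M.Adj (f x) (g y)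
      symm := ⟨fun f g h x y hxy => (h y x hxy.symm).symm⟩
      loopless := ⟨fun f h => hGM ⟨⟨f, fun {x y} hxy => h x y hxy⟩⟩⟩ }
  obtain ⟨ψ⟩ := (hm A (A → V) G H ⟨⟨fun p => p.2 p.1, fun {p q} h => h.2 _ _ h.1⟩⟩).resolve_left hGM
  let σ : M →g M := ⟨fun a => ψ (fun _ => a), fun {a b} h => ψ.map_rel fun _ _ _ => h⟩
  let τ : Equiv.Perm V := Equiv.ofBijective σ ((Finite.injective_iff_bijective).1 (hM σ))
  have hp : ∀ n : ℕ, ∀ a b, M.Adj a b → M.Adj ((τ ^ n) a) ((τ ^ n) b) := by
    intro n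
    induction n with
    | zero => intro a b h; simpa using h
    | succ n ih =>
      intro a b h
      rw [pow_succ]
      exact ih _ _ (σ.map_rel h)
  have h0 : 0 < orderOf τ := orderOf_pos τ
  refine ⟨fun f => (τ ^ (orderOf τ - 1)) (ψ f), fun a => ?_, fun f g h => hp _ _ _ (ψ.map_rel h)⟩
  have : (τ ^ (orderOf τ - 1) * τ) a = a := by
    rw [← pow_succ, Nat.sub_add_cancel h0, pow_orderOf_eq_one]; rfl
  exact this

open Classical in
/-- The engine. -/
theorem engine [Finite V] {M : SimpleGraph V} (hM : IsCore M) (r : ℕ)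
    (hR : ∀ β, Chain M β → (∀ i ≤ r, Indep M (β i)) → Small M (β 0))
    (hU : ∀ β, Chain M β → (∀ i ≤ r, Split M (β i)) → Small M (β 0))
    {a0 b0 c0 : V} (hab : a0 ≠ b0) (ha : M.Adj a0 c0) (hb : M.Adj b0 c0) :
    ¬ Multiplicative M := by
  intro hm
  obtain ⟨m, hw⟩ := exists_wide (Nat.card V)
  obtain ⟨A, _, G, B, hG, hcov, hstep, hind⟩ := hw (r + m * (r + 2))
  obtain ⟨φ, hid, hφ⟩ := exists_phi hM hm G hG
  let β : (ℕ → Set A) → ℕ → V → V → V := fun X i a b => φ fun x => if x ∈ X i then b else a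
  let St : (ℕ → Set A) → Prop := fun X => ∀ i x y, x ∈ X i → G.Adj x y → y ∈ X (i + 1)
  have hch : ∀ X, St X → Chain M (β X) := fun X hX => ⟨fun i a => by simp [β, hid],
    fun i a b e d h1 h2 h3 => hφ _ _ fun x y hxy => by
      by_cases hx : x ∈ X i
      · simp [hx, hX i x y hx hxy, h3]
      · by_cases hy : y ∈ X (i + 1) <;> simp [hx, hy, h1, h2]⟩
  have hB : ∀ j i, i ≤ m * (r + 2) → Small M (β (B j) i) := fun j i hi =>
    hR _ ((hch _ (hstep j)).shift i) fun i' hi' a b c d h1 h2 h3 => hφ _ _ fun x y hxy => by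
      by_cases hx : x ∈ B j (i + i') <;> by_cases hy : y ∈ B j (i + i')
      · exact absurd hxy (hind j _ (by omega) x y hx hy)
      all_goals simp [hx, hy, h1, h2, h3]
  have hsplit : ∀ X Y, St X → St Y → ∀ i, Small M (β X (i + 2)) → Small M (β Y (i + 2)) →
      Split M (β (fun i => X i ∪ Y i) i) := by
    intro X Y hX hY i sX sY a b e c d h1 h2 h3 h4 h5
    refine ⟨φ fun x => if x ∈ X (i + 1) then c else if x ∈ Y (i + 1) then d else e,
      hφ _ _ fun x y hxy => ?_, fun u he hc => ?_, fun u he hd => ?_⟩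
    · by_cases hx : x ∈ X i ∪ Y i
      · rw [if_pos hx]
        by_cases hy : y ∈ X (i + 1)
        · rwa [if_pos hy]
        · rcases hx with hx | hx
          · exact absurd (hX i x y hx hxy) hy
          · rwa [if_neg hy, if_pos (hY i x y hx hxy)]
      · rw [if_neg hx]
        split_ifs <;> assumption
    · rw [← sY u a e he.symm h1]
      refine hφ _ _ fun x y hxy => ?_
      by_cases hy : y ∈ Y (i + 2)
      · rw [if_pos hy]
        split_ifs
        exacts [h2.symm, h3.symm, h1.symm]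
      · rw [if_neg hy]
        split_ifs with k1 k2
        exacts [hc, absurd (hY _ x y k2 hxy) hy, he]
    · rw [← sX u a e he.symm h1]
      refine hφ _ _ fun x y hxy => ?_
      by_cases hy : y ∈ X (i + 2)
      · rw [if_pos hy]
        split_ifs
        exacts [h2.symm, h3.symm, h1.symm]
      · rw [if_neg hy]
        split_ifs with k1 k2
        exacts [absurd (hX _ x y k1 hxy) hy, hd, he]
  have key : ∀ k ≤ m, ∃ X, St X ∧ (∀ j : Fin m, (j : ℕ) < k → B j 0 ⊆ X 0) ∧
      ∀ i, i + k * (r + 2) ≤ m * (r + 2) → Small M (β X i) := by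
    intro k
    induction k with
    | zero =>
      exact fun _ => ⟨fun _ => ∅, fun _ _ _ h => h.elim, fun j h => absurd h (by omega),
        fun i _ a b c _ _ => by simp [β, hid]⟩
    | succ k ih =>
      intro hk
      obtain ⟨X, hX, hsub, hs⟩ := ih (by omega)
      have hXY : St fun i => X i ∪ B ⟨k, hk⟩ i := fun i x y hx hxy =>
        hx.imp (fun h => hX i x y h hxy) (fun h => hstep _ i x y h hxy)
      refine ⟨_, hXY, fun j hj x hx => ?_, fun i hi => ?_⟩
      · by_cases e : (j : ℕ) = k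
        · exact Or.inr (by rwa [show (⟨k, hk⟩ : Fin m) = j from Fin.ext e.symm])
        · exact Or.inl (hsub j (by omega) hx)
      · rw [Nat.add_mul] at hi
        exact hU _ ((hch _ hXY).shift i) fun i' hi' =>
          hsplit X _ hX (hstep _) _ (hs _ (by omega)) (hB _ _ (by omega))
  obtain ⟨X, -, hsub, hs⟩ := key m le_rfl
  have h1 := hs 0 (by omega) a0 b0 c0 ha hb
  have h2 : ∀ x, x ∈ X 0 := fun x => by
    obtain ⟨j, hj⟩ := hcov x
    exact hsub j j.2 hj
  simp only [β, h2, if_true, hid] at h1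
  exact hab h1.symm

/-- Every finite graph has an endomorphism whose image induces a core. -/
theorem exists_core [Finite V] (M : SimpleGraph V) :
    ∃ ρ : M →g M, IsCore (M.induce (Set.range ρ)) := by
  classical
  have hex : ∃ n, ∃ ρ : M →g M, (Set.range ρ).ncard = n := ⟨_, RelHom.id _, rfl⟩
  obtain ⟨ρ, hρ⟩ := Nat.find_spec hex
  refine ⟨ρ, fun σ => ?_⟩
  let τ : M →g M := ⟨fun v => (σ ⟨ρ v, v, rfl⟩).1, fun {a b} h =>
    σ.map_rel (a := ⟨ρ a, a, rfl⟩) (b := ⟨ρ b, b, rfl⟩) (ρ.map_rel h)⟩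
  have h1 : (Set.range ρ).ncard ≤ (Set.range τ).ncard := hρ ▸ Nat.find_min' hex ⟨τ, rfl⟩
  have h2 : Set.range τ = Set.range ρ := Set.eq_of_subset_of_ncard_le
    (by rintro _ ⟨v, rfl⟩; exact (σ ⟨ρ v, v, rfl⟩).2) h1
  refine Finite.injective_iff_surjective.2 fun w => ?_
  obtain ⟨v, hv⟩ : w.1 ∈ Set.range τ := by rw [h2]; exact w.2
  exact ⟨⟨ρ v, v, rfl⟩, Subtype.ext hv⟩

theorem IsCore.stiff {M : SimpleGraph V} (hM : IsCore M) {a b : V}
    (h : ∀ u, M.Adj a u → M.Adj b u) : b = a := by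
  classical
  let f : M →g M := ⟨fun x => if x = a then b else x, fun {x y} hxy => by
    by_cases hx : x = a
    · subst hx
      simpa [hxy.ne'] using h y hxy
    · by_cases hy : y = a
      · subst hy
        simpa [hx] using (h x hxy.symm).symm
      · simpa [hx, hy] using hxy⟩
  refine hM f (?_ : (if b = a then b else b) = if a = a then b else a)
  simp

end Pool.Agent.Lib.NMX
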