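import Pool.Agent.Lib.NMX.AABlock
import Pool.Agent.Lib.NMX.Engine

set_option autoImplicit false

namespace Pool.Agent.Lib.NMX.AA

open MeasureTheory unitInterval Finset

/-- A finite graph that is not a core has a proper retraction. -/
theorem exists_retraction {V : Type} [Finite V] {M : SimpleGraph V} (h : ¬ IsCore M) :
    ∃ f : V → V, (∀ v, f (f v) = f v) ∧ f ≠ id ∧ ∀ a b, M.Adj a b → M.Adj (f a) (f b) := by
  simp only [IsCore, not_forall] at h
  obtain ⟨g, hg⟩ := h
  have it : ∀ n : ℕ, ∀ a b, M.Adj a b → M.Adj (g^[n] a) (g^[n] b) := fun n => by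
    induction n with
    | zero => exact fun _ _ h => h
    | succ n ih => exact fun a b h => ih _ _ (g.map_rel h)
  obtain ⟨i, j, hij, e⟩ : ∃ i j : ℕ, i < j ∧ (g : V → V)^[i + 1] = g^[j + 1] := by
    obtain ⟨i, j, h1, h2⟩ := Finite.exists_ne_map_eq_of_infinite fun i : ℕ => (g : V → V)^[i + 1]
    rcases lt_or_gt_of_ne h1 with k | k
    exacts [⟨i, j, k, h2⟩, ⟨j, i, k, h2.symm⟩]
  obtain ⟨d, rfl⟩ := Nat.exists_eq_add_of_lt hij
  have per : ∀ c m : ℕ, (g : V → V)^[m + (i + 1) + c * (d + 1)] = g^[m + (i + 1)] := fun c m => by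
    induction c with
    | zero => simp
    | succ c ih =>
      rw [← ih, show m + (i + 1) + (c + 1) * (d + 1) = m + c * (d + 1) + (i + d + 1 + 1) by ring,
        Function.iterate_add, ← e, ← Function.iterate_add]
      congr 1
      ring
  refine ⟨g^[(i + 1) * (d + 1)], fun v => ?_, fun k => hg ?_, it _⟩
  · have := per (i + 1) ((i + 1) * d)
    rw [show (i + 1) * d + (i + 1) = (i + 1) * (d + 1) by ring] at this
    rw [← Function.iterate_add_apply, this]
  · rw [show (i + 1) * (d + 1) = (i * (d + 1) + d) + 1 by ring, Function.iterate_succ] at k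
    exact Function.LeftInverse.injective (congrFun k)

theorem sq_le_pairs {n : ℕ} (f : Fin n → Fin n) (hf : ∀ v, f (f v) = f v) :
    #{v | f v ≠ v} ^ 2 ≤ #(({v | f v ≠ v} : Finset (Fin n)).image f) *
      (2 * #{x : Fin n × Fin n | x.1 < x.2 ∧ f x.1 = f x.2}) := by
  set S : Finset (Fin n) := {v | f v ≠ v} with hS
  have h1 : #S = ∑ u ∈ S.image f, #{v ∈ S | f v = u} := card_eq_sum_card_image f S
  have h2 : #{x ∈ S ×ˢ S | f x.1 = f x.2} = ∑ u ∈ S.image f, #{v ∈ S | f v = u} ^ 2 := by
    rw [card_eq_sum_card_fiberwise (f := fun x => f x.1) (t := S.image f)]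
    · refine sum_congr rfl fun u _ => ?_
      rw [sq, ← card_product]
      congr 1
      ext x
      simp only [mem_filter, mem_product]
      constructor
      · rintro ⟨⟨⟨a, b⟩, c⟩, d⟩
        exact ⟨⟨a, d⟩, b, c ▸ d⟩
      · rintro ⟨⟨a, d⟩, b, c⟩
        exact ⟨⟨⟨a, b⟩, d.trans c.symm⟩, d⟩
    · intro x hx
      simp only [coe_filter, mem_product, Set.mem_ofPred_eq] at hx
      exact mem_coe.2 (mem_image_of_mem f hx.1.1)
  have h3 : #{x ∈ S ×ˢ S | f x.1 = f x.2} ≤ #{x : Fin n × Fin n | x.1 ≠ x.2 ∧ f x.1 = f x.2} := by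
    refine card_le_card_of_injOn (fun x => if x.1 = x.2 then (x.1, f x.1) else x) ?_ ?_
    · intro x hx
      simp only [coe_filter, mem_product, Set.mem_ofPred_eq, hS, mem_filter, mem_univ,
        true_and] at hx ⊢
      split_ifs with k
      · exact ⟨hx.1.1.symm, (hf _).symm⟩
      · exact ⟨k, hx.2⟩
    · intro x hx y hy e
      simp only [coe_filter, mem_product, Set.mem_ofPred_eq, hS, mem_filter, mem_univ,
        true_and] at hx hy
      simp only at e
      split_ifs at e with k1 k2 k2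
      · have := (Prod.ext_iff.1 e).1
        exact Prod.ext this (k1 ▸ k2 ▸ this)
      · exact absurd (by rw [← e]; exact hf _) hy.1.2
      · exact absurd (by rw [e]; exact hf _) hx.1.2
      · exact e
  have h4 : #{x : Fin n × Fin n | x.1 ≠ x.2 ∧ f x.1 = f x.2} ≤
      2 * #{x : Fin n × Fin n | x.1 < x.2 ∧ f x.1 = f x.2} := by
    set P : Finset (Fin n × Fin n) := {x | x.1 < x.2 ∧ f x.1 = f x.2} with hP
    refine le_trans (card_le_card (t := P ∪ P.image Prod.swap) fun x hx => ?_)
      (le_trans (card_union_le _ _) (by have := card_image_le (s := P) (f := Prod.swap); omega))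
    simp only [mem_filter, mem_univ, true_and] at hx
    rcases lt_or_gt_of_ne hx.1 with k | k
    · exact mem_union_left _ (by simp [hP, k, hx.2])
    · exact mem_union_right _ (mem_image.2 ⟨x.swap, by simp [hP, k, hx.2], rfl⟩)
  calc #S ^ 2 = (∑ u ∈ S.image f, #{v ∈ S | f v = u}) ^ 2 := by rw [← h1]
    _ ≤ #(S.image f) * ∑ u ∈ S.image f, #{v ∈ S | f v = u} ^ 2 := sq_sum_le_card_mul_sum_sq
    _ ≤ _ := Nat.mul_le_mul_left _ (h2 ▸ h3.trans h4)

theorem probA {n : ℕ} (p : I) (f : Fin n → Fin n) :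
    (SimpleGraph.binomialRandom (Fin n) p).real {M | ∀ a b, M.Adj a b → M.Adj (f a) (f b)} ≤
      Real.exp (-(p * #{x : Fin n × Fin n | x.1 < x.2 ∧ f x.1 = f x.2})) := by
  have := block (κ := Unit) p ({x | x.1 < x.2 ∧ f x.1 = f x.2} : Finset (Fin n × Fin n))
    (fun x _ => s(x.1, x.2)) (fun x hx y hy _ _ e => ⟨by
      simp only [mem_filter, mem_univ, true_and] at hx hy
      rcases Sym2.eq_iff.1 e with k | k
      · exact Prod.ext k.1 k.2
      · exact absurd (hx.1.trans (k.1 ▸ k.2 ▸ hy.1)) (lt_irrefl _), rfl⟩)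
    (fun x hx _ k => by
      simp only [mem_filter, mem_univ, true_and] at hx
      exact hx.1.ne (Sym2.mk_isDiag_iff.1 k)) (fun _ => True)
    {M | ∀ a b, M.Adj a b → M.Adj (f a) (f b)} (fun M hM x hx k => by
      simp only [mem_filter, mem_univ, true_and] at hx
      exact (hM _ _ ((k ()).2 trivial)).ne hx.2)
  simpa using this

theorem probB {n : ℕ} (p : I) (f : Fin n → Fin n) (hf : ∀ v, f (f v) = f v) (T : Finset (Fin n))
    (hT : T ⊆ ({v | f v ≠ v} : Finset (Fin n)).image f) :
    (SimpleGraph.binomialRandom (Fin n) p).real {M | ∀ a b, M.Adj a b → M.Adj (f a) (f b)} ≤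
      Real.exp (-(p * (1 - p) * (#T * #(({v | f v = v} : Finset (Fin n)) \ T)))) := by
  have hg : ∀ u, ∃ v, u ∈ T → f v ≠ v ∧ f v = u := fun u => by
    by_cases h : u ∈ T
    · obtain ⟨v, h1, h2⟩ := mem_image.1 (hT h)
      exact ⟨v, fun _ => ⟨(mem_filter.1 h1).2, h2⟩⟩
    · exact ⟨u, fun k => absurd k h⟩
  choose g hg using hg
  have hR : ∀ u ∈ T, f u = u := fun u h => by rw [← (hg u h).2, hf]
  have := block (κ := Bool) p (T ×ˢ (({v | f v = v} : Finset (Fin n)) \ T))
    (fun x j => s(if j then g x.1 else x.1, x.2)) (fun x hx y hy j j' e => by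
      simp only [mem_product, mem_sdiff, mem_filter, mem_univ, true_and] at hx hy
      have a1 := hg _ hx.1
      have a2 := hg _ hy.1
      have a3 := hR _ hx.1
      have a4 := hR _ hy.1
      rcases Sym2.eq_iff.1 e with k | k
      · cases j <;> cases j' <;> simp only [if_true, if_false, Bool.false_eq_true] at k
        · exact ⟨Prod.ext k.1 k.2, rfl⟩
        · exact absurd (k.1 ▸ a3) a2.1
        · exact absurd (k.1.symm ▸ a4) a1.1
        · exact ⟨Prod.ext (by rw [← a1.2, k.1, a2.2]) k.2, rfl⟩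
      · cases j <;> simp only [if_true, if_false, Bool.false_eq_true] at k
        · exact absurd (k.1 ▸ hx.1) hy.2.2
        · exact absurd (k.1.symm ▸ hy.2.1) a1.1)
    (fun x hx j k => by
      simp only [mem_product, mem_sdiff, mem_filter, mem_univ, true_and] at hx
      have k' := Sym2.mk_isDiag_iff.1 k
      cases j <;> simp only [if_true, if_false, Bool.false_eq_true] at k'
      · exact hx.2.2 (k' ▸ hx.1)
      · exact (hg _ hx.1).1 (k'.symm ▸ hx.2.1)) (fun j => j = true)
    {M | ∀ a b, M.Adj a b → M.Adj (f a) (f b)} (fun M hM x hx k => by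
      simp only [mem_product, mem_sdiff, mem_filter, mem_univ, true_and] at hx
      have h1 := hM _ _ ((k true).2 rfl)
      simp only [if_true] at h1
      rw [(hg _ hx.1).2, hx.2.1] at h1
      exact absurd ((k false).1 h1) (by simp))
  simpa using this

/-- A fixed proper retraction moving `k` vertices is a homomorphism with probability at most
`n ^ (-3 k)`. -/
theorem prob_retraction {n : ℕ} (p : I) (hL : 1 ≤ Real.log n)
    (hp : 1008 * Real.log n ^ 3 ≤ n * (p : ℝ) ^ 3 * (1 - p)) (f : Fin n → Fin n)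
    (hf : ∀ v, f (f v) = f v) :
    (SimpleGraph.binomialRandom (Fin n) p).real {M | ∀ a b, M.Adj a b → M.Adj (f a) (f b)} ≤
      Real.exp (-(3 * Real.log n)) ^ #{v | f v ≠ v} := by
  rw [← Real.exp_nat_mul]
  set L := Real.log n
  have p0 : (0 : ℝ) ≤ p := p.2.1
  have p1 : (p : ℝ) ≤ 1 := p.2.2
  set k := #{v | f v ≠ v} with hk
  set t := #(({v | f v ≠ v} : Finset (Fin n)).image f) with ht
  set r := #{v | f v = v} with hr
  rcases Nat.eq_zero_or_pos k with k0 | k0
  · rw [k0]
    simp
  have k0' : (0 : ℝ) < k := by exact_mod_cast k0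
  by_cases hc : 6 * L * t ≤ p * k
  · refine (probA p f).trans (Real.exp_le_exp.2 ?_)
    have h1 : (k : ℝ) ^ 2 ≤ t * (2 * #{x : Fin n × Fin n | x.1 < x.2 ∧ f x.1 = f x.2}) := by
      exact_mod_cast sq_le_pairs f hf
    generalize (#{x : Fin n × Fin n | x.1 < x.2 ∧ f x.1 = f x.2} : ℕ) = N at h1 ⊢
    have N0 : (0 : ℝ) ≤ N := N.cast_nonneg
    have : k * (k * (3 * L)) ≤ k * (p * N) := by nlinarith [mul_le_mul_of_nonneg_right hc N0]
    linarith [le_of_mul_le_mul_left this k0']
  · push Not at hc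
    have sub : ({v | f v ≠ v} : Finset (Fin n)).image f ⊆ ({v | f v = v} : Finset (Fin n)) :=
      fun u hu => by
        obtain ⟨v, -, rfl⟩ := mem_image.1 hu
        simp [hf]
    have tr : (t : ℝ) ≤ r := by exact_mod_cast card_le_card sub
    have hn : (n : ℝ) = r + k := by
      have := card_filter_add_card_filter_not (s := (univ : Finset (Fin n))) fun v => f v = v
      simp only [card_univ, Fintype.card_fin] at this
      exact_mod_cast this.symm
    have r0 : (0 : ℝ) ≤ r := r.cast_nonneg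
    have h1 : (p : ℝ) * n ≤ 7 * L * r := by rw [hn]; nlinarith
    have n0 : (0 : ℝ) ≤ n := n.cast_nonneg
    have h2 : n * (p : ℝ) ^ 3 * (1 - p) ≤ p * n := by
      have : (p : ℝ) ^ 2 * (1 - p) ≤ 1 := by nlinarith
      nlinarith [mul_nonneg p0 n0]
    have r2 : 2 ≤ r := by
      have : 7 * L * 2 ≤ 7 * L * r := by nlinarith [one_le_pow₀ (n := 2) hL]
      exact_mod_cast le_of_mul_le_mul_left this (by linarith)
    obtain ⟨T, hT, cT⟩ := exists_subset_card_eq (s := ({v | f v ≠ v} : Finset (Fin n)).image f)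
      (n := (t + 1) / 2) (by have : 0 < t := by
                                by_contra z
                                rw [show t = 0 by omega, Nat.cast_zero] at hc
                                nlinarith [mul_nonneg p0 k0'.le]
                             omega)
    refine (probB p f hf T hT).trans (Real.exp_le_exp.2 ?_)
    have tr' : t ≤ r := by exact_mod_cast tr
    have c1 : (t : ℝ) ≤ 2 * #T := by exact_mod_cast (by omega : t ≤ 2 * #T)
    have c2 : (r : ℝ) ≤ 4 * #(({v | f v = v} : Finset (Fin n)) \ T) := by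
      have := card_sdiff_of_subset (hT.trans sub)
      exact_mod_cast (by omega : r ≤ 4 * #(({v | f v = v} : Finset (Fin n)) \ T))
    generalize (#(({v | f v = v} : Finset (Fin n)) \ T) : ℕ) = W at c2 ⊢
    generalize (#T : ℕ) = U at c1 ⊢
    have U0 : (0 : ℝ) ≤ U := U.cast_nonneg
    have a1 : (p : ℝ) * k ≤ 12 * L * U := by nlinarith
    have a2 : (p : ℝ) * n ≤ 28 * L * W := by nlinarith
    have a3 : (p : ℝ) * k * (p * n) ≤ 12 * L * U * (28 * L * W) :=
      mul_le_mul a1 a2 (mul_nonneg p0 n0) (by positivity)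
    have a4 := mul_le_mul_of_nonneg_left a3 (mul_nonneg p0 (sub_nonneg.2 p1))
    have a5 := mul_le_mul_of_nonneg_left hp k0'.le
    have : 336 * L ^ 2 * (k * (3 * L)) ≤ 336 * L ^ 2 * (p * (1 - p) * (U * W)) := by nlinarith
    linarith [le_of_mul_le_mul_left this (by positivity)]

theorem prob_not_core_of {n : ℕ} (p : I) (hL : 1 ≤ Real.log n)
    (hp : ∀ f : Fin n → Fin n, (∀ v, f (f v) = f v) →
      (SimpleGraph.binomialRandom (Fin n) p).real {M | ∀ a b, M.Adj a b → M.Adj (f a) (f b)} ≤
        Real.exp (-(3 * Real.log n)) ^ #{v | f v ≠ v}) :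
    (SimpleGraph.binomialRandom (Fin n) p).real {M | ¬ IsCore M} ≤ Real.exp (1 / n) - 1 := by
  classical
  set x := Real.exp (-(3 * Real.log n)) with hx
  have n0 : (0 : ℝ) < n := by
    rcases Nat.eq_zero_or_pos n with h | h
    · rw [h] at hL; norm_num at hL
    · exact_mod_cast h
  have hx' : x = 1 / n ^ 3 := by
    rw [hx, Real.exp_neg, show 3 * Real.log n = (3 : ℕ) * Real.log n by norm_num,
      Real.exp_nat_mul, Real.exp_log n0, one_div]
  have x0 : 0 ≤ x := (Real.exp_pos _).le
  let F : Finset (Fin n → Fin n) := {f | (∀ v, f (f v) = f v) ∧ f ≠ id}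
  have h1 : {M : SimpleGraph (Fin n) | ¬ IsCore M} ⊆
      ⋃ f ∈ F, {M | ∀ a b, M.Adj a b → M.Adj (f a) (f b)} := fun M hM => by
    obtain ⟨f, a, b, c⟩ := exists_retraction hM
    exact Set.mem_biUnion (mem_coe.2 (mem_filter.2 ⟨mem_univ f, a, b⟩)) c
  have h2 : ∑ f : Fin n → Fin n, x ^ #{v | f v ≠ v} ≤ Real.exp (1 / n) := by
    have e1 : ∀ f : Fin n → Fin n, x ^ #{v | f v ≠ v} = ∏ v, if f v ≠ v then x else 1 :=
      fun f => by rw [prod_ite]; simp
    simp only [e1]
    rw [← Fintype.piFinset_univ, ← prod_univ_sum (fun _ => univ)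
      fun v u : Fin n => if u ≠ v then x else 1]
    have e2 : ∀ v : Fin n, ∑ u : Fin n, (if u ≠ v then x else 1) ≤ Real.exp (1 / n ^ 2) :=
      fun v => by
        have : ∑ u : Fin n, (if u ≠ v then x else 1) ≤
            ∑ u : Fin n, (x + if u = v then 1 else 0) :=
          sum_le_sum fun u _ => by by_cases h : u = v <;> simp [h, x0]
        rw [sum_add_distrib, sum_ite_eq'] at this
        simp only [sum_const, card_univ, Fintype.card_fin, nsmul_eq_mul, mem_univ, if_true] at this
        refine this.trans (le_trans (le_of_eq ?_) (Real.add_one_le_exp _))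
        rw [hx']; field_simp
    refine le_trans (prod_le_prod (fun v _ => sum_nonneg fun u _ => by split_ifs <;> positivity)
      fun v _ => e2 v) (le_of_eq ?_)
    rw [prod_const, card_univ, Fintype.card_fin, ← Real.exp_nat_mul]
    congr 1
    field_simp
  have h3 : ∑ f ∈ F, x ^ #{v | f v ≠ v} ≤ ∑ f ∈ univ.erase id, x ^ #{v | f v ≠ v} :=
    sum_le_sum_of_subset_of_nonneg (fun f hf => mem_erase.2 ⟨(mem_filter.1 hf).2.2, mem_univ f⟩)
      fun _ _ _ => pow_nonneg x0 _
  have h4 := add_sum_erase univ (fun f : Fin n → Fin n => x ^ #{v | f v ≠ v}) (mem_univ id)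
  simp only [id, ne_eq, not_true_eq_false, filter_false, card_empty, pow_zero] at h4
  refine (measureReal_mono h1 (measure_ne_top _ _)).trans ((measureReal_biUnion_finset_le _ _).trans ?_)
  refine (sum_le_sum fun f hf => hp f (mem_filter.1 hf).2.1).trans ?_
  simp only [ne_eq] at h2 h3 ⊢
  linarith

/-- The binomial random graph is a core with high probability. -/
theorem prob_not_core {n : ℕ} (p : I) (hL : 1 ≤ Real.log n)
    (hp : 1008 * Real.log n ^ 3 ≤ n * (p : ℝ) ^ 3 * (1 - p)) :
    (SimpleGraph.binomialRandom (Fin n) p).real {M | ¬ IsCore M} ≤ Real.exp (1 / n) - 1 :=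
  prob_not_core_of p hL (prob_retraction p hL hp)

end Pool.Agent.Lib.NMX.AA
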