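import Mathlib

set_option autoImplicit false

namespace Pool.Agent.Lib.NMX.AA

open MeasureTheory Measure ProbabilityTheory unitInterval Finset

variable {V : Type}

/-- probability in the binomial random graph -/
noncomputable def Pr (p : I) (S : Set (SimpleGraph V)) : ℝ :=
  (SimpleGraph.binomialRandom V p).real S

/-- the event `S` only depends on the pairs in `D` -/
def Dep (D : Set (Sym2 V)) (S : Set (SimpleGraph V)) : Prop :=
  ∀ M M' : SimpleGraph V, (∀ e ∈ D, e ∈ M.edgeSet ↔ e ∈ M'.edgeSet) → M ∈ S → M' ∈ S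

theorem Dep.mono {D D' : Set (Sym2 V)} {S : Set (SimpleGraph V)} (h : Dep D S) (k : D ⊆ D') :
    Dep D' S := fun M M' e => h M M' fun x hx => e x (k hx)

theorem Dep.compl {D : Set (Sym2 V)} {S : Set (SimpleGraph V)} (h : Dep D S) : Dep D Sᶜ :=
  fun M M' e k k' => k (h M' M (fun x hx => (e x hx).symm) k')

theorem Dep.inter {D : Set (Sym2 V)} {S S' : Set (SimpleGraph V)} (h : Dep D S) (h' : Dep D S') :
    Dep D (S ∩ S') := fun M M' e k => ⟨h M M' e k.1, h' M M' e k.2⟩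

theorem dep_edge (e : Sym2 V) : Dep {e} {M | e ∈ M.edgeSet} := fun _ _ h k => (h e rfl).1 k

theorem Pr_nonneg (p : I) (S : Set (SimpleGraph V)) : 0 ≤ Pr p S := measureReal_nonneg

variable [Finite V] {p : I}

theorem meas (S : Set (SimpleGraph V)) : MeasurableSet S := by
  have : MeasurableSingletonClass (SimpleGraph V) := ⟨fun G => by
    have := SimpleGraph.measurableEmbedding_edgeSet.measurable
      (MeasurableSet.of_discrete (s := {G.edgeSet}))
    rwa [show SimpleGraph.edgeSet ⁻¹' {G.edgeSet} = {G} by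
      ext x; simp] at this⟩
  exact .of_discrete

theorem Pr_mono {S T : Set (SimpleGraph V)} (h : S ⊆ T) : Pr p S ≤ Pr p T :=
  measureReal_mono h (measure_ne_top _ _)

theorem Pr_le_one (S : Set (SimpleGraph V)) : Pr p S ≤ 1 := measureReal_le_one

theorem Pr_univ : Pr p (Set.univ : Set (SimpleGraph V)) = 1 := by simp [Pr]

theorem Pr_compl (S : Set (SimpleGraph V)) : Pr p Sᶜ = 1 - Pr p S :=
  probReal_compl_eq_one_sub (meas S)

omit [Finite V] in
theorem Pr_union (S T : Set (SimpleGraph V)) : Pr p (S ∪ T) ≤ Pr p S + Pr p T :=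
  measureReal_union_le _ _

/-- union bound -/
theorem Pr_le_sum {ι : Type} (s : Finset ι) (S : Set (SimpleGraph V)) (T : ι → Set (SimpleGraph V))
    (h : ∀ M ∈ S, ∃ i ∈ s, M ∈ T i) : Pr p S ≤ ∑ i ∈ s, Pr p (T i) :=
  (Pr_mono fun M hM => by simpa using h M hM).trans (measureReal_biUnion_finset_le s T)

theorem Pr_le_card {ι : Type} (s : Finset ι) (S : Set (SimpleGraph V))
    (T : ι → Set (SimpleGraph V)) (c : ℝ) (h : ∀ M ∈ S, ∃ i ∈ s, M ∈ T i)
    (hc : ∀ i ∈ s, Pr p (T i) ≤ c) : Pr p S ≤ #s * c :=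
  (Pr_le_sum s S T h).trans ((sum_le_card_nsmul _ _ _ hc).trans (by simp))

theorem Pr_eq (S : Set (SimpleGraph V)) : Pr p S = (infinitePi fun e : Sym2 V =>
    toNNReal p • (dirac (e ∈ Sym2.diagSetᶜ) : Measure Prop) + toNNReal (σ p) • dirac False).real
    {x | SimpleGraph.fromEdgeSet {e | x e} ∈ S} := by
  rw [Pr, measureReal_def, SimpleGraph.binomialRandom_eq_map,
    map_apply SimpleGraph.measurable_fromEdgeSet (meas S), setBernoulli_apply', measureReal_def]
  rfl

theorem Pr_edge {e : Sym2 V} (he : ¬ e.IsDiag) : Pr p {M | e ∈ M.edgeSet} = p := by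
  have : {x : Sym2 V → Prop | SimpleGraph.fromEdgeSet {e | x e} ∈ {M | e ∈ M.edgeSet}} =
      Set.pi ({e} : Finset (Sym2 V)) fun _ => {True} := by
    ext x
    simp [he]
  rw [Pr_eq, this, measureReal_def, infinitePi_pi _ fun _ _ => .of_discrete]
  simp [he]

theorem Pr_adj {a b : V} (h : a ≠ b) : Pr p {M | M.Adj a b} = p :=
  Pr_edge (e := s(a, b)) (by simpa using h)

theorem indep2 {D D' : Set (Sym2 V)} {S S' : Set (SimpleGraph V)} (h : Dep D S) (h' : Dep D' S')
    (hd : Disjoint D D') : Pr p (S ∩ S') = Pr p S * Pr p S' := by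
  classical
  have key : ∀ (D : Set (Sym2 V)) (S : Set (SimpleGraph V)), Dep D S →
      {x : Sym2 V → Prop | SimpleGraph.fromEdgeSet {e | x e} ∈ S} =
        (fun x (i : D.toFinite.toFinset) => x i) ⁻¹' ((fun x (i : D.toFinite.toFinset) => x i) ''
          {x : Sym2 V → Prop | SimpleGraph.fromEdgeSet {e | x e} ∈ S}) := fun D S h => by
    refine (Set.subset_preimage_image _ _).antisymm ?_
    rintro x ⟨y, hy, e⟩
    refine h _ _ (fun a ha => ?_) hy
    have := congrFun e ⟨a, by simpa using ha⟩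
    simp only at this
    simp [this]
  have ind := (iIndepFun_infinitePi (P := fun e : Sym2 V =>
    toNNReal p • (dirac (e ∈ Sym2.diagSetᶜ) : Measure Prop) + toNNReal (σ p) • dirac False)
    (X := fun _ y => y) fun _ => measurable_id).indepFun_finset D.toFinite.toFinset
    D'.toFinite.toFinset (by simpa using hd) (fun _ => by fun_prop)
  rw [Pr_eq, Pr_eq, Pr_eq, key D S h, key D' S' h', measureReal_def, measureReal_def,
    measureReal_def, ← ENNReal.toReal_mul,
    ← ind.measure_inter_preimage_eq_mul _ _ .of_discrete .of_discrete, ← key D S h, ← key D' S' h']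
  rfl

theorem indep_all {ι : Type} (s : Finset ι) (D : ι → Set (Sym2 V)) (S : ι → Set (SimpleGraph V))
    (h : ∀ i ∈ s, Dep (D i) (S i)) (hd : ∀ i ∈ s, ∀ j ∈ s, i ≠ j → Disjoint (D i) (D j)) :
    Pr p {M | ∀ i ∈ s, M ∈ S i} = ∏ i ∈ s, Pr p (S i) := by
  classical
  induction s using Finset.induction_on with
  | empty => simpa using Pr_univ
  | insert a s ha ih =>
    rw [prod_insert ha, ← ih (fun i hi => h i (mem_insert_of_mem hi))
      (fun i hi j hj => hd i (mem_insert_of_mem hi) j (mem_insert_of_mem hj)),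
      ← indep2 (D' := ⋃ i ∈ s, D i) (h a (mem_insert_self a s))]
    · congr 1
      ext M
      simp
    · exact fun M M' e k i hi => h i (mem_insert_of_mem hi) M M'
        (fun x hx => e x (Set.mem_biUnion hi hx)) (k i hi)
    · simp only [Set.disjoint_iUnion_right]
      exact fun i hi => hd a (mem_insert_self a s) i (mem_insert_of_mem hi) fun k => ha (k ▸ hi)

/-- all pairs of a finite set are edges -/
theorem Pr_all (E : Finset (Sym2 V)) (hE : ∀ e ∈ E, ¬ e.IsDiag) :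
    Pr p {M | ∀ e ∈ E, e ∈ M.edgeSet} = p ^ #E := by
  rw [← prod_const, ← prod_congr rfl fun e he => Pr_edge (p := p) (hE e he)]
  exact indep_all E (fun e => {e}) (fun e => {M | e ∈ M.edgeSet}) (fun e _ => dep_edge e)
    fun i _ j _ k => by simpa using k

theorem Pr_none {ι : Type} (s : Finset ι) (D : ι → Set (Sym2 V)) (S : ι → Set (SimpleGraph V))
    (h : ∀ i ∈ s, Dep (D i) (S i)) (hd : ∀ i ∈ s, ∀ j ∈ s, i ≠ j → Disjoint (D i) (D j))
    (π : ι → ℝ) (hπ : ∀ i ∈ s, π i ≤ Pr p (S i)) :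
    Pr p {M | ∀ i ∈ s, M ∉ S i} ≤ Real.exp (-∑ i ∈ s, π i) := by
  have := indep_all (p := p) s D (fun i => (S i)ᶜ) (fun i hi => (h i hi).compl) hd
  refine this.le.trans ?_
  rw [← sum_neg_distrib, Real.exp_sum]
  refine prod_le_prod (fun i _ => Pr_nonneg _ _) fun i hi => ?_
  rw [Pr_compl]
  linarith [Real.add_one_le_exp (-π i), hπ i hi]

open Classical in
/-- upper tail -/
theorem upper_tail {ι : Type} (s : Finset ι) (D : ι → Set (Sym2 V)) (S : ι → Set (SimpleGraph V))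
    (h : ∀ i ∈ s, Dep (D i) (S i)) (hd : ∀ i ∈ s, ∀ j ∈ s, i ≠ j → Disjoint (D i) (D j))
    (π : ℝ) (π0 : 0 ≤ π) (hπ : ∀ i ∈ s, Pr p (S i) ≤ π) (x : ℝ) :
    Pr p {M | x ≤ #{i ∈ s | M ∈ S i}} ≤ Real.exp (3 * (#s * π) - x) := by
  refine (Pr_le_card (powersetCard ⌈x⌉₊ s) _ (fun T => {M | ∀ i ∈ T, M ∈ S i}) (π ^ ⌈x⌉₊)
    (fun M hM => ?_) fun T hT => ?_).trans ?_
  · obtain ⟨T, h1, h2⟩ := exists_subset_card_eq (s := {i ∈ s | M ∈ S i})
      (Nat.ceil_le.2 (show x ≤ _ from hM))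
    exact ⟨T, mem_powersetCard.2 ⟨h1.trans (filter_subset _ _), h2⟩,
      fun i hi => (mem_filter.1 (h1 hi)).2⟩
  · obtain ⟨h1, h2⟩ := mem_powersetCard.1 hT
    rw [indep_all T D S (fun i hi => h i (h1 hi)) fun i hi j hj => hd i (h1 hi) j (h1 hj), ← h2,
      ← prod_const]
    exact prod_le_prod (fun i _ => Pr_nonneg _ _) fun i hi => hπ i (h1 hi)
  · have h1 : x ≤ ⌈x⌉₊ := Nat.le_ceil x
    generalize ⌈x⌉₊ = j at h1
    rw [card_powersetCard]
    have h2 : ((#s).choose j : ℝ) ≤ (#s) ^ j / j.factorial := Nat.choose_le_pow_div j #s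
    have h3 := Real.pow_div_factorial_le_exp (Real.exp 1 * (#s * π)) (by positivity) j
    have h4 : Real.exp 1 ≤ 3 := Real.exp_one_lt_three.le
    have h5 : Real.exp (Real.exp 1 * (#s * π)) ≤ Real.exp (3 * (#s * π)) :=
      Real.exp_le_exp.2 (mul_le_mul_of_nonneg_right h4 (by positivity))
    have h6 : Real.exp x ≤ Real.exp 1 ^ j := by
      rw [← Real.exp_nat_mul, mul_one]; exact Real.exp_le_exp.2 h1
    rw [Real.exp_sub, le_div_iff₀ (Real.exp_pos x)]
    calc ((#s).choose j : ℝ) * π ^ j * Real.exp x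
        ≤ (#s) ^ j / j.factorial * π ^ j * Real.exp 1 ^ j := by gcongr
      _ = (Real.exp 1 * (#s * π)) ^ j / j.factorial := by rw [mul_pow, mul_pow]; ring
      _ ≤ _ := h3.trans h5

open Classical in
/-- lower tail -/
theorem lower_tail {ι : Type} (s : Finset ι) (D : ι → Set (Sym2 V)) (S : ι → Set (SimpleGraph V))
    (h : ∀ i ∈ s, Dep (D i) (S i)) (hd : ∀ i ∈ s, ∀ j ∈ s, i ≠ j → Disjoint (D i) (D j))
    (π : ℝ) (hπ : ∀ i ∈ s, π ≤ Pr p (S i)) (j : ℕ) (hj : j ≤ #s) :
    Pr p {M | #{i ∈ s | M ∈ S i} ≤ j} ≤ #s ^ j * Real.exp (-(π * (#s - j))) := by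
  refine (Pr_le_card (powersetCard (#s - j) s) _ (fun T => {M | ∀ i ∈ T, M ∉ S i})
    (Real.exp (-(π * (#s - j)))) (fun M hM => ?_) fun T hT => ?_).trans ?_
  · have := card_filter_add_card_filter_not (s := s) fun i => M ∈ S i
    obtain ⟨T, h1, h2⟩ := exists_subset_card_eq (s := {i ∈ s | M ∉ S i}) (n := #s - j)
      (by simp only [Set.mem_ofPred_eq] at hM; omega)
    exact ⟨T, mem_powersetCard.2 ⟨h1.trans (filter_subset _ _), h2⟩,
      fun i hi => (mem_filter.1 (h1 hi)).2⟩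
  · obtain ⟨h1, h2⟩ := mem_powersetCard.1 hT
    refine (Pr_none T D S (fun i hi => h i (h1 hi)) (fun i hi j hj => hd i (h1 hi) j (h1 hj))
      (fun _ => π) fun i hi => hπ i (h1 hi)).trans (le_of_eq ?_)
    rw [sum_const, h2, nsmul_eq_mul, Nat.cast_sub hj, mul_comm]
  · rw [card_powersetCard, Nat.choose_symm hj]
    gcongr
    exact_mod_cast Nat.choose_le_pow _ _

open Classical in
/-- conditioning on the neighbourhood of `z` -/
theorem cond_nbhd [Fintype V] (z : V) (B : Finset V → Set (SimpleGraph V))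
    (h : ∀ Y, Dep {e | z ∉ e} (B Y)) (c : ℝ) (hc : ∀ Y, Pr p (B Y) ≤ c) :
    Pr p {M | M ∈ B {y | M.Adj z y}} ≤ c := by
  let A : Finset V → Set (SimpleGraph V) := fun Y => {M | ({y | M.Adj z y} : Finset V) = Y}
  have hA : ∀ Y, Dep {e | z ∈ e} (A Y) := fun Y M M' e k => by
    rw [← (k : _ = Y)]
    ext y
    simpa using (e s(z, y) (by simp)).symm
  have h1 : ∑ Y, Pr p (A Y) = 1 := by
    rw [← Pr_univ (V := V) (p := p), show (Set.univ : Set (SimpleGraph V)) = ⋃ Y ∈ univ, A Y by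
      ext M; simp [A]]
    refine (measureReal_biUnion_finset (fun Y _ Y' _ k => ?_) (fun _ _ => meas _)).symm
    exact Set.disjoint_left.2 fun M a b => k ((a : _ = Y).symm.trans b)
  refine (Pr_le_sum univ _ (fun Y => A Y ∩ B Y) fun M hM => ⟨_, mem_univ _, rfl, hM⟩).trans ?_
  rw [← one_mul c, ← h1, sum_mul]
  refine sum_le_sum fun Y _ => ?_
  rw [indep2 (hA Y) (h Y) (Set.disjoint_left.2 fun e a b => b a)]
  exact mul_le_mul_of_nonneg_left (hc Y) (Pr_nonneg _ _)

end Pool.Agent.Lib.NMX.AA
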