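import Pool.Agent.Lib.NMX.AASpread
import Pool.Agent.Lib.NMX.AAProb

set_option autoImplicit false

namespace Pool.Agent.Lib.NMX.AA

open unitInterval Finset Classical

variable {n : ℕ} {p : I}

theorem pos_of_log (hL : 1 ≤ Real.log n) : (2 : ℝ) ≤ n := by
  by_contra h
  have : n ≤ 1 := by
    by_contra k
    exact h (by exact_mod_cast (by omega : 2 ≤ n))
  interval_cases n <;> norm_num at hL

theorem pow_mul_exp (hL : 1 ≤ Real.log n) (a : ℕ) {x : ℝ} (h : (a + 1) * Real.log n ≤ x) :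
    (n : ℝ) ^ a * Real.exp (-x) ≤ 1 / n := by
  have n0 : (0 : ℝ) < n := by linarith [pos_of_log hL]
  have : Real.exp (-x) ≤ 1 / n ^ (a + 1) := by
    rw [one_div, ← Real.exp_log (pow_pos n0 (a + 1)), ← Real.exp_neg, Real.log_pow]
    exact Real.exp_le_exp.2 (by push_cast; linarith)
  refine (mul_le_mul_of_nonneg_left this (by positivity)).trans (le_of_eq ?_)
  rw [pow_succ]
  field_simp

theorem exp_inv_le (hL : 1 ≤ Real.log n) : Real.exp (1 / n) ≤ 1 + 2 / n := by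
  have n2 := pos_of_log hL
  have h1 : (1 : ℝ) / n ≤ 1 / 2 := one_div_le_one_div_of_le (by norm_num) n2
  have h0 : (0 : ℝ) ≤ 1 / n := by positivity
  refine (Real.exp_bound_div_one_sub_of_interval h0 (by linarith)).trans ?_
  rw [div_le_iff₀ (by linarith), show (2 : ℝ) / n = 2 * (1 / n) by ring]
  nlinarith

theorem sum_sets (hL : 1 ≤ Real.log n) :
    ∑ S : Finset (Fin n), Real.exp (-(2 * Real.log n * #S)) ≤ 1 + 2 / n := by
  have n0 : (0 : ℝ) < n := by linarith [pos_of_log hL]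
  have e : ∀ S : Finset (Fin n), Real.exp (-(2 * Real.log n * #S)) = ∏ _i ∈ S, 1 / (n : ℝ) ^ 2 :=
    fun S => by
      rw [prod_const, one_div, ← Real.exp_log (pow_pos n0 2), ← Real.exp_neg, Real.log_pow,
        ← Real.exp_nat_mul]
      congr 1; push_cast; ring
  simp only [e]
  rw [← powerset_univ, ← prod_one_add]
  refine (Real.prod_one_add_le_exp_sum _ fun _ => by positivity).trans
    (le_trans (le_of_eq ?_) (exp_inv_le hL))
  rw [sum_const, card_univ, Fintype.card_fin, nsmul_eq_mul]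
  congr 1; field_simp

theorem sum_sets' (hL : 1 ≤ Real.log n) :
    ∑ S ∈ (univ : Finset (Finset (Fin n))).erase ∅, Real.exp (-(2 * Real.log n * #S)) ≤ 2 / n := by
  have h1 := add_sum_erase univ (fun S : Finset (Fin n) => Real.exp (-(2 * Real.log n * #S)))
    (mem_univ ∅)
  have h2 := sum_sets hL
  simp only [card_empty, Nat.cast_zero, mul_zero, neg_zero, Real.exp_zero] at h1
  linarith

theorem dep_adj {V : Type} (a b : V) : Dep {s(a, b)} {M : SimpleGraph V | M.Adj a b} :=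
  dep_edge s(a, b)

theorem Pr_empty {V : Type} {S : Set (SimpleGraph V)} (h : ∀ M, M ∉ S) : Pr p S = 0 := by
  rw [Set.eq_empty_of_forall_notMem h]
  exact MeasureTheory.measureReal_empty

theorem upper' {V ι : Type} [Finite V] (s : Finset ι) (D : ι → Set (Sym2 V))
    (E : ι → Set (SimpleGraph V)) (π x : ℝ) (S : Set (SimpleGraph V))
    (h : ∀ i ∈ s, Dep (D i) (E i)) (hd : ∀ i ∈ s, ∀ j ∈ s, i ≠ j → Disjoint (D i) (D j))
    (π0 : 0 ≤ π) (hπ : ∀ i ∈ s, Pr p (E i) ≤ π)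
    (hS : ∀ M ∈ S, ∃ T ⊆ s, x ≤ #T ∧ ∀ i ∈ T, M ∈ E i) :
    Pr p S ≤ Real.exp (3 * (#s * π) - x) := by
  refine le_trans (Pr_mono fun M hM => ?_) (upper_tail s D E h hd π π0 hπ x)
  obtain ⟨T, h1, h2, h3⟩ := hS M hM
  exact h2.trans (Nat.cast_le.2 (card_le_card fun i hi => mem_filter.2 ⟨h1 hi, h3 i hi⟩))

theorem lower' {V ι : Type} [Finite V] (s : Finset ι) (D : ι → Set (Sym2 V))
    (E : ι → Set (SimpleGraph V)) (π : ℝ) (j : ℕ) (S : Set (SimpleGraph V))
    (h : ∀ i ∈ s, Dep (D i) (E i)) (hd : ∀ i ∈ s, ∀ j ∈ s, i ≠ j → Disjoint (D i) (D j))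
    (hπ : ∀ i ∈ s, π ≤ Pr p (E i)) (hj : j ≤ #s)
    (hS : ∀ M ∈ S, ∃ T : Finset ι, #T ≤ j ∧ ∀ i ∈ s, M ∈ E i → i ∈ T) :
    Pr p S ≤ #s ^ j * Real.exp (-(π * (#s - j))) := by
  refine le_trans (Pr_mono fun M hM => ?_) (lower_tail s D E h hd π hπ j hj)
  obtain ⟨T, h1, h2⟩ := hS M hM
  exact le_trans (card_le_card fun i hi => h2 i (mem_filter.1 hi).1 (mem_filter.1 hi).2) h1

theorem none' {V ι : Type} [Finite V] (s : Finset ι) (D : ι → Set (Sym2 V))
    (E : ι → Set (SimpleGraph V)) (π : ℝ) (S : Set (SimpleGraph V))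
    (h : ∀ i ∈ s, Dep (D i) (E i)) (hd : ∀ i ∈ s, ∀ j ∈ s, i ≠ j → Disjoint (D i) (D j))
    (hπ : ∀ i ∈ s, π ≤ Pr p (E i)) (hS : ∀ M ∈ S, ∀ i ∈ s, M ∉ E i) :
    Pr p S ≤ Real.exp (-(#s * π)) := by
  refine le_trans (Pr_mono hS) ((Pr_none s D E h hd (fun _ => π) hπ).trans (le_of_eq ?_))
  rw [sum_const, nsmul_eq_mul]

/-- no two large sets without an edge between them -/
def XP (p : I) (M : SimpleGraph (Fin n)) : Prop :=
  ∀ S T : Finset (Fin n), Disjoint S T → (∀ a ∈ S, ∀ b ∈ T, ¬ M.Adj a b) → S.Nonempty →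
    (p : ℝ) * (#S * #T) < 2 * Real.log n * (#S + #Tᶜ)

theorem prob_XP (hL : 1 ≤ Real.log n) : Pr p {M : SimpleGraph (Fin n) | ¬ XP p M} ≤ 4 / n := by
  have n2 := pos_of_log hL
  refine (Pr_le_sum ((univ.erase ∅) ×ˢ univ) _ (fun x : Finset (Fin n) × Finset (Fin n) =>
    {M | Disjoint x.1 x.2ᶜ ∧ (∀ a ∈ x.1, ∀ b ∈ x.2ᶜ, ¬ M.Adj a b) ∧
      2 * Real.log n * (#x.1 + #x.2) ≤ p * (#x.1 * #x.2ᶜ)}) fun M hM => ?_).trans
    ((sum_le_sum (g := fun x => Real.exp (-(2 * Real.log n * #x.1)) *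
      Real.exp (-(2 * Real.log n * #x.2))) fun x _ => ?_).trans ?_)
  · simp only [XP, Set.mem_ofPred_eq, not_forall, not_lt] at hM
    obtain ⟨S, T, h1, h2, h3, h4⟩ := hM
    exact ⟨(S, Tᶜ), by simp [h3.ne_empty], by simpa using ⟨h1, h2, h4⟩⟩
  · obtain ⟨S, U⟩ := x
    by_cases h : Disjoint S Uᶜ ∧ 2 * Real.log n * (#S + #U) ≤ p * (#S * #Uᶜ)
    · refine (none' (S ×ˢ Uᶜ) (fun i => {s(i.1, i.2)}) (fun i => {M | M.Adj i.1 i.2}) p _
        (fun i _ => dep_adj _ _) (fun i hi j hj k => ?_) (fun i hi => (Pr_adj ?_).ge)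
        fun M hM i hi => hM.2.1 _ (mem_product.1 hi).1 _ (mem_product.1 hi).2).trans ?_
      · rw [Set.disjoint_singleton]
        intro e
        rcases Sym2.eq_iff.1 e with e | e
        · exact k (Prod.ext e.1 e.2)
        · exact disjoint_left.1 h.1 (mem_product.1 hi).1 (e.1 ▸ (mem_product.1 hj).2)
      · exact fun e => disjoint_left.1 h.1 (mem_product.1 hi).1 (e ▸ (mem_product.1 hi).2)
      · rw [← Real.exp_add, card_product]
        exact Real.exp_le_exp.2 (by push_cast; linarith [h.2])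
    · rw [Pr_empty fun M hM => h ⟨hM.1, hM.2.2⟩]
      positivity
  · rw [sum_product]
    simp only []
    rw [← sum_mul_sum]
    have h1 : (2 : ℝ) / n ≤ 1 := (div_le_one (by linarith)).2 n2
    calc _ ≤ 2 / (n : ℝ) * (1 + 2 / n) := mul_le_mul (sum_sets' hL) (sum_sets hL)
          (sum_nonneg fun _ _ => (Real.exp_pos _).le) (by positivity)
      _ ≤ 2 / n * 2 := by gcongr; linarith
      _ = _ := by ring

theorem XP.nb {M : SimpleGraph (Fin n)} (h : XP p M) {S : Finset (Fin n)} (hS : S.Nonempty) :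
    (p : ℝ) * (#S * (n - #(nb M S))) < 2 * Real.log n * (#S + #(nb M S)) := by
  have := h S (AA.nb M S)ᶜ (disjoint_left.2 fun a ha k => mem_compl.1 k (by simp [AA.nb, ha]))
    (fun a ha b hb k => mem_compl.1 hb (by simpa [AA.nb] using Or.inr ⟨a, ha, k⟩)) hS
  rwa [compl_compl, card_compl, Fintype.card_fin, Nat.cast_sub (card_finset_fin_le _)] at this

theorem XP.exp1 {M : SimpleGraph (Fin n)} (h : XP p M) (hL : 1 ≤ Real.log n) {l : ℕ}
    (hl : 4 * Real.log n * (l + 1) ≤ n * p) : Exp1 M l := fun S => by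
  rcases S.eq_empty_or_nonempty with rfl | hS
  · simp
  by_contra k
  push Not at k
  rw [Fintype.card_fin] at k
  have h1 := h.nb hS
  have k1 : (2 : ℝ) * #(AA.nb M S) ≤ n := by exact_mod_cast k.1.le
  have k2 : (#(AA.nb M S) : ℝ) ≤ l * #S := by exact_mod_cast k.2.le
  have s0 : (0 : ℝ) ≤ #S := Nat.cast_nonneg _
  have a1 := mul_le_mul_of_nonneg_left k1 (mul_nonneg p.2.1 s0)
  have a2 := mul_le_mul_of_nonneg_right hl s0
  nlinarith

theorem XP.exp2 {M : SimpleGraph (Fin n)} (h : XP p M) (hL : 1 ≤ Real.log n) {ς τ : ℕ}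
    (hσ : 0 < ς) (hl : 4 * Real.log n * n ≤ p * (ς * τ)) : Exp2 M ς τ := fun S hS => by
  by_contra k
  rw [Fintype.card_fin] at k
  have h1 := h.nb (card_pos.1 (hS ▸ hσ))
  have k1 : (#(AA.nb M S) : ℝ) + τ ≤ n := by exact_mod_cast (not_le.1 k).le
  have k2 : (#(AA.nb M S) : ℝ) ≤ n := by exact_mod_cast card_finset_fin_le _
  have k3 : (#S : ℝ) ≤ n := by exact_mod_cast card_finset_fin_le _
  rw [← hS] at hl
  have s0 : (0 : ℝ) ≤ #S := Nat.cast_nonneg _
  have a1 := mul_le_mul_of_nonneg_left k1 (mul_nonneg p.2.1 s0)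
  nlinarith

theorem XP.indep {M : SimpleGraph (Fin n)} (h : XP p M) (hL : 1 ≤ Real.log n) {D : ℕ}
    (h1 : 24 * Real.log n * (D + 1) ^ 2 ≤ n * p) (T : Finset (Fin n))
    (hT : ∀ a ∈ T, ∀ b ∈ T, ¬ M.Adj a b) : (D + 1) * #T < Fintype.card (Fin n) := by
  by_contra k
  rw [Fintype.card_fin, not_lt] at k
  have n2 := pos_of_log hL
  have k1 : (n : ℝ) ≤ (D + 1) * #T := by exact_mod_cast k
  have D0 : (0 : ℝ) ≤ D := Nat.cast_nonneg _
  have t2 : 2 ≤ #T := by
    by_contra z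
    have : (#T : ℝ) ≤ 1 := by exact_mod_cast (by omega : #T ≤ 1)
    nlinarith [p.2.2, p.2.1, sq_nonneg (D : ℝ)]
  obtain ⟨S, hS, cS⟩ := exists_subset_card_eq (s := T) (n := #T / 2) (by omega)
  have a1 := h S (T \ S) disjoint_sdiff (fun a ha b hb => hT a (hS ha) b (mem_sdiff.1 hb).1)
    (card_pos.1 (by omega))
  have a2 : (#T : ℝ) ≤ 3 * #S := by exact_mod_cast (by omega : #T ≤ 3 * #S)
  have a3 : (#T : ℝ) ≤ 2 * #(T \ S) := by
    have := card_sdiff_of_subset hS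
    exact_mod_cast (by omega : #T ≤ 2 * #(T \ S))
  have k2 : (#(T \ S)ᶜ : ℝ) ≤ n := by exact_mod_cast card_finset_fin_le _
  have k3 : (#S : ℝ) ≤ n := by exact_mod_cast card_finset_fin_le _
  have a4 : (#T : ℝ) * #T ≤ 3 * #S * (2 * #(T \ S)) :=
    mul_le_mul a2 a3 (Nat.cast_nonneg _) (by positivity)
  have a5 : (n : ℝ) * n ≤ (D + 1) * #T * ((D + 1) * #T) :=
    mul_le_mul k1 k1 (by linarith) (by positivity)
  have a6 : (p : ℝ) * (#T * #T) < 24 * Real.log n * n := by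
    nlinarith [mul_le_mul_of_nonneg_left a4 p.2.1]
  have a7 := mul_lt_mul_of_pos_right a6 (show (0 : ℝ) < (D + 1) ^ 2 by positivity)
  have a8 := mul_le_mul_of_nonneg_left a5 p.2.1
  nlinarith

theorem deg_of_exp1 {V : Type} [Fintype V] {M : SimpleGraph V} {l : ℕ} (h : Exp1 M l)
    (hl : 2 * l ≤ Fintype.card V) (v : V) : l - 1 ≤ #{u | M.Adj v u} := by
  have h1 := nb_le (M := M) {v} {u | M.Adj v u} 0 (by simp)
  have h2 := h {v}
  rw [card_singleton] at h1 h2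
  omega

theorem prob_deg (hL : 1 ≤ Real.log n) {x : ℝ} (hx : 3 * (n * (p : ℝ)) + 2 * Real.log n ≤ x) :
    Pr p {M : SimpleGraph (Fin n) | ∃ v, x ≤ #{u | M.Adj v u}} ≤ 1 / n := by
  refine (Pr_le_card univ _ (fun v : Fin n => {M : SimpleGraph (Fin n) | x ≤ #{u | M.Adj v u}})
    (Real.exp (-(2 * Real.log n))) (fun M hM => hM.imp fun v hv => ⟨mem_univ v, hv⟩)
    fun v _ => ?_).trans ?_
  · refine (upper' (univ.erase v) (fun u => {s(v, u)}) (fun u => {M | M.Adj v u}) p x _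
      (fun u _ => dep_adj _ _) (fun i _ j _ k => ?_) p.2.1
      (fun u hu => (Pr_adj (mem_erase.1 hu).1.symm).le)
      fun M hM => ⟨_, fun u hu => ?_, hM, fun u hu => (mem_filter.1 hu).2⟩).trans
      (Real.exp_le_exp.2 ?_)
    · exact Set.disjoint_singleton.2 fun e => k (Sym2.congr_right.1 e)
    · exact mem_erase.2 ⟨(mem_filter.1 hu).2.ne', mem_univ _⟩
    · have : (#(univ.erase v) : ℝ) ≤ n := by exact_mod_cast card_finset_fin_le _
      nlinarith [p.2.1]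
  · simpa using pow_mul_exp hL 1 (x := 2 * Real.log n) (by norm_num)

theorem card_pairs (s : Finset (Fin n × Fin n)) : (#s : ℝ) ≤ n ^ 2 := by
  have := card_le_univ s
  rw [Fintype.card_prod, Fintype.card_fin, ← sq] at this
  exact_mod_cast this

theorem prob_codeg (hL : 1 ≤ Real.log n) {K : ℕ}
    (hx : 3 * (n * (p : ℝ) ^ 2) + 3 * Real.log n ≤ K) :
    Pr p {M : SimpleGraph (Fin n) | ¬ Codeg M K} ≤ 1 / n := by
  refine (Pr_le_card (univ.offDiag) _ (fun v : Fin n × Fin n => {M : SimpleGraph (Fin n) |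
    (K : ℝ) ≤ #{u | M.Adj v.1 u ∧ M.Adj v.2 u}})
    (Real.exp (-(3 * Real.log n))) (fun M hM => ?_) fun v hv => ?_).trans ?_
  · simp only [Codeg, Set.mem_ofPred_eq, not_forall, not_le] at hM
    obtain ⟨a, b, h1, h2⟩ := hM
    refine ⟨(a, b), by simpa using h1, ?_⟩
    rw [Set.mem_ofPred_eq]
    exact Nat.cast_le.2 (h2.le.trans (card_le_card fun u => by simp))
  · have hv' : v.1 ≠ v.2 := (mem_offDiag.1 hv).2.2
    refine (upper' ((univ.erase v.1).erase v.2) (fun u => {s(v.1, u), s(v.2, u)})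
      (fun u => {M | M.Adj v.1 u} ∩ {M | M.Adj v.2 u}) (p ^ 2) K _
      (fun u _ => ((dep_adj _ _).mono (by simp)).inter ((dep_adj _ _).mono (by simp)))
      (fun i hi j hj k => ?_) (by positivity) (fun u hu => ?_)
      fun M hM => ⟨_, fun u hu => ?_, hM, fun u hu => (mem_filter.1 hu).2⟩).trans
      (Real.exp_le_exp.2 ?_)
    · simp only [mem_erase] at hi hj
      simp [k.symm, hi.1.symm, hi.2.1.symm, hv', hv'.symm]
    · simp only [mem_erase] at hu
      rw [indep2 (dep_adj _ _) (dep_adj _ _) (by simp [hv', hu.2.1.symm]), Pr_adj hu.2.1.symm,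
        Pr_adj hu.1.symm, sq]
    · have := (mem_filter.1 hu).2
      simp [this.1.ne', this.2.ne']
    · have : (#((univ.erase v.1).erase v.2) : ℝ) ≤ n := by exact_mod_cast card_finset_fin_le _
      nlinarith [sq_nonneg (p : ℝ)]
  · exact le_trans (mul_le_mul_of_nonneg_right (card_pairs _) (Real.exp_pos _).le)
      (pow_mul_exp hL 2 (x := 3 * Real.log n) (by norm_num))

theorem prob_dens (hL : 1 ≤ Real.log n) {r D : ℕ} (hx : 6 * (r * (p : ℝ)) + 4 * Real.log n ≤ D) :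
    Pr p {M : SimpleGraph (Fin n) | ¬ ∀ T : Finset (Fin n), #T ≤ r → T.Nonempty →
      ∃ v ∈ T, #{u ∈ T | M.Adj v u} ≤ D} ≤ 2 / n := by
  refine (Pr_le_sum (univ.erase ∅) _ (fun T : Finset (Fin n) => {M | #T ≤ r ∧ (D : ℝ) * #T / 2 ≤
    #{i ∈ T ×ˢ T | i.1 < i.2 ∧ M.Adj i.1 i.2}}) fun M hM => ?_).trans
    ((sum_le_sum fun T _ => ?_).trans (sum_sets' hL))
  · simp only [Set.mem_ofPred_eq, not_forall, not_exists, not_and, not_le] at hM
    obtain ⟨T, h1, h2, h3⟩ := hM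
    refine ⟨T, by simp [h2.ne_empty], h1, ?_⟩
    set P : Finset (Fin n × Fin n) := {i ∈ T ×ˢ T | i.1 < i.2 ∧ M.Adj i.1 i.2} with hP
    have a1 : #T * D ≤ ∑ v ∈ T, #{u ∈ T | M.Adj v u} :=
      card_nsmul_le_sum _ _ _ fun v hv => (h3 v hv).le
    have a2 : ∑ v ∈ T, #{u ∈ T | M.Adj v u} = #{i ∈ T ×ˢ T | M.Adj i.1 i.2} := by
      simp only [card_filter, sum_product]
    have a3 : #{i ∈ T ×ˢ T | M.Adj i.1 i.2} ≤ #(P ∪ P.image Prod.swap) := card_le_card fun i hi => by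
      simp only [mem_filter, mem_product] at hi
      rcases lt_or_gt_of_ne hi.2.ne with k | k
      · exact mem_union_left _ (by simp [hP, k, hi])
      · exact mem_union_right _ (mem_image.2 ⟨i.swap, by simp [hP, k, hi, hi.2.symm], rfl⟩)
    have a4 := card_union_le P (P.image Prod.swap)
    have a5 := card_image_le (s := P) (f := Prod.swap)
    have a6 : (#T : ℝ) * D ≤ 2 * #P := by exact_mod_cast (by omega : #T * D ≤ 2 * #P)
    linarith
  · by_cases h : #T ≤ r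
    · refine (upper' {i ∈ T ×ˢ T | i.1 < i.2} (fun i => {s(i.1, i.2)})
        (fun i => {M | M.Adj i.1 i.2}) p ((D : ℝ) * #T / 2) _
        (fun u _ => dep_adj _ _) (fun i hi j hj k => ?_) p.2.1
        (fun u hu => (Pr_adj (mem_filter.1 hu).2.ne).le)
        fun M hM => ⟨_, fun u hu => mem_filter.2 ⟨(mem_filter.1 hu).1, (mem_filter.1 hu).2.1⟩,
          hM.2, fun u hu => (mem_filter.1 hu).2.2⟩).trans (Real.exp_le_exp.2 ?_)
      · rw [Set.disjoint_singleton]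
        intro e
        rcases Sym2.eq_iff.1 e with e | e
        · exact k (Prod.ext e.1 e.2)
        · exact lt_irrefl _ ((mem_filter.1 hi).2.trans (e.1 ▸ e.2 ▸ (mem_filter.1 hj).2))
      · have a1 : #{i ∈ T ×ˢ T | i.1 < i.2} ≤ #T * r :=
          (card_filter_le _ _).trans (by rw [card_product]; exact Nat.mul_le_mul_left _ h)
        have a2 : (#{i ∈ T ×ˢ T | i.1 < i.2} : ℝ) ≤ #T * r := by exact_mod_cast a1
        have t0 : (0 : ℝ) ≤ #T := Nat.cast_nonneg _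
        nlinarith [mul_le_mul_of_nonneg_right a2 p.2.1, mul_le_mul_of_nonneg_right hx t0]
    · rw [Pr_empty fun M hM => h hM.1]
      positivity

end Pool.Agent.Lib.NMX.AA
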