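import Pool.Agent.Lib.NMX.AAFall
import Pool.Agent.Lib.NMX.AASProb

set_option autoImplicit false

namespace Pool.Agent.Lib.NMX.AA

open unitInterval Finset Classical

variable {n : ℕ} {p : I}

theorem dep_ex {V : Type} (w : V) (F : Finset V) :
    Dep {e | ∃ v ∈ F, e = s(w, v)} {M : SimpleGraph V | ∃ v ∈ F, M.Adj w v} :=
  fun _ _ e ⟨v, h1, h2⟩ => ⟨v, h1, (e s(w, v) ⟨v, h1, rfl⟩).1 h2⟩

theorem Pr_ex_le {V : Type} [Finite V] (w : V) (F : Finset V) (h : w ∉ F) :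
    Pr p {M : SimpleGraph V | ∃ v ∈ F, M.Adj w v} ≤ #F * p :=
  Pr_le_card F _ (fun v => {M | M.Adj w v}) p (fun _ h => h)
    fun _ hv => (Pr_adj (ne_of_mem_of_not_mem hv h).symm).le

theorem Pr_ex_ge {V : Type} [Finite V] (w : V) (F : Finset V) (h : w ∉ F) {c : ℝ}
    (hc : 1 + #F * (p : ℝ) ≤ c) : #F * (p : ℝ) / c ≤ Pr p {M : SimpleGraph V | ∃ v ∈ F, M.Adj w v} := by
  have h1 := none' (p := p) F (fun v => {s(w, v)}) (fun v => {M | M.Adj w v}) p
    {M : SimpleGraph V | ∃ v ∈ F, M.Adj w v}ᶜ (fun _ _ => dep_adj _ _)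
    (fun i _ j _ k => Set.disjoint_singleton.2 fun e => k (Sym2.congr_right.1 e))
    (fun _ hv => (Pr_adj (ne_of_mem_of_not_mem hv h).symm).ge) fun M hM i hi k => hM ⟨i, hi, k⟩
  rw [Pr_compl] at h1
  have x0 : 0 ≤ #F * (p : ℝ) := mul_nonneg (Nat.cast_nonneg _) p.2.1
  generalize #F * (p : ℝ) = x at *
  have h2 : Real.exp (-x) * (1 + x) ≤ 1 := by
    rw [Real.exp_neg, inv_mul_le_iff₀ (Real.exp_pos x)]
    linarith [Real.add_one_le_exp x]
  rw [div_le_iff₀ (by linarith)]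
  have h3 := Pr_nonneg p {M : SimpleGraph V | ∃ v ∈ F, M.Adj w v}
  nlinarith

theorem probB2 (f : Fin n → Fin n) (T : Finset (Fin n))
    (hT : ∀ u ∈ T, f u = u) {c : ℝ} (hc : ∀ u ∈ T, 1 + #{v | f v ≠ v ∧ f v = u} * (p : ℝ) ≤ c) :
    Pr p {M | ∀ a b, M.Adj a b → M.Adj (f a) (f b)} ≤ Real.exp (-((1 - p) * (p / c) *
      ((∑ u ∈ T, #{v | f v ≠ v ∧ f v = u} : ℕ) * #(({v | f v = v} : Finset (Fin n)) \ T)))) := by
  let F : Fin n → Finset (Fin n) := fun u => {v | f v ≠ v ∧ f v = u}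
  have hF : ∀ u v, v ∈ F u ↔ f v ≠ v ∧ f v = u := fun u v => by simp [F]
  refine le_trans (Pr_mono fun M hM => ?_) ((Pr_none (T ×ˢ (({v | f v = v} : Finset (Fin n)) \ T))
    (fun x => {s(x.2, x.1)} ∪ {e | ∃ v ∈ F x.1, e = s(x.2, v)})
    (fun x => {M | M.Adj x.2 x.1}ᶜ ∩ {M | ∃ v ∈ F x.1, M.Adj x.2 v})
    (fun x _ => ((dep_adj _ _).compl.mono Set.subset_union_left).inter
      ((dep_ex _ _).mono Set.subset_union_right)) (fun x hx y hy k => ?_)
    (fun x => (1 - p) * (#(F x.1) * p / c)) fun x hx => ?_).trans (le_of_eq ?_))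
  · rintro x hx ⟨h1, v, h2, h3⟩
    simp only [mem_product, mem_sdiff, mem_filter, mem_univ, true_and] at hx
    have := hM _ _ h3
    rw [hx.2.1, ((hF _ _).1 h2).2] at this
    exact h1 this
  · simp only [mem_product, mem_sdiff, mem_filter, mem_univ, true_and] at hx hy
    have key : ∀ z : Fin n × Fin n, z.1 ∈ T → ∀ e ∈ ({s(z.2, z.1)} : Set (Sym2 (Fin n))) ∪
        {e | ∃ v ∈ F z.1, e = s(z.2, v)}, ∃ v, f v = z.1 ∧ (v ∈ T ∨ f v ≠ v) ∧ e = s(z.2, v) := by
      rintro z hz e (h | ⟨v, h1, h2⟩)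
      · exact ⟨z.1, hT _ hz, Or.inl hz, h⟩
      · exact ⟨v, ((hF _ _).1 h1).2, Or.inr ((hF _ _).1 h1).1, h2⟩
    refine Set.disjoint_left.2 fun e h1 h2 => ?_
    obtain ⟨v, a1, a2, rfl⟩ := key x hx.1 e h1
    obtain ⟨w, b1, b2, e⟩ := key y hy.1 _ h2
    rcases Sym2.eq_iff.1 e with e | e
    · exact k (Prod.ext (by rw [← a1, e.2, b1]) e.1)
    · rw [e.2] at a2
      exact a2.elim hy.2.2 fun t => t hy.2.1
  · simp only [mem_product, mem_sdiff, mem_filter, mem_univ, true_and] at hx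
    have h1 : x.2 ≠ x.1 := fun e => hx.2.2 (e ▸ hx.1)
    rw [indep2 (dep_adj _ _).compl (dep_ex _ _), Pr_compl, Pr_adj h1]
    · exact mul_le_mul_of_nonneg_left
        (Pr_ex_ge _ _ (fun k => ((hF _ _).1 k).1 hx.2.1) (hc _ hx.1)) (sub_nonneg.2 p.2.2)
    · rw [Set.disjoint_singleton_left]
      rintro ⟨v, h2, e⟩
      rw [← Sym2.congr_right.1 e] at h2
      exact ((hF _ _).1 h2).1 (hT _ hx.1)
  · rw [sum_product]
    simp only [sum_const, nsmul_eq_mul]
    rw [← mul_sum]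
    congr 2
    push_cast
    rw [sum_mul, mul_sum, mul_sum]
    exact sum_congr rfl fun u _ => by ring

theorem sum_sq_le (f : Fin n → Fin n) (hf : ∀ v, f (f v) = f v) (T : Finset (Fin n)) :
    ∑ u ∈ T, #{v | f v ≠ v ∧ f v = u} ^ 2 ≤
      2 * #{x : Fin n × Fin n | x.1 < x.2 ∧ f x.1 = f x.2} := by
  have h2 : ∑ u ∈ T, #{v | f v ≠ v ∧ f v = u} ^ 2 ≤
      #{x : Fin n × Fin n | f x.1 ≠ x.1 ∧ f x.2 ≠ x.2 ∧ f x.1 = f x.2} := by
    rw [card_eq_sum_card_fiberwise (f := fun x => f x.1) (t := univ) (fun _ _ => by simp)]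
    refine le_trans (sum_le_sum fun u _ => ?_) (sum_le_sum_of_subset (subset_univ T))
    rw [sq, ← card_product]
    refine card_le_card fun x hx => ?_
    simp only [mem_filter, mem_product, mem_univ, true_and] at hx ⊢
    exact ⟨⟨hx.1.1, hx.2.1, hx.1.2.trans hx.2.2.symm⟩, hx.1.2⟩
  have h3 : #{x : Fin n × Fin n | f x.1 ≠ x.1 ∧ f x.2 ≠ x.2 ∧ f x.1 = f x.2} ≤
      #{x : Fin n × Fin n | x.1 ≠ x.2 ∧ f x.1 = f x.2} := by
    refine card_le_card_of_injOn (fun x => if x.1 = x.2 then (x.1, f x.1) else x) ?_ ?_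
    · intro x hx
      simp only [coe_filter, Set.mem_ofPred_eq, mem_univ, true_and] at hx ⊢
      split_ifs with k
      · exact ⟨hx.1.symm, (hf _).symm⟩
      · exact ⟨k, hx.2.2⟩
    · intro x hx y hy e
      simp only [coe_filter, Set.mem_ofPred_eq, mem_univ, true_and] at hx hy
      simp only at e
      split_ifs at e with k1 k2 k2
      · have := (Prod.ext_iff.1 e).1
        exact Prod.ext this (k1 ▸ k2 ▸ this)
      · exact absurd (by rw [← e]; exact hf _) hy.2.1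
      · exact absurd (by rw [e]; exact hf _) hx.2.1
      · exact e
  set P : Finset (Fin n × Fin n) := {x | x.1 < x.2 ∧ f x.1 = f x.2} with hP
  refine h2.trans (h3.trans (le_trans (card_le_card (t := P ∪ P.image Prod.swap) fun x hx => ?_)
    (le_trans (card_union_le _ _) (by have := card_image_le (s := P) (f := Prod.swap); omega))))
  simp only [mem_filter, mem_univ, true_and] at hx
  rcases lt_or_gt_of_ne hx.1 with k | k
  · exact mem_union_left _ (by simp [hP, k, hx.2])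
  · exact mem_union_right _ (mem_image.2 ⟨x.swap, by simp [hP, k, hx.2], rfl⟩)

theorem prob_retraction2 (hL : 1 ≤ Real.log n)
    (hp : 15600 * Real.log n ^ 3 ≤ n * (p : ℝ) ^ 2 * (1 - p)) (f : Fin n → Fin n)
    (hf : ∀ v, f (f v) = f v) : Pr p {M | ∀ a b, M.Adj a b → M.Adj (f a) (f b)} ≤
      Real.exp (-(3 * Real.log n)) ^ #{v | f v ≠ v} := by
  rw [← Real.exp_nat_mul]
  set L := Real.log n
  have p0 : (0 : ℝ) ≤ p := p.2.1
  have p1 : (p : ℝ) ≤ 1 := p.2.2
  set k := #{v | f v ≠ v} with hk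
  set R : Finset (Fin n) := {v | f v = v} with hR
  let c : Fin n → ℕ := fun u => #{v | f v ≠ v ∧ f v = u}
  rcases Nat.eq_zero_or_pos k with k0 | k0
  · rw [k0]
    simpa using Pr_le_one _
  have k0' : (0 : ℝ) < k := by exact_mod_cast k0
  have hsum : k = ∑ u ∈ R, c u := by
    rw [hk, card_eq_sum_card_fiberwise (f := f) (t := R) (fun v _ => by simp [hR, hf])]
    exact sum_congr rfl fun u _ => by simp only [c, filter_filter]
  rw [← sum_filter_add_sum_filter_not R fun u => 12 * L ≤ c u * (p : ℝ)] at hsum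
  by_cases hc : k ≤ 2 * ∑ u ∈ R with 12 * L ≤ c u * (p : ℝ), c u
  · refine (probA p f).trans (Real.exp_le_exp.2 ?_)
    have h1 : ((∑ u ∈ R with 12 * L ≤ c u * (p : ℝ), c u ^ 2 : ℕ) : ℝ) ≤
        2 * #{x : Fin n × Fin n | x.1 < x.2 ∧ f x.1 = f x.2} := by
      exact_mod_cast sum_sq_le f hf _
    have h2 : (k : ℝ) ≤ 2 * (∑ u ∈ R with 12 * L ≤ c u * (p : ℝ), c u : ℕ) := by exact_mod_cast hc
    have h3 : 12 * L * (∑ u ∈ R with 12 * L ≤ c u * (p : ℝ), c u : ℕ) ≤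
        p * (∑ u ∈ R with 12 * L ≤ c u * (p : ℝ), c u ^ 2 : ℕ) := by
      push_cast
      rw [mul_sum, mul_sum]
      exact sum_le_sum fun u hu => by
        nlinarith [mul_le_mul_of_nonneg_right (mem_filter.1 hu).2 (Nat.cast_nonneg (c u))]
    nlinarith [mul_le_mul_of_nonneg_left h1 p0]
  · set T0 : Finset (Fin n) := {u ∈ R | ¬ 12 * L ≤ c u * (p : ℝ)} with hT0
    have h1 : (k : ℝ) ≤ 2 * (∑ u ∈ T0, c u : ℕ) := by
      exact_mod_cast (by omega : k ≤ 2 * ∑ u ∈ T0, c u)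
    have h2 : p * ((∑ u ∈ T0, c u : ℕ) : ℝ) ≤ #R * (12 * L) := by
      push_cast
      rw [mul_sum]
      refine (sum_le_card_nsmul _ _ (12 * L) fun u hu => ?_).trans ?_
      · linarith [not_le.1 (mem_filter.1 hu).2]
      · rw [nsmul_eq_mul]
        gcongr
        exact filter_subset _ _
    have hn : (n : ℝ) = #R + k := by
      have := card_filter_add_card_filter_not (s := (univ : Finset (Fin n))) fun v => f v = v
      simp only [card_univ, Fintype.card_fin] at this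
      exact_mod_cast this.symm
    have r0 : (0 : ℝ) ≤ #R := Nat.cast_nonneg _
    have h3 : (p : ℝ) * n ≤ 25 * L * #R := by rw [hn]; nlinarith
    have n0 : (0 : ℝ) ≤ n := n.cast_nonneg
    have h4 : n * (p : ℝ) ^ 2 * (1 - p) ≤ p * n := by
      have : (p : ℝ) * (1 - p) ≤ 1 := by nlinarith
      nlinarith [mul_nonneg p0 n0]
    have r2 : 2 ≤ #R := by
      have : 25 * L * 2 ≤ 25 * L * #R := by nlinarith [one_le_pow₀ (n := 2) hL]
      exact_mod_cast le_of_mul_le_mul_left this (by linarith)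
    have t0 : #T0 ≤ #R := card_filter_le _ _
    obtain ⟨T, hT, cT, sT⟩ : ∃ T ⊆ T0, #T ≤ (#T0 + 1) / 2 ∧ ∑ u ∈ T0, c u ≤ 2 * ∑ u ∈ T, c u := by
      obtain ⟨T, hT, cT⟩ := exists_subset_card_eq (s := T0) (n := #T0 / 2) (by omega)
      have := sum_sdiff (f := c) hT
      have := card_sdiff_of_subset hT
      rcases le_total (∑ u ∈ T, c u) (∑ u ∈ T0 \ T, c u) with h | h
      · exact ⟨T0 \ T, sdiff_subset, by omega, by omega⟩
      · exact ⟨T, hT, by omega, by omega⟩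
    have sub : T ⊆ R := hT.trans (filter_subset _ _)
    refine (probB2 f T (fun u hu => (mem_filter.1 (sub hu)).2) (c := 13 * L)
      fun u hu => by linarith [not_le.1 (mem_filter.1 (hT hu)).2]).trans (Real.exp_le_exp.2 ?_)
    have c1 : ((∑ u ∈ T0, c u : ℕ) : ℝ) ≤ 2 * (∑ u ∈ T, c u : ℕ) := by exact_mod_cast sT
    have c2 : (#R : ℝ) ≤ 4 * #(R \ T) := by
      have := card_sdiff_of_subset sub
      exact_mod_cast (by omega : #R ≤ 4 * #(R \ T))
    change -((1 - (p : ℝ)) * (p / (13 * L)) * ((∑ u ∈ T, c u : ℕ) * #(R \ T))) ≤ k * -(3 * L)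
    generalize ((∑ u ∈ T, c u : ℕ) : ℝ) = U at *
    generalize (#(R \ T) : ℝ) = W at *
    have a1 : (p : ℝ) * n ≤ 100 * L * W := by nlinarith
    have a2 : k * ((p : ℝ) * n) ≤ 4 * U * (100 * L * W) :=
      mul_le_mul (by linarith) a1 (mul_nonneg p0 n0) (by linarith)
    have a3 := mul_le_mul_of_nonneg_left a2 (mul_nonneg p0 (sub_nonneg.2 p1))
    have a4 := mul_le_mul_of_nonneg_left hp k0'.le
    have a5 : 400 * L * (k * (3 * L) * (13 * L)) ≤ 400 * L * ((1 - p) * p * (U * W)) := by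
      nlinarith
    have a6 := le_of_mul_le_mul_left a5 (by linarith)
    rw [← le_div_iff₀ (by linarith)] at a6
    rw [mul_neg, neg_le_neg_iff]
    exact a6.trans (le_of_eq (by ring))

/-- The middle range. -/
theorem mid_not_mult (hL : 1 ≤ Real.log n)
    (hp : 15600 * Real.log n ^ 3 ≤ n * (p : ℝ) ^ 2 * (1 - p)) :
    Pr p {M : SimpleGraph (Fin n) | Multiplicative M} ≤ 3 / n := by
  have : Nontrivial (Fin n) := Fin.nontrivial_iff_two_le.2 (by exact_mod_cast pos_of_log hL)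
  have a1 : Real.log n ≤ Real.log n ^ 3 := le_self_pow₀ hL (by norm_num)
  have h1 := prob_not_core_of p hL (prob_retraction2 hL hp)
  have h2 := exp_inv_le hL
  refine le_trans (Pr_mono fun M hM => ?_) ((Pr_union _ _).trans
    ((add_le_add h1 (prob_ext hL (by linarith))).trans ?_))
  · by_contra k
    simp only [Set.mem_union, Set.mem_ofPred_eq, not_or, not_not] at k
    exact ext_not_mult k.1 k.2 hM
  · rw [show (3 : ℝ) / n = 2 / n + 1 / n by ring]
    linarith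

end Pool.Agent.Lib.NMX.AA
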