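import Pool.Agent.Lib.NMX.AASProb

set_option autoImplicit false

namespace Pool.Agent.Lib.NMX.AA

open unitInterval Finset Classical

variable {n : ℕ} {p : I}

theorem Pr_sum {V : Type} [Finite V] [Fintype (SimpleGraph V)] (S : Set (SimpleGraph V)) :
    Pr p S = ∑ M, Pr p {M} * if M ∈ S then 1 else 0 := by
  simp only [mul_ite, mul_one, mul_zero]
  rw [← sum_filter, Pr, show S = ⋃ M ∈ ({M | M ∈ S} : Finset _), {M} by simp,
    MeasureTheory.measureReal_biUnion_finset (fun M _ M' _ k => by simpa using k)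
      fun _ _ => meas _]
  simp [Pr]

theorem second_moment {V ι : Type} [Finite V] (s : Finset ι) (A : ι → Set (SimpleGraph V))
    {μ ν : ℝ} (hμ : 0 ≤ μ) (h1 : μ ≤ ∑ i ∈ s, Pr p (A i))
    (h2 : ∑ i ∈ s, ∑ j ∈ s, Pr p (A i ∩ A j) ≤ ν) :
    Pr p {M | ∀ i ∈ s, M ∉ A i} * μ ^ 2 ≤ ν - μ ^ 2 := by
  have := Fintype.ofFinite (SimpleGraph V)
  let X : SimpleGraph V → ℝ := fun M => ∑ i ∈ s, if M ∈ A i then 1 else 0
  have e0 : ∑ M : SimpleGraph V, Pr p {M} = 1 := by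
    simpa [Pr_univ] using (Pr_sum (p := p) (Set.univ : Set (SimpleGraph V))).symm
  have e1 : ∑ i ∈ s, Pr p (A i) = ∑ M, Pr p {M} * X M := by
    simp only [X, mul_sum]
    rw [sum_comm]
    exact sum_congr rfl fun i _ => Pr_sum _
  have e2 : ∑ i ∈ s, ∑ j ∈ s, Pr p (A i ∩ A j) = ∑ M, Pr p {M} * X M ^ 2 := by
    simp only [X, sq, sum_mul_sum]
    simp only [mul_sum]
    rw [sum_comm (s := univ)]
    refine sum_congr rfl fun i _ => ?_
    rw [sum_comm (s := univ)]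
    refine sum_congr rfl fun j _ => (Pr_sum _).trans (sum_congr rfl fun M _ => ?_)
    by_cases a : M ∈ A i <;> by_cases b : M ∈ A j <;> simp [a, b]
  have e3 : Pr p {M | ∀ i ∈ s, M ∉ A i} * μ ^ 2 ≤ ∑ M, Pr p {M} * (X M - μ) ^ 2 := by
    rw [Pr_sum, sum_mul]
    refine sum_le_sum fun M _ => ?_
    rw [mul_assoc]
    refine mul_le_mul_of_nonneg_left ?_ (Pr_nonneg _ _)
    split_ifs with h
    · rw [show X M = 0 from sum_eq_zero fun i hi => if_neg (h i hi)]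
      simp
    · simpa using sq_nonneg _
  have e4 : ∑ M, Pr p {M} * (X M - μ) ^ 2 = ∑ M, Pr p {M} * X M ^ 2 -
      2 * μ * ∑ M, Pr p {M} * X M + μ ^ 2 * ∑ M : SimpleGraph V, Pr p {M} := by
    rw [mul_sum, mul_sum, ← sum_sub_distrib, ← sum_add_distrib]
    exact sum_congr rfl fun M _ => by ring
  rw [e4, e0, ← e1, ← e2] at e3
  nlinarith

theorem Pr_edges {V κ : Type} [Finite V] (K : Finset κ) (a b : κ → V) (h : ∀ k ∈ K, a k ≠ b k)
    (hi : ∀ k ∈ K, ∀ k' ∈ K, s(a k, b k) = s(a k', b k') → k = k') :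
    Pr p {M : SimpleGraph V | ∀ k ∈ K, M.Adj (a k) (b k)} = p ^ #K := by
  rw [← prod_const, ← prod_congr rfl fun k hk => Pr_adj (p := p) (h k hk)]
  exact indep_all K (fun k => {s(a k, b k)}) (fun k => {M | M.Adj (a k) (b k)})
    (fun _ _ => dep_adj _ _) fun i h1 j h2 k => Set.disjoint_singleton.2 fun e => k (hi i h1 j h2 e)

theorem dep_edges {V κ : Type} (K : Finset κ) (a b : κ → V) :
    Dep {e | ∃ k ∈ K, e = s(a k, b k)} {M : SimpleGraph V | ∀ k ∈ K, M.Adj (a k) (b k)} :=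
  fun _ _ e h k hk => (e s(a k, b k) ⟨k, hk, rfl⟩).1 (h k hk)

def e1 : Fin 9 → Fin 7 := ![0, 0, 0, 4, 4, 5, 5, 6, 6]
def e2 : Fin 9 → Fin 7 := ![1, 2, 3, 1, 2, 2, 3, 1, 3]
def e3 : Fin 7 → Fin 7 := ![0, 5, 6, 4, 4, 5, 6]

theorem e12 : ∀ k k', e1 k ≠ e2 k' := by decide
theorem e_inj : ∀ k k', e1 k = e1 k' → e2 k = e2 k' → k = k' := by decide
theorem e_non : ∀ i k, e3 i ≠ i → ¬ (e3 i = e1 k ∧ i = e2 k) := by decide
theorem e_non' : ∀ i k, e3 i ≠ e2 k := by decide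
theorem e_mem : ∀ i, e3 i ∈ ({0, 4, 5, 6} : Finset (Fin 7)) := by decide
theorem e_bal : ∀ J : Finset (Fin 7),
    63 ≤ 7 * #(univ.filter fun k => ¬ (e1 k ∈ J ∧ e2 k ∈ J)) + 9 * #J := by decide +kernel

section
variable {m : ℕ} (ι : Fin 7 × Fin m ↪ Fin n)

/-- the edges in `K` of the copy `g` are present -/
def Cq (g : Fin 7 → Fin m) (K : Finset (Fin 9)) : Set (SimpleGraph (Fin n)) :=
  {M | ∀ k ∈ K, M.Adj (ι (e1 k, g (e1 k))) (ι (e2 k, g (e2 k)))}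

theorem edge_eq {g h : Fin 7 → Fin m} {k k' : Fin 9}
    (e : s(ι (e1 k, g (e1 k)), ι (e2 k, g (e2 k))) = s(ι (e1 k', h (e1 k')), ι (e2 k', h (e2 k')))) :
    k = k' ∧ g (e1 k') = h (e1 k') ∧ g (e2 k') = h (e2 k') := by
  rcases Sym2.eq_iff.1 e with e | e
  · have a1 := Prod.ext_iff.1 (ι.injective e.1)
    have a2 := Prod.ext_iff.1 (ι.injective e.2)
    obtain rfl := e_inj _ _ a1.1 a2.1
    exact ⟨rfl, a1.2, a2.2⟩
  · exact absurd (Prod.ext_iff.1 (ι.injective e.1)).1 (e12 _ _)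

theorem Pr_Cq (g : Fin 7 → Fin m) (K : Finset (Fin 9)) : Pr p (Cq ι g K) = p ^ #K :=
  Pr_edges K _ _ (fun _ _ e => e12 _ _ (Prod.ext_iff.1 (ι.injective e)).1)
    fun _ _ _ _ e => (edge_eq ι e).1

theorem Pr_pair (g h : Fin 7 → Fin m) (J : Finset (Fin 7)) (hJ : ∀ i, g i = h i → i ∈ J) :
    Pr p (Cq ι g univ ∩ Cq ι h univ) ≤
      p ^ 9 * p ^ #(univ.filter fun k => ¬ (e1 k ∈ J ∧ e2 k ∈ J)) := by
  refine le_trans (Pr_mono (T := Cq ι g univ ∩ Cq ι h (univ.filter fun k =>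
    ¬ (e1 k ∈ J ∧ e2 k ∈ J))) fun M hM => ⟨hM.1, fun k _ => hM.2 k (mem_univ k)⟩) ?_
  rw [Cq, Cq, indep2 (dep_edges _ _ _) (dep_edges _ _ _), ← Cq, ← Cq, Pr_Cq, Pr_Cq]
  · simp
  · refine Set.disjoint_left.2 ?_
    rintro _ ⟨k, -, rfl⟩ ⟨k', h1, e⟩
    exact (mem_filter.1 h1).2 ⟨hJ _ (edge_eq ι e).2.1, hJ _ (edge_eq ι e).2.2⟩

/-- the copy `g` is present and cannot be completed -/
def Gd (g : Fin 7 → Fin m) : Set (SimpleGraph (Fin n)) :=
  Cq ι g univ ∩ {M | ¬ ∃ u, ∀ t ∈ ({0, 4, 5, 6} : Finset (Fin 7)), M.Adj (ι (t, g t)) u}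

theorem Pr_Gd (g : Fin 7 → Fin m) : (p : ℝ) ^ 9 * (1 - (7 * p + n * p ^ 4)) ≤ Pr p (Gd ι g) := by
  have p0 : (0 : ℝ) ≤ p := p.2.1
  let B : Fin n → Set (SimpleGraph (Fin n)) := fun u =>
    Cq ι g univ ∩ {M | ∀ t ∈ ({0, 4, 5, 6} : Finset (Fin 7)), M.Adj (ι (t, g t)) u}
  have h1 : Pr p (Cq ι g univ) ≤ Pr p (Gd ι g) + ∑ u, Pr p (B u) :=
    le_trans (Pr_mono fun M hM => by
      by_cases k : M ∈ Gd ι g
      · exact Or.inl k
      · exact Or.inr (not_not.1 fun t => k ⟨hM, fun ⟨u, hu⟩ => t ⟨u, mem_univ u, hM, hu⟩⟩))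
      ((Pr_union _ {M | ∃ u ∈ univ, M ∈ B u}).trans
        (add_le_add_right (Pr_le_sum univ _ B fun _ h => h) _))
  let R : Finset (Fin n) := univ.image fun i => ι (i, g i)
  have h2 : ∑ u ∈ R, Pr p (B u) ≤ 7 * (p ^ 9 * p) := by
    refine (sum_le_card_nsmul _ _ ((p : ℝ) ^ 9 * p) fun u hu => ?_).trans ?_
    · obtain ⟨i, -, rfl⟩ := mem_image.1 hu
      by_cases k : e3 i = i
      · rw [Pr_empty fun M hM => (hM.2 _ (e_mem i)).ne (by rw [k])]
        positivity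
      · refine le_trans (Pr_mono (T := Cq ι g univ ∩ {M | M.Adj (ι (e3 i, g (e3 i))) (ι (i, g i))})
          fun M hM => ⟨hM.1, hM.2 _ (e_mem i)⟩) ?_
        rw [Cq, indep2 (dep_edges _ _ _) (dep_adj _ _), ← Cq, Pr_Cq,
          Pr_adj fun e => k (Prod.ext_iff.1 (ι.injective e)).1]
        · simp
        · rw [Set.disjoint_singleton_right]
          rintro ⟨k', -, e⟩
          rcases Sym2.eq_iff.1 e with e | e
          · exact e_non i k' k ⟨(Prod.ext_iff.1 (ι.injective e.1)).1,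
              (Prod.ext_iff.1 (ι.injective e.2)).1⟩
          · exact e_non' i k' (Prod.ext_iff.1 (ι.injective e.1)).1
    · have : (#R : ℝ) ≤ 7 := by exact_mod_cast card_image_le.trans (by simp)
      rw [nsmul_eq_mul]
      gcongr
  have h3 : ∑ u ∈ Rᶜ, Pr p (B u) ≤ n * (p ^ 9 * p ^ 4) := by
    refine (sum_le_card_nsmul _ _ ((p : ℝ) ^ 9 * p ^ 4) fun u hu => ?_).trans ?_
    · have hu' : ∀ i, ι (i, g i) ≠ u := by simpa [R] using hu
      simp only [B]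
      rw [Cq, indep2 (dep_edges _ _ _) (dep_edges _ _ _), ← Cq, Pr_Cq, Pr_edges _ _ _
        (fun i _ => hu' i) fun i _ j _ e =>
          (Prod.ext_iff.1 (ι.injective (Sym2.congr_left.1 e))).1]
      · simp
      · refine Set.disjoint_left.2 ?_
        rintro _ ⟨k, -, rfl⟩ ⟨k', -, e⟩
        rcases Sym2.eq_iff.1 e with e | e
        exacts [hu' _ e.2, hu' _ e.1]
    · have : (#Rᶜ : ℝ) ≤ n := by exact_mod_cast card_finset_fin_le _
      rw [nsmul_eq_mul]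
      gcongr
  rw [← sum_add_sum_compl R, Pr_Cq] at h1
  simp only [card_univ, Fintype.card_fin] at h1
  linarith

theorem sum_pairs {ω : ℝ} (h1 : 1 ≤ ω) (h2 : ω ^ 7 ≤ (m : ℝ) ^ 7 * p ^ 9)
    (A : (Fin 7 → Fin m) → Set (SimpleGraph (Fin n))) (hA : ∀ g, A g ⊆ Cq ι g univ) :
    ∑ g, ∑ h, Pr p (A g ∩ A h) ≤ ((m : ℝ) ^ 7 * p ^ 9) ^ 2 * (1 + 128 / ω) := by
  have p0 : (0 : ℝ) ≤ p := p.2.1
  let k : Finset (Fin 7) → ℕ := fun J => #(univ.filter fun k => ¬ (e1 k ∈ J ∧ e2 k ∈ J))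
  have a1 : ∀ g : Fin 7 → Fin m, ∑ h, Pr p (A g ∩ A h) ≤
      ∑ J : Finset (Fin 7), (m : ℝ) ^ (7 - #J) * (p ^ 9 * p ^ k J) := fun g => by
    rw [← sum_fiberwise (s := univ) (g := fun h => ({i | g i = h i} : Finset (Fin 7)))]
    refine sum_le_sum fun J _ => (sum_le_card_nsmul _ _ ((p : ℝ) ^ 9 * p ^ k J)
      fun h hh => ?_).trans ?_
    · exact le_trans (Pr_mono (T := Cq ι g univ ∩ Cq ι h univ) fun M hM => ⟨hA _ hM.1, hA _ hM.2⟩)
        (Pr_pair ι g h J fun i hi => by rw [← (mem_filter.1 hh).2]; simpa using hi)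
    · rw [nsmul_eq_mul]
      refine mul_le_mul_of_nonneg_right ?_ (by positivity)
      have := card_le_card (s := {h | ({i | g i = h i} : Finset (Fin 7)) = J})
        (t := Fintype.piFinset fun i => if i ∈ J then {g i} else univ) fun h hh => by
          rw [Fintype.mem_piFinset]
          intro i
          split_ifs with t
          · rw [← (mem_filter.1 hh).2] at t
            simpa using (mem_filter.1 t).2.symm
          · exact mem_univ _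
      rw [Fintype.card_piFinset] at this
      simp only [apply_ite card, card_singleton, card_univ, Fintype.card_fin, prod_ite, prod_const,
        one_pow, one_mul, filter_not, filter_mem_eq_inter, univ_inter, card_univ_sdiff] at this
      exact_mod_cast this
  have a2 : ∀ J : Finset (Fin 7), J ≠ ∅ →
      (m : ℝ) ^ (7 - #J) * (p ^ 9 * p ^ k J) ≤ m ^ 7 * p ^ 9 * p ^ 9 / ω := fun J hJ => by
    have b1 : k J ≤ 9 := (card_le_univ _).trans (by simp)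
    have b2 : #J ≤ 7 := (card_le_univ _).trans (by simp)
    have b3 : 63 ≤ 7 * k J + 9 * #J := e_bal J
    have b4 : ω ≤ (m : ℝ) ^ #J * p ^ (9 - k J) := by
      refine le_of_pow_le_pow_left₀ (n := 7) (by norm_num) (by positivity) ?_
      refine (h2.trans (le_self_pow₀ ((one_le_pow₀ h1).trans h2)
        (card_pos.2 (nonempty_iff_ne_empty.2 hJ)).ne')).trans ?_
      rw [mul_pow, mul_pow, ← pow_mul, ← pow_mul, ← pow_mul, ← pow_mul, mul_comm 7]
      exact mul_le_mul_of_nonneg_left (pow_le_pow_of_le_one p0 p.2.2 (by omega)) (by positivity)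
    rw [le_div_iff₀ (by linarith)]
    refine (mul_le_mul_of_nonneg_left b4 (by positivity)).trans (le_of_eq ?_)
    have c1 : (m : ℝ) ^ 7 = m ^ (7 - #J) * m ^ #J := by rw [← pow_add, Nat.sub_add_cancel b2]
    have c2 : (p : ℝ) ^ 9 = p ^ k J * p ^ (9 - k J) := by rw [← pow_add, Nat.add_sub_cancel' b1]
    rw [c1]
    nth_rewrite 3 [c2]
    ring
  refine (sum_le_card_nsmul _ _ _ fun g _ => a1 g).trans ?_
  rw [← add_sum_erase _ _ (mem_univ ∅)]
  have a3 := sum_le_card_nsmul ((univ : Finset (Finset (Fin 7))).erase ∅)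
    (fun J => (m : ℝ) ^ (7 - #J) * (p ^ 9 * p ^ k J)) (m ^ 7 * p ^ 9 * p ^ 9 / ω)
    fun J hJ => a2 J (ne_of_mem_erase hJ)
  have a4 : k ∅ = 9 := by simp [k]
  have a5 : (#((univ : Finset (Finset (Fin 7))).erase ∅) : ℝ) ≤ 128 := by
    have := card_erase_le (s := (univ : Finset (Finset (Fin 7)))) (a := ∅)
    rw [card_univ, Fintype.card_finset, Fintype.card_fin] at this
    exact_mod_cast this
  have a6 : (0 : ℝ) ≤ m ^ 7 * p ^ 9 * p ^ 9 / ω :=
    div_nonneg (mul_nonneg (mul_nonneg (pow_nonneg m.cast_nonneg _) (pow_nonneg p0 _))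
      (pow_nonneg p0 _)) (by linarith)
  rw [nsmul_eq_mul] at a3 ⊢
  simp only [card_univ, Fintype.card_pi, Fintype.card_fin, prod_const, Nat.cast_pow, card_empty,
    Nat.sub_zero, a4]
  refine (mul_le_mul_of_nonneg_left (add_le_add_right
    (a3.trans (mul_le_mul_of_nonneg_right a5 a6)) _) (by positivity)).trans (le_of_eq ?_)
  ring

end

theorem prob_corner {ω : ℝ} (h1 : 1 ≤ ω) (h2 : ω ^ 7 ≤ ((n / 7 : ℕ) : ℝ) ^ 7 * p ^ 9) {ε : ℝ}
    (h3 : 7 * (p : ℝ) + n * (p : ℝ) ^ 4 ≤ ε) (h4 : ε ≤ 1 / 2) :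
    Pr p {M : SimpleGraph (Fin n) | ¬ Corner M} ≤ 512 / ω + 8 * ε := by
  have p0 : (0 : ℝ) ≤ p := p.2.1
  obtain ⟨ι⟩ : Nonempty (Fin 7 × Fin (n / 7) ↪ Fin n) :=
    Function.Embedding.nonempty_of_card_le (by simp; omega)
  set μ : ℝ := ((n / 7 : ℕ) : ℝ) ^ 7 * p ^ 9 with hμ
  have μ0 : 0 < μ := lt_of_lt_of_le (by positivity) h2
  have e0 : 0 ≤ ε := le_trans (by positivity) h3
  have a1 := second_moment (p := p) univ (Gd ι) (μ := μ * (1 - ε)) (mul_nonneg μ0.le (by linarith))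
    (le_trans ?_ (card_nsmul_le_sum _ _ _ fun g _ => Pr_Gd ι g)) (sum_pairs ι h1 h2 _ fun _ _ k => k.1)
  · have a2 : Pr p {M : SimpleGraph (Fin n) | ¬ Corner M} ≤ Pr p {M | ∀ i ∈ univ, M ∉ Gd ι i} :=
      Pr_mono fun M hM g _ ⟨k1, k2⟩ => hM ⟨_, _, _, _, _, _, _, k1 0 (mem_univ _), k1 1 (mem_univ _),
        k1 2 (mem_univ _), k1 3 (mem_univ _), k1 4 (mem_univ _), k1 5 (mem_univ _),
        k1 6 (mem_univ _), k1 7 (mem_univ _), k1 8 (mem_univ _), fun ⟨u, u1, u2, u3, u4⟩ =>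
          k2 ⟨u, by simpa using ⟨u1, u2, u3, u4⟩⟩⟩
    refine a2.trans ?_
    have a3 := Pr_nonneg p {M : SimpleGraph (Fin n) | ∀ i ∈ univ, M ∉ Gd ι i}
    rw [← hμ] at a1
    generalize Pr p {M : SimpleGraph (Fin n) | ∀ i ∈ univ, M ∉ Gd ι i} = x at *
    have a4 : μ ^ 2 * (x * (1 - ε) ^ 2) ≤ μ ^ 2 * (128 / ω + 2 * ε) := by
      nlinarith [mul_nonneg (sq_nonneg μ) (sq_nonneg ε)]
    have a5 := le_of_mul_le_mul_left a4 (by positivity)
    have a6 : 1 / 4 ≤ (1 - ε) ^ 2 := by nlinarith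
    rw [show 512 / ω = 4 * (128 / ω) by ring]
    nlinarith
  · simp only [card_univ, Fintype.card_pi, Fintype.card_fin, prod_const, nsmul_eq_mul, Nat.cast_pow]
    rw [hμ, mul_assoc]
    gcongr

end Pool.Agent.Lib.NMX.AA
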