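import Pool.Agent.Lib.NMX.Cone

set_option autoImplicit false

namespace Pool.Agent.Lib.NMX.AA

variable {V : Type}

/-- idempotent operations indexed by the graphs of chromatic number more than `N` -/
def WM (M : SimpleGraph V) (N : ℕ) : Prop :=
  ∀ (A : Type) [Finite A] (G : SimpleGraph A), ¬ G.Colorable N →
    ∃ φ : (A → V) → V, (∀ a, φ (fun _ => a) = a) ∧
      ∀ f g, (∀ x y, G.Adj x y → M.Adj (f x) (g y)) → M.Adj (φ f) (φ g)

theorem WM.nbhd {M : SimpleGraph V} {N : ℕ} (h : WM M N) (S : Set V) :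
    WM (M.induce {v | ∀ s ∈ S, M.Adj v s}) N := fun A _ G hG => by
  obtain ⟨φ, h1, h2⟩ := h A G hG
  refine ⟨fun f => ⟨φ fun x => (f x).1, fun s hs => ?_⟩, fun a => Subtype.ext (h1 _),
    fun f g k => h2 _ _ k⟩
  rw [← h1 s]
  exact h2 _ _ fun x _ _ => (f x).2 s hs

theorem WM.core [Finite V] {M : SimpleGraph V} {N : ℕ} (h : WM M N) (ρ : M →g M)
    (hM : IsCore (M.induce (Set.range ρ))) : WM (M.induce (Set.range ρ)) N := fun A _ G hG => by
  obtain ⟨φ, h1, h2⟩ := h A G hG
  let σ : M.induce (Set.range ρ) →g M.induce (Set.range ρ) :=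
    ⟨fun a => ⟨ρ a.1, _, rfl⟩, fun h => ρ.map_rel h⟩
  let τ : Equiv.Perm (Set.range ρ) :=
    Equiv.ofBijective σ ((Finite.injective_iff_bijective).1 (hM σ))
  have hp : ∀ n : ℕ, ∀ a b, (M.induce (Set.range ρ)).Adj a b →
      (M.induce (Set.range ρ)).Adj ((τ ^ n) a) ((τ ^ n) b) := by
    intro n
    induction n with
    | zero => intro a b h; simpa using h
    | succ n ih =>
      intro a b h
      rw [pow_succ]
      exact ih _ _ (σ.map_rel h)
  have h0 : 0 < orderOf τ := orderOf_pos τ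
  refine ⟨fun f => (τ ^ (orderOf τ - 1)) ⟨ρ (φ fun x => (f x).1), _, rfl⟩, fun a => ?_,
    fun f g h => hp _ _ _ (ρ.map_rel (h2 _ _ h))⟩
  have : (τ ^ (orderOf τ - 1) * τ) a = a := by
    rw [← pow_succ, Nat.sub_add_cancel h0, pow_orderOf_eq_one]; rfl
  simp only [h1]
  exact this

open Classical in
/-- The engine, from idempotent operations. -/
theorem engine' {M : SimpleGraph V} {N : ℕ} (hm : WM M N) (r : ℕ)
    (hR : ∀ β, Chain M β → (∀ i ≤ r, Indep M (β i)) → Small M (β 0))
    (hU : ∀ β, Chain M β → (∀ i ≤ r, Split M (β i)) → Small M (β 0))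
    {a0 b0 c0 : V} (hab : a0 ≠ b0) (ha : M.Adj a0 c0) (hb : M.Adj b0 c0) :
    False := by
  obtain ⟨m, hw⟩ := exists_wide N
  obtain ⟨A, _, G, B, hG, hcov, hstep, hind⟩ := hw (r + m * (r + 2))
  obtain ⟨φ, hid, hφ⟩ := hm A G hG
  let β : (ℕ → Set A) → ℕ → V → V → V := fun X i a b => φ fun x => if x ∈ X i then b else a
  let St : (ℕ → Set A) → Prop := fun X => ∀ i x y, x ∈ X i → G.Adj x y → y ∈ X (i + 1)
  have hch : ∀ X, St X → Chain M (β X) := fun X hX => ⟨fun i a => by simp [β, hid],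
    fun i a b e d h1 h2 h3 => hφ _ _ fun x y hxy => by
      by_cases hx : x ∈ X i
      · simp [hx, hX i x y hx hxy, h3]
      · by_cases hy : y ∈ X (i + 1) <;> simp [hx, hy, h1, h2]⟩
  have hB : ∀ j i, i ≤ m * (r + 2) → Small M (β (B j) i) := fun j i hi =>
    hR _ ((hch _ (hstep j)).shift i) fun i' hi' a b c d h1 h2 h3 => hφ _ _ fun x y hxy => by
      by_cases hx : x ∈ B j (i + i') <;> by_cases hy : y ∈ B j (i + i')
      · exact absurd hxy (hind j _ (by omega) x y hx hy)
      all_goals simp [hx, hy, h1, h2, h3]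
  have hsplit : ∀ X Y, St X → St Y → ∀ i, Small M (β X (i + 2)) → Small M (β Y (i + 2)) →
      Split M (β (fun i => X i ∪ Y i) i) := by
    intro X Y hX hY i sX sY a b e c d h1 h2 h3 h4 h5
    refine ⟨φ fun x => if x ∈ X (i + 1) then c else if x ∈ Y (i + 1) then d else e,
      hφ _ _ fun x y hxy => ?_, fun u he hc => ?_, fun u he hd => ?_⟩
    · by_cases hx : x ∈ X i ∪ Y i
      · rw [if_pos hx]
        by_cases hy : y ∈ X (i + 1)
        · rwa [if_pos hy]
        · rcases hx with hx | hx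
          · exact absurd (hX i x y hx hxy) hy
          · rwa [if_neg hy, if_pos (hY i x y hx hxy)]
      · rw [if_neg hx]
        split_ifs <;> assumption
    · rw [← sY u a e he.symm h1]
      refine hφ _ _ fun x y hxy => ?_
      by_cases hy : y ∈ Y (i + 2)
      · rw [if_pos hy]
        split_ifs
        exacts [h2.symm, h3.symm, h1.symm]
      · rw [if_neg hy]
        split_ifs with k1 k2
        exacts [hc, absurd (hY _ x y k2 hxy) hy, he]
    · rw [← sX u a e he.symm h1]
      refine hφ _ _ fun x y hxy => ?_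
      by_cases hy : y ∈ X (i + 2)
      · rw [if_pos hy]
        split_ifs
        exacts [h2.symm, h3.symm, h1.symm]
      · rw [if_neg hy]
        split_ifs with k1 k2
        exacts [absurd (hX _ x y k1 hxy) hy, hd, he]
  have key : ∀ k ≤ m, ∃ X, St X ∧ (∀ j : Fin m, (j : ℕ) < k → B j 0 ⊆ X 0) ∧
      ∀ i, i + k * (r + 2) ≤ m * (r + 2) → Small M (β X i) := by
    intro k
    induction k with
    | zero =>
      exact fun _ => ⟨fun _ => ∅, fun _ _ _ h => h.elim, fun j h => absurd h (by omega),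
        fun i _ a b c _ _ => by simp [β, hid]⟩
    | succ k ih =>
      intro hk
      obtain ⟨X, hX, hsub, hs⟩ := ih (by omega)
      have hXY : St fun i => X i ∪ B ⟨k, hk⟩ i := fun i x y hx hxy =>
        hx.imp (fun h => hX i x y h hxy) (fun h => hstep _ i x y h hxy)
      refine ⟨_, hXY, fun j hj x hx => ?_, fun i hi => ?_⟩
      · by_cases e : (j : ℕ) = k
        · exact Or.inr (by rwa [show (⟨k, hk⟩ : Fin m) = j from Fin.ext e.symm])
        · exact Or.inl (hsub j (by omega) hx)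
      · rw [Nat.add_mul] at hi
        exact hU _ ((hch _ hXY).shift i) fun i' hi' =>
          hsplit X _ hX (hstep _) _ (hs _ (by omega)) (hB _ _ (by omega))
  obtain ⟨X, -, hsub, hs⟩ := key m le_rfl
  have h1 := hs 0 (by omega) a0 b0 c0 ha hb
  have h2 : ∀ x, x ∈ X 0 := fun x => by
    obtain ⟨j, hj⟩ := hcov x
    exact hsub j j.2 hj
  simp only [β, h2, if_true, hid] at h1
  exact hab h1.symm

theorem cone_core' {M : SimpleGraph V} {z : V} (hM : IsCore M) (hz : ∀ v, v ≠ z → M.Adj z v)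
    (h3 : ¬ M.Colorable 3) {N : ℕ} (hm : WM M N) : False := by
  classical
  obtain ⟨c0, hc0⟩ : ∃ c, c ≠ z := by
    by_contra k
    push Not at k
    exact h3 ⟨SimpleGraph.Coloring.mk (fun _ => 0) fun {x y} h =>
      absurd ((k x).trans (k y).symm) h.ne⟩
  obtain ⟨d0, -, -, hd0, -, hcd0, -⟩ := cone_two hM hz h3 hc0
  refine engine' hm 5 (fun β hβ hI => cone_small hM hz hβ fun j hj c hc => ?_)
    (fun β hβ hS => cone_small hM hz hβ fun j hj c hc => ?_) hc0 hcd0 (hz d0 hd0)
  · refine (cone_cl hM hz hc (hβ.cl j c z)).resolve_right fun h0 => ?_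
    have s1 : ∀ d, d ≠ z → M.Adj c d → β (j + 1) z d = d := fun d hd hcd => by
      have := hβ.2 j c z z d (hz c hc).symm hcd (hz d hd)
      rw [h0] at this
      exact (cone_cl hM hz hd fun u h1 h2 => hβ.cl (j + 1) z d u h2 h1).resolve_right this.ne'
    have s2 : ∀ e, e ≠ z → β (j + 2) e c = c := fun e he => hM.stiff fun d hcd => by
      by_cases hd : d = z
      · rw [hd]; exact hβ.cl _ e c z (hz e he).symm (hz c hc).symm
      · have := hβ.2 (j + 1) z d e c (hz e he) (hz c hc) hcd.symm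
        rw [s1 d hd hcd] at this
        exact this.symm
    have s3 : ∀ u, u ≠ z → ¬ M.Adj c u → β (j + 3) u z = z := fun u hu hcu => by
      obtain ⟨e, -, -, he, -, hue, -⟩ := cone_two hM hz h3 hu
      have := hβ.2 (j + 2) e c u z hue.symm (hz e he).symm (hz c hc).symm
      rw [s2 e he] at this
      exact (cone_cl hM hz hu (hβ.cl _ u z)).resolve_left fun k => hcu (k ▸ this)
    refine h3 ⟨SimpleGraph.Coloring.mk (fun x => if x = z then 2 else if M.Adj c x then 1 else 0)
      fun {x y} hxy => ?_⟩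
    have hne := hxy.ne
    have t1 : x ≠ z → y ≠ z → M.Adj c x → M.Adj c y → False := fun hx hy h1 h2 => by
      have := hI (j + 2) (by omega) x c y c hxy h2 h1.symm
      rw [s2 x hx, s2 y hy] at this
      exact this.ne rfl
    have t2 : x ≠ z → y ≠ z → ¬ M.Adj c x → ¬ M.Adj c y → False := fun hx hy h1 h2 => by
      have := hI (j + 3) (by omega) x z y z hxy (hz y hy) (hz x hx).symm
      rw [s3 x hx h1, s3 y hy h2] at this
      exact this.ne rfl
    by_cases hx : x = z <;> by_cases hy : y = z <;> by_cases hx' : M.Adj c x <;>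
      by_cases hy' : M.Adj c y <;> simp_all
  · obtain ⟨d1, d2, h12, h1, h2, k1, k2⟩ := cone_two hM hz h3 hc
    obtain ⟨m, hm, c1, c2⟩ := hS j (by omega) c z z d1 d2 (hz c hc).symm k1 k2 (hz d1 h1) (hz d2 h2)
    have e1 := cone_cl hM hz h1 fun u a b => c1 u b a
    have e2 := cone_cl hM hz h2 fun u a b => c2 u b a
    have e : m = z := by
      rcases e1 with e1 | e1
      · exact e2.resolve_left fun e2 => h12 (e1.symm.trans e2)
      · exact e1
    exact (cone_cl hM hz hc (hβ.cl j c z)).resolve_right (e ▸ hm.ne)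

theorem cone_WM [Finite V] {M : SimpleGraph V} {z : V} (hz : ∀ v, v ≠ z → M.Adj z v)
    (h3 : ¬ M.Colorable 3) {N : ℕ} (hm : WM M N) : False := by
  obtain ⟨ρ, hρ⟩ := exists_core M
  let f : M →g M.induce (Set.range ρ) := ⟨fun v => ⟨ρ v, v, rfl⟩, fun h => ρ.map_rel h⟩
  refine cone_core' hρ (z := f z) ?_ (fun h => h3 (h.of_hom f)) (hm.core ρ hρ)
  rintro ⟨_, v, rfl⟩ hv
  exact ρ.map_rel (hz v fun e => hv (by rw [e]; rfl))

open Finset Classical in
theorem col_card [Fintype V] {M : SimpleGraph V} {D : ℕ} (hD : ∀ v, #{u | ¬ M.Adj v u} ≤ D)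
    {W : Type} [DecidableEq W] (T : Finset V) (R : Finset W) (c : V → W) (hR : ∀ v ∈ T, c v ∈ R)
    (hc : ∀ a ∈ T, ∀ b ∈ T, M.Adj a b → c a ≠ c b) : #T ≤ #R * D := by
  rw [card_eq_sum_card_fiberwise (f := c) (t := R) hR]
  refine sum_le_card_nsmul _ _ D fun w _ => ?_
  rcases ({v ∈ T | c v = w} : Finset V).eq_empty_or_nonempty with h | ⟨v, hv⟩
  · simp [h]
  · refine le_trans (card_le_card fun u hu => ?_) (hD v)
    simp only [mem_filter, mem_univ, true_and] at hu hv ⊢
    exact fun k => hc _ hv.1 _ hu.1 k (hv.2.trans hu.2.symm)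

open Finset Classical in
theorem dense_core [Fintype V] {M : SimpleGraph V} (hM : IsCore M) {D : ℕ}
    (hD : ∀ v, #{u | ¬ M.Adj v u} ≤ D) (hn : (D + 3) * D < Fintype.card V) :
    ¬ Multiplicative M := by
  intro hm
  obtain ⟨z⟩ : Nonempty V := Fintype.card_pos_iff.1 (by omega)
  have hs : ∀ y, ∃ s, y ≠ z → M.Adj z s ∧ ¬ M.Adj y s := fun y => by
    by_contra k
    push Not at k
    exact (k y).1 (hM.stiff fun u hu => (k u).2 hu)
  choose s hs using hs
  let Y : Finset V := {y | y ≠ z ∧ ¬ M.Adj z y}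
  have hY : #(Y.image s) ≤ D := card_image_le.trans (le_trans (card_le_card fun y hy => by
    simpa using (mem_filter.1 hy).2.2) (hD z))
  let S : Set V := Y.image s
  have hz : ∀ t ∈ S, M.Adj z t := fun t ht => by
    obtain ⟨y, h1, rfl⟩ := mem_image.1 (mem_coe.1 ht)
    exact (hs y (mem_filter.1 h1).2.1).1
  have hW : WM M (Nat.card V) := fun A _ G hG => exists_phi hM hm G hG
  refine cone_WM (z := ⟨z, hz⟩) (fun v hv => by_contra fun k => ?_) (fun ⟨c⟩ => ?_) (hW.nbhd S)
  · have h1 : v.1 ≠ z := fun e => hv (Subtype.ext e)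
    exact (hs v.1 h1).2 (v.2 _ (mem_coe.2 (mem_image_of_mem s (mem_filter.2 ⟨mem_univ _, h1, k⟩))))
  · let T : Finset V := {v | ∀ t ∈ S, M.Adj v t}
    have h1 := col_card hD T univ (fun v => if h : ∀ t ∈ S, M.Adj v t then c ⟨v, h⟩ else 0)
      (fun _ _ => mem_univ _) fun a ha b hb hab => by
        rw [dif_pos (mem_filter.1 ha).2, dif_pos (mem_filter.1 hb).2]
        exact c.valid hab
    have h2 := card_biUnion_le_card_mul (Y.image s) (fun t => ({u | ¬ M.Adj t u} : Finset V)) D
      fun t _ => hD t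
    have h3 : #Tᶜ ≤ #((Y.image s).biUnion fun t => ({u | ¬ M.Adj t u} : Finset V)) :=
      card_le_card fun v hv => by
        simp only [T, mem_compl, mem_filter, mem_univ, true_and, not_forall, mem_biUnion] at hv ⊢
        obtain ⟨t, h1, h2⟩ := hv
        exact ⟨t, mem_coe.1 h1, fun k => h2 k.symm⟩
    have h4 := card_add_card_compl T
    have h5 := Nat.mul_le_mul_right D hY
    simp only [card_univ, Fintype.card_fin] at h1
    rw [Nat.add_mul] at hn
    omega

open Finset Classical in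
/-- Graphs with a sparse complement are not multiplicative. -/
theorem dense_det [Fintype V] {M : SimpleGraph V} {D : ℕ} (hD : ∀ v, #{u | ¬ M.Adj v u} ≤ D)
    (hn : (D + 3) * D * D < Fintype.card V) : ¬ Multiplicative M := by
  intro hm
  obtain ⟨ρ, hρ⟩ := exists_core M
  let f : M →g M.induce (Set.range ρ) := ⟨fun v => ⟨ρ v, v, rfl⟩, fun h => ρ.map_rel h⟩
  let g : M.induce (Set.range ρ) →g M := ⟨Subtype.val, fun h => h⟩
  have h1 := col_card hD univ univ f (fun _ _ => mem_univ _) fun a _ b _ h => (f.map_rel h).ne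
  refine dense_core hρ (D := D) (fun v => le_trans ?_ (hD v.1)) ?_ (hm.of_equiv f g)
  · exact card_le_card_of_injOn Subtype.val (fun u hu => by simpa using hu)
      fun _ _ _ _ e => Subtype.ext e
  · exact Nat.lt_of_mul_lt_mul_right (hn.trans_le h1)

end Pool.Agent.Lib.NMX.AA
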