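import Pool.Agent.Lib.NMX.Cone

set_option autoImplicit false

namespace Pool.Agent.Lib.NMX.AA

variable {V : Type}

/-- any two vertices have a common neighbour that misses a third vertex -/
def Ext (M : SimpleGraph V) : Prop :=
  ∀ a b m, m ≠ a → m ≠ b → ∃ u, u ≠ m ∧ M.Adj u a ∧ M.Adj u b ∧ ¬ M.Adj u m

theorem Ext.cl {M : SimpleGraph V} (h : Ext M) {a b m : V} (hc : Cl M a b m) : m = a ∨ m = b := by
  by_contra k
  push Not at k
  obtain ⟨u, -, h1, h2, h3⟩ := h a b m k.1 k.2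
  exact h3 (hc u h1.symm h2.symm).symm

theorem Ext.step {M : SimpleGraph V} (h : Ext M) {β : ℕ → V → V → V} (hβ : Chain M β) {i : ℕ}
    {a b e d : V} (h0 : β i a b = b) (h1 : M.Adj a e) (h2 : M.Adj a d) (h3 : M.Adj b d)
    (h4 : ¬ M.Adj b e) : β (i + 1) e d = d := by
  have := hβ.2 i a b e d h1 h2 h3
  rw [h0] at this
  exact (h.cl (hβ.cl (i + 1) e d)).resolve_left fun k => h4 (k ▸ this)

theorem Ext.two {M : SimpleGraph V} (h : Ext M) {β : ℕ → V → V → V} (hβ : Chain M β)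
    {a b e : V} (h0 : β 0 a b = b) (hab : b ≠ a) (h1 : b ≠ e) (h2 : e ≠ a) : β 2 e a = a := by
  obtain ⟨x, -, x1, x2, x3⟩ := h a e b hab h1
  obtain ⟨y, -, y1, y2, y3⟩ := h a b e h2 h1.symm
  exact h.step hβ (h.step hβ h0 x1.symm y1.symm y2.symm fun k => x3 k.symm) x2 x1 y1 y3

/-- A core with the extension property is not multiplicative. -/
theorem ext_not_mult [Finite V] [Nontrivial V] {M : SimpleGraph V} (hM : IsCore M) (h : Ext M) :
    ¬ Multiplicative M := by
  obtain ⟨a0, b0, h0⟩ := exists_pair_ne V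
  obtain ⟨u, -, u1, -⟩ := h a0 a0 b0 h0.symm h0.symm
  obtain ⟨v, v0, v1, -⟩ := h u u a0 u1.ne' u1.ne'
  refine engine hM 2 (fun β hβ hI a b c ha hb => ?_) (fun β hβ hS a b c ha hb => ?_)
    v0.symm u1.symm v1
  · by_contra k
    have e := (h.cl (hβ.cl 0 a b)).resolve_left k
    have hab : b ≠ a := fun t => k (e.trans t)
    obtain ⟨x, x0, x1, x2, -⟩ := h a c b hab hb.ne
    have := hI 2 le_rfl c a x a x2.symm x1.symm ha.symm
    rw [h.two hβ e hab hb.ne ha.ne', h.two hβ e hab x0.symm x1.ne] at this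
    exact this.ne rfl
  · by_contra k
    have e := (h.cl (hβ.cl 0 a b)).resolve_left k
    have hab : b ≠ a := fun t => k (e.trans t)
    obtain ⟨x, -, x1, -, x2⟩ := h a a b hab hab
    obtain ⟨y, y0, y1, y2, -⟩ := h a b c ha.ne' hb.ne'
    obtain ⟨m, m0, m1, m2⟩ := hS 0 (by omega) a b x c y x1.symm ha y1.symm hb y2.symm
    rw [e] at m0
    have hx : m ≠ x := fun t => x2 (t ▸ m0.symm)
    exact y0 (((h.cl m2).resolve_left hx).symm.trans ((h.cl m1).resolve_left hx))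

end Pool.Agent.Lib.NMX.AA
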