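import Pool.Agent.Lib.NMX.AAProb
import Pool.Agent.Lib.NMX.AACore
import Pool.Agent.Lib.NMX.AAExt

set_option autoImplicit false

namespace Pool.Agent.Lib.NMX.AA

open unitInterval Finset Classical

variable {n : ℕ} {p : I}

theorem Pr_join {V : Type} [Finite V] (u m : V) (A : Finset V) (hu : u ∉ A) (hm : m ∉ A)
    (h : u ≠ m) : Pr p {M : SimpleGraph V | (∀ a ∈ A, M.Adj u a) ∧ ¬ M.Adj u m} =
      (p : ℝ) ^ #A * (1 - p) := by
  have inj : Function.Injective fun a : V => s(u, a) := fun a b e => Sym2.congr_right.1 e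
  have h1 := Pr_all (p := p) (A.image fun a => s(u, a)) fun e he => by
    obtain ⟨a, ha, rfl⟩ := mem_image.1 he
    exact fun k => hu (Sym2.mk_isDiag_iff.1 k ▸ ha)
  rw [card_image_of_injective _ inj] at h1
  have d1 : Dep (A.image fun a => s(u, a) : Finset _)
      {M : SimpleGraph V | ∀ e ∈ A.image fun a => s(u, a), e ∈ M.edgeSet} :=
    fun M M' e k x hx => (e x hx).1 (k x hx)
  have d2 : Dep {s(u, m)} {M : SimpleGraph V | M.Adj u m}ᶜ := (dep_edge s(u, m)).compl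
  rw [← h1, ← Pr_adj (p := p) h, ← Pr_compl, ← indep2 d1 d2]
  · congr 1
    ext M
    simp
  · rw [Set.disjoint_singleton_right]
    intro k
    obtain ⟨a, ha, e⟩ := mem_image.1 (mem_coe.1 k)
    exact hm (inj e ▸ ha)

theorem prob_join (A : Finset (Fin n)) (m : Fin n) (hm : m ∉ A) :
    Pr p {M : SimpleGraph (Fin n) | ¬ ∃ u, u ≠ m ∧ (∀ a ∈ A, M.Adj u a) ∧ ¬ M.Adj u m} ≤
      Real.exp (-((n - (#A + 1)) * ((p : ℝ) ^ #A * (1 - p)))) := by
  refine le_trans (Pr_mono (T := {M | ∀ u ∈ (insert m A)ᶜ, M ∉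
    {M : SimpleGraph (Fin n) | (∀ a ∈ A, M.Adj u a) ∧ ¬ M.Adj u m}}) fun M hM u hu k =>
      hM ⟨u, fun e => by simp [e] at hu, k⟩)
    ((Pr_none _ (fun u => {e | ∃ x ∈ insert m A, e = s(u, x)}) _ (fun u _ M M' e k => ?_)
      (fun u hu v hv k => ?_) (fun _ => (p : ℝ) ^ #A * (1 - p)) fun u hu => ?_).trans
      (le_of_eq ?_))
  · exact ⟨fun a ha => (e s(u, a) ⟨a, by simp [ha], rfl⟩).1 (k.1 a ha),
      fun t => k.2 ((e s(u, m) ⟨m, by simp, rfl⟩).2 t)⟩
  · refine Set.disjoint_left.2 ?_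
    rintro _ ⟨x, hx, rfl⟩ ⟨y, hy, e⟩
    rcases Sym2.eq_iff.1 e with e | e
    · exact k e.1
    · exact mem_compl.1 hu (e.1 ▸ hy)
  · simp only [mem_compl, mem_insert, not_or] at hu
    exact (Pr_join u m A hu.2 hm hu.1).ge
  · rw [sum_const, card_compl, Fintype.card_fin, nsmul_eq_mul, card_insert_of_notMem hm,
      Nat.cast_sub (by simpa [hm] using card_finset_fin_le (insert m A))]
    push_cast
    rfl

theorem prob_ext (hL : 1 ≤ Real.log n) (hp : 7 * Real.log n ≤ n * (p : ℝ) ^ 2 * (1 - p)) :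
    Pr p {M : SimpleGraph (Fin n) | ¬ Ext M} ≤ 1 / n := by
  have p0 : (0 : ℝ) ≤ p := p.2.1
  have p1 : (p : ℝ) ≤ 1 := p.2.2
  have n0 : (0 : ℝ) < n := by
    rcases Nat.eq_zero_or_pos n with h | h
    · rw [h] at hL; norm_num at hL
    · exact_mod_cast h
  refine (Pr_le_card (univ.filter fun x : Fin n × Fin n × Fin n =>
    x.2.2 ∉ ({x.1, x.2.1} : Finset (Fin n))) _ (fun x => {M : SimpleGraph (Fin n) |
    ¬ ∃ u, u ≠ x.2.2 ∧ (∀ a ∈ ({x.1, x.2.1} : Finset (Fin n)), M.Adj u a) ∧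
      ¬ M.Adj u x.2.2}) (1 / n ^ 4) (fun M hM => ?_) fun x hx => ?_).trans ?_
  · simp only [Ext, Set.mem_ofPred_eq, not_forall] at hM
    obtain ⟨a, b, m, h1, h2, h4⟩ := hM
    refine ⟨(a, b, m), by simp [h1, h2], fun ⟨u, k1, k2, k3⟩ => h4 ⟨u, k1, ?_⟩⟩
    exact ⟨k2 a (by simp), k2 b (by simp), k3⟩
  · refine (prob_join _ _ (mem_filter.1 hx).2).trans ?_
    rw [one_div, ← Real.exp_log (pow_pos n0 4), ← Real.exp_neg, Real.log_pow]
    refine Real.exp_le_exp.2 (neg_le_neg ?_)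
    have a1 : #({x.1, x.2.1} : Finset (Fin n)) ≤ 2 := card_le_two
    generalize #({x.1, x.2.1} : Finset (Fin n)) = k at a1
    have a2 : (p : ℝ) ^ 2 * (1 - p) ≤ p ^ k * (1 - p) :=
      mul_le_mul_of_nonneg_right (pow_le_pow_of_le_one p0 p1 a1) (by linarith)
    have a3 : (k : ℝ) ≤ 2 := by exact_mod_cast a1
    have a4 : (p : ℝ) ^ k * (1 - p) ≤ 1 :=
      mul_le_one₀ (pow_le_one₀ p0 p1) (by linarith) (by linarith)
    have a5 := mul_le_mul_of_nonneg_left a2 n0.le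
    have a7 : 0 ≤ (p : ℝ) ^ k * (1 - p) := mul_nonneg (pow_nonneg p0 _) (by linarith)
    push_cast
    nlinarith
  · have := card_le_univ (univ.filter fun x : Fin n × Fin n × Fin n =>
      x.2.2 ∉ ({x.1, x.2.1} : Finset (Fin n)))
    simp only [Fintype.card_prod, Fintype.card_fin] at this
    calc _ ≤ (n * (n * n) : ℝ) * (1 / n ^ 4) := by gcongr; exact_mod_cast this
      _ = _ := by field_simp

/-- Dense binomial random graphs are not multiplicative. -/
theorem dense_not_mult (hL : 1 ≤ Real.log n)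
    (hp : 1008 * Real.log n ^ 3 ≤ n * (p : ℝ) ^ 3 * (1 - p)) :
    Pr p {M : SimpleGraph (Fin n) | Multiplicative M} ≤ Real.exp (1 / n) - 1 + 1 / n := by
  have : Nontrivial (Fin n) := Fin.nontrivial_iff_two_le.2 (by
    by_contra k
    have : n ≤ 1 := by omega
    interval_cases n <;> norm_num at hL)
  refine le_trans (Pr_mono fun M hM => ?_) ((Pr_union _ _).trans
    (add_le_add (prob_not_core p hL hp) (prob_ext hL ?_)))
  swap
  · have a1 : Real.log n ≤ Real.log n ^ 3 := le_self_pow₀ hL (by norm_num)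
    have a2 : (p : ℝ) ^ 3 ≤ p ^ 2 := pow_le_pow_of_le_one p.2.1 p.2.2 (by norm_num)
    have a3 := mul_le_mul_of_nonneg_right (mul_le_mul_of_nonneg_left a2 (Nat.cast_nonneg n))
      (sub_nonneg.2 p.2.2)
    linarith
  by_contra k
  simp only [Set.mem_union, Set.mem_ofPred_eq, not_or, not_not] at k
  exact ext_not_mult k.1 k.2 hM

end Pool.Agent.Lib.NMX.AA
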