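import Pool.Agent.Lib.NMX.AASpread
import Pool.Agent.Lib.NMX.AACore

set_option autoImplicit false

namespace Pool.Agent.Lib.NMX.AA

open Finset Classical

variable {V : Type} [Fintype V] {M : SimpleGraph V}

omit [Fintype V] in
theorem degen_col (D : ℕ) (R : Finset V) :
    (∀ T ⊆ R, T.Nonempty → ∃ v ∈ T, #{u ∈ T | M.Adj v u} ≤ D) →
      ∃ c : V → Fin (D + 1), ∀ a ∈ R, ∀ b ∈ R, M.Adj a b → c a ≠ c b := by
  induction R using Finset.strongInduction with
  | H R ih =>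
    intro h
    rcases R.eq_empty_or_nonempty with rfl | hR
    · exact ⟨fun _ => 0, by simp⟩
    obtain ⟨v, hv, hd⟩ := h R Subset.rfl hR
    obtain ⟨c, hc⟩ := ih (R.erase v) (erase_ssubset hv) fun T hT =>
      h T (hT.trans (erase_subset _ _))
    obtain ⟨i, -, hi⟩ := exists_mem_notMem_of_card_lt_card (s := ({u ∈ R | M.Adj v u}).image c)
      (t := univ) (lt_of_le_of_lt (card_image_le.trans hd) (by simp))
    refine ⟨fun u => if u = v then i else c u, fun a ha b hb hab => ?_⟩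
    by_cases h1 : a = v
    · subst h1
      simp only [if_true, if_neg hab.ne']
      exact fun k => hi (mem_image.2 ⟨b, mem_filter.2 ⟨hb, hab⟩, k.symm⟩)
    · by_cases h2 : b = v
      · subst h2
        simp only [if_true, if_neg h1]
        exact fun k => hi (mem_image.2 ⟨a, mem_filter.2 ⟨ha, hab.symm⟩, k⟩)
      · simp only [if_neg h1, if_neg h2]
        exact hc a (mem_erase.2 ⟨h1, ha⟩) b (mem_erase.2 ⟨h2, hb⟩) hab

theorem core_of_exp {K l σ τ σ' τ' D : ℕ} (hK : Codeg M K) (h1 : Exp1 M l) (h2 : Exp2 M σ τ)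
    (h3 : Exp2 M σ' τ') (hσ : 4 * (τ + (K + 1) * σ) < Fintype.card V) (hl : K + 3 ≤ l)
    (hσ' : 4 * ((K + 1) * (τ' + σ')) ≤ Fintype.card V)
    (hD : ∀ T : Finset V, #T ≤ (K + 1) * σ' → T.Nonempty → ∃ v ∈ T, #{u ∈ T | M.Adj v u} ≤ D)
    (hα : ∀ T : Finset V, (∀ a ∈ T, ∀ b ∈ T, ¬ M.Adj a b) → (D + 1) * #T < Fintype.card V) :
    IsCore M := by
  by_contra hc
  obtain ⟨f, hf, hid, hh⟩ := exists_retraction hc
  let S : Finset V := {v | f v ≠ v}
  have hS : ∀ t ∈ S, #{e | M.Adj t e ∧ e ∉ S} ≤ K := fun t ht =>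
    le_trans (card_le_card fun e he => by
      simp only [S, mem_filter, mem_univ, true_and, not_not] at he ⊢
      exact ⟨he.1, he.2 ▸ hh _ _ he.1⟩) (hK t (f t) (mem_filter.1 ht).2.symm)
  have S0 : 0 < #S := by
    obtain ⟨v, hv⟩ := Function.ne_iff.1 hid
    exact card_pos.2 ⟨v, mem_filter.2 ⟨mem_univ _, hv⟩⟩
  have S1 : Fintype.card V < 4 * #S := by
    by_contra k
    have := shrink (ρ := 2) h1 h2 S S hS (by omega) hσ (by omega)
    omega
  have S2 : #Sᶜ ≤ (K + 1) * σ' := by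
    by_contra k
    have a1 := spread (K := 0) h3 (fun _ _ => True) (K + 1) Sᶜ (by simp) (by omega)
    simp only [zero_add, one_mul] at a1
    have : #S ≤ (K + 1) * (τ' + σ') := le_trans (card_le_card fun e he => by
      simp only [mem_filter, mem_univ, true_and, and_true]
      refine Nat.lt_succ_iff.2 (le_trans (card_le_card fun x hx => ?_) (hS e he))
      simp only [mem_filter, mem_compl, mem_univ, true_and] at hx ⊢
      exact ⟨hx.2.symm, hx.1⟩) a1
    omega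
  obtain ⟨c, hc⟩ := degen_col (M := M) D Sᶜ fun T hT => hD T ((card_le_card hT).trans S2)
  have hR : ∀ v, f v ∈ Sᶜ := fun v => by simp [S, hf]
  have a1 : #(univ : Finset V) = ∑ i : Fin (D + 1), #{v | c (f v) = i} :=
    card_eq_sum_card_fiberwise fun _ _ => by simp
  have a2 : ∑ i : Fin (D + 1), (D + 1) * #{v | c (f v) = i} <
      ∑ _i : Fin (D + 1), Fintype.card V :=
    sum_lt_sum_of_nonempty univ_nonempty fun i _ => hα _ fun a ha b hb hab =>
      hc _ (hR a) _ (hR b) (hh _ _ hab) ((mem_filter.1 ha).2.trans (mem_filter.1 hb).2.symm)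
  rw [← mul_sum, ← a1] at a2
  simp at a2

/-- few neighbours of `d` lie on a four-cycle with the edge `d z` -/
theorem free_of_thin {K K2 Φ δ : ℕ} (hδ : ∀ v, δ ≤ #{u | M.Adj v u})
    (h : ∀ d z, M.Adj d z → #{b | M.Adj d b ∧ ∃ m, m ≠ d ∧ M.Adj z m ∧ M.Adj b m} ≤ K2)
    (hΦ : 2 * Φ + K * (K2 + 1) ≤ δ) : Free M K Φ := by
  intro d t _ Z _ hZ
  have a1 := card_biUnion_le_card_mul {z ∈ Z | M.Adj d z}
    (fun z => ({b | M.Adj d b ∧ ∃ m, m ≠ d ∧ M.Adj z m ∧ M.Adj b m} : Finset V)) K2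
    fun z hz => h d z (mem_filter.1 hz).2
  have a2 : #{z ∈ Z | M.Adj d z} * K2 ≤ K * K2 :=
    Nat.mul_le_mul_right _ ((card_filter_le _ _).trans hZ)
  have a3 := (hδ d).trans ((card_le_card (t := (({b | M.Adj d b ∧ b ∉ Z ∧ ∀ z ∈ Z, M.Adj d z →
      ¬ Cl M t b z ∨ ∀ m, M.Adj z m → M.Adj b m → m = d} : Finset V) ∪ Z) ∪
      ({z ∈ Z | M.Adj d z}).biUnion fun z =>
        ({b | M.Adj d b ∧ ∃ m, m ≠ d ∧ M.Adj z m ∧ M.Adj b m} : Finset V)) fun b hb => by
    simp only [mem_filter, mem_univ, true_and, mem_union, mem_biUnion] at hb ⊢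
    by_contra k
    push Not at k
    obtain ⟨z, z1, z2, -, m, z3, z4, z5⟩ := k.1.1 hb k.1.2
    exact k.2 z ⟨z1, z2⟩ hb m z5 z3 z4).trans ((card_union_le _ _).trans
      (Nat.add_le_add_right (card_union_le _ _) _)))
  rw [Nat.mul_add] at hΦ
  omega

/-- many neighbours of `d` lie on a four-cycle with the edge `d t` -/
theorem free_of_fat {K Φ Φ' : ℕ} (hK : Codeg M K)
    (h : ∀ d t, M.Adj d t → Φ' ≤ #{b | M.Adj d b ∧ ∃ y, y ≠ d ∧ M.Adj t y ∧ M.Adj b y})
    (hΦ : 2 * Φ + K + K * (K * K) ≤ Φ') : Free M K Φ := by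
  intro d t hdt Z ht hZ
  have a1 := card_biUnion_le_card_mul Z (fun z => ({y | M.Adj t y ∧ M.Adj z y} : Finset V)) K
    fun z hz => hK t z fun k => ht (k ▸ hz)
  set Y := Z.biUnion fun z => ({y | M.Adj t y ∧ M.Adj z y} : Finset V) with hY
  have a2 := card_biUnion_le_card_mul (Y.erase d)
    (fun y => ({b | M.Adj d b ∧ M.Adj y b} : Finset V)) K
    fun y hy => hK d y (mem_erase.1 hy).1.symm
  have a3 : #(Y.erase d) * K ≤ K * K * K := Nat.mul_le_mul_right _
    (card_erase_le.trans (a1.trans (Nat.mul_le_mul_right _ hZ)))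
  have a4 := (h d t hdt).trans ((card_le_card (t := (({b | M.Adj d b ∧ b ∉ Z ∧ ∀ z ∈ Z,
      M.Adj d z → ¬ Cl M t b z ∨ ∀ m, M.Adj z m → M.Adj b m → m = d} : Finset V) ∪ Z) ∪
      (Y.erase d).biUnion fun y => ({b | M.Adj d b ∧ M.Adj y b} : Finset V)) fun b hb => by
    simp only [hY, mem_filter, mem_univ, true_and, mem_union, mem_biUnion, mem_erase] at hb ⊢
    obtain ⟨b1, y, b2, b3, b4⟩ := hb
    by_contra k
    push Not at k
    obtain ⟨z, z1, -, z2, -⟩ := k.1.1 b1 k.1.2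
    exact k.2 y ⟨b2, z, z1, b3, z2 y b3 b4⟩ b1 b4.symm).trans ((card_union_le _ _).trans
      (Nat.add_le_add_right (card_union_le _ _) _)))
  rw [← Nat.mul_assoc] at hΦ
  omega

end Pool.Agent.Lib.NMX.AA
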