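import Pool.Agent.Lib.NMX.AAThin
import Pool.Agent.Lib.NMX.AASCore

set_option autoImplicit false

namespace Pool.Agent.Lib.NMX.AA

open unitInterval Finset Classical

variable {n : ℕ} {p : I}

theorem ceil_two {x : ℝ} (h : 1 ≤ x) : (⌈x⌉₊ : ℝ) ≤ 2 * x := by
  linarith [Nat.ceil_lt_add_one (zero_le_one.trans h)]

theorem floor_two {x : ℝ} (h : 1 ≤ x) : x ≤ 2 * ⌊x⌋₊ := by
  have h1 := Nat.lt_floor_add_one x
  have h2 : (1 : ℝ) ≤ ⌊x⌋₊ := by exact_mod_cast Nat.le_floor (by simpa using h)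
  linarith

theorem sparse_exp1 {M : SimpleGraph (Fin n)} {y : ℝ} (hL : 1 ≤ Real.log n)
    (hy : 10 ^ 6 * Real.log n ≤ y) (hd : y ^ 19 ≤ n * (p : ℝ)) (hX : XP p M) :
    Exp1 M ⌊n * (p : ℝ) / y⌋₊ := by
  have y0 : 0 < y := by linarith
  refine hX.exp1 hL ?_
  have h1 : (⌊n * (p : ℝ) / y⌋₊ : ℝ) ≤ n * p / y := Nat.floor_le (by have := p.2.1; positivity)
  have h2 : y ≤ y ^ 19 := le_self_pow₀ (by linarith) (by norm_num)
  rw [le_div_iff₀ y0] at h1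
  have h3 : (0 : ℝ) ≤ ⌊n * (p : ℝ) / y⌋₊ := Nat.cast_nonneg _
  nlinarith

theorem sparse_core {M : SimpleGraph (Fin n)} {y : ℝ} (hL : 1 ≤ Real.log n)
    (hy : 10 ^ 6 * Real.log n ≤ y) (hn : (n : ℝ) = y ^ 90) (hd : y ^ 19 ≤ n * (p : ℝ)) {K : ℕ}
    (hK : 8 * (K : ℝ) ≤ y) (hX : XP p M) (hC : Codeg M K)
    (hD : ∀ T : Finset (Fin n), #T ≤ (K + 1) * ⌈y ^ 3 / p⌉₊ → T.Nonempty →
      ∃ v ∈ T, #{u ∈ T | M.Adj v u} ≤ ⌈4 * y ^ 4⌉₊) : IsCore M := by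
  have y1 : 10 ^ 6 ≤ y := by linarith
  have y0 : 0 < y := by linarith
  have p0 : (0 : ℝ) < p := by
    by_contra k
    rw [le_antisymm (not_lt.1 k) p.2.1, mul_zero] at hd
    exact absurd hd (not_le.2 (by positivity))
  have o : ∀ k : ℕ, 1 ≤ y ^ k := fun k => one_le_pow₀ (by linarith)
  have a1 : y ^ 3 / p ≤ y ^ 74 := by
    rw [div_le_iff₀ p0]
    refine le_of_mul_le_mul_left ?_ (pow_pos y0 16)
    rw [hn] at hd
    nlinarith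
  have a0 : 1 ≤ y ^ 3 / p := by
    rw [le_div_iff₀ p0]
    linarith [o 3, p.2.2]
  have a2 := ceil_two a0
  have a3 := ceil_two (o 88)
  have a4 : y ^ 74 ≤ y ^ 88 := pow_le_pow_right₀ (by linarith) (by norm_num)
  have K0 : (0 : ℝ) ≤ K := K.cast_nonneg
  have hE : Exp2 M ⌈y ^ 3 / p⌉₊ ⌈y ^ 88⌉₊ := hX.exp2 hL (Nat.ceil_pos.2 (by linarith)) (by
    have b1 := Nat.le_ceil (y ^ 3 / p)
    rw [div_le_iff₀ p0] at b1
    have b2 := mul_le_mul b1 (Nat.le_ceil (y ^ 88)) (by positivity) (by positivity)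
    have b3 := mul_le_mul_of_nonneg_right (show 4 * Real.log n ≤ y by linarith) n.cast_nonneg
    nth_rewrite 3 [hn] at b3
    nlinarith)
  have a5 : (4 : ℝ) * ((K + 1) * (⌈y ^ 88⌉₊ + ⌈y ^ 3 / p⌉₊)) < y ^ 90 := by
    have b1 : ((K : ℝ) + 1) * (⌈y ^ 88⌉₊ + ⌈y ^ 3 / p⌉₊) ≤ y * (4 * y ^ 88) :=
      mul_le_mul (by linarith) (by linarith) (by positivity) y0.le
    nlinarith [o 89]
  rw [← hn] at a5
  have a6 : 4 * ((K + 1) * (⌈y ^ 88⌉₊ + ⌈y ^ 3 / p⌉₊)) < n := by exact_mod_cast a5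
  refine core_of_exp hC (sparse_exp1 hL hy hd hX) hE hE ?_ (Nat.le_floor ?_) ?_ hD
    (hX.indep hL ?_)
  · rw [Fintype.card_fin]
    nlinarith [Nat.zero_le (K * ⌈y ^ 88⌉₊)]
  · rw [le_div_iff₀ y0]
    have : y ^ 2 ≤ y ^ 19 := pow_le_pow_right₀ (by linarith) (by norm_num)
    push_cast
    nlinarith
  · rw [Fintype.card_fin]
    exact a6.le
  · have b1 := ceil_two (x := 4 * y ^ 4) (by linarith [o 4])
    have b2 : ((⌈4 * y ^ 4⌉₊ : ℝ) + 1) ^ 2 ≤ (9 * y ^ 4) ^ 2 :=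
      pow_le_pow_left₀ (by positivity) (by linarith [o 4]) 2
    have b3 : y ^ 9 ≤ y ^ 19 := pow_le_pow_right₀ (by linarith) (by norm_num)
    have b4 := mul_le_mul (show 24 * Real.log n ≤ y / 81 by linarith) b2 (by positivity)
      (by positivity)
    nlinarith

theorem sparse_det {M : SimpleGraph (Fin n)} {y : ℝ} (hL : 1 ≤ Real.log n)
    (hy : 10 ^ 6 * Real.log n ≤ y) (hn : (n : ℝ) = y ^ 90) (hd : y ^ 19 ≤ n * (p : ℝ))
    {K Δ Φ a : ℕ} (ha : 1 ≤ a) (ha' : y ^ (2 * a + 6) ≤ n * (p : ℝ))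
    (hK : 8 * (K : ℝ) ≤ y) (hΔ : (Δ : ℝ) ≤ 4 * (n * p)) (hΦ : n * (p : ℝ) ≤ 2 * y ^ a * Φ)
    (hX : XP p M) (hC : Codeg M K) (hM : IsCore M) (h1 : ∀ v, #{u | M.Adj v u} ≤ Δ)
    (hF : Free M K Φ) (hc : Corner M) : ¬ Multiplicative M := by
  have y1 : 10 ^ 6 ≤ y := by linarith
  have y0 : 0 < y := by linarith
  have p0 : (0 : ℝ) ≤ p := p.2.1
  have o : ∀ k : ℕ, 1 ≤ y ^ k := fun k => one_le_pow₀ (by linarith)
  have K0 : (0 : ℝ) ≤ K := K.cast_nonneg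
  have F0 : (0 : ℝ) ≤ Φ := Φ.cast_nonneg
  have hY : y ≤ y ^ a := le_self_pow₀ (by linarith) (by omega)
  rw [show y ^ (2 * a + 6) = y ^ a * (y ^ a * y ^ 6) by ring] at ha'
  generalize y ^ a = Y at *
  have Y0 : 0 < Y := by linarith
  obtain ⟨s, hs⟩ : ∃ s : ℝ, (n : ℝ) = s * (Y * y ^ 4) := ⟨n / (Y * y ^ 4), by field_simp⟩
  have a1 : Y * y ^ 2 ≤ s * p := by
    refine le_of_mul_le_mul_left ?_ (show 0 < Y * y ^ 4 by positivity)
    rw [hs] at ha'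
    nlinarith
  have a0 : 1 ≤ Y * y ^ 2 := by nlinarith [o 2]
  have s1 : 1 ≤ s := by
    by_contra k
    nlinarith [p.2.2]
  have a2 : Y * y ^ 6 ≤ 2 * Φ := le_of_mul_le_mul_left (by linarith) Y0
  have a3 := ceil_two s1
  have a4 := ceil_two (x := s * y ^ 3) (by nlinarith [o 3])
  have a5 := ceil_two (x := Y * y) (by nlinarith)
  have a6 := Nat.le_ceil (Y * y)
  have hE : Exp2 M ⌈s⌉₊ ⌈s * y ^ 3⌉₊ := hX.exp2 hL (Nat.ceil_pos.2 (by linarith)) (by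
    have b1 := mul_le_mul (Nat.le_ceil s) (Nat.le_ceil (s * y ^ 3)) (by positivity) (by positivity)
    have b2 := mul_le_mul_of_nonneg_left b1 p0
    have b3 := mul_le_mul_of_nonneg_right a1 (show 0 ≤ s * y ^ 3 by positivity)
    have b4 := mul_le_mul_of_nonneg_right (show 4 * Real.log n ≤ y by linarith) n.cast_nonneg
    rw [hs] at b4 ⊢
    nlinarith)
  refine corner_not_mult hM hc (2 * 90 + 5) fun β hβ h0 t e u he hu =>
    second_proj hβ hC (K3 := ⌈Y * y⌉₊) (ρ := ⌈y⌉₊) h1 hF (sparse_exp1 hL hy hd hX) hE ?_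
      (Nat.le_floor ?_) ?_ ?_ (Nat.ceil_pos.2 (by linarith)) ?_ ?_ h0 he hu
  · have b1 : (K : ℝ) * Δ ≤ y / 8 * (8 * Y * Φ) :=
      mul_le_mul (by linarith) (by linarith) Δ.cast_nonneg (by positivity)
    have b2 := mul_le_mul_of_nonneg_right a6 F0
    exact_mod_cast (by linarith : (K : ℝ) * Δ ≤ ⌈Y * y⌉₊ * Φ)
  · rw [le_div_iff₀ y0]
    have b1 : y ^ 3 ≤ y ^ 19 := pow_le_pow_right₀ (by linarith) (by norm_num)
    have b2 := ceil_two (x := y) (by linarith)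
    have b3 : ((⌈y⌉₊ : ℝ) + K + 2) * y ≤ (3 * y) * y := mul_le_mul_of_nonneg_right (by linarith) y0.le
    push_cast
    nlinarith [o 2]
  · rw [Fintype.card_fin]
    exact_mod_cast hn.le.trans (pow_le_pow_left₀ y0.le (Nat.le_ceil y) 90)
  · exact_mod_cast (by nlinarith : (K : ℝ) ≤ ⌈Y * y⌉₊)
  · rw [Fintype.card_fin]
    have b1 : ((⌈Y * y⌉₊ : ℝ) + 1) * ⌈s⌉₊ ≤ (3 * (Y * y)) * (2 * s) :=
      mul_le_mul (by nlinarith) a3 (by positivity) (by positivity)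
    have b2 : ((K : ℝ) + 2) * (⌈s * y ^ 3⌉₊ + (⌈Y * y⌉₊ + 1) * ⌈s⌉₊) ≤
        y / 4 * (2 * (s * y ^ 3) + 3 * (Y * y) * (2 * s)) :=
      mul_le_mul (by linarith) (by linarith) (by positivity) (by positivity)
    have b3 : 2 * y ^ 4 + 6 * (Y * y ^ 2) < Y * y ^ 4 := by
      have c1 : 12 * (Y * y ^ 2) ≤ y ^ 2 * (Y * y ^ 2) :=
        mul_le_mul_of_nonneg_right (by nlinarith) (by positivity)
      have c2 : 4 * y ^ 4 < Y * y ^ 4 := mul_lt_mul_of_pos_right (by linarith) (by positivity)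
      nlinarith
    have b4 := mul_lt_mul_of_pos_left b3 (show 0 < s by linarith)
    exact_mod_cast (by rw [hs]; nlinarith :
      (4 : ℝ) * ((K + 2) * (⌈s * y ^ 3⌉₊ + (⌈Y * y⌉₊ + 1) * ⌈s⌉₊)) < n)
  · rw [Fintype.card_fin]
    have b1 : ((K : ℝ) + 1) * ⌈s⌉₊ ≤ y ^ 3 / 2 * (2 * s) :=
      mul_le_mul (by nlinarith [o 2]) a3 (by positivity) (by positivity)
    have b2 : ((⌈s * y ^ 3⌉₊ : ℝ) + (K + 1) * ⌈s⌉₊) * Δ ≤ (3 * (s * y ^ 3)) * (8 * Y * Φ) :=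
      mul_le_mul (by linarith) (by linarith) (by positivity) (by positivity)
    have b3 : 96 * (s * y ^ 3 * Y * Φ) ≤ y * (s * y ^ 3 * Y * Φ) :=
      mul_le_mul_of_nonneg_right (by linarith) (by positivity)
    have b4 : (n : ℝ) * (4 * K) ≤ n * Φ :=
      mul_le_mul_of_nonneg_left (by nlinarith [o 6]) n.cast_nonneg
    have b5 : (n : ℝ) * Φ = y * (s * y ^ 3 * Y * Φ) := by rw [hs]; ring
    exact_mod_cast (by nlinarith :
      (2 : ℝ) * ((⌈s * y ^ 3⌉₊ + (K + 1) * ⌈s⌉₊) * Δ + n * K) ≤ n * Φ)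

end Pool.Agent.Lib.NMX.AA
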