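import Pool.Agent.Lib.NMX.Engine

set_option autoImplicit false

namespace Pool.Agent.Lib.NMX.AA

open Finset Classical

variable {V : Type} [Fintype V] {M : SimpleGraph V}

/-- a set together with its neighbours -/
noncomputable def nb (M : SimpleGraph V) (S : Finset V) : Finset V :=
  {v | v ∈ S ∨ ∃ s ∈ S, M.Adj s v}

def Codeg (M : SimpleGraph V) (K : ℕ) : Prop :=
  ∀ a b, a ≠ b → #{u | M.Adj a u ∧ M.Adj b u} ≤ K

def Exp1 (M : SimpleGraph V) (l : ℕ) : Prop :=
  ∀ S : Finset V, Fintype.card V ≤ 2 * #(nb M S) ∨ l * #S ≤ #(nb M S)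

def Exp2 (M : SimpleGraph V) (σ τ : ℕ) : Prop :=
  ∀ S : Finset V, #S = σ → Fintype.card V ≤ #(nb M S) + τ

theorem nb_le (S T : Finset V) (K : ℕ) (h : ∀ t ∈ S, #{e | M.Adj t e ∧ e ∉ T} ≤ K) :
    #(nb M S) ≤ #T + (K + 1) * #S := by
  have h1 : nb M S ⊆ (T ∪ S) ∪ S.biUnion fun t => {e | M.Adj t e ∧ e ∉ T} := fun v hv => by
    simp only [nb, mem_filter, mem_univ, true_and, mem_union, mem_biUnion] at hv ⊢
    by_cases k : v ∈ T
    · exact Or.inl (Or.inl k)
    · exact hv.imp Or.inr fun ⟨s, a, b⟩ => ⟨s, a, b, k⟩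
  have h2 := card_biUnion_le_card_mul S _ K h
  have h3 := card_union_le T S
  have h4 := (card_le_card h1).trans (card_union_le _ _)
  nlinarith

theorem nb_le' (S : Finset V) (ok : V → V → Prop) (K : ℕ)
    (h : ∀ t ∈ S, #{e | M.Adj t e ∧ ¬ ok t e} ≤ K) :
    #(nb M S) ≤ #{e | ∃ t ∈ S, M.Adj t e ∧ ok t e} + (K + 1) * #S :=
  nb_le S _ K fun t ht => le_trans (card_le_card fun e he => by
    simp only [mem_filter, mem_univ, true_and, not_exists, not_and] at he ⊢
    exact ⟨he.1, he.2 t ht he.1⟩) (h t ht)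

theorem spread {σ τ K : ℕ} (hX : Exp2 M σ τ) (ok : V → V → Prop) (J : ℕ) :
    ∀ A : Finset V, (∀ t ∈ A, #{e | M.Adj t e ∧ ¬ ok t e} ≤ K) → J * σ ≤ #A →
      #{e | #{t ∈ A | M.Adj t e ∧ ok t e} < J} ≤ J * (τ + (K + 1) * σ) := by
  induction J with
  | zero => simp
  | succ J ih =>
    intro A h hA
    obtain ⟨S, hS, cS⟩ := exists_subset_card_eq (s := A) (n := σ) (by nlinarith)
    have h1 := ih (A \ S) (fun t ht => h t (mem_sdiff.1 ht).1)
      (by rw [card_sdiff_of_subset hS, cS]; rw [Nat.succ_mul] at hA; omega)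
    have h2 := nb_le' S ok K fun t ht => h t (hS ht)
    have h3 := hX S cS
    have h4 := card_filter_add_card_filter_not (s := (univ : Finset V))
      fun e => ∃ t ∈ S, M.Adj t e ∧ ok t e
    have h5 : ({e | #{t ∈ A | M.Adj t e ∧ ok t e} < J + 1} : Finset V) ⊆
        ({e | ¬ ∃ t ∈ S, M.Adj t e ∧ ok t e} : Finset V) ∪
          ({e | #{t ∈ A \ S | M.Adj t e ∧ ok t e} < J} : Finset V) := fun e he => by
      simp only [mem_filter, mem_univ, true_and, mem_union] at he ⊢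
      by_cases k : ∃ t ∈ S, M.Adj t e ∧ ok t e
      · obtain ⟨t, k1, k2⟩ := k
        refine Or.inr (lt_of_lt_of_le (card_lt_card ⟨fun x hx => ?_, fun hx => ?_⟩)
          (Nat.lt_succ_iff.1 he))
        · exact mem_filter.2 ⟨(mem_sdiff.1 (mem_filter.1 hx).1).1, (mem_filter.1 hx).2⟩
        · exact (mem_sdiff.1 (mem_filter.1 (hx (mem_filter.2 ⟨hS k1, k2⟩))).1).2 k1
      · exact Or.inl k
    have h6 := (card_le_card h5).trans (card_union_le _ _)
    rw [card_univ] at h4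
    rw [cS] at h2
    rw [Nat.succ_mul]
    omega

theorem shrink {l σ τ J ρ : ℕ} (h1 : Exp1 M l) (h2 : Exp2 M σ τ) (Z Z' : Finset V)
    (h : ∀ t ∈ Z', #{e | M.Adj t e ∧ e ∉ Z} ≤ J) (hZ : 4 * #Z ≤ Fintype.card V)
    (hσ : 4 * (τ + (J + 1) * σ) < Fintype.card V) (hl : ρ + J + 1 ≤ l) : ρ * #Z' ≤ #Z := by
  rcases le_or_gt σ #Z' with k | k
  · obtain ⟨S, hS, cS⟩ := exists_subset_card_eq k
    have a1 := nb_le S Z J fun t ht => h t (hS ht)
    have a2 := h2 S cS
    rw [cS] at a1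
    omega
  · have a1 := nb_le Z' Z J h
    have a2 : (J + 1) * #Z' ≤ (J + 1) * σ := Nat.mul_le_mul_left _ k.le
    rcases h1 Z' with a3 | a3
    · omega
    · nlinarith [Nat.mul_le_mul_right (#Z') hl]

/-- many neighbours `b` of `d` cannot be sent to a small set by the operation at `(t, b)` -/
def Free (M : SimpleGraph V) (K Φ : ℕ) : Prop :=
  ∀ d t, M.Adj d t → ∀ Z : Finset V, t ∉ Z → #Z ≤ K →
    2 * Φ ≤ #{b | M.Adj d b ∧ b ∉ Z ∧ ∀ z ∈ Z, M.Adj d z →
      ¬ Cl M t b z ∨ ∀ m, M.Adj z m → M.Adj b m → m = d}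

/-- the values different from `t` on the pairs `(t, b)` through `u` -/
noncomputable def ms (M : SimpleGraph V) (β : V → V → V) (t u : V) : Finset V :=
  {m | m ≠ t ∧ ∃ b, M.Adj b u ∧ β t b = m}

def Good (M : SimpleGraph V) (β : V → V → V) (t u : V) : Prop := (ms M β t u).Nonempty

def Rich (M : SimpleGraph V) (β : V → V → V) (K : ℕ) (t u : V) : Prop := K < #(ms M β t u)

section chain
variable {β : ℕ → V → V → V} (hβ : Chain M β) {K : ℕ} (hK : Codeg M K)
include hβ

theorem ms_adj {i : ℕ} {t u m : V} (h : M.Adj t u) (hm : m ∈ ms M (β i) t u) :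
    m ≠ t ∧ M.Adj m u ∧ ∀ e, M.Adj t e → M.Adj m (β (i + 1) e u) := by
  obtain ⟨h1, b, h2, rfl⟩ := (mem_filter.1 hm).2
  exact ⟨h1, hβ.cl i t b u h h2, fun e he => hβ.2 i t b e u he h h2⟩

include hK

theorem good_step {i : ℕ} {t : V} (h : ∃ u, M.Adj t u ∧ Good M (β i) t u) :
    #{e | M.Adj t e ∧ ¬ Good M (β (i + 1)) e t} ≤ K := by
  obtain ⟨u, hu, m, hm⟩ := h
  obtain ⟨h1, -, h3⟩ := ms_adj hβ hu hm
  refine le_trans (card_le_card fun e he => ?_) (hK t m h1.symm)
  simp only [mem_filter, mem_univ, true_and] at he ⊢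
  refine ⟨he.1, by_contra fun k => he.2 ⟨β (i + 1) e u, ?_⟩⟩
  simp only [ms, mem_filter, mem_univ, true_and]
  exact ⟨fun e' => k (e' ▸ h3 e he.1), u, hu.symm, rfl⟩

theorem rich_eq {i : ℕ} {t u e : V} (h : M.Adj t u) (hr : Rich M (β i) K t u)
    (he : M.Adj t e) : β (i + 1) e u = u := by
  by_contra k
  refine absurd (le_trans (card_le_card fun m hm => ?_) (hK _ _ k)) (not_le.2 hr)
  obtain ⟨-, h2, h3⟩ := ms_adj hβ h hm
  simpa using ⟨(h3 e he).symm, h2.symm⟩

theorem full_step {i : ℕ} {t e : V} (h : K + 2 ≤ #{u | M.Adj u t ∧ Rich M (β i) K t u})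
    (he : M.Adj t e) : Rich M (β (i + 1)) K e t := by
  have h1 : ({u | M.Adj u t ∧ Rich M (β i) K t u} : Finset V).erase e ⊆
      ms M (β (i + 1)) e t := fun u hu => by
    simp only [mem_erase, mem_filter, mem_univ, true_and, ms] at hu ⊢
    exact ⟨hu.1, u, hu.2.1, rich_eq hβ hK hu.2.1.symm hu.2.2 he⟩
  have h2 := card_le_card h1
  have h3 := pred_card_le_card_erase (s := ({u | M.Adj u t ∧ Rich M (β i) K t u} : Finset V))
    (a := e)
  unfold Rich at *
  omega

theorem fed_step {Δ Φ K3 i : ℕ} (hΔ : ∀ v, #{u | M.Adj v u} ≤ Δ) (hF : Free M K Φ)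
    (h3 : K * Δ ≤ K3 * Φ) {d : V} (h : #{b | M.Adj b d ∧ ¬ Good M (β i) d b} < Φ) :
    #{t | M.Adj d t ∧ ¬ Rich M (β (i + 1)) K t d} ≤ K3 := by
  have hm : ∀ b, ∃ m, Good M (β i) d b → m ∈ ms M (β i) d b := fun b => by
    by_cases k : Good M (β i) d b
    · exact ⟨k.choose, fun _ => k.choose_spec⟩
    · exact ⟨b, fun k' => absurd k' k⟩
  choose m hm using hm
  have key := card_mul_le_card_mul (fun t b => M.Adj t (m b))
    (s := ({t | M.Adj d t ∧ ¬ Rich M (β (i + 1)) K t d} : Finset V))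
    (t := ({b | M.Adj d b ∧ Good M (β i) d b} : Finset V)) (m := Φ) (n := K)
    (fun t ht => ?_) (fun b hb => ?_)
  · have a1 : #{b | M.Adj d b ∧ Good M (β i) d b} ≤ Δ :=
      le_trans (card_le_card fun b hb => by simpa using (mem_filter.1 hb).2.1) (hΔ d)
    have a2 := Nat.mul_le_mul_right K a1
    exact Nat.le_of_mul_le_mul_right (c := Φ) (by nlinarith) (by omega)
  · simp only [mem_filter, mem_univ, true_and, Rich, not_lt] at ht
    have a1 := hF d t ht.1 _ (by simp [ms]) ht.2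
    refine le_of_not_gt fun a2 => absurd (a1.trans ((card_le_card (t :=
      ({b | M.Adj b d ∧ ¬ Good M (β i) d b} : Finset V) ∪
        bipartiteAbove (fun t b => M.Adj t (m b))
          ({b | M.Adj d b ∧ Good M (β i) d b} : Finset V) t) fun b hb => ?_).trans
      (card_union_le _ _))) (by omega)
    simp only [mem_filter, mem_univ, true_and, mem_union, mem_bipartiteAbove] at hb ⊢
    obtain ⟨b1, b2, b3⟩ := hb
    by_cases k : Good M (β i) d b
    · refine Or.inr ⟨⟨b1, k⟩, by_contra fun k2 => ?_⟩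
      obtain ⟨c1, c2, c3⟩ := ms_adj hβ b1 (hm b k)
      have c4 := c3 t ht.1
      have hz : β (i + 1) t b ∈ ms M (β (i + 1)) t d := by
        simp only [ms, mem_filter, mem_univ, true_and]
        exact ⟨fun e => k2 (e ▸ c4.symm), b, b1.symm, rfl⟩
      rcases b3 _ hz (hβ.cl _ t b d ht.1.symm b1.symm).symm with k3 | k3
      · exact k3 (hβ.cl _ t b)
      · exact c1 (k3 _ c4.symm c2.symm)
    · exact Or.inl ⟨b1.symm, k⟩
  · simp only [mem_filter, mem_univ, true_and] at hb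
    refine le_trans (card_le_card fun t ht => ?_) (hK d (m b) (ms_adj hβ hb.1 (hm b hb.2)).1.symm)
    simp only [mem_bipartiteBelow, mem_filter, mem_univ, true_and] at ht ⊢
    exact ⟨ht.1.1, ht.2.symm⟩

theorem second_proj {Δ Φ K3 l σ τ ρ I : ℕ} (hΔ : ∀ v, #{u | M.Adj v u} ≤ Δ) (hF : Free M K Φ)
    (h1 : Exp1 M l) (h2 : Exp2 M σ τ) (h3 : K * Δ ≤ K3 * Φ) (hl : ρ + K + 2 ≤ l)
    (hI : Fintype.card V ≤ ρ ^ I) (hKK : K ≤ K3) (hσ : 0 < σ)
    (h4 : 4 * ((K + 2) * (τ + (K3 + 1) * σ)) < Fintype.card V)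
    (h5 : 2 * ((τ + (K + 1) * σ) * Δ + Fintype.card V * K) ≤ Fintype.card V * Φ)
    (h0 : ¬ Small M (β 0)) {t e u : V} (he : M.Adj t e) (hu : M.Adj t u) :
    β (2 * I + 5) e u = u := by
  set n := Fintype.card V with hn
  have b1 : (K + 1) * σ ≤ (K3 + 1) * σ := Nat.mul_le_mul_right _ (by omega)
  have b2 : 2 * (τ + (K3 + 1) * σ) ≤ (K + 2) * (τ + (K3 + 1) * σ) :=
    Nat.mul_le_mul_right _ (by omega)
  have b3 : (K + 2) * σ ≤ (K + 2) * (τ + (K3 + 1) * σ) := Nat.mul_le_mul_left _ (by nlinarith)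
  have b4 : σ ≤ (K + 1) * σ := Nat.le_mul_of_pos_left _ (by omega)
  let A : ℕ → Finset V := fun i => {t | ∃ u, M.Adj t u ∧ Good M (β i) t u}
  have hA : ∀ i, ∀ t ∈ A i, #{e | M.Adj t e ∧ ¬ Good M (β (i + 1)) e t} ≤ K :=
    fun i t ht => good_step hβ hK (mem_filter.1 ht).2
  have s1 : ∀ i, min σ (ρ ^ i) ≤ #(A i) := fun i => by
    induction i with
    | zero =>
      simp only [Small, not_forall] at h0
      obtain ⟨a, b, c, x1, x2, x3⟩ := h0
      exact (min_le_right _ _).trans (card_pos.2 ⟨a, mem_filter.2 ⟨mem_univ _, c, x1, β 0 a b,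
        mem_filter.2 ⟨mem_univ _, x3, b, x2, rfl⟩⟩⟩)
    | succ i ih =>
      obtain ⟨S, hS, cS⟩ := exists_subset_card_eq ih
      have a1 := nb_le' (M := M) S (fun t e => Good M (β (i + 1)) e t) K fun t ht => hA i t (hS ht)
      have a2 : #{e | ∃ t ∈ S, M.Adj t e ∧ Good M (β (i + 1)) e t} ≤ #(A (i + 1)) :=
        card_le_card fun e he => by
          obtain ⟨t, -, x1, x2⟩ := (mem_filter.1 he).2
          exact mem_filter.2 ⟨mem_univ _, t, x1.symm, x2⟩
      have a3 : (K + 1) * #S ≤ (K + 1) * σ := Nat.mul_le_mul_left _ (cS ▸ min_le_left _ _)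
      rcases h1 S with a4 | a4
      · exact (min_le_left _ _).trans (by omega)
      · have a5 : ρ * #S ≤ #(A (i + 1)) := by nlinarith [Nat.mul_le_mul_right (#S) hl]
        refine le_trans ?_ a5
        rw [cS]
        rcases le_total σ (ρ ^ i) with k | k
        · rw [min_eq_left k]
          rcases Nat.eq_zero_or_pos ρ with r | r
          · simp [r]
          · exact (min_le_left _ _).trans (Nat.le_mul_of_pos_left _ r)
        · rw [min_eq_right k, ← pow_succ']
          exact min_le_right _ _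
  have s2 : #(A (I + 1))ᶜ ≤ τ + (K + 1) * σ := by
    have a1 := spread h2 (fun t e => Good M (β (I + 1)) e t) 1 (A I) (hA I)
      (by have := s1 I; rw [min_eq_left (by omega)] at this; omega)
    rw [one_mul] at a1
    refine le_trans (card_le_card fun e he => ?_) a1
    simp only [mem_compl, A, mem_filter, mem_univ, true_and, Nat.lt_one_iff, card_eq_zero,
      filter_eq_empty_iff] at he ⊢
    exact fun t _ k => he ⟨t, k.1.symm, k.2⟩
  let W : Finset V := {d | #{b | M.Adj b d ∧ ¬ Good M (β (I + 2)) d b} < Φ}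
  have s3 : n ≤ 2 * #W := by
    have a1 : #Wᶜ * Φ ≤ ∑ d, #{b | M.Adj b d ∧ ¬ Good M (β (I + 2)) d b} := by
      refine le_trans ?_ (sum_le_sum_of_subset (subset_univ Wᶜ))
      exact card_nsmul_le_sum _ _ _ fun d hd => by simpa [W] using hd
    have a2 : ∑ d, #{b | M.Adj b d ∧ ¬ Good M (β (I + 2)) d b} =
        ∑ b, #{d | M.Adj b d ∧ ¬ Good M (β (I + 2)) d b} := by
      simp only [card_filter]
      exact sum_comm
    have a3 : ∑ b ∈ A (I + 1), #{d | M.Adj b d ∧ ¬ Good M (β (I + 2)) d b} ≤ n * K :=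
      (sum_le_card_nsmul _ _ K (hA (I + 1))).trans (Nat.mul_le_mul_right _ (card_le_univ _))
    have a4 : ∑ b ∈ (A (I + 1))ᶜ, #{d | M.Adj b d ∧ ¬ Good M (β (I + 2)) d b} ≤
        (τ + (K + 1) * σ) * Δ :=
      (sum_le_card_nsmul _ _ Δ fun b _ => le_trans (card_le_card fun d hd => by
        simpa using (mem_filter.1 hd).2.1) (hΔ b)).trans (Nat.mul_le_mul_right _ s2)
    rw [a2, ← sum_add_sum_compl (A (I + 1))] at a1
    have a5 := card_add_card_compl W
    rcases Nat.eq_zero_or_pos Φ with r | r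
    · have : Δ = 0 := by
        by_contra z
        have : 0 < (τ + (K + 1) * σ) * Δ := Nat.mul_pos (by omega) (by omega)
        rw [r] at h5
        omega
      have := (card_pos.2 ⟨e, by simpa using he⟩).trans_le (hΔ t)
      omega
    · have : 2 * #Wᶜ ≤ n := Nat.le_of_mul_le_mul_right (c := Φ) (by nlinarith) r
      omega
  let Z : ℕ → Finset V := fun i => {t | #{u | M.Adj u t ∧ Rich M (β i) K t u} < K + 2}
  have s4 : 4 * #(Z (I + 3)) < n := by
    have a1 := spread h2 (fun d t => Rich M (β (I + 3)) K t d) (K + 2) W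
      (fun d hd => fed_step hβ hK hΔ hF h3 (mem_filter.1 hd).2) (by omega)
    refine lt_of_le_of_lt (Nat.mul_le_mul_left _ (le_trans (card_le_card fun e he => ?_) a1)) h4
    simp only [Z, mem_filter, mem_univ, true_and] at he ⊢
    exact lt_of_le_of_lt (card_le_card fun x hx => by simpa using (mem_filter.1 hx).2) he
  have r0 : 0 < ρ ∨ I = 0 := by
    by_contra z
    push Not at z
    rw [show ρ = 0 by omega, zero_pow z.2] at hI
    omega
  have s5 : ∀ j ≤ I, ρ ^ j * (4 * #(Z (I + 3 + j))) < n := fun j => by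
    induction j with
    | zero => simpa using s4
    | succ j ih =>
      intro hj
      have a0 := ih (by omega)
      have a1 : 4 * #(Z (I + 3 + j)) ≤ ρ ^ j * (4 * #(Z (I + 3 + j))) :=
        Nat.le_mul_of_pos_left _ (pow_pos (by omega) _)
      have a2 := shrink (ρ := ρ) (J := K + 1) h1 h2 (Z (I + 3 + j)) (Z (I + 3 + j + 1))
        (fun t ht => ?_) (by omega) (by nlinarith) (by omega)
      · refine lt_of_le_of_lt ?_ a0
        rw [pow_succ, mul_assoc]
        exact Nat.mul_le_mul_left _ (by rw [← add_assoc]; nlinarith)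
      · refine Nat.lt_succ_iff.1 (lt_of_le_of_lt (card_le_card fun x hx => ?_)
          (mem_filter.1 ht).2)
        simp only [Z, mem_filter, mem_univ, true_and, not_lt] at hx ⊢
        exact ⟨hx.1.symm, full_step hβ hK hx.2 hx.1.symm⟩
  have s6 : Z (I + 3 + I) = ∅ := by
    have := s5 I le_rfl
    rw [← card_eq_zero]
    by_contra z
    nlinarith [Nat.pos_of_ne_zero z]
  have s7 : K + 2 ≤ #{x | M.Adj x u ∧ Rich M (β (I + 3 + I)) K u x} := by
    have : u ∉ Z (I + 3 + I) := by simp [s6]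
    simpa [Z] using this
  rw [show 2 * I + 5 = I + 3 + I + 1 + 1 by ring]
  exact rich_eq hβ hK hu (full_step hβ hK s7 hu.symm) he

end chain

/-- a cube minus a vertex that cannot be completed -/
def Corner (M : SimpleGraph V) : Prop :=
  ∃ w a b c x y z, M.Adj w a ∧ M.Adj w b ∧ M.Adj w c ∧ M.Adj x a ∧ M.Adj x b ∧ M.Adj y b ∧
    M.Adj y c ∧ M.Adj z a ∧ M.Adj z c ∧ ¬ ∃ m, M.Adj w m ∧ M.Adj x m ∧ M.Adj y m ∧ M.Adj z m

theorem corner_not_mult (hM : IsCore M) (hC : Corner M) (r : ℕ)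
    (h : ∀ β, Chain M β → ¬ Small M (β 0) → ∀ t e u, M.Adj t e → M.Adj t u → β r e u = u) :
    ¬ Multiplicative M := by
  obtain ⟨w, a, b, c, x, y, z, wa, wb, wc, xa, xb, yb, yc, za, zc, hm⟩ := hC
  have xc : ¬ M.Adj x c := fun k => hm ⟨c, wc, k, yc, zc⟩
  refine engine hM r (fun β hβ hI => by_contra fun k => ?_) (fun β hβ hS => by_contra fun k => ?_)
    (fun k : w = x => xc (k ▸ wc)) wa xa
  · have := hI r le_rfl w x a c wa xa wc
    rw [h β hβ k a w x wa.symm xa.symm, h β hβ k w a c wa wc] at this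
    exact xc this
  · obtain ⟨m, m0, m1, m2⟩ := hS r le_rfl w x c a b wc wa wb xa xb
    rw [h β hβ k a w x wa.symm xa.symm] at m0
    exact hm ⟨m, (m1 w wc.symm wa.symm).symm, m0, (m2 y yc.symm yb.symm).symm,
      (m1 z zc.symm za.symm).symm⟩

end Pool.Agent.Lib.NMX.AA
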