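import Pool.Agent.Lib.NMX.AACore2

set_option autoImplicit false

namespace Pool.Agent.Lib.NMX.AA

open unitInterval Finset Classical

variable {n : ℕ} {p : I}

theorem prob_nondeg (hL : 1 ≤ Real.log n) {D : ℕ}
    (hx : 3 * (n * (1 - (p : ℝ))) + 2 * Real.log n + 1 ≤ D) :
    Pr p {M : SimpleGraph (Fin n) | ¬ ∀ v, #{u | ¬ M.Adj v u} ≤ D} ≤ 1 / n := by
  refine (Pr_le_card univ _ (fun v : Fin n => {M : SimpleGraph (Fin n) | D < #{u | ¬ M.Adj v u}})
    (Real.exp (-(2 * Real.log n))) (fun M hM => by simpa using hM) fun v _ => ?_).trans ?_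
  · refine (upper' (univ.erase v) (fun u => {s(v, u)}) (fun u => {M | M.Adj v u}ᶜ) (1 - p) D _
      (fun u _ => (dep_adj _ _).compl) (fun i _ j _ k => ?_) (sub_nonneg.2 p.2.2)
      (fun u hu => by rw [Pr_compl, Pr_adj (mem_erase.1 hu).1.symm])
      fun M hM => ⟨({u | ¬ M.Adj v u} : Finset (Fin n)).erase v, erase_subset_erase _
        (subset_univ _), ?_, fun u hu => (mem_filter.1 (mem_erase.1 hu).2).2⟩).trans
      (Real.exp_le_exp.2 ?_)
    · exact Set.disjoint_singleton.2 fun e => k (Sym2.congr_right.1 e)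
    · exact Nat.cast_le.2 (le_trans (Nat.le_sub_one_of_lt hM) pred_card_le_card_erase)
    · have : (#(univ.erase v) : ℝ) ≤ n := by exact_mod_cast card_finset_fin_le _
      nlinarith [p.2.2]
  · simpa using pow_mul_exp hL 1 (x := 2 * Real.log n) (by norm_num)

/-- the event that `b` closes a four-cycle -/
def EB (d z : Fin n) (Y : Finset (Fin n)) (b : Fin n) : Set (SimpleGraph (Fin n)) :=
  {M | M.Adj b d} ∩ {M | ∃ m ∈ (Y.erase d).erase z, M.Adj b m}

theorem EB_dep (d z : Fin n) (Y : Finset (Fin n)) (b : Fin n) :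
    Dep {e | ∃ x ∈ insert d (Y.erase z), e = s(b, x)} (EB d z Y b) :=
  ((dep_adj _ _).mono (by simp)).inter ((dep_ex _ _).mono fun _ ⟨x, h1, h2⟩ => ⟨x, by
    simp only [mem_erase, mem_insert] at h1 ⊢
    exact Or.inr ⟨h1.1, h1.2.2⟩, h2⟩)

theorem EB_disj (d z : Fin n) (Y : Finset (Fin n)) :
    ∀ b ∈ (insert d (insert z Y))ᶜ, ∀ c ∈ (insert d (insert z Y))ᶜ, b ≠ c →
      Disjoint {e | ∃ x ∈ insert d (Y.erase z), e = s(b, x)}
        {e | ∃ x ∈ insert d (Y.erase z), e = s(c, x)} := fun b hb c _ k => by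
  refine Set.disjoint_left.2 ?_
  rintro _ ⟨x, -, rfl⟩ ⟨y, hy, e⟩
  rcases Sym2.eq_iff.1 e with e | e
  · exact k e.1
  · rw [← e.1] at hy
    simp only [mem_erase, mem_insert, mem_compl] at hy hb
    tauto

theorem EB_prob (d z : Fin n) (Y : Finset (Fin n)) {b : Fin n} (hb : b ∈ (insert d (insert z Y))ᶜ) :
    Pr p (EB d z Y b) = p * Pr p {M | ∃ m ∈ (Y.erase d).erase z, M.Adj b m} := by
  simp only [mem_insert, mem_compl, not_or] at hb
  rw [EB, indep2 (dep_adj _ _) (dep_ex _ _), Pr_adj hb.1]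
  rw [Set.disjoint_singleton_left]
  rintro ⟨v, h2, e⟩
  rw [← Sym2.congr_right.1 e] at h2
  simp at h2

theorem EB_dep' {d z : Fin n} (h : d ≠ z) (Y : Finset (Fin n)) {b : Fin n}
    (hb : b ∈ (insert d (insert z Y))ᶜ) : Dep {e | z ∉ e} (EB d z Y b) :=
  (EB_dep d z Y b).mono (by
    rintro _ ⟨x, h1, rfl⟩
    simp only [mem_erase, mem_insert, mem_compl, not_or] at h1 hb
    simp only [Set.mem_ofPred_eq, Sym2.mem_iff, not_or]
    exact ⟨fun e => hb.2.1 e.symm, fun e => h1.elim (fun t => h (t ▸ e.symm)) fun t => t.1 e.symm⟩)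

theorem prob_thin (hL : 1 ≤ Real.log n) {K Δ X : ℕ}
    (hx : 3 * (n * ((p : ℝ) * (Δ * (p : ℝ)))) + 3 * Real.log n ≤ X) :
    Pr p {M : SimpleGraph (Fin n) | Codeg M K ∧ (∀ v, #{u | M.Adj v u} ≤ Δ) ∧ ¬ ∀ d z, M.Adj d z →
      #{b | M.Adj d b ∧ ∃ m, m ≠ d ∧ M.Adj z m ∧ M.Adj b m} ≤ K + X} ≤ 1 / n := by
  let B : Fin n × Fin n → Finset (Fin n) → Set (SimpleGraph (Fin n)) := fun v Y =>
    {M | #Y ≤ Δ ∧ ∃ T ⊆ (insert v.1 (insert v.2 Y))ᶜ, (X : ℝ) ≤ #T ∧ ∀ b ∈ T, M ∈ EB v.1 v.2 Y b}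
  refine (Pr_le_card (univ.offDiag) _ (fun v => {M | M ∈ B v {y | M.Adj v.2 y}})
    (Real.exp (-(3 * Real.log n))) (fun M hM => ?_) fun v hv => ?_).trans ?_
  · obtain ⟨h1, h2, h3⟩ := hM
    simp only [not_forall, not_le] at h3
    obtain ⟨d, z, h4, h5⟩ := h3
    refine ⟨(d, z), by simpa using h4.ne, h2 z,
      {b ∈ (insert d (insert z ({y | M.Adj z y} : Finset (Fin n))))ᶜ |
        M ∈ EB d z {y | M.Adj z y} b}, filter_subset _ _, Nat.cast_le.2 ?_,
      fun b hb => (mem_filter.1 hb).2⟩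
    have a1 := h1 d z h4.ne
    have a2 := h5.trans_le ((card_le_card (t := insert z (({u | M.Adj d u ∧ M.Adj z u} :
      Finset (Fin n)) ∪ {b ∈ (insert d (insert z ({y | M.Adj z y} : Finset (Fin n))))ᶜ |
        M ∈ EB d z {y | M.Adj z y} b})) fun b hb => by
      simp only [mem_filter, mem_univ, true_and, mem_insert, mem_union, mem_compl, not_or, EB,
        Set.mem_inter_iff, Set.mem_ofPred_eq, mem_erase] at hb ⊢
      obtain ⟨b1, m, b2, b3, b4⟩ := hb
      by_contra k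
      push Not at k
      exact k.2.2 ⟨b1.ne', k.1, k.2.1 b1⟩ b1.symm m ⟨b3.ne', b2, b3⟩ b4).trans
      ((card_insert_le _ _).trans (Nat.add_le_add_right (card_union_le _ _) _)))
    omega
  · have hv' : v.1 ≠ v.2 := (mem_offDiag.1 hv).2.2
    refine cond_nbhd v.2 (B v) (fun Y M M' e ⟨h1, T, h2, h3, h4⟩ => ⟨h1, T, h2, h3,
      fun b hb => EB_dep' hv' Y (h2 hb) M M' e (h4 b hb)⟩) _ fun Y => ?_
    by_cases hY : #Y ≤ Δ
    · refine (upper' _ _ (EB v.1 v.2 Y) (p * (Δ * p)) X _ (fun b _ => EB_dep _ _ _ b)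
        (EB_disj _ _ Y) (by have := p.2.1; positivity) (fun b hb => ?_)
        fun M hM => hM.2).trans (Real.exp_le_exp.2 ?_)
      · rw [EB_prob _ _ _ hb]
        refine mul_le_mul_of_nonneg_left ((Pr_ex_le _ _ ?_).trans (mul_le_mul_of_nonneg_right
          (Nat.cast_le.2 (card_erase_le.trans (card_erase_le.trans hY))) p.2.1)) p.2.1
        simp only [mem_erase, mem_insert, mem_compl] at hb ⊢
        tauto
      · have : (#(insert v.1 (insert v.2 Y))ᶜ : ℝ) ≤ n := by exact_mod_cast card_finset_fin_le _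
        have h0 : 0 ≤ (p : ℝ) * (Δ * (p : ℝ)) := by have := p.2.1; positivity
        nlinarith
    · rw [Pr_empty fun M hM => hY hM.1]
      positivity
  · exact le_trans (mul_le_mul_of_nonneg_right (card_pairs _) (Real.exp_pos _).le)
      (pow_mul_exp hL 2 (x := 3 * Real.log n) (by norm_num))

theorem prob_fat (hL : 1 ≤ Real.log n) {δ Δ j : ℕ} {c : ℝ} (hc : 1 + Δ * (p : ℝ) ≤ c)
    (hj : 2 * (Δ + 2 + j) ≤ n) (hx : (j + 3) * Real.log n ≤ p * (δ * p / c) * (n / 2)) :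
    Pr p {M : SimpleGraph (Fin n) | (∀ v, δ + 2 ≤ #{u | M.Adj v u}) ∧ (∀ v, #{u | M.Adj v u} ≤ Δ) ∧
      ¬ ∀ d z, M.Adj d z → j ≤ #{b | M.Adj d b ∧ ∃ m, m ≠ d ∧ M.Adj z m ∧ M.Adj b m}} ≤ 1 / n := by
  have p0 : (0 : ℝ) ≤ p := p.2.1
  have c0 : 0 < c := by nlinarith [mul_nonneg (Nat.cast_nonneg Δ) p0]
  have n0 : (0 : ℝ) < n := by linarith [pos_of_log hL]
  let B : Fin n × Fin n → Finset (Fin n) → Set (SimpleGraph (Fin n)) := fun v Y =>
    {M | δ + 2 ≤ #Y ∧ #Y ≤ Δ ∧ ∃ T : Finset (Fin n), #T ≤ j ∧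
      ∀ b ∈ (insert v.1 (insert v.2 Y))ᶜ, M ∈ EB v.1 v.2 Y b → b ∈ T}
  refine (Pr_le_card (univ.offDiag) _ (fun v => {M | M ∈ B v {y | M.Adj v.2 y}})
    (Real.exp (-(3 * Real.log n))) (fun M hM => ?_) fun v hv => ?_).trans ?_
  · obtain ⟨h1, h2, h3⟩ := hM
    simp only [not_forall, not_le] at h3
    obtain ⟨d, z, h4, h5⟩ := h3
    refine ⟨(d, z), by simpa using h4.ne, h1 z, h2 z, _, h5.le, fun b _ ⟨k1, m, k2, k3⟩ => ?_⟩
    simp only [mem_filter, mem_univ, true_and, mem_erase] at k2 ⊢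
    exact ⟨k1.symm, m, k2.2.1, k2.2.2, k3⟩
  · have hv' : v.1 ≠ v.2 := (mem_offDiag.1 hv).2.2
    refine cond_nbhd v.2 (B v) (fun Y M M' e ⟨h1, h2, T, h3, h4⟩ => ⟨h1, h2, T, h3,
      fun b hb k => h4 b hb (EB_dep' hv' Y hb M' M (fun x hx => (e x hx).symm) k)⟩) _ fun Y => ?_
    by_cases hY : δ + 2 ≤ #Y ∧ #Y ≤ Δ
    · have a1 := card_add_card_compl (insert v.1 (insert v.2 Y))
      have a2 := card_insert_le v.1 (insert v.2 Y)
      have a3 := card_insert_le v.2 Y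
      rw [Fintype.card_fin] at a1
      refine (lower' _ _ (EB v.1 v.2 Y) (p * (δ * p / c)) j _ (fun b _ => EB_dep _ _ _ b)
        (EB_disj _ _ Y) (fun b hb => ?_) (by omega) fun M hM => hM.2.2).trans ?_
      · rw [EB_prob _ _ _ hb]
        have b1 := pred_card_le_card_erase (s := Y) (a := v.1)
        have b2 := pred_card_le_card_erase (s := Y.erase v.1) (a := v.2)
        have b3 : (#((Y.erase v.1).erase v.2) : ℝ) ≤ Δ :=
          Nat.cast_le.2 (card_erase_le.trans (card_erase_le.trans hY.2))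
        refine mul_le_mul_of_nonneg_left (le_trans ?_ (Pr_ex_ge (c := c) _ _ ?_ (by nlinarith))) p0
        · gcongr
          omega
        · simp only [mem_erase, mem_insert, mem_compl] at hb ⊢
          tauto
      · have b1 : (#(insert v.1 (insert v.2 Y))ᶜ : ℝ) ≤ n := by exact_mod_cast card_finset_fin_le _
        have b2 : (n : ℝ) + 2 * j ≤ 2 * #(insert v.1 (insert v.2 Y))ᶜ := by
          exact_mod_cast (by omega : n + 2 * j ≤ 2 * #(insert v.1 (insert v.2 Y))ᶜ)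
        have h0 : 0 ≤ (p : ℝ) * (δ * (p : ℝ) / c) := by positivity
        refine le_trans (mul_le_mul_of_nonneg_right (pow_le_pow_left₀ (Nat.cast_nonneg _) b1 j)
          (Real.exp_pos _).le) ?_
        rw [← Real.exp_log (pow_pos n0 j), Real.log_pow, ← Real.exp_add]
        exact Real.exp_le_exp.2 (by nlinarith)
    · rw [Pr_empty fun M hM => hY ⟨hM.1, hM.2.1⟩]
      positivity
  · exact le_trans (mul_le_mul_of_nonneg_right (card_pairs _) (Real.exp_pos _).le)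
      (pow_mul_exp hL 2 (x := 3 * Real.log n) (by norm_num))

end Pool.Agent.Lib.NMX.AA
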