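import Pool.Agent.Lib.NMX.AASparse
import Pool.Agent.Lib.NMX.AACorner
import Pool.Agent.Lib.NMX.AADense

set_option autoImplicit false

namespace Pool.Agent.Lib.NMX.AA

open unitInterval Finset Classical Filter Topology

variable {n : ℕ} {p : I}

theorem prob_free {y : ℝ} (hL : 1 ≤ Real.log n) (hy : 10 ^ 6 * Real.log n ≤ y)
    (hn : (n : ℝ) = y ^ 90) (hd : y ^ 19 ≤ n * (p : ℝ)) (hs : 32 * (n * (p : ℝ) ^ 2) ≤ y)
    {K Δ : ℕ} (hK : 8 * (K : ℝ) ≤ y) (hΔ : (Δ : ℝ) ≤ 4 * (n * p)) :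
    ∃ a Φ : ℕ, 1 ≤ a ∧ y ^ (2 * a + 6) ≤ n * (p : ℝ) ∧ n * (p : ℝ) ≤ 2 * y ^ a * Φ ∧
      Pr p {M : SimpleGraph (Fin n) | XP p M ∧ Codeg M K ∧ (∀ v, #{u | M.Adj v u} ≤ Δ) ∧
        ¬ Free M K Φ} ≤ 1 / n := by
  have y1 : 10 ^ 6 ≤ y := by linarith
  have y0 : 0 < y := by linarith
  have p0 : (0 : ℝ) ≤ p := p.2.1
  have o : ∀ k : ℕ, 1 ≤ y ^ k := fun k => one_le_pow₀ (by linarith)
  have K0 : (0 : ℝ) ≤ K := K.cast_nonneg
  have n0 : (0 : ℝ) ≤ n := n.cast_nonneg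
  have p1 : 20 * (p : ℝ) ≤ 1 := by
    by_contra k
    have b1 : 1 ≤ 400 * (p : ℝ) ^ 2 := by nlinarith
    have b2 : y ^ 2 ≤ y ^ 90 := pow_le_pow_right₀ (by linarith) (by norm_num)
    nlinarith [mul_le_mul_of_nonneg_left b1 n0]
  have hδ : ∀ M : SimpleGraph (Fin n), XP p M → ∀ v, ⌊n * (p : ℝ) / y⌋₊ - 1 ≤ #{u | M.Adj v u} :=
    fun M hM => deg_of_exp1 (sparse_exp1 hL hy hd hM) (by
      have b1 : (⌊n * (p : ℝ) / y⌋₊ : ℝ) ≤ n * p / y := Nat.floor_le (by positivity)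
      have b2 : n * (p : ℝ) / y ≤ n * p := div_le_self (by positivity) (by linarith)
      rw [Fintype.card_fin]
      exact_mod_cast (by nlinarith : (2 : ℝ) * ⌊n * (p : ℝ) / y⌋₊ ≤ n))
  have hl := Nat.lt_floor_add_one (n * (p : ℝ) / y)
  have e0 : n * (p : ℝ) ^ 2 * y ^ 10 = (p * y ^ 50) ^ 2 := by rw [hn]; ring
  rcases le_total (p * y ^ 50) 1 with h | h
  · obtain ⟨e, he⟩ : ∃ e : ℝ, n * (p : ℝ) = e * y ^ 10 := ⟨n * p / y ^ 10, by field_simp⟩
    have e1 : y ^ 9 ≤ e := le_of_mul_le_mul_right (by nlinarith) (pow_pos y0 10)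
    have e2 : n * (p : ℝ) ^ 2 * y ^ 10 ≤ 1 := by
      rw [e0]; exact pow_le_one₀ (by positivity) h
    have e3 : y ≤ y ^ 9 := le_self_pow₀ (by linarith) (by norm_num)
    rw [he, show e * y ^ 10 / y = e * y ^ 9 by field_simp] at hl hδ
    refine ⟨2, ⌊e * y ^ 8⌋₊, by norm_num, (pow_le_pow_right₀ (by linarith) (by norm_num)).trans hd,
      ?_, le_trans (Pr_mono fun M hM => ?_) (prob_thin hL (K := K) (Δ := Δ) (Nat.le_ceil _))⟩
    · have := floor_two (x := e * y ^ 8) (by nlinarith [o 8])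
      rw [he]
      nlinarith [mul_le_mul_of_nonneg_left this (sq_nonneg y)]
    · refine ⟨hM.2.1, hM.2.2.1, fun k => hM.2.2.2 (free_of_thin (hδ M hM.1)
        (fun d z h => le_trans (card_le_card fun b hb => by simpa using hb) (k d z h)) ?_)⟩
      have b1 : n * ((p : ℝ) * (Δ * (p : ℝ))) ≤ 4 * e := by
        rw [he] at hΔ
        nlinarith [mul_le_mul_of_nonneg_left hΔ (show 0 ≤ n * (p : ℝ) ^ 2 by positivity),
          mul_le_mul_of_nonneg_left e2 (show 0 ≤ e by linarith)]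
      have b2 := Nat.ceil_lt_add_one (a := 3 * (n * ((p : ℝ) * (Δ * (p : ℝ)))) + 3 * Real.log n)
        (by positivity)
      generalize ⌈3 * (n * ((p : ℝ) * (Δ * (p : ℝ)))) + 3 * Real.log n⌉₊ = X at *
      have b3 : (K : ℝ) * (K + X + 1) ≤ y * (14 * e) :=
        mul_le_mul (by linarith) (by linarith) (by positivity) y0.le
      have b4 : (⌊e * y ^ 8⌋₊ : ℝ) ≤ e * y ^ 8 := Nat.floor_le (by nlinarith [o 8])
      have b5 : y ≤ y ^ 8 := le_self_pow₀ (by linarith) (by norm_num)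
      have b6 : e * y ≤ e * y ^ 8 := mul_le_mul_of_nonneg_left b5 (by linarith)
      have b7 : 20 * (e * y ^ 8) ≤ y * (e * y ^ 8) :=
        mul_le_mul_of_nonneg_right (by linarith) (by nlinarith [o 8])
      refine Nat.le_sub_one_of_lt ?_
      exact_mod_cast (by nlinarith :
        (2 : ℝ) * ⌊e * y ^ 8⌋₊ + K * (K + X + 1) < ⌊e * y ^ 9⌋₊)
  · obtain ⟨e, he⟩ : ∃ e : ℝ, n * (p : ℝ) = e * y ^ 15 := ⟨n * p / y ^ 15, by field_simp⟩
    have e4 : y ^ 40 ≤ n * (p : ℝ) := by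
      rw [hn]; nlinarith [mul_le_mul_of_nonneg_left h (pow_pos y0 40).le]
    have e1 : y ^ 25 ≤ e := le_of_mul_le_mul_right (by nlinarith) (pow_pos y0 15)
    have e2 : 1 ≤ n * (p : ℝ) ^ 2 * y ^ 10 := by
      rw [e0]; exact one_le_pow₀ h
    have e3 : y ^ 3 ≤ y ^ 25 := pow_le_pow_right₀ (by linarith) (by norm_num)
    have e5 : y ≤ y ^ 3 := le_self_pow₀ (by linarith) (by norm_num)
    have e6 : e * y ≤ e * y ^ 14 :=
      mul_le_mul_of_nonneg_left (le_self_pow₀ (by linarith) (by norm_num)) (by linarith)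
    have e7 : e * 100 ≤ e * y := mul_le_mul_of_nonneg_left (by linarith) (by linarith)
    have e8 := ceil_two (x := e * y) (by linarith)
    have e9 : e * y ^ 14 ≤ e * y ^ 15 :=
      mul_le_mul_of_nonneg_left (pow_le_pow_right₀ (by linarith) (by norm_num)) (by linarith)
    rw [he, show e * y ^ 15 / y = e * y ^ 14 by field_simp] at hl hδ
    have l3 : 3 ≤ ⌊e * y ^ 14⌋₊ := Nat.le_floor (by push_cast; linarith)
    refine ⟨15, ⌊e⌋₊, by norm_num, (pow_le_pow_right₀ (by linarith) (by norm_num)).trans e4,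
      ?_, le_trans (Pr_mono fun M hM => ?_)
        (prob_fat hL (δ := ⌊e * y ^ 14⌋₊ - 3) (Δ := Δ) (j := ⌈e * y⌉₊) (c := y) ?_ ?_ ?_)⟩
    · have := floor_two (x := e) (by linarith)
      rw [he]
      nlinarith [mul_le_mul_of_nonneg_left this (pow_pos y0 15).le]
    · refine ⟨fun v => le_trans (by omega) (hδ M hM.1 v), hM.2.2.1,
        fun k => hM.2.2.2 (free_of_fat hM.2.1
          (fun d z h => le_trans (k d z h) (card_le_card fun b hb => by simpa using hb)) ?_)⟩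
      have b1 : (⌊e⌋₊ : ℝ) ≤ e := Nat.floor_le (by linarith)
      have b2 := Nat.le_ceil (e * y)
      have b3 : (K : ℝ) ^ 3 ≤ y ^ 3 := pow_le_pow_left₀ K0 (by linarith) 3
      exact_mod_cast (by nlinarith : (2 : ℝ) * ⌊e⌋₊ + K + K * (K * K) ≤ ⌈e * y⌉₊)
    · nlinarith [mul_le_mul_of_nonneg_right hΔ p0]
    · have b1 := mul_le_mul_of_nonneg_left p1 n0
      exact_mod_cast (by nlinarith : (2 : ℝ) * (Δ + 2 + ⌈e * y⌉₊) ≤ n)
    · rw [Nat.cast_sub l3]
      have b1 : e * y ^ 14 / 2 ≤ (⌊e * y ^ 14⌋₊ : ℝ) - (3 : ℕ) := by push_cast; linarith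
      generalize (⌊e * y ^ 14⌋₊ : ℝ) - (3 : ℕ) = δ at *
      have b2 : ((⌈e * y⌉₊ : ℝ) + 3) * Real.log n ≤ 3 * (e * y) * (y / 12) :=
        mul_le_mul (by linarith) (by linarith) (by linarith) (by linarith)
      have b3 : e * y ^ 14 / 2 * 1 ≤ δ * (n * (p : ℝ) ^ 2 * y ^ 10) :=
        mul_le_mul b1 e2 zero_le_one (by linarith)
      have b4 : e * y ^ 13 ≤ e * y ^ 14 :=
        mul_le_mul_of_nonneg_left (pow_le_pow_right₀ (by linarith) (by norm_num)) (by linarith)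
      refine b2.trans (le_of_mul_le_mul_right ?_ (pow_pos y0 11))
      rw [show p * (δ * p / y) * (n / 2) * y ^ 11 = δ * (n * (p : ℝ) ^ 2 * y ^ 10) / 2 by
        field_simp]
      nlinarith

theorem sparse_corner {y : ℝ} (hL : 1 ≤ Real.log n) (hy : 10 ^ 6 * Real.log n ≤ y)
    (hn : (n : ℝ) = y ^ 90) (hd : y ^ 19 ≤ n * (p : ℝ)) (hs : 32 * (n * (p : ℝ) ^ 2) ≤ y) :
    Pr p {M : SimpleGraph (Fin n) | Multiplicative M ∧ Corner M} ≤ 9 / n := by
  have y1 : 10 ^ 6 ≤ y := by linarith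
  have y0 : 0 < y := by linarith
  have p0 : (0 : ℝ) ≤ p := p.2.1
  have e1 : y ≤ y ^ 19 := le_self_pow₀ (by linarith) (by norm_num)
  have k1 := Nat.ceil_lt_add_one (a := 3 * (n * (p : ℝ) ^ 2) + 3 * Real.log n) (by positivity)
  have k2 := Nat.ceil_lt_add_one (a := 3 * (n * (p : ℝ)) + 2 * Real.log n) (by positivity)
  have h1 := prob_codeg (p := p) hL (Nat.le_ceil _)
  have h2 := prob_deg (p := p) hL (Nat.le_ceil _)
  generalize ⌈3 * (n * (p : ℝ) ^ 2) + 3 * Real.log n⌉₊ = K at *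
  generalize ⌈3 * (n * (p : ℝ)) + 2 * Real.log n⌉₊ = Δ at *
  have hK : 8 * (K : ℝ) ≤ y := by linarith
  have hΔ : (Δ : ℝ) ≤ 4 * (n * p) := by linarith
  obtain ⟨a, Φ, a1, a2, a3, h3⟩ := prob_free hL hy hn hd hs hK hΔ
  have h4 := prob_XP (p := p) hL
  have h5 := prob_dens (p := p) hL (r := (K + 1) * ⌈y ^ 3 / p⌉₊) (D := ⌈4 * y ^ 4⌉₊)
    (le_trans (by
      have p1 : (0 : ℝ) < p := pos_of_mul_pos_right (lt_of_lt_of_le (pow_pos y0 19) hd)
        n.cast_nonneg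
      have b1 := ceil_two (x := y ^ 3 / p) (by
        rw [le_div_iff₀ p1]; linarith [one_le_pow₀ (n := 3) (show 1 ≤ y by linarith), p.2.2])
      rw [← mul_div_assoc, le_div_iff₀ p1] at b1
      have b2 : ((K : ℝ) + 1) * (⌈y ^ 3 / p⌉₊ * p) ≤ y / 4 * (2 * y ^ 3) :=
        mul_le_mul (by linarith) b1 (by positivity) (by positivity)
      have b3 : y ≤ y ^ 4 := le_self_pow₀ (by linarith) (by norm_num)
      push_cast
      nlinarith) (Nat.le_ceil _))
  refine le_trans (Pr_mono fun M hM => ?_)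
    ((Pr_union _ _).trans ((add_le_add h1 ((Pr_union _ _).trans (add_le_add h2
      ((Pr_union _ _).trans (add_le_add h3 ((Pr_union _ _).trans (add_le_add h4 h5))))))).trans
        (le_of_eq (by ring))))
  by_contra k
  simp only [Set.mem_union, Set.mem_ofPred_eq, not_or, not_not, not_exists, not_le,
    Nat.cast_le] at k
  obtain ⟨c2, c3, c4, c5, c6⟩ := k
  exact sparse_det hL hy hn hd a1 a2 hK hΔ a3 c5 c2 (sparse_core hL hy hn hd hK c5 c2 c6)
    (fun v => (c3 v).le) (by_contra fun t => c4 ⟨c5, c2, fun v => (c3 v).le, t⟩) hM.2 hM.1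

theorem sparse_not_mult {y : ℝ} (hL : 1 ≤ Real.log n) (hy : 10 ^ 6 * Real.log n ≤ y)
    (hn : (n : ℝ) = y ^ 90) (hd : y ^ 19 ≤ n * (p : ℝ)) (hs : 32 * (n * (p : ℝ) ^ 2) ≤ y) :
    Pr p {M : SimpleGraph (Fin n) | Multiplicative M} ≤
      Pr p {M : SimpleGraph (Fin n) | ¬ Corner M} + 9 / n :=
  le_trans (Pr_mono fun M hM => (em' (Corner M)).imp_right fun k => ⟨hM, k⟩)
    ((Pr_union _ _).trans (add_le_add_right (sparse_corner hL hy hn hd hs) _))

theorem upper_bound {y ω : ℝ} (hL : 1 ≤ Real.log n) (hy : 10 ^ 6 * Real.log n ^ 3 ≤ y)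
    (hn : (n : ℝ) = y ^ 90) (h1 : 1 ≤ ω) (hω : (14 * ω) ^ 7 ≤ (n : ℝ) ^ 7 * p ^ 9) :
    Pr p {M : SimpleGraph (Fin n) | Multiplicative M} ≤ 512 / ω + 17 / y := by
  have l1 : Real.log n ≤ Real.log n ^ 3 := le_self_pow₀ hL (by norm_num)
  have y1 : 10 ^ 6 ≤ y := by linarith
  have y0 : 0 < y := by linarith
  have p0 : (0 : ℝ) ≤ p := p.2.1
  have p1 : (p : ℝ) ≤ 1 := p.2.2
  have n1 : y ≤ n := hn ▸ le_self_pow₀ (by linarith) (by norm_num)
  have n2 : 1 / (n : ℝ) ≤ 1 / y := one_div_le_one_div_of_le y0 n1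
  have w0 : 0 ≤ 512 / ω := by positivity
  have y2 : 0 ≤ 1 / y := by positivity
  rw [show 17 / y = 17 * (1 / y) by ring]
  by_cases c1 : 15600 * Real.log n ^ 3 ≤ n * (p : ℝ) ^ 2 * (1 - p)
  · have := mid_not_mult hL c1
    rw [show 3 / (n : ℝ) = 3 * (1 / n) by ring] at this
    linarith
  rcases le_total (p : ℝ) (1 / 2) with c2 | c2
  · have hs : 32 * (n * (p : ℝ) ^ 2) ≤ y := by
      nlinarith [mul_le_mul_of_nonneg_left c2 (show 0 ≤ n * (p : ℝ) ^ 2 by positivity)]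
    have hd : y ^ 20 ≤ n * (p : ℝ) := by
      refine le_of_pow_le_pow_left₀ (n := 9) (by norm_num) (by positivity) ?_
      have := mul_le_mul_of_nonneg_left ((one_le_pow₀ (by linarith)).trans hω) (sq_nonneg (n : ℝ))
      nth_rewrite 1 [hn] at this
      nlinarith
    have a1 := sparse_not_mult hL (by linarith) hn
      ((pow_le_pow_right₀ (by linarith) (by norm_num)).trans hd) hs
    have a0 : 32 * (y ^ 89 * (p : ℝ) ^ 2) ≤ 1 :=
      le_of_mul_le_mul_left (by rw [hn] at hs; nlinarith) y0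
    have a3 : y ^ 3 * (p : ℝ) ^ 2 ≤ y ^ 89 * p ^ 2 :=
      mul_le_mul_of_nonneg_right (pow_le_pow_right₀ (by linarith) (by norm_num)) (by positivity)
    have a4 : 10 ^ 6 * (y * p) ^ 2 ≤ y * (y * p) ^ 2 :=
      mul_le_mul_of_nonneg_right y1 (by positivity)
    have a2 := prob_corner (n := n) (p := p) h1 (ε := 1 / y) ?_ ?_
      (one_div_le_one_div_of_le (by norm_num) (by linarith))
    · rw [show 9 / (n : ℝ) = 9 * (1 / n) by ring] at a1
      linarith
    · have b1 : (n : ℝ) ≤ 14 * (n / 7 : ℕ) := by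
        have : 7 ≤ n := by exact_mod_cast (by linarith : (7 : ℝ) ≤ n)
        exact_mod_cast (by omega : n ≤ 14 * (n / 7))
      have b2 := mul_le_mul_of_nonneg_right (pow_le_pow_left₀ n.cast_nonneg b1 7) (pow_nonneg p0 9)
      rw [mul_pow] at hω b2
      nlinarith
    · rw [le_div_iff₀ y0]
      have b1 : 14 * (y * p) ≤ 1 := by
        by_contra k
        nlinarith
      nlinarith [mul_le_mul_of_nonneg_right hs (show 0 ≤ y * (p : ℝ) ^ 2 by positivity)]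
  · have q0 : 0 ≤ n * (1 - (p : ℝ)) := mul_nonneg n.cast_nonneg (by linarith)
    have a1 : n * (1 - (p : ℝ)) ≤ y / 16 := by
      nlinarith [mul_le_mul_of_nonneg_left (show 1 / 4 ≤ (p : ℝ) ^ 2 by nlinarith) q0]
    have k1 := Nat.ceil_lt_add_one (a := 3 * (n * (1 - (p : ℝ))) + 2 * Real.log n + 1)
      (by positivity)
    have a2 := prob_nondeg (p := p) hL (Nat.le_ceil _)
    generalize ⌈3 * (n * (1 - (p : ℝ))) + 2 * Real.log n + 1⌉₊ = D at *
    refine le_trans (Pr_mono fun M hM k => dense_det k ?_ hM) (a2.trans (by linarith))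
    rw [Fintype.card_fin]
    have D0 : (0 : ℝ) ≤ D := D.cast_nonneg
    have b1 : ((D : ℝ) + 3) * D * D ≤ y * y * (y / 2) :=
      mul_le_mul (mul_le_mul (by linarith) (by linarith) D0 y0.le) (by linarith) D0 (by positivity)
    have b2 : y ^ 3 ≤ y ^ 90 := pow_le_pow_right₀ (by linarith) (by norm_num)
    exact_mod_cast (by nlinarith [pow_pos y0 3] : ((D : ℝ) + 3) * D * D < n)

/-- Above the threshold the random graph is not multiplicative. -/
theorem upper (p : ℕ → I) (h : Tendsto (fun n : ℕ => (n : ℝ) ^ 7 * (p n : ℝ) ^ 9) atTop atTop) :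
    Tendsto (fun n => Pr (p n) {M : SimpleGraph (Fin n) | Multiplicative M}) atTop (𝓝 0) := by
  let y : ℕ → ℝ := fun n => (n : ℝ) ^ ((90 : ℕ) : ℝ)⁻¹
  let ω : ℕ → ℝ := fun n => ((n : ℝ) ^ 7 * (p n : ℝ) ^ 9) ^ ((7 : ℕ) : ℝ)⁻¹ / 14
  have hy : Tendsto y atTop atTop :=
    (tendsto_rpow_atTop (by positivity)).comp tendsto_natCast_atTop_atTop
  have hω : Tendsto ω atTop atTop :=
    ((tendsto_rpow_atTop (by positivity)).comp h).atTop_div_const (by norm_num)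
  have hn : ∀ n : ℕ, (n : ℝ) = y n ^ 90 := fun n =>
    (Real.rpow_inv_natCast_pow n.cast_nonneg (by norm_num)).symm
  have h0 := (hω.const_div_atTop 512).add (hy.const_div_atTop 17)
  rw [add_zero] at h0
  refine squeeze_zero' (Eventually.of_forall fun n => Pr_nonneg _ _) ?_ h0
  have h1 := hy.eventually ((Real.isLittleO_pow_log_id_atTop (n := 3)).bound
    (show (0 : ℝ) < 1 / (10 ^ 6 * 90 ^ 3) by positivity))
  filter_upwards [h1, hω.eventually_ge_atTop 1, hy.eventually_ge_atTop 0,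
    (Real.tendsto_log_atTop.comp tendsto_natCast_atTop_atTop).eventually_ge_atTop 1]
    with n a1 a2 a3 a4
  refine upper_bound a4 ?_ (hn n) a2 (le_of_eq ?_)
  · rw [hn n, Real.log_pow]
    rw [id, Real.norm_of_nonneg a3] at a1
    have := (le_abs_self _).trans a1
    push_cast
    linarith
  · rw [mul_div_cancel₀ _ (by norm_num)]
    exact Real.rpow_inv_natCast_pow (by have := (p n).2.1; positivity) (by norm_num)

end Pool.Agent.Lib.NMX.AA
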