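import Pool.Agent.Lib.NMX.Frame

set_option autoImplicit false

namespace Pool.Agent.Lib.NMX

variable {V : Type} {M : SimpleGraph V} {p q : ℤ} (hq : 0 < q) (hp : 4 * q ≤ p)
include hq hp

theorem cl_one {x : ℤ → V} (h : Frame M p q x) {m : V} (hc : Cl M (x 0) (x 1) m) :
    m = x 0 ∨ m = x 1 := by
  obtain ⟨k, h1, h2, rfl, -, H⟩ := h.pin hc
  have := H (q + 1)
  have := H (p - q)
  have := H k
  have : k = 0 ∨ k = 1 := by unfold CA at *; omega
  exact this.imp (congrArg x) (congrArg x)

theorem cl_far {x : ℤ → V} (h : Frame M p q x) {δ : ℤ} (h1 : 2 * q ≤ δ) (h2 : δ + 2 * q ≤ p) {m : V}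
    (hc : Cl M (x 0) (x δ) m) : m = x 0 ∨ m = x δ := by
  obtain ⟨k, h1, h2, rfl, -, H⟩ := h.pin hc
  have := H q
  have := H (δ - q)
  have := H (δ + q)
  have := H (p - q)
  have := H k
  have : k = 0 ∨ k = δ := by unfold CA at *; omega
  exact this.imp (congrArg x) (congrArg x)

theorem circ_small {x0 : ℤ → V} (h0 : Frame M p q x0) {β : ℕ → V → V → V} (hβ : Chain M β)
    (hK : ∀ i ≤ 2, ∀ x, Frame M p q x → β i (x 0) (x 1) = x 0) : Small M (β 0) := by
  have far : ∀ i ≤ 1, ∀ x, Frame M p q x → ∀ δ, 2 * q ≤ δ → δ + 2 * q ≤ p →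
      β i (x 0) (x δ) = x 0 := fun i hi x h δ h1 h2 => by
    refine (cl_far hq hp h h1 h2 (hβ.cl _ _ _)).resolve_right fun e => ?_
    have a := hβ.2 i (x 0) (x δ) (x (δ - q + 1 - 0)) (x (δ - q + 1 - 1))
      (h.1 _ _ (by unfold CA; omega)) (h.1 _ _ (by unfold CA; omega))
      (h.1 _ _ (by unfold CA; omega))
    rw [e, hK (i + 1) (by omega) _ (h.mirror (δ - q + 1))] at a
    have := h.2.1 _ _ (by omega) (by omega) a
    unfold CA at this; omega
  have near : ∀ x, Frame M p q x → ∀ δ, 0 ≤ δ → δ < 2 * q → β 0 (x 0) (x δ) = x 0 :=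
    fun x h δ h1 h2 => by
    have a := hβ.2 0 (x 0) (x δ) (x (q + 0)) (x (q + (p - 2 * q)))
      (h.1 _ _ (by unfold CA; omega)) (h.1 _ _ (by unfold CA; omega))
      (h.1 _ _ (by unfold CA; omega))
    rw [far 1 le_rfl _ (h.shift q) _ (by omega) (by omega)] at a
    obtain ⟨k, k1, k2, e, T, H⟩ := h.pin (hβ.cl 0 (x 0) (x δ))
    have := T (q + 0) (by omega) (by omega) a
    have := H (δ + q)
    have := H (p - q)
    have := H k
    rw [← e]
    exact congrArg x (by unfold CA at *; omega)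
  intro a b _ _ _
  obtain ⟨c, -, -, rfl⟩ := h0.2.2 0 a
  obtain ⟨d, d1, d2, rfl⟩ := h0.2.2 (c - 2 * q + 1) b
  by_cases k1 : d < c
  · simpa using near _ (h0.mirror c) (c - d) (by omega) (by omega)
  · by_cases k2 : d < c + 2 * q
    · simpa using near _ (h0.shift c) (d - c) (by omega) (by omega)
    · simpa using far 0 (by omega) _ (h0.shift c) (d - c) (by omega) (by omega)

theorem circ_F {x : ℤ → V} (h : Frame M p q x) {β : ℕ → V → V → V} (hβ : Chain M β) {j : ℕ}
    (e : β j (x 0) (x (2 * q)) = x (2 * q)) : β (j + 2) (x q) (x 0) = x 0 := by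
  have s2 : β (j + 1) (x (3 * q - 1)) (x q) = x q := by
    have a := hβ.2 j (x 0) (x (2 * q)) (x (3 * q - 1)) (x q)
      (h.1 _ _ (by unfold CA; omega)) (h.1 _ _ (by unfold CA; omega))
      (h.1 _ _ (by unfold CA; omega))
    rw [e] at a
    obtain ⟨k, k1, k2, e, T, H⟩ := h.pin (hβ.cl (j + 1) (x (3 * q - 1)) (x q))
    have := T (2 * q) (by omega) (by omega) a.symm
    have := H (4 * q - 1)
    have := H p
    have := H k
    rw [← e]
    exact congrArg x (by unfold CA at *; omega)
  have a := hβ.2 (j + 1) (x (3 * q - 1)) (x q) (x q) (x 0)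
    (h.1 _ _ (by unfold CA; omega)) (h.1 _ _ (by unfold CA; omega))
    (h.1 _ _ (by unfold CA; omega))
  rw [s2] at a
  obtain ⟨k, k1, k2, e, T, H⟩ := h.pin (hβ.cl (j + 2) (x q) (x 0))
  have := T q (by omega) (by omega) a.symm
  have := H (2 * q)
  have := H (p - q)
  have := H k
  rw [← e]
  exact congrArg x (by unfold CA at *; omega)

theorem circ_core [Finite V] (hM : IsCore M) {x0 : ℤ → V} (h0 : Frame M p q x0) :
    ¬ Multiplicative M := by
  have nA : ∀ x, Frame M p q x → ∀ k l, l - k < q → k - l < q → ¬ M.Adj (x k) (x l) :=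
    fun x h k l h1 h2 a => by
    have := h.2.1 _ _ (by omega) (by omega) a
    unfold CA at this; omega
  refine engine hM 5 (fun β hβ hI => circ_small hq hp h0 hβ fun j hj x h => ?_)
    (fun β hβ hS => circ_small hq hp h0 hβ fun j hj x h => ?_) (a0 := x0 0) (b0 := x0 (2 * q))
    (c0 := x0 q) (fun e => nA _ h0 (2 * q) (3 * q - q) (by omega) (by omega) ?_)
    (h0.1 _ _ (by unfold CA; omega)) (h0.1 _ _ (by unfold CA; omega))
  · refine (cl_one hq hp h (hβ.cl _ _ _)).resolve_right fun e => ?_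
    have s : ∀ d, M.Adj (x 0) d → M.Adj (x 1) d → β (j + 1) (x q) d ≠ x q := fun d h1 h2 e' => by
      have a := hβ.2 j (x 0) (x 1) (x q) d (h.1 _ _ (by unfold CA; omega)) h1 h2
      rw [e, e'] at a
      exact nA x h 1 q (by omega) (by omega) a
    have t1 := circ_F hq hp (h.shift q) hβ (j := j + 1)
      ((cl_far hq hp (h.shift q) le_rfl (by omega) (hβ.cl _ _ _)).resolve_left (by
        simpa using s _ (h.1 _ _ (by unfold CA; omega)) (h.1 _ _ (by unfold CA; omega))))
    have t2 := circ_F hq hp (h.mirror q) hβ (j := j + 1)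
      ((cl_far hq hp (h.mirror q) le_rfl (by omega) (hβ.cl _ _ _)).resolve_left (by
        simpa using s _ (h.1 _ _ (by unfold CA; omega)) (h.1 _ _ (by unfold CA; omega))))
    simp only [add_zero, sub_zero] at t1 t2
    have := hI (j + 1 + 2) (by omega) (x (q + q)) (x q) (x (q - q)) (x q)
      (h.1 _ _ (by unfold CA; omega)) (h.1 _ _ (by unfold CA; omega))
      (h.1 _ _ (by unfold CA; omega))
    rw [t1, t2] at this
    exact this.ne rfl
  · obtain ⟨m, hm, c1, c2⟩ := hS j (by omega) (x 0) (x 1) (x (q + 0)) (x (q + 1)) (x (q + 2 * q))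
      (h.1 _ _ (by unfold CA; omega)) (h.1 _ _ (by unfold CA; omega))
      (h.1 _ _ (by unfold CA; omega)) (h.1 _ _ (by unfold CA; omega))
      (h.1 _ _ (by unfold CA; omega))
    have e : m = x (q + 0) := by
      rcases cl_one hq hp (h.shift q) c1 with e1 | e1
      · exact e1
      · refine (cl_far hq hp (h.shift q) le_rfl (by omega) c2).resolve_right fun e2 => ?_
        refine nA x h (q + 1) (2 * q) (by omega) (by omega) ?_
        rw [show x (q + 1) = x (q + 2 * q) from e1.symm.trans e2]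
        exact h.1 _ _ (by unfold CA; omega)
    refine (cl_one hq hp h (hβ.cl _ _ _)).resolve_right fun e' => ?_
    rw [e, e'] at hm
    exact nA x h 1 (q + 0) (by omega) (by omega) hm
  · rw [← e]
    exact h0.1 _ _ (by unfold CA; omega)

omit hq hp in
/-- The circular cliques `K_{p/q}` with `p/q ≥ 4` are not multiplicative. -/
theorem circ_not_mult (p q : ℕ) (hq : 0 < q) (hp : 4 * q ≤ p) :
    ¬ Multiplicative (circClique p q) := by
  obtain ⟨g, q, p, hg, hc, rfl, rfl⟩ := Nat.exists_coprime' (m := q) (n := p)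
    (Nat.gcd_pos_of_pos_left _ hq)
  have hq' : 0 < q := Nat.pos_of_mul_pos_right hq
  have hp' : 4 * q ≤ p := Nat.le_of_mul_le_mul_right (by rwa [mul_assoc]) hg
  have : NeZero p := ⟨by omega⟩
  have hF := CG_frame p q hq'
  intro hm
  refine circ_core (p := p) (q := q) (by omega) (by omega) (CG_core p q hq' (by omega) hc) hF
    (hm.of_equiv ⟨fun i => (((i : ℕ) / g : ℕ) : ℤ), fun {i j} h => hF.1 _ _ ?_⟩
      ⟨fun a => ⟨a.val * g, Nat.mul_lt_mul_of_pos_right (ZMod.val_lt a) hg⟩, fun {a b} h => ?_⟩)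
  · have key : ∀ i j : ℕ, i + q * g ≤ j → j + q * g ≤ i + p * g →
        i / g + q ≤ j / g ∧ j / g + q ≤ i / g + p := fun i j h1 h2 => by
      have a := Nat.div_le_div_right (c := g) h1
      have b := Nat.div_le_div_right (c := g) h2
      rw [Nat.add_mul_div_right _ _ hg] at a b
      rw [Nat.add_mul_div_right _ _ hg] at b
      exact ⟨a, b⟩
    obtain ⟨-, h1, h2⟩ := h
    unfold Nat.dist at h1 h2
    rcases le_total (i : ℕ) j with k | k
    · have := key i j (by omega) (by omega)
      unfold CA; omega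
    · have := key j i (by omega) (by omega)
      unfold CA; omega
  · have ha := ZMod.val_lt a
    have hb := ZMod.val_lt b
    have := hF.2.1 a.val b.val (by omega) (by omega) (by simpa using h)
    have k : q ≤ Nat.dist a.val b.val ∧ Nat.dist a.val b.val + q ≤ p := by
      unfold CA at this; unfold Nat.dist; omega
    have k1 := Nat.mul_le_mul_right g k.1
    have k2 := Nat.mul_le_mul_right g k.2
    rw [add_mul] at k2
    rw [← Nat.dist_mul_right] at k1 k2
    refine ⟨fun e => ?_, k1, k2⟩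
    have e' : a.val * g = b.val * g := congrArg Fin.val e
    rw [e', Nat.dist_self] at k1
    omega

end Pool.Agent.Lib.NMX
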