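import Mathlib

set_option autoImplicit false

namespace Pool.Agent.Lib.NMX

/-- The splitting property of a subgroup `Λ` (of index two in the applications) of a group `Γ`:
whenever `P`, `Q` are elementwise commuting subgroups of `Λ`, both normalised by an element
`T` outside `Λ`, and `T² = u v` with `u ∈ P`, `v ∈ Q` and `u` commuting with `T`, then `u = (T z)²`
for some `z ∈ Λ` centralising `P`, or `v = (T z)²` for some `z ∈ Λ` centralising `Q`. -/
def Splits {Γ : Type} [Group Γ] (Λ : Subgroup Γ) : Prop :=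
  ∀ (P Q : Subgroup Γ) (T u v : Γ), P ≤ Λ → Q ≤ Λ → (∀ a ∈ P, ∀ b ∈ Q, a * b = b * a) →
    T ∉ Λ → (∀ a, a ∈ P ↔ T * a * T⁻¹ ∈ P) → (∀ b, b ∈ Q ↔ T * b * T⁻¹ ∈ Q) →
    u ∈ P → v ∈ Q → T * T = u * v → T * u = u * T →
    (∃ z ∈ Λ, (∀ a ∈ P, z * a = a * z) ∧ (T * z) * (T * z) = u) ∨
      (∃ z ∈ Λ, (∀ b ∈ Q, z * b = b * z) ∧ (T * z) * (T * z) = v)

/-- The voltages `s a b` on the edges `E a b` of a bipartite graph with sides `A`, `B` are
balanced on every four-cycle `a b a' b'`. -/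
def Balanced {Γ A B : Type} [Group Γ] (E : A → B → Prop) (s : A → B → Γ) : Prop :=
  ∀ a a' b b', E a b → E a' b → E a' b' → E a b' →
    s a b * (s a' b)⁻¹ * s a' b' * (s a b')⁻¹ = 1

/-- The twisted square of a bipartite voltage graph: the vertices are the triples `(a, b, e)` with
`e ∉ Λ`; two distinct triples `(a, b, e)`, `(a', b', e')` are adjacent iff `a b'` and `a' b` are
edges and `s a b' * e' * s a' b * e = 1`. -/
def voltGraph {Γ A B : Type} [Group Γ] (Λ : Subgroup Γ) (E : A → B → Prop) (s : A → B → Γ) :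
    SimpleGraph (A × B × {e : Γ // e ∉ Λ}) where
  Adj x y := x ≠ y ∧ E x.1 y.2.1 ∧ E y.1 x.2.1 ∧
    s x.1 y.2.1 * y.2.2.1 * s y.1 x.2.1 * x.2.2.1 = 1
  symm := ⟨fun x y h => ⟨h.1.symm, h.2.2.1, h.2.1, by
    have h1 : (s x.1 y.2.1 * y.2.2.1) * (s y.1 x.2.1 * x.2.2.1) = 1 := by
      rw [← mul_assoc]; exact h.2.2.2
    have h2 := mul_eq_one_comm.mp h1
    rw [← mul_assoc] at h2
    exact h2⟩⟩
  loopless := ⟨fun _ h => h.1 rfl⟩

end Pool.Agent.Lib.NMX
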