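import Mathlib
import Pool.Agent.Lib.NMX.CoindDefs

set_option autoImplicit false

namespace Pool.Agent.Lib.NMX.Coind

open SimpleGraph

theorem even_cons_cons {V : Type} {G : SimpleGraph V} {u w x v : V} (a : G.Adj u w)
    (b : G.Adj w x) (p : G.Walk x v) :
    Even (Walk.cons a (Walk.cons b p)).length ↔ Even p.length := by
  simp only [Walk.length_cons, Nat.even_add_one, not_not]

/-- Two-step induction on walks of even length. -/
theorem even_ind {V : Type} {G : SimpleGraph V}
    {motive : ∀ {u v : V} (p : G.Walk u v), Even p.length → Prop}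
    (h0 : ∀ u, motive (Walk.nil : G.Walk u u) (by simp))
    (h2 : ∀ u w x v (a : G.Adj u w) (b : G.Adj w x) (p : G.Walk x v) (hp : Even p.length),
      motive p hp → motive (Walk.cons a (Walk.cons b p)) ((even_cons_cons a b p).mpr hp)) :
    ∀ {u v : V} (p : G.Walk u v) (hp : Even p.length), motive p hp
  | _, _, Walk.nil, _ => h0 _
  | _, _, Walk.cons _ Walk.nil, h => by simp at h
  | _, _, Walk.cons a (Walk.cons b p), h =>
    h2 _ _ _ _ a b p ((even_cons_cons a b p).mp h)
      (even_ind h0 h2 p ((even_cons_cons a b p).mp h))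

variable {Γ : Type} [Group Γ] {V W : Type}

/-- A flat odd connection on the direct product of `G` and `H`. -/
structure Conn (Λ : Subgroup Γ) (G : SimpleGraph V) (H : SimpleGraph W)
    (ω : V → W → V → W → Γ) : Prop where
  odd : ∀ {g g' h h'}, G.Adj g g' → H.Adj h h' → ω g h g' h' ∉ Λ
  inv : ∀ {g g' h h'}, G.Adj g g' → H.Adj h h' → ω g h g' h' * ω g' h' g h = 1
  sq : ∀ {g g1 g2 g3 h h1 h2 h3}, G.Adj g g1 → G.Adj g1 g2 → G.Adj g g3 → G.Adj g3 g2 →
    H.Adj h h1 → H.Adj h1 h2 → H.Adj h h3 → H.Adj h3 h2 →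
    ω g h g1 h1 * ω g1 h1 g2 h2 = ω g h g3 h3 * ω g3 h3 g2 h2

/-- Exchange of the two factors. -/
def swp (ω : V → W → V → W → Γ) : W → V → W → V → Γ := fun h g h' g' => ω g h g' h'

theorem Conn.swap {Λ : Subgroup Γ} {G : SimpleGraph V} {H : SimpleGraph W}
    {ω : V → W → V → W → Γ} (c : Conn Λ G H ω) : Conn Λ H G (swp ω) where
  odd a b := c.odd b a
  inv a b := c.inv b a
  sq a1 a2 a3 a4 b1 b2 b3 b4 := c.sq b1 b2 b3 b4 a1 a2 a3 a4

/-- Holonomy of the lift of a walk of `G` which alternates between `h0` and `h1`. -/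
def hol {G : SimpleGraph V} (ω : V → W → V → W → Γ) :
    ∀ {g g' : V}, G.Walk g g' → W → W → Γ
  | _, _, Walk.nil, _, _ => 1
  | g, _, Walk.cons (v := g1) _ p, h0, h1 => ω g h0 g1 h1 * hol ω p h1 h0

variable {Λ : Subgroup Γ} {G : SimpleGraph V} {H : SimpleGraph W} {ω : V → W → V → W → Γ}

@[simp] theorem hol_nil (g : V) (h0 h1 : W) : hol ω (Walk.nil : G.Walk g g) h0 h1 = 1 := rfl

@[simp] theorem hol_cons {g g1 g' : V} (a : G.Adj g g1) (p : G.Walk g1 g') (h0 h1 : W) :
    hol ω (Walk.cons a p) h0 h1 = ω g h0 g1 h1 * hol ω p h1 h0 := rfl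

theorem hol_append {g g1 g2 : V} (p : G.Walk g g1) (q : G.Walk g1 g2) (h0 h1 : W) :
    hol ω (p.append q) h0 h1 =
      hol ω p h0 h1 * (if Even p.length then hol ω q h0 h1 else hol ω q h1 h0) := by
  induction p generalizing h0 h1 with
  | nil => simp
  | cons a p ih =>
    simp only [Walk.cons_append, hol_cons, ih, Walk.length_cons, Nat.even_add_one, mul_assoc]
    by_cases hp : Even p.length <;> simp [hp]

theorem hol_append_even {g g1 g2 : V} (p : G.Walk g g1) (q : G.Walk g1 g2) (h0 h1 : W)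
    (hp : Even p.length) : hol ω (p.append q) h0 h1 = hol ω p h0 h1 * hol ω q h0 h1 := by
  rw [hol_append, if_pos hp]

theorem hol_append_odd {g g1 g2 : V} (p : G.Walk g g1) (q : G.Walk g1 g2) (h0 h1 : W)
    (hp : ¬ Even p.length) : hol ω (p.append q) h0 h1 = hol ω p h0 h1 * hol ω q h1 h0 := by
  rw [hol_append, if_neg hp]

theorem hol_reverse (c : Conn Λ G H ω) {g g' : V} (p : G.Walk g g') {h0 h1 : W}
    (e : H.Adj h0 h1) :
    (if Even p.length then hol ω p.reverse h0 h1 else hol ω p.reverse h1 h0) =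
      (hol ω p h0 h1)⁻¹ := by
  induction p generalizing h0 h1 with
  | nil => simp
  | cons a p ih =>
    have ih' := ih e.symm
    have hi := c.inv a e
    rw [mul_eq_one_iff_inv_eq] at hi
    simp only [Walk.reverse_cons, hol_append, Walk.length_reverse, hol_cons, hol_nil, mul_one,
      Walk.length_cons, Nat.even_add_one, mul_inv_rev]
    by_cases hp : Even p.length
    · simp only [hp, if_true, not_true, if_false] at ih' ⊢
      rw [ih', hi]
    · simp only [hp, if_false, not_false_iff, if_true] at ih' ⊢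
      rw [ih', hi]

theorem hol_reverse_even (c : Conn Λ G H ω) {g g' : V} (p : G.Walk g g') {h0 h1 : W}
    (e : H.Adj h0 h1) (hp : Even p.length) : hol ω p.reverse h0 h1 = (hol ω p h0 h1)⁻¹ := by
  rw [← hol_reverse c p e, if_pos hp]

theorem hol_reverse_odd (c : Conn Λ G H ω) {g g' : V} (p : G.Walk g g') {h0 h1 : W}
    (e : H.Adj h0 h1) (hp : ¬ Even p.length) : hol ω p.reverse h1 h0 = (hol ω p h0 h1)⁻¹ := by
  rw [← hol_reverse c p e, if_neg hp]

theorem hol_mem (hΛ : Λ.index = 2) (c : Conn Λ G H ω) {g g' : V} (p : G.Walk g g') {h0 h1 : W}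
    (e : H.Adj h0 h1) : hol ω p h0 h1 ∈ Λ ↔ Even p.length := by
  induction p generalizing h0 h1 with
  | nil => simp
  | cons a p ih =>
    have ho := c.odd a e
    simp only [hol_cons, Subgroup.mul_mem_iff_of_index_two hΛ, ih e.symm, Walk.length_cons,
      Nat.even_add_one]
    tauto

/-- The holonomy of an even walk does not depend on the auxiliary neighbour. -/
theorem hol_indep (c : Conn Λ G H ω) {g g' : V} (p : G.Walk g g') (hp : Even p.length)
    {h h1 h2 : W} (e1 : H.Adj h h1) (e2 : H.Adj h h2) : hol ω p h h1 = hol ω p h h2 := by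
  induction p, hp using even_ind with
  | h0 u => simp
  | h2 u w x v a b p hp ih =>
    simp only [hol_cons, ← mul_assoc, ih]
    rw [c.sq a b a b e1 e1.symm e2 e2.symm]

/-- An even walk of `G` commutes with a double step of `H`. -/
theorem hol_step (c : Conn Λ G H ω) {g g' : V} (p : G.Walk g g') (hp : Even p.length)
    {h k h2 : W} (e1 : H.Adj h k) (e2 : H.Adj k h2) {g1 g1' : V} (a1 : G.Adj g g1)
    (a1' : G.Adj g' g1') :
    hol ω p h k * (ω g' h g1' k * ω g1' k g' h2) = (ω g h g1 k * ω g1 k g h2) * hol ω p h2 k := by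
  induction p, hp using even_ind generalizing g1 with
  | h0 u =>
    simp only [hol_nil, one_mul, mul_one]
    exact c.sq a1' a1'.symm a1 a1.symm e1 e2 e1 e2
  | h2 u w x v a b p hp ih =>
    have ih' := ih b.symm a1'
    have i1 := c.inv b.symm.symm e1.symm
    have i2 := c.inv a.symm e2
    have s1 := c.sq a1 a1.symm a a.symm e1 e2 e1 e2
    simp only [hol_cons]
    calc ω u h w k * (ω w k x h * hol ω p h k) * (ω v h g1' k * ω g1' k v h2)
        = ω u h w k * ω w k x h * (hol ω p h k * (ω v h g1' k * ω g1' k v h2)) := by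
          simp only [mul_assoc]
      _ = ω u h w k * (ω w k x h * ω x h w k) * ω w k x h2 * hol ω p h2 k := by
          rw [ih']; simp only [mul_assoc]
      _ = ω u h w k * (ω w k u h2 * ω u h2 w k) * ω w k x h2 * hol ω p h2 k := by
          rw [i1, i2]
      _ = _ := by rw [s1]; simp only [mul_assoc]

/-- Even walks of `G` and even walks of `H` commute. -/
theorem hol_comm (c : Conn Λ G H ω) {g g' : V} (p : G.Walk g g') (hp : Even p.length)
    {h h' : W} (q : H.Walk h h') (hq : Even q.length) {g1 g1' : V} (a1 : G.Adj g g1)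
    (a1' : G.Adj g' g1') {h1 h1' : W} (e1 : H.Adj h h1) (e1' : H.Adj h' h1') :
    hol ω p h h1 * hol (swp ω) q g' g1' = hol (swp ω) q g g1 * hol ω p h' h1' := by
  induction q, hq using even_ind generalizing h1 with
  | h0 u =>
    simp only [hol_nil, one_mul, mul_one]
    exact hol_indep c p hp e1 e1'
  | h2 u w x v a b q hq ih =>
    have ih' := ih b.symm e1'
    have st := hol_step c p hp a b a1 a1'
    simp only [hol_cons, swp] at ih' ⊢
    rw [hol_indep c p hp e1 a]
    calc hol ω p u w * (ω g' u g1' w * (ω g1' w g' x * hol (swp ω) q g' g1'))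
        = hol ω p u w * (ω g' u g1' w * ω g1' w g' x) * hol (swp ω) q g' g1' := by
          simp only [mul_assoc]
      _ = ω g u g1 w * ω g1 w g x * (hol ω p x w * hol (swp ω) q g' g1') := by
          rw [st]; simp only [mul_assoc]
      _ = _ := by rw [ih']; simp only [mul_assoc]

end Pool.Agent.Lib.NMX.Coind
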