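import Mathlib
import Pool.Agent.Lib.NMX.CoindWalk

set_option autoImplicit false

namespace Pool.Agent.Lib.NMX.Coind

open SimpleGraph

variable {Γ : Type} [Group Γ] {V W : Type}
variable {Λ : Subgroup Γ} {G : SimpleGraph V} {H : SimpleGraph W} {ω : V → W → V → W → Γ}

/-- A twisting of the component of `g0` over the edge `h0 h1`. -/
def Twist (Λ : Subgroup Γ) (G : SimpleGraph V) (ω : V → W → V → W → Γ) (g0 : V) (h0 h1 : W) :
    Prop :=
  ∃ δ : V → Γ, (∀ g, δ g ∈ Λ) ∧ ∀ g g', G.Reachable g0 g → G.Adj g g' →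
    ω g h0 g' h1 * δ g' * ω g' h0 g h1 * δ g = 1

theorem exists_even_walk {g0 g : V} (X : G.Walk g0 g0) (hX : ¬ Even X.length)
    (r : G.Reachable g0 g) : ∃ p : G.Walk g0 g, Even p.length := by
  obtain ⟨p⟩ := r
  by_cases hp : Even p.length
  · exact ⟨p, hp⟩
  · refine ⟨X.append p, ?_⟩
    rw [Walk.length_append, Nat.even_add]
    tauto

/-- Extension of a twist from the base point to its component. -/
theorem twist_of_base (hΛ : Λ.index = 2) (c : Conn Λ G H ω) {h0 h1 : W} (e : H.Adj h0 h1)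
    {g0 : V} (X : G.Walk g0 g0) (hX : ¬ Even X.length) (τ : Γ) (hτ : τ ∈ Λ)
    (ha : ∀ C : G.Walk g0 g0, Even C.length → hol ω C h1 h0 * τ = τ * hol ω C h0 h1)
    (hb : τ * hol ω X h0 h1 * τ = hol ω X h1 h0) : Twist Λ G ω g0 h0 h1 := by
  classical
  let δ : V → Γ := fun g =>
    if h : ∃ p : G.Walk g0 g, Even p.length then
      (hol ω h.choose h1 h0)⁻¹ * τ * hol ω h.choose h0 h1 else 1
  have hδ : ∀ g (p : G.Walk g0 g), Even p.length →
      δ g = (hol ω p h1 h0)⁻¹ * τ * hol ω p h0 h1 := by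
    intro g p hp
    have h : ∃ p : G.Walk g0 g, Even p.length := ⟨p, hp⟩
    have hq := h.choose_spec
    simp only [δ, dif_pos h]
    set q := h.choose
    have hC : Even (p.append q.reverse).length := by
      rw [Walk.length_append, Walk.length_reverse]; exact hp.add hq
    have h1' := ha _ hC
    rw [hol_append_even _ _ _ _ hp, hol_append_even _ _ _ _ hp, hol_reverse_even c q e hq,
      hol_reverse_even c q e.symm hq] at h1'
    calc (hol ω q h1 h0)⁻¹ * τ * hol ω q h0 h1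
        = (hol ω p h1 h0)⁻¹ * (hol ω p h1 h0 * (hol ω q h1 h0)⁻¹ * τ) * hol ω q h0 h1 := by
          group
      _ = _ := by rw [h1']; group
  refine ⟨δ, fun g => ?_, fun g g' r a => ?_⟩
  · by_cases h : ∃ p : G.Walk g0 g, Even p.length
    · obtain ⟨p, hp⟩ := h
      rw [hδ g p hp]
      exact Λ.mul_mem (Λ.mul_mem (Λ.inv_mem ((hol_mem hΛ c p e.symm).mpr hp)) hτ)
        ((hol_mem hΛ c p e).mpr hp)
    · simp only [δ, dif_neg h]; exact Λ.one_mem
  · obtain ⟨p, hp⟩ := exists_even_walk X hX r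
    have hp' : Even (X.append (p.append (Walk.cons a Walk.nil))).length := by
      simp only [Walk.length_append, Walk.length_cons, Walk.length_nil, Nat.even_add,
        Nat.even_add_one]
      simp [hX, hp]
    rw [hδ g p hp, hδ g' _ hp', hol_append_odd _ _ _ _ hX, hol_append_odd _ _ _ _ hX,
      hol_append_even _ _ _ _ hp, hol_append_even _ _ _ _ hp]
    simp only [hol_cons, hol_nil, mul_one]
    have hi := c.inv a e.symm
    rw [mul_eq_one_iff_inv_eq] at hi
    rw [← hi, ← hb]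
    group

/-- The holonomies of the even closed walks at `g0`. -/
def evenHol (c : Conn Λ G H ω) (g0 : V) {h0 h1 : W} (e : H.Adj h0 h1) : Subgroup Γ where
  carrier := {a | ∃ C : G.Walk g0 g0, Even C.length ∧ hol ω C h0 h1 = a}
  mul_mem' := by
    rintro a b ⟨C, hC, rfl⟩ ⟨D, hD, rfl⟩
    refine ⟨C.append D, ?_, hol_append_even _ _ _ _ hC⟩
    rw [Walk.length_append]; exact hC.add hD
  one_mem' := ⟨Walk.nil, by simp, rfl⟩
  inv_mem' := by
    rintro a ⟨C, hC, rfl⟩
    exact ⟨C.reverse, by rwa [Walk.length_reverse], hol_reverse_even c C e hC⟩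

theorem mem_evenHol (c : Conn Λ G H ω) (g0 : V) {h0 h1 : W} (e : H.Adj h0 h1) (a : Γ) :
    a ∈ evenHol c g0 e ↔ ∃ C : G.Walk g0 g0, Even C.length ∧ hol ω C h0 h1 = a := Iff.rfl

theorem evenHol_le (hΛ : Λ.index = 2) (c : Conn Λ G H ω) (g0 : V) {h0 h1 : W}
    (e : H.Adj h0 h1) : evenHol c g0 e ≤ Λ := by
  rintro a ⟨C, hC, rfl⟩
  exact (hol_mem hΛ c C e).mpr hC

/-- Conjugation by `T = hol X * τ` preserves the even holonomies. -/
theorem evenHol_norm (c : Conn Λ G H ω) {h0 h1 : W} (e : H.Adj h0 h1)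
    {g0 : V} (X : G.Walk g0 g0) (hX : ¬ Even X.length) (τ : Γ)
    (ha : ∀ C : G.Walk g0 g0, Even C.length → hol ω C h1 h0 * τ = τ * hol ω C h0 h1) (a : Γ) :
    a ∈ evenHol c g0 e ↔
      hol ω X h0 h1 * τ * a * (hol ω X h0 h1 * τ)⁻¹ ∈ evenHol c g0 e := by
  constructor
  · rintro ⟨C, hC, rfl⟩
    refine ⟨X.append (C.append X.reverse), ?_, ?_⟩
    · simp only [Walk.length_append, Walk.length_reverse, Nat.even_add]; tauto
    · rw [hol_append_odd _ _ _ _ hX, hol_append_even _ _ _ _ hC, hol_reverse_odd c X e hX]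
      calc hol ω X h0 h1 * (hol ω C h1 h0 * (hol ω X h0 h1)⁻¹)
          = hol ω X h0 h1 * (hol ω C h1 h0 * τ) * (hol ω X h0 h1 * τ)⁻¹ := by group
        _ = _ := by rw [ha C hC]; group
  · rintro ⟨C, hC, h⟩
    have hXr : ¬ Even X.reverse.length := by rwa [Walk.length_reverse]
    have hD : Even (X.reverse.append (C.append X)).length := by
      simp only [Walk.length_append, Walk.length_reverse, Nat.even_add]; tauto
    refine ⟨X.reverse.append (C.append X), hD, ?_⟩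
    have h1' := ha _ hD
    rw [hol_append_odd _ _ h1 h0 hXr, hol_append_even _ _ h0 h1 hC, hol_reverse_odd c X e hX, h]
      at h1'
    have : τ * hol ω (X.reverse.append (C.append X)) h0 h1 = τ * a := by
      rw [← h1']; group
    exact mul_left_cancel this

/-- The twist produced by a splitting element `z`. -/
theorem twist_of_split (hΛ : Λ.index = 2) (c : Conn Λ G H ω) {h0 h1 : W} (e : H.Adj h0 h1)
    {g0 : V} (X : G.Walk g0 g0) (hX : ¬ Even X.length) (τ : Γ) (hτ : τ ∈ Λ)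
    (ha : ∀ C : G.Walk g0 g0, Even C.length → hol ω C h1 h0 * τ = τ * hol ω C h0 h1)
    (z : Γ) (hz : z ∈ Λ) (hzc : ∀ a ∈ evenHol c g0 e, z * a = a * z)
    (hb : (hol ω X h0 h1 * τ * z) * (hol ω X h0 h1 * τ * z) = hol ω X h0 h1 * hol ω X h1 h0) :
    Twist Λ G ω g0 h0 h1 := by
  refine twist_of_base hΛ c e X hX (τ * z) (Λ.mul_mem hτ hz) (fun C hC => ?_) ?_
  · rw [← mul_assoc, ha C hC, mul_assoc, mul_assoc, hzc _ ⟨C, hC, rfl⟩]
  · apply mul_left_cancel (a := hol ω X h0 h1)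
    rw [← hb]; group

/-- The main group-theoretic step: over two odd closed walks one of the components twists. -/
theorem twist_or (hΛ : Λ.index = 2) (hS : Splits Λ) (c : Conn Λ G H ω) {g0 : V}
    (X : G.Walk g0 g0) (hX : ¬ Even X.length) {h0 : W} (Y : H.Walk h0 h0)
    (hY : ¬ Even Y.length) :
    (∃ h1, H.Adj h0 h1 ∧ Twist Λ G ω g0 h0 h1) ∨
      (∃ g1, G.Adj g0 g1 ∧ Twist Λ H (swp ω) h0 g0 g1) := by
  cases X with
  | nil => simp at hX
  | cons a X' =>
  cases Y with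
  | nil => simp at hY
  | cons e Y' =>
  rename_i g1 h1
  have hX' : Even X'.length := by simpa [Nat.even_add_one] using hX
  have hY' : Even Y'.length := by simpa [Nat.even_add_one] using hY
  set X : G.Walk g0 g0 := Walk.cons a X' with hXd
  set Y : H.Walk h0 h0 := Walk.cons e Y' with hYd
  have c' := c.swap
  set τ := hol (swp ω) Y' g0 g1 with hτd
  set τ' := hol ω X' h0 h1 with hτ'd
  have hτ : τ ∈ Λ := (hol_mem hΛ c' Y' a).mpr hY'
  have hτ' : τ' ∈ Λ := (hol_mem hΛ c X' e).mpr hX'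
  have ha : ∀ C : G.Walk g0 g0, Even C.length → hol ω C h1 h0 * τ = τ * hol ω C h0 h1 :=
    fun C hC => hol_comm c C hC Y' hY' a a e.symm e
  have ha' : ∀ D : H.Walk h0 h0, Even D.length →
      hol (swp ω) D g1 g0 * τ' = τ' * hol (swp ω) D g0 g1 :=
    fun D hD => (hol_comm c X' hX' D hD a.symm a e e).symm
  have hT : hol ω X h0 h1 * τ = hol (swp ω) Y g0 g1 * τ' := by
    have := hol_comm c X' hX' Y' hY' a.symm a e.symm e
    simp only [hXd, hYd, hol_cons, swp, mul_assoc] at this ⊢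
    rw [← this]
  have hXX : Even (X.append X).length := by rw [Walk.length_append]; exact ⟨_, rfl⟩
  have hYY : Even (Y.append Y).length := by rw [Walk.length_append]; exact ⟨_, rfl⟩
  have hu : hol ω (X.append X) h0 h1 = hol ω X h0 h1 * hol ω X h1 h0 := hol_append_odd _ _ _ _ hX
  have hv : hol (swp ω) (Y.append Y) g0 g1 = hol (swp ω) Y g0 g1 * hol (swp ω) Y g1 g0 :=
    hol_append_odd _ _ _ _ hY
  have hTT : (hol ω X h0 h1 * τ) * (hol ω X h0 h1 * τ) =
      hol ω (X.append X) h0 h1 * hol (swp ω) (Y.append Y) g0 g1 := by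
    have h2 := ha' _ hYY
    have h3 : hol (swp ω) (Y.append Y) g1 g0 = hol (swp ω) Y g1 g0 * hol (swp ω) Y g0 g1 :=
      hol_append_odd _ _ _ _ hY
    have h4 : hol (swp ω) Y g1 g0 = ω g1 h0 g0 h1 * τ := rfl
    have h5 : hol ω X h1 h0 = ω g0 h1 g1 h0 * τ' := rfl
    have hi := c.inv a e.symm
    calc (hol ω X h0 h1 * τ) * (hol ω X h0 h1 * τ)
        = hol ω X h0 h1 * (ω g0 h1 g1 h0 * ω g1 h0 g0 h1) * τ * (hol (swp ω) Y g0 g1 * τ') := by
          rw [hi, mul_one, ← hT]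
      _ = hol ω X h0 h1 * ω g0 h1 g1 h0 * (hol (swp ω) (Y.append Y) g1 g0 * τ') := by
          rw [h3, h4]; simp only [mul_assoc]
      _ = _ := by rw [h2, hu, h5]; simp only [mul_assoc]
  have hTu : (hol ω X h0 h1 * τ) * hol ω (X.append X) h0 h1 =
      hol ω (X.append X) h0 h1 * (hol ω X h0 h1 * τ) := by
    have h3 : hol ω (X.append X) h1 h0 = hol ω X h1 h0 * hol ω X h0 h1 :=
      hol_append_odd _ _ _ _ hX
    rw [mul_assoc, ← ha _ hXX, h3, hu]
    simp only [mul_assoc]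
  have hTo : hol ω X h0 h1 * τ ∉ Λ := by
    rw [Subgroup.mul_mem_iff_of_index_two hΛ, hol_mem hΛ c X e]
    tauto
  rcases hS (evenHol c g0 e) (evenHol c' h0 a) (hol ω X h0 h1 * τ) _ _ (evenHol_le hΛ c g0 e)
    (evenHol_le hΛ c' h0 a)
    (by
      rintro _ ⟨C, hC, rfl⟩ _ ⟨D, hD, rfl⟩
      exact hol_comm c C hC D hD a a e e)
    hTo (evenHol_norm c e X hX τ ha)
    (by rw [hT]; exact evenHol_norm c' a Y hY τ' ha')
    ⟨_, hXX, rfl⟩ ⟨_, hYY, rfl⟩ hTT hTu with ⟨z, hz, hzc, hb⟩ | ⟨z, hz, hzc, hb⟩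
  · exact Or.inl ⟨h1, e, twist_of_split hΛ c e X hX τ hτ ha z hz hzc (by rw [hb, hu])⟩
  · exact Or.inr ⟨g1, a, twist_of_split hΛ c' a Y hY τ' hτ' ha' z hz hzc
      (by rw [← hT, hb, hv])⟩

end Pool.Agent.Lib.NMX.Coind
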