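import Mathlib

set_option autoImplicit false

namespace Pool.Agent.Lib.NMX

/-- The direct (categorical) product of two simple graphs. -/
def dprod {A B : Type} (G : SimpleGraph A) (H : SimpleGraph B) : SimpleGraph (A × B) where
  Adj x y := G.Adj x.1 y.1 ∧ H.Adj x.2 y.2
  symm := ⟨fun _ _ h => ⟨h.1.symm, h.2.symm⟩⟩
  loopless := ⟨fun _ h => h.1.ne rfl⟩

/-- `M` is multiplicative: for all finite graphs `G`, `H`, a homomorphism `G × H → M` forces a
homomorphism `G → M` or `H → M`. -/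
def Multiplicative {V : Type} (M : SimpleGraph V) : Prop :=
  ∀ (A B : Type) [Finite A] [Finite B] (G : SimpleGraph A) (H : SimpleGraph B),
    Nonempty (dprod G H →g M) → Nonempty (G →g M) ∨ Nonempty (H →g M)

/-- The circular clique `K_{p/q}` on `0, …, p-1`: `i ~ j` iff `q ≤ |i - j| ≤ p - q`. -/
def circClique (p q : ℕ) : SimpleGraph (Fin p) where
  Adj i j := i ≠ j ∧ q ≤ Nat.dist i j ∧ Nat.dist i j + q ≤ p
  symm := ⟨fun _ _ h => ⟨h.1.symm, by rw [Nat.dist_comm]; exact h.2⟩⟩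
  loopless := ⟨fun _ h => h.1 rfl⟩

/-- The Kneser graph `K(n,k)`: the `k`-subsets of an `n`-set, adjacent when disjoint. -/
def kneser (n k : ℕ) : SimpleGraph {s : Finset (Fin n) // s.card = k} where
  Adj s t := s ≠ t ∧ Disjoint s.1 t.1
  symm := ⟨fun _ _ h => ⟨h.1.symm, h.2.symm⟩⟩
  loopless := ⟨fun _ h => h.1 rfl⟩

/-- Multiplicativity is invariant under homomorphic equivalence. -/
theorem Multiplicative.of_equiv {V W : Type} {M : SimpleGraph V} {M' : SimpleGraph W}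
    (h : Multiplicative M) (f : M →g M') (g : M' →g M) : Multiplicative M' := by
  intro A B _ _ G H ⟨φ⟩
  rcases h A B G H ⟨g.comp φ⟩ with ⟨⟨ψ⟩⟩ | ⟨⟨ψ⟩⟩
  · exact Or.inl ⟨f.comp ψ⟩
  · exact Or.inr ⟨f.comp ψ⟩

end Pool.Agent.Lib.NMX
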