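import Mathlib
import Pool.Agent.Lib.NMX.Defs
import Pool.Agent.Lib.NMX.CoindExt

set_option autoImplicit false

namespace Pool.Agent.Lib.NMX.Coind

open SimpleGraph

/-- The component of `g0` maps to `K`. -/
def CompHom {V U : Type} (G : SimpleGraph V) (K : SimpleGraph U) (g0 : V) : Prop :=
  ∃ f : V → U, ∀ g g', G.Reachable g0 g → G.Adj g g' → K.Adj (f g) (f g')

theorem hom_of_compHom {V U : Type} {G : SimpleGraph V} {K : SimpleGraph U}
    (h : ∀ g0, CompHom G K g0) : Nonempty (G →g K) := by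
  choose F hF using h
  refine ⟨⟨fun g => F (G.connectedComponentMk g).out g, fun {g g'} a => ?_⟩⟩
  have e : G.connectedComponentMk g = G.connectedComponentMk g' :=
    ConnectedComponent.connectedComponentMk_eq_of_adj a
  have r : G.Reachable (G.connectedComponentMk g).out g := by
    apply ConnectedComponent.exact
    exact Quot.out_eq _
  show K.Adj (F _ g) (F _ g')
  rw [← e]
  exact hF _ _ _ r a

theorem compHom_of_no_odd {V U : Type} {G : SimpleGraph V} {K : SimpleGraph U} {k0 k1 : U}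
    (e : K.Adj k0 k1) (g0 : V) (h : ∀ X : G.Walk g0 g0, Even X.length) : CompHom G K g0 := by
  classical
  refine ⟨fun g => if ∃ p : G.Walk g0 g, Even p.length then k0 else k1, fun g g' r a => ?_⟩
  have key : (∃ p : G.Walk g0 g, Even p.length) ↔ ¬ ∃ p : G.Walk g0 g', Even p.length := by
    constructor
    · rintro ⟨p, hp⟩ ⟨q, hq⟩
      have := h (p.append (Walk.cons a q.reverse))
      simp only [Walk.length_append, Walk.length_cons, Walk.length_reverse, Nat.even_add,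
        Nat.even_add_one] at this
      simp [hp, hq] at this
    · intro hn
      obtain ⟨p⟩ := r
      refine ⟨p, ?_⟩
      by_contra hp
      refine hn ⟨p.append (Walk.cons a Walk.nil), ?_⟩
      simp only [Walk.length_append, Walk.length_cons, Walk.length_nil, Nat.even_add,
        Nat.even_add_one]
      simp [hp]
  by_cases h1 : ∃ p : G.Walk g0 g, Even p.length
  · simp only [h1, key.mp h1, if_true, if_false]; exact e
  · have h2 : ∃ p : G.Walk g0 g', Even p.length := by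
      by_contra h2; exact h1 (key.mpr h2)
    simp only [h1, h2, if_true, if_false]; exact e.symm

/-- Reduction of multiplicativity to pairs of components with odd closed walks. -/
theorem hom_or_of_odd {V W U : Type} {G : SimpleGraph V} {H : SimpleGraph W} {K : SimpleGraph U}
    (μ : dprod G H →g K)
    (h : ∀ (g0 : V) (X : G.Walk g0 g0) (h0 : W) (Y : H.Walk h0 h0), ¬ Even X.length →
      ¬ Even Y.length → CompHom G K g0 ∨ CompHom H K h0) :
    Nonempty (G →g K) ∨ Nonempty (H →g K) := by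
  by_contra hn
  rw [not_or] at hn
  obtain ⟨g0, hg0⟩ : ∃ g0, ¬ CompHom G K g0 := by
    by_contra h'; push Not at h'; exact hn.1 (hom_of_compHom h')
  obtain ⟨h0, hh0⟩ : ∃ h0, ¬ CompHom H K h0 := by
    by_contra h'; push Not at h'; exact hn.2 (hom_of_compHom h')
  obtain ⟨g, g', a⟩ : ∃ g g', G.Adj g g' := by
    by_contra h'; push Not at h'
    exact hg0 ⟨fun _ => μ (g0, h0), fun g g' _ a => (h' g g' a).elim⟩
  obtain ⟨k, k', e⟩ : ∃ k k', H.Adj k k' := by
    by_contra h'; push Not at h'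
    exact hh0 ⟨fun _ => μ (g0, h0), fun g g' _ a => (h' g g' a).elim⟩
  have e' : K.Adj (μ (g, k)) (μ (g', k')) := μ.map_adj ⟨a, e⟩
  obtain ⟨X, hX⟩ : ∃ X : G.Walk g0 g0, ¬ Even X.length := by
    by_contra h'; push Not at h'; exact hg0 (compHom_of_no_odd e' g0 h')
  obtain ⟨Y, hY⟩ : ∃ Y : H.Walk h0 h0, ¬ Even Y.length := by
    by_contra h'; push Not at h'; exact hh0 (compHom_of_no_odd e' h0 h')
  exact (h g0 X h0 Y hX hY).elim hg0 hh0

variable {Γ A B : Type} [Group Γ] {Λ : Subgroup Γ} {E : A → B → Prop} {s : A → B → Γ}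

theorem voltGraph_adj (hΛ : Λ.index = 2) (hI : ∀ t, t ∉ Λ → t * t ≠ 1)
    (hs : ∀ a b, E a b → s a b ∈ Λ) (x y : A × B × {e : Γ // e ∉ Λ}) :
    (voltGraph Λ E s).Adj x y ↔ E x.1 y.2.1 ∧ E y.1 x.2.1 ∧
      s x.1 y.2.1 * y.2.2.1 * s y.1 x.2.1 * x.2.2.1 = 1 := by
  refine ⟨fun h => h.2, fun h => ⟨?_, h⟩⟩
  rintro rfl
  refine hI (s x.1 x.2.1 * x.2.2.1) ?_ (by rw [← mul_assoc]; exact h.2.2)
  rw [Subgroup.mul_mem_iff_of_index_two hΛ]
  have := hs _ _ h.1
  have := x.2.2.2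
  tauto

/-- The connection pulled back along a map of the product. -/
def pull {V W : Type} (s : A → B → Γ) (μ : V → W → A × B × {e : Γ // e ∉ Λ}) :
    V → W → V → W → Γ :=
  fun g h g' h' => (μ g h).2.2.1 * s (μ g h).1 (μ g' h').2.1

theorem pull_conn (hΛ : Λ.index = 2) (hs : ∀ a b, E a b → s a b ∈ Λ) (hb : Balanced E s)
    {V W : Type} {G : SimpleGraph V} {H : SimpleGraph W}
    (μ : V → W → A × B × {e : Γ // e ∉ Λ})
    (hμ : ∀ {g g' h h'}, G.Adj g g' → H.Adj h h' → (voltGraph Λ E s).Adj (μ g h) (μ g' h')) :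
    Conn Λ G H (pull s μ) := by
  have hinv : ∀ {g g' h h'}, G.Adj g g' → H.Adj h h' →
      pull s μ g h g' h' * pull s μ g' h' g h = 1 := by
    intro g g' h h' a e
    have h1 := (hμ a e).2.2.2
    have h2 := mul_eq_one_comm.mp h1
    simp only [pull]
    rw [← h2]; simp only [mul_assoc]
  refine ⟨fun {g g' h h'} a e => ?_, hinv, ?_⟩
  · simp only [pull]
    rw [Subgroup.mul_mem_iff_of_index_two hΛ]
    have := hs _ _ (hμ a e).2.1
    have := (μ g h).2.2.2
    tauto
  · intro g g1 g2 g3 h h1 h2 h3 a1 a2 a3 a4 e1 e2 e3 e4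
    have i1 := hinv a2.symm e2.symm
    have i2 := hinv a4.symm e4.symm
    rw [mul_eq_one_iff_inv_eq] at i1 i2
    rw [← i1, ← i2]
    have hq := hb _ _ _ _ (hμ a1 e1).2.1 (hμ a2.symm e2.symm).2.1 (hμ a4.symm e4.symm).2.1
      (hμ a3 e3).2.1
    simp only [pull]
    rw [mul_inv_eq_one, mul_assoc] at hq
    rw [← hq]
    group

theorem compHom_of_twist (hΛ : Λ.index = 2) (hI : ∀ t, t ∉ Λ → t * t ≠ 1)
    (hs : ∀ a b, E a b → s a b ∈ Λ)
    {V W : Type} {G : SimpleGraph V} {H : SimpleGraph W}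
    (μ : V → W → A × B × {e : Γ // e ∉ Λ})
    (hμ : ∀ {g g' h h'}, G.Adj g g' → H.Adj h h' → (voltGraph Λ E s).Adj (μ g h) (μ g' h'))
    {g0 : V} {h0 h1 : W} (e : H.Adj h0 h1) (ht : Twist Λ G (pull s μ) g0 h0 h1) :
    CompHom G (voltGraph Λ E s) g0 := by
  obtain ⟨δ, hδ, ht⟩ := ht
  refine ⟨fun g => ((μ g h0).1, (μ g h1).2.1, ⟨δ g * (μ g h0).2.2.1, ?_⟩), fun g g' r a => ?_⟩
  · rw [Subgroup.mul_mem_iff_of_index_two hΛ]
    have := hδ g
    have := (μ g h0).2.2.2
    tauto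
  · rw [voltGraph_adj hΛ hI hs]
    refine ⟨(hμ a e).2.1, (hμ a.symm e).2.1, ?_⟩
    have h1 := ht g g' r a
    simp only [pull, mul_assoc] at h1 ⊢
    have h2 := mul_eq_one_comm.mp h1
    simpa only [mul_assoc] using h2

/-- Twisted squares of balanced bipartite voltage graphs are multiplicative. -/
theorem voltGraph_hom_or (hΛ : Λ.index = 2) (hI : ∀ t, t ∉ Λ → t * t ≠ 1) (hS : Splits Λ)
    (hs : ∀ a b, E a b → s a b ∈ Λ) (hb : Balanced E s)
    {V W : Type} (G : SimpleGraph V) (H : SimpleGraph W) (μ : dprod G H →g voltGraph Λ E s) :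
    Nonempty (G →g voltGraph Λ E s) ∨ Nonempty (H →g voltGraph Λ E s) := by
  refine hom_or_of_odd μ fun g0 X h0 Y hX hY => ?_
  have hμ : ∀ {g g' h h'}, G.Adj g g' → H.Adj h h' →
      (voltGraph Λ E s).Adj (μ (g, h)) (μ (g', h')) := fun a e => μ.map_adj ⟨a, e⟩
  have c := pull_conn hΛ hs hb (fun g h => μ (g, h)) hμ
  rcases twist_or hΛ hS c X hX Y hY with ⟨h1, e, ht⟩ | ⟨g1, a, ht⟩
  · exact Or.inl (compHom_of_twist hΛ hI hs (fun g h => μ (g, h)) hμ e ht)
  · exact Or.inr (compHom_of_twist (G := H) (H := G) hΛ hI hs (fun h g => μ (g, h))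
      (fun e a => hμ a e) a ht)

theorem voltGraph_multiplicative (hΛ : Λ.index = 2) (hI : ∀ t, t ∉ Λ → t * t ≠ 1)
    (hS : Splits Λ) (hs : ∀ a b, E a b → s a b ∈ Λ) (hb : Balanced E s) :
    Multiplicative (voltGraph Λ E s) :=
  fun _ _ _ _ G H ⟨μ⟩ => voltGraph_hom_or hΛ hI hS hs hb G H μ

end Pool.Agent.Lib.NMX.Coind
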