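import Mathlib
import Pool.Agent.Lib.NMX.CoindMain

set_option autoImplicit false

namespace Pool.Agent.Lib.NMX.Coind

variable {Γ : Type} [Group Γ] {Λ : Subgroup Γ}

/-- The splitting property for a commutative subgroup of index two. -/
theorem splits_of_comm (hΛ : Λ.index = 2) (hc : ∀ a ∈ Λ, ∀ b ∈ Λ, a * b = b * a)
    (h : ∀ T, T ∉ Λ → ∀ u ∈ Λ, T * u = u * T →
      (∃ t, t ∉ Λ ∧ t * t = u) ∨ (∃ t, t ∉ Λ ∧ u * (t * t) = T * T)) : Splits Λ := by
  intro P Q T u v hP hQ _ hT _ _ hu hv hTT hTu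
  have hz : ∀ t, t ∉ Λ → T⁻¹ * t ∈ Λ := by
    intro t ht
    rw [Subgroup.mul_mem_iff_of_index_two hΛ, Subgroup.inv_mem_iff]
    tauto
  rcases h T hT u (hP hu) hTu with ⟨t, ht, e⟩ | ⟨t, ht, e⟩
  · exact Or.inl ⟨T⁻¹ * t, hz t ht, fun a ha => hc _ (hz t ht) _ (hP ha), by simpa using e⟩
  · refine Or.inr ⟨T⁻¹ * t, hz t ht, fun a ha => hc _ (hz t ht) _ (hQ ha), ?_⟩
    rw [hTT] at e
    simpa using mul_left_cancel e

/-- Every index two subgroup of a cyclic group splits. -/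
theorem splits_of_isCyclic [IsCyclic Γ] (hΛ : Λ.index = 2) : Splits Λ := by
  obtain ⟨c, hc⟩ := IsCyclic.exists_generator (α := Γ)
  have hcomm : ∀ a b : Γ, a * b = b * a := by
    intro a b
    obtain ⟨i, rfl⟩ := hc a
    obtain ⟨j, rfl⟩ := hc b
    exact (zpow_mul_comm c i j)
  have hcΛ : c ∉ Λ := by
    intro h
    have : Λ = ⊤ := by
      rw [eq_top_iff]
      intro a _
      obtain ⟨i, rfl⟩ := hc a
      exact Λ.zpow_mem h i
    rw [this, Subgroup.index_top] at hΛ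
    omega
  have hsq : ∀ i : ℤ, c ^ (2 * i) ∈ Λ := by
    intro i
    rw [two_mul, zpow_add, Subgroup.mul_mem_iff_of_index_two hΛ]
  have hodd : ∀ i : ℤ, c ^ (2 * i + 1) ∉ Λ := by
    intro i
    rw [zpow_add, zpow_one, Subgroup.mul_mem_iff_of_index_two hΛ]
    have := hsq i
    tauto
  refine splits_of_comm hΛ (fun a _ b _ => hcomm a b) fun T hT u hu _ => ?_
  obtain ⟨k, rfl⟩ := hc T
  obtain ⟨i, rfl⟩ := hc u
  simp only at hT hu ⊢
  obtain ⟨k, rfl | rfl⟩ := Int.even_or_odd' k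
  · exact (hT (hsq k)).elim
  obtain ⟨i, rfl | rfl⟩ := Int.even_or_odd' i
  swap
  · exact (hodd i hu).elim
  obtain ⟨i, rfl | rfl⟩ := Int.even_or_odd' i
  · refine Or.inr ⟨c ^ (2 * (k - i) + 1), hodd _, ?_⟩
    simp only [← zpow_add]
    congr 1
    ring
  · refine Or.inl ⟨c ^ (2 * i + 1), hodd _, ?_⟩
    simp only [← zpow_add]
    congr 1
    ring

/-- The cyclic subgroup of index two of the dicyclic group. -/
def rot (n : ℕ) : Subgroup (QuaternionGroup n) where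
  carrier := {x | ∃ i, x = QuaternionGroup.a i}
  mul_mem' := by
    rintro _ _ ⟨i, rfl⟩ ⟨j, rfl⟩
    exact ⟨i + j, rfl⟩
  one_mem' := ⟨0, rfl⟩
  inv_mem' := by
    rintro _ ⟨i, rfl⟩
    exact ⟨-i, rfl⟩

theorem a_mem_rot (n : ℕ) (i : ZMod (2 * n)) : QuaternionGroup.a i ∈ rot n := ⟨i, rfl⟩

theorem xa_not_mem_rot (n : ℕ) (i : ZMod (2 * n)) : QuaternionGroup.xa i ∉ rot n := by
  rintro ⟨j, h⟩
  cases h

theorem rot_index (n : ℕ) : (rot n).index = 2 := by
  rw [Subgroup.index_eq_two_iff]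
  refine ⟨QuaternionGroup.xa 0, fun b => ?_⟩
  cases b with
  | a i => simp [a_mem_rot, xa_not_mem_rot]
  | xa i => simp [a_mem_rot, xa_not_mem_rot]

theorem natCast_ne_zero_two_mul {n : ℕ} (hn : n ≠ 0) : (n : ZMod (2 * n)) ≠ 0 := by
  rw [Ne, ZMod.natCast_eq_zero_iff]
  intro h
  have := Nat.le_of_dvd (Nat.pos_of_ne_zero hn) h
  omega

theorem rot_no_involution {n : ℕ} (hn : n ≠ 0) (t : QuaternionGroup n) (ht : t ∉ rot n) :
    t * t ≠ 1 := by
  cases t with
  | a i => exact (ht (a_mem_rot n i)).elim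
  | xa i =>
    rw [QuaternionGroup.xa_mul_xa, QuaternionGroup.one_def]
    intro h
    injection h with h
    exact natCast_ne_zero_two_mul hn (by simpa using h)

theorem splits_rot {n : ℕ} (hn : n ≠ 0) : Splits (rot n) := by
  refine splits_of_comm (rot_index n) ?_ ?_
  · rintro _ ⟨i, rfl⟩ _ ⟨j, rfl⟩
    simp [add_comm]
  · rintro T hT _ ⟨i, rfl⟩ h
    cases T with
    | a j => exact (hT (a_mem_rot n j)).elim
    | xa j =>
      simp only [QuaternionGroup.xa_mul_a, QuaternionGroup.a_mul_xa,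
        QuaternionGroup.xa.injEq] at h
      have h2 : (-i) = i := by linear_combination -h
      have : NeZero (2 * n) := ⟨by omega⟩
      rcases (ZMod.neg_eq_self_iff i).mp h2 with h0 | h0
      · refine Or.inr ⟨QuaternionGroup.xa j, hT, ?_⟩
        rw [h0, ← QuaternionGroup.one_def, one_mul]
      · refine Or.inl ⟨QuaternionGroup.xa j, hT, ?_⟩
        have : i.val = n := by omega
        rw [QuaternionGroup.xa_mul_xa, ← ZMod.natCast_zmod_val i, this]
        simp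

/-- A flat odd connection on a graph. -/
structure Flat {V : Type} (Λ : Subgroup Γ) (F : SimpleGraph V) (ω : V → V → Γ) : Prop where
  odd : ∀ x y, F.Adj x y → ω x y ∉ Λ
  inv : ∀ x y, F.Adj x y → ω x y * ω y x = 1
  sq : ∀ x x' y y', F.Adj x y → F.Adj x' y → F.Adj x' y' → F.Adj x y' →
    ω x y * (ω x' y)⁻¹ * ω x' y' * (ω x y')⁻¹ = 1

variable {V : Type} {F : SimpleGraph V} {ω : V → V → Γ}

theorem Flat.mem (hΛ : Λ.index = 2) (h : Flat Λ F ω) {t : Γ} (ht : t ∉ Λ) (a b : V)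
    (e : F.Adj a b) : ω a b * t⁻¹ ∈ Λ := by
  rw [Subgroup.mul_mem_iff_of_index_two hΛ, Subgroup.inv_mem_iff]
  have := h.odd a b e
  tauto

theorem Flat.balanced (h : Flat Λ F ω) (t : Γ) :
    Balanced F.Adj (fun a b => ω a b * t⁻¹) := by
  intro a a' b b' h1 h2 h3 h4
  rw [← h.sq a a' b b' h1 h2 h3 h4]
  group

/-- A graph with a flat odd connection maps to the twisted square of its double cover. -/
def Flat.hom (h : Flat Λ F ω) {t : Γ} (ht : t ∉ Λ) :
    F →g voltGraph Λ F.Adj (fun a b => ω a b * t⁻¹) where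
  toFun a := (a, a, ⟨t, ht⟩)
  map_rel' := by
    intro a b e
    refine ⟨fun h' => e.ne (congrArg Prod.fst h'), e, e.symm, ?_⟩
    simpa [mul_assoc] using h.inv a b e

theorem Flat.multiplicative (hΛ : Λ.index = 2) (hI : ∀ t, t ∉ Λ → t * t ≠ 1) (hS : Splits Λ)
    (h : Flat Λ F ω) {t : Γ} (ht : t ∉ Λ) :
    Multiplicative (voltGraph Λ F.Adj (fun a b => ω a b * t⁻¹)) :=
  voltGraph_multiplicative hΛ hI hS (h.mem hΛ ht) (h.balanced t)

end Pool.Agent.Lib.NMX.Coind
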