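import Mathlib
import Pool.Agent.Lib.NMX.CoindGroups

set_option autoImplicit false

namespace Pool.Agent.Lib.NMX.Coind

/-- The even integers, written multiplicatively. -/
def evens : Subgroup (_root_.Multiplicative ℤ) where
  carrier := {x | Even x.toAdd}
  mul_mem' := fun ha hb => Even.add ha hb
  one_mem' := ⟨0, rfl⟩
  inv_mem' := fun ha => Even.neg ha

theorem mem_evens (x : _root_.Multiplicative ℤ) : x ∈ evens ↔ Even x.toAdd := Iff.rfl

theorem evens_index : evens.index = 2 := by
  rw [Subgroup.index_eq_two_iff]
  refine ⟨_root_.Multiplicative.ofAdd 1, fun b => ?_⟩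
  simp only [mem_evens, toAdd_mul, toAdd_ofAdd, Int.even_add_one]
  by_cases h : Even b.toAdd <;> simp [h]

theorem evens_no_involution (t : _root_.Multiplicative ℤ) (ht : t ∉ evens) : t * t ≠ 1 := by
  intro h
  have h2 := congrArg _root_.Multiplicative.toAdd h
  simp only [toAdd_mul, toAdd_one] at h2
  exact ht ⟨0, by omega⟩

theorem one_not_mem_evens : _root_.Multiplicative.ofAdd (1 : ℤ) ∉ evens := by
  simp [mem_evens]

/-- The orientation of a circular clique by the order of the labels. -/
def circOri (p : ℕ) (a b : Fin p) : _root_.Multiplicative ℤ :=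
  _root_.Multiplicative.ofAdd (if a < b then 1 else -1)

theorem circ_adj {p q : ℕ} {a b : Fin p} (h : (circClique p q).Adj a b) :
    (a.val + q ≤ b.val ∧ b.val + q ≤ a.val + p ∧ a.val < b.val) ∨
      (b.val + q ≤ a.val ∧ a.val + q ≤ b.val + p ∧ b.val < a.val) := by
  obtain ⟨h1, h2, h3⟩ := h
  have : a.val ≠ b.val := fun h => h1 (Fin.ext h)
  unfold Nat.dist at h2 h3
  omega

theorem circ_flat {p q : ℕ} (hpq : p < 4 * q) : Flat evens (circClique p q) (circOri p) where
  odd x y _ := by
    simp only [mem_evens, circOri, toAdd_ofAdd]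
    split_ifs <;> simp
  inv x y h := by
    have h1 := circ_adj h
    apply _root_.Multiplicative.toAdd.injective
    simp only [circOri, toAdd_mul, toAdd_ofAdd, toAdd_one, Fin.lt_def]
    split_ifs <;> omega
  sq x x' y y' h1 h2 h3 h4 := by
    have h1 := circ_adj h1
    have h2 := circ_adj h2
    have h3 := circ_adj h3
    have h4 := circ_adj h4
    apply _root_.Multiplicative.toAdd.injective
    simp only [circOri, toAdd_mul, toAdd_inv, toAdd_ofAdd, toAdd_one, Fin.lt_def]
    split_ifs <;> omega

theorem emod_adj {p q : ℕ} (hq : 0 < q) {X X' k : ℤ} (h1 : (q : ℤ) ≤ X' - X - k * p)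
    (h2 : X' - X - k * p + q ≤ p) {r r' : Fin p} (hr : (r.val : ℤ) = X % p)
    (hr' : (r'.val : ℤ) = X' % p) : (circClique p q).Adj r r' := by
  have e1 := Int.emod_add_mul_ediv X p
  have e2 := Int.emod_add_mul_ediv X' p
  have hr1 := r.2
  have hr2 := r'.2
  set j : ℤ := X' / p - X / p - k with hj
  have e : X' - X - k * p = r'.val - r.val + j * p := by
    rw [hr, hr', hj]; linear_combination e1 - e2
  have hj0 : 0 ≤ j := by
    by_contra hc
    have : j * p ≤ -1 * p := by
      apply mul_le_mul_of_nonneg_right <;> omega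
    omega
  have hj1 : j ≤ 1 := by
    by_contra hc
    have : 2 * (p : ℤ) ≤ j * p := by
      apply mul_le_mul_of_nonneg_right <;> omega
    omega
  have hj' : j * p = 0 ∨ j * p = p := by
    obtain h | h : j = 0 ∨ j = 1 := by omega
    · left; rw [h, zero_mul]
    · right; rw [h, one_mul]
  refine ⟨fun h => ?_, ?_, ?_⟩
  · have := congrArg Fin.val h
    omega
  · unfold Nat.dist; omega
  · unfold Nat.dist; omega

/-- The midpoint map from the twisted square back to the circular clique. -/
def circBack {p q : ℕ} (hpq : p < 4 * q) :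
    voltGraph evens (circClique p q).Adj
      (fun a b => circOri p a b * (_root_.Multiplicative.ofAdd (1 : ℤ))⁻¹) →g circClique p q where
  toFun x := ⟨(((x.1.val + x.2.1.val + (x.2.2.1.toAdd - 1) / 2 * p : ℤ) / 2) % p).toNat, by
    have := x.1.2
    have h1 := Int.emod_lt_of_pos
      ((x.1.val + x.2.1.val + (x.2.2.1.toAdd - 1) / 2 * p : ℤ) / 2) (b := p) (by omega)
    omega⟩
  map_rel' := by
    rintro ⟨a, b, e, he⟩ ⟨a', b', e', he'⟩ ⟨-, h1, h2, h3⟩
    have hp : (0 : ℤ) < p := by have := a.2; omega
    have h1 := circ_adj h1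
    have h2 := circ_adj h2
    have h3 := congrArg _root_.Multiplicative.toAdd h3
    simp only [circOri, toAdd_mul, toAdd_inv, toAdd_ofAdd, toAdd_one, Fin.lt_def] at h1 h2 h3
    rw [mem_evens, Int.not_even_iff_odd] at he he'
    obtain ⟨η, hη⟩ := he
    obtain ⟨η', hη'⟩ := he'
    have e1 : (e.toAdd - 1) / 2 = η := by omega
    have e2 : (e'.toAdd - 1) / 2 = η' := by omega
    have ha := a.2
    have hb := b.2
    have ha' := a'.2
    have hb' := b'.2
    have key : ∃ k : ℤ,
        (q : ℤ) ≤ (a'.val + b'.val + η' * p) / 2 - (a.val + b.val + η * p) / 2 - k * p ∧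
        (a'.val + b'.val + η' * p) / 2 - (a.val + b.val + η * p) / 2 - k * p + q ≤ p := by
      by_cases c1 : a.val < b'.val <;> by_cases c2 : a'.val < b.val <;>
        simp only [c1, c2, if_true, if_false] at h3
      · have : η' = -η - 1 := by omega
        subst this
        refine ⟨-η - 1, ?_⟩
        simp only [sub_mul, neg_mul, one_mul]
        omega
      · have : η' = -η := by omega
        subst this
        refine ⟨-η, ?_⟩
        simp only [neg_mul]
        omega
      · have : η' = -η := by omega
        subst this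
        refine ⟨-η - 1, ?_⟩
        simp only [sub_mul, neg_mul, one_mul]
        omega
      · have : η' = -η + 1 := by omega
        subst this
        refine ⟨-η, ?_⟩
        simp only [add_mul, neg_mul, one_mul]
        omega
    obtain ⟨k, k1, k2⟩ := key
    refine emod_adj (by omega) k1 k2 ?_ ?_
    · simp only [e1]
      exact Int.toNat_of_nonneg (Int.emod_nonneg _ hp.ne')
    · simp only [e2]
      exact Int.toNat_of_nonneg (Int.emod_nonneg _ hp.ne')

/-- Circular cliques `K_{p/q}` with `p/q < 4` are multiplicative. -/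
theorem circClique_mult {p q : ℕ} (hpq : p < 4 * q) : Multiplicative (circClique p q) :=
  ((circ_flat hpq).multiplicative evens_index evens_no_involution
    (splits_of_isCyclic evens_index) one_not_mem_evens).of_equiv (circBack hpq)
    ((circ_flat hpq).hom one_not_mem_evens)

theorem circClique_one (p : ℕ) : circClique p 1 = ⊤ := by
  ext i j
  simp only [circClique, SimpleGraph.top_adj]
  refine ⟨fun h => h.1, fun h => ⟨h, ?_⟩⟩
  have : i.val ≠ j.val := fun h' => h (Fin.ext h')
  have := i.2
  have := j.2
  unfold Nat.dist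
  omega

theorem K3_mult : Multiplicative (⊤ : SimpleGraph (Fin 3)) :=
  circClique_one 3 ▸ circClique_mult (by norm_num)

theorem K2_mult : Multiplicative (⊤ : SimpleGraph (Fin 2)) :=
  circClique_one 2 ▸ circClique_mult (by norm_num)

theorem K1_mult : Multiplicative (⊤ : SimpleGraph (Fin 1)) :=
  circClique_one 1 ▸ circClique_mult (by norm_num)

theorem K0_mult : Multiplicative (⊤ : SimpleGraph (Fin 0)) :=
  circClique_one 0 ▸ circClique_mult (by norm_num)

end Pool.Agent.Lib.NMX.Coind
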