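import Mathlib
import Pool.Agent.Lib.NMX.CoindCirc

set_option autoImplicit false

namespace Pool.Agent.Lib.NMX.Coind

instance (p q : ℕ) : DecidableRel (circClique p q).Adj := fun i j =>
  inferInstanceAs (Decidable (i ≠ j ∧ q ≤ Nat.dist i j ∧ Nat.dist i j + q ≤ p))

theorem C5_mult : Multiplicative (SimpleGraph.cycleGraph 5) :=
  (circClique_mult (p := 5) (q := 2) (by norm_num)).of_equiv
    ⟨fun i => 3 * i, fun {a b} => by revert a b; decide⟩
    ⟨fun i => 2 * i, fun {a b} => by revert a b; decide⟩

theorem C7_mult : Multiplicative (SimpleGraph.cycleGraph 7) :=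
  (circClique_mult (p := 7) (q := 3) (by norm_num)).of_equiv
    ⟨fun i => 2 * i, fun {a b} => by revert a b; decide⟩
    ⟨fun i => 3 * i, fun {a b} => by revert a b; decide⟩

end Pool.Agent.Lib.NMX.Coind
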