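import Mathlib
import Pool.Agent.Lib.NMX.CoindGroups

set_option autoImplicit false

namespace Pool.Agent.Lib.NMX.Coind

open QuaternionGroup

/-- Parity of a residue modulo `4 m`. -/
def par (m : ℕ) : ZMod (2 * (2 * m)) →+* ZMod 2 := ZMod.castHom (dvd_mul_right 2 (2 * m)) _

/-- The index of an element of the dicyclic group. -/
def idx {n : ℕ} : QuaternionGroup n → ZMod (2 * n)
  | a i => i
  | xa i => i

theorem par_n (m : ℕ) : par m ((2 * m : ℕ) : ZMod (2 * (2 * m))) = 0 := by
  rw [map_natCast, ZMod.natCast_eq_zero_iff]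
  exact dvd_mul_right 2 m

theorem par_idx_mul (m : ℕ) (x y : QuaternionGroup (2 * m)) :
    par m (idx (x * y)) = par m (idx x) + par m (idx y) := by
  have two : (2 : ZMod 2) = 0 := rfl
  cases x <;> cases y <;>
    simp only [a_mul_a, a_mul_xa, xa_mul_a, xa_mul_xa, idx, map_add, map_sub, par_n]
  · rename_i i j
    linear_combination (-par m i) * two
  · rename_i i j
    linear_combination (-par m i) * two

/-- The dicyclic subgroup of index two of the dicyclic group of order `8 m`. -/
def dic (m : ℕ) : Subgroup (QuaternionGroup (2 * m)) where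
  carrier := {x | par m (idx x) = 0}
  mul_mem' := by
    intro x y hx hy
    simp only [Set.mem_ofPred_eq] at hx hy ⊢
    rw [par_idx_mul, hx, hy, add_zero]
  one_mem' := map_zero (par m)
  inv_mem' := by
    intro x hx
    have h := par_idx_mul m x x⁻¹
    simp only [Set.mem_ofPred_eq] at hx ⊢
    rw [mul_inv_cancel, hx, zero_add, one_def] at h
    simpa [idx] using h.symm

theorem mem_dic (m : ℕ) (x : QuaternionGroup (2 * m)) : x ∈ dic m ↔ par m (idx x) = 0 := Iff.rfl

theorem dic_index (m : ℕ) : (dic m).index = 2 := by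
  rw [Subgroup.index_eq_two_iff]
  refine ⟨a 1, fun b => ?_⟩
  rw [mem_dic, mem_dic, par_idx_mul]
  have : par m (idx (a 1)) = 1 := by simp [idx]
  rw [this]
  generalize par m (idx b) = t
  revert t
  unfold Xor
  decide

theorem neg_eq_self_cases {n : ℕ} (hn : n ≠ 0) {i : ZMod (2 * n)} (h : -i = i) :
    i = 0 ∨ i = n := by
  have : NeZero (2 * n) := ⟨by omega⟩
  rcases (ZMod.neg_eq_self_iff i).mp h with h0 | h0
  · exact Or.inl h0
  · have : i.val = n := by omega
    right
    rw [← ZMod.natCast_zmod_val i, this]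

theorem par_of_neg_eq_self {m : ℕ} (hm : m ≠ 0) {i : ZMod (2 * (2 * m))} (h : -i = i) :
    par m i = 0 := by
  rcases neg_eq_self_cases (by omega) h with rfl | rfl
  · simp
  · exact par_n m

theorem dic_no_involution {m : ℕ} (hm : m ≠ 0) (t : QuaternionGroup (2 * m)) (ht : t ∉ dic m) :
    t * t ≠ 1 := by
  cases t with
  | a i =>
    intro h
    rw [a_mul_a, one_def] at h
    injection h with h
    exact ht (par_of_neg_eq_self hm (i := i) (by linear_combination -h))
  | xa i => exact rot_no_involution (by omega) _ (xa_not_mem_rot _ i)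

theorem exists_half {m : ℕ} (hm : m ≠ 0) {i : ZMod (2 * (2 * m))} (h : par m i = 0) :
    ∃ j, i = j + j := by
  have : NeZero (2 * (2 * m)) := ⟨by omega⟩
  rw [← ZMod.natCast_zmod_val i, map_natCast, ZMod.natCast_eq_zero_iff] at h
  obtain ⟨j, hj⟩ := h
  refine ⟨j, ?_⟩
  rw [← ZMod.natCast_zmod_val i, hj]
  push_cast
  ring

theorem dic_half {m : ℕ} (hm : m ≠ 0) (P Q : Subgroup (QuaternionGroup (2 * m))) (hP : P ≤ dic m)
    (hc : ∀ x ∈ P, ∀ y ∈ Q, x * y = y * x) (k i j : ZMod (2 * (2 * m))) (hk : par m k ≠ 0)
    (hi : par m i ≠ 0) (hv : a j ∈ Q) (h : k + k = i + i + j) :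
    (∃ z ∈ dic m, (∀ x ∈ P, z * x = x * z) ∧ (a k * z) * (a k * z) = a (i + i)) ∨
      (∃ z ∈ dic m, (∀ y ∈ Q, z * y = y * z) ∧ (a k * z) * (a k * z) = a j) := by
  by_cases hr : ∃ l, xa l ∈ P
  · obtain ⟨l, hl⟩ := hr
    have h1 := hc _ hl _ hv
    simp only [xa_mul_a, a_mul_xa, xa.injEq] at h1
    rcases neg_eq_self_cases (i := j) (by omega) (by linear_combination -h1) with h0 | h0
    · refine Or.inl ⟨1, (dic m).one_mem, by simp, ?_⟩
      rw [mul_one, a_mul_a, h, h0, add_zero]
    · refine Or.inr ⟨xa l, hP hl, hc _ hl, ?_⟩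
      rw [a_mul_xa, xa_mul_xa, h0]
      simp
  · refine Or.inl ⟨a (i - k), ?_, fun x hx => ?_, by simp⟩
    · rw [mem_dic]
      simp only [idx, map_sub]
      revert hk hi
      generalize par m k = s
      generalize par m i = t
      revert s t
      decide
    · cases x with
      | a l => simp [add_comm]
      | xa l => exact (hr ⟨l, hx⟩).elim

theorem splits_dic {m : ℕ} (hm : m ≠ 0) : Splits (dic m) := by
  intro P Q T u v hP hQ hc hT _ _ hu hv hTT hTu
  cases T with
  | xa k =>
    have hk : par m k ≠ 0 := hT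
    cases u with
    | xa i =>
      have hi : par m i = 0 := hP hu
      simp only [xa_mul_xa, a.injEq] at hTu
      have := par_of_neg_eq_self hm (i := i - k) (by linear_combination -hTu)
      rw [map_sub, hi, zero_sub, neg_eq_zero] at this
      exact (hk this).elim
    | a i =>
      simp only [xa_mul_a, a_mul_xa, xa.injEq] at hTu
      rcases neg_eq_self_cases (i := i) (by omega) (by linear_combination -hTu) with h0 | h0
      · refine Or.inr ⟨1, (dic m).one_mem, by simp, ?_⟩
        rw [mul_one, hTT, h0, ← one_def, one_mul]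
      · refine Or.inl ⟨1, (dic m).one_mem, by simp, ?_⟩
        rw [mul_one, h0]
        simp
  | a k =>
    have hk : par m k ≠ 0 := hT
    cases u with
    | xa i =>
      simp only [xa_mul_a, a_mul_xa, xa.injEq] at hTu
      exact (hk (par_of_neg_eq_self hm (i := k) (by linear_combination hTu))).elim
    | a i =>
      cases v with
      | xa j => simp at hTT
      | a j =>
        simp only [a_mul_a, a.injEq] at hTT
        obtain ⟨i, rfl⟩ := exists_half hm (i := i) (hP hu)
        obtain ⟨j, rfl⟩ := exists_half hm (i := j) (hQ hv)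
        have h1 := par_of_neg_eq_self hm (i := k - i - j) (by linear_combination -hTT)
        by_cases hi : par m i = 0
        · have hj : par m j ≠ 0 := by
            intro hj
            rw [map_sub, map_sub, hi, hj] at h1
            exact hk (by simpa using h1)
          exact (dic_half hm Q P hQ (fun x hx y hy => (hc y hy x hx).symm) k j (i + i) hk hj hu
            (by rw [hTT]; ring)).symm
        · exact dic_half hm P Q hP hc k i (j + j) hk hi hv hTT

end Pool.Agent.Lib.NMX.Coind
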