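import Mathlib
import Pool.Agent.Lib.NMX.CoindCirc

set_option autoImplicit false

namespace Pool.Agent.Lib.NMX.Coind

/-- `F` has an orientation (`o x y = 1` iff the edge `x y` points from `x` to `y`) in which every
closed walk of length four has an even number of forward edges. -/
def EvenOri {V : Type} (F : SimpleGraph V) : Prop :=
  ∃ o : V → V → ZMod 2, (∀ x y, F.Adj x y → o x y + o y x = 1) ∧
    ∀ x y x' y', F.Adj x y → F.Adj y x' → F.Adj x' y' → F.Adj y' x →
      o x y + o y x' + o x' y' + o y' x = 0

theorem EvenOri.of_hom {V W : Type} {F : SimpleGraph V} {F' : SimpleGraph W} (f : F →g F')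
    (h : EvenOri F') : EvenOri F := by
  obtain ⟨o, h1, h2⟩ := h
  exact ⟨fun x y => o (f x) (f y), fun x y e => h1 _ _ (f.map_adj e),
    fun x y x' y' a b c d => h2 _ _ _ _ (f.map_adj a) (f.map_adj b) (f.map_adj c) (f.map_adj d)⟩

/-- Graphs without four-cycles are evenly orientable. -/
theorem evenOri_of_squareFree {V : Type} (F : SimpleGraph V)
    (h : ∀ x y x' y', F.Adj x y → F.Adj y x' → F.Adj x' y' → F.Adj y' x → x = x' ∨ y = y') :
    EvenOri F := by
  classical
  let _ : LinearOrder V := linearOrderOfSTO WellOrderingRel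
  have h1 : ∀ x y, F.Adj x y → (if x < y then (1 : ZMod 2) else 0) +
      (if y < x then (1 : ZMod 2) else 0) = 1 := by
    intro x y e
    rcases lt_or_gt_of_ne e.ne with l | l
    · simp [l, l.not_gt]
    · simp [l, l.not_gt]
  refine ⟨fun x y => if x < y then 1 else 0, h1, fun x y x' y' a b c d => ?_⟩
  have two : (1 : ZMod 2) + 1 = 0 := rfl
  rcases h x y x' y' a b c d with rfl | rfl
  · linear_combination h1 _ _ a + h1 _ _ c + two
  · linear_combination h1 _ _ a + h1 _ _ c + two

/-- Circular cliques below four are evenly orientable. -/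
theorem evenOri_circClique {p q : ℕ} (hpq : p < 4 * q) : EvenOri (circClique p q) := by
  refine ⟨fun x y => if x < y then 1 else 0, fun x y e => ?_, fun x y x' y' a b c d => ?_⟩
  · rcases lt_or_gt_of_ne e.ne with l | l
    · simp [l, l.not_gt]
    · simp [l, l.not_gt]
  · have h1 := circ_adj a
    have h2 := circ_adj b
    have h3 := circ_adj c
    have h4 := circ_adj d
    simp only [Fin.lt_def]
    split_ifs <;> first | rfl | omega

/-- The edges of an odd quadrangulation of the Klein bottle with ten vertices. -/
def kleinE (x y : Fin 10) : Bool :=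
  (x.val < y.val) && ((y.val ≤ x.val + 2) || (x.val = 0 && 8 ≤ y.val) || (x.val = 1 && y.val = 8))

/-- An odd quadrangulation of the Klein bottle with ten vertices. -/
def klein : SimpleGraph (Fin 10) where
  Adj x y := (kleinE x y || kleinE y x) = true
  symm := ⟨fun x y h => by rw [Bool.or_comm]; exact h⟩
  loopless := ⟨fun x h => by simp [kleinE] at h⟩

instance : DecidableRel klein.Adj := fun x y =>
  inferInstanceAs (Decidable ((kleinE x y || kleinE y x) = true))

theorem klein_not_evenOri : ¬ EvenOri klein := by
  rintro ⟨o, h1, h2⟩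
  have c1 := h2 0 2 1 8 (by decide) (by decide) (by decide) (by decide)
  have c2 := h2 0 1 3 2 (by decide) (by decide) (by decide) (by decide)
  have c3 := h2 0 8 7 9 (by decide) (by decide) (by decide) (by decide)
  have c4 := h2 0 1 8 9 (by decide) (by decide) (by decide) (by decide)
  have c5 := h2 1 2 4 3 (by decide) (by decide) (by decide) (by decide)
  have c6 := h2 2 3 5 4 (by decide) (by decide) (by decide) (by decide)
  have c7 := h2 3 4 6 5 (by decide) (by decide) (by decide) (by decide)
  have c8 := h2 4 5 7 6 (by decide) (by decide) (by decide) (by decide)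
  have c9 := h2 5 6 8 7 (by decide) (by decide) (by decide) (by decide)
  have c10 := h2 6 7 9 8 (by decide) (by decide) (by decide) (by decide)
  have e02 := h1 0 2 (by decide)
  have e08 := h1 0 8 (by decide)
  have e12 := h1 1 2 (by decide)
  have e13 := h1 1 3 (by decide)
  have e23 := h1 2 3 (by decide)
  have e24 := h1 2 4 (by decide)
  have e34 := h1 3 4 (by decide)
  have e35 := h1 3 5 (by decide)
  have e45 := h1 4 5 (by decide)
  have e46 := h1 4 6 (by decide)
  have e56 := h1 5 6 (by decide)
  have e57 := h1 5 7 (by decide)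
  have e67 := h1 6 7 (by decide)
  have e68 := h1 6 8 (by decide)
  have e89 := h1 8 9 (by decide)
  have two : (2 : ZMod 2) = 0 := rfl
  have : (15 : ZMod 2) = 0 := by
    linear_combination c1 + c2 + c3 + c4 + c5 + c6 + c7 + c8 + c9 + c10 - e02 - e08 - e12 - e13
      - e23 - e24 - e34 - e35 - e45 - e46 - e56 - e57 - e67 - e68 - e89
      - (o 0 1 + o 1 8 + o 8 7 + o 7 9 + o 9 0) * two
  exact absurd this (by decide)

/-- The voltages in `ℤ/4` of the quaternion connection on `klein`. -/
def kleinK (x y : Fin 10) : ZMod (2 * 2) :=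
  (if x.val + y.val = 1 then 2 else
    if (x.val + y.val = 2 ∨ ((x.val = 1 ∨ y.val = 1) ∧ x.val + y.val ≤ 4)) then 1 else 0) +
  (if x.val < y.val then 0 else 2)

theorem kleinK_inv : ∀ x y, klein.Adj x y → kleinK y x = kleinK x y + 2 := by decide +kernel

theorem kleinK_sq : ∀ x x' y y', klein.Adj x y → klein.Adj x' y → klein.Adj x' y' →
    klein.Adj x y' → kleinK x' y + kleinK x y' = kleinK x y + kleinK x' y' := by decide +kernel

theorem klein_flat : Flat (rot 2) klein (fun x y => QuaternionGroup.xa (kleinK x y)) where
  odd x y _ := xa_not_mem_rot _ _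
  inv x y e := by
    rw [kleinK_inv x y e]
    generalize kleinK x y = i
    revert i
    decide
  sq x x' y y' h1 h2 h3 h4 := by
    have h := kleinK_sq x x' y y' h1 h2 h3 h4
    revert h
    generalize kleinK x y = i
    generalize kleinK x' y = j
    generalize kleinK x' y' = k
    generalize kleinK x y' = l
    revert i j k l
    decide +kernel

/-- A finite multiplicative graph which maps to no evenly orientable graph. -/
theorem exists_mult_not_evenOri : ∃ (V : Type) (_ : Finite V) (M : SimpleGraph V),
    Multiplicative M ∧ ¬ EvenOri M :=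
  ⟨_, inferInstance, _, klein_flat.multiplicative (rot_index 2) (rot_no_involution (by norm_num))
    (splits_rot (by norm_num)) (xa_not_mem_rot 2 0),
    fun h => klein_not_evenOri (h.of_hom (klein_flat.hom (xa_not_mem_rot 2 0)))⟩

end Pool.Agent.Lib.NMX.Coind
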