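import Pool.Agent.Lib.NMX.Engine

set_option autoImplicit false

namespace Pool.Agent.Lib.NMX

variable {V : Type}

section core
variable {M : SimpleGraph V} {z : V} (hM : IsCore M) (hz : ∀ v, v ≠ z → M.Adj z v)
include hM hz

theorem cone_cl {c m : V} (hc : c ≠ z) (h : Cl M c z m) : m = c ∨ m = z := by
  by_cases hm : m = z
  · exact Or.inr hm
  · refine Or.inl (hM.stiff fun u hu => ?_)
    by_cases e : u = z
    · rw [e]; exact (hz m hm).symm
    · exact h u hu (hz u e)

theorem cone_small {β : ℕ → V → V → V} (hβ : Chain M β)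
    (hK : ∀ i ≤ 2, ∀ c, c ≠ z → β i c z = c) : Small M (β 0) := by
  have rim : ∀ i ≤ 1, ∀ a b, a ≠ z → b ≠ z → β i a b = a := fun i hi a b ha hb =>
    hM.stiff fun u hu => by
      have := hβ.2 i a b u z hu (hz a ha).symm (hz b hb).symm
      by_cases e : u = z
      · rwa [e, hβ.1, ← e] at this
      · rwa [hK _ (by omega) u e] at this
  intro a b c ha hb
  by_cases e1 : a = z
  · by_cases e2 : b = z
    · rw [e1, e2, hβ.1]
    · refine hM.stiff fun u hu => ?_
      have := hβ.2 0 a b u c hu ha hb
      rwa [rim _ le_rfl u c (e1 ▸ hu.ne') (e1 ▸ ha.ne')] at this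
  · by_cases e2 : b = z
    · rw [e2, hK 0 (by omega) a e1]
    · exact rim 0 (by omega) a b e1 e2

theorem cone_two (h3 : ¬ M.Colorable 3) {c : V} (hc : c ≠ z) :
    ∃ d1 d2, d1 ≠ d2 ∧ d1 ≠ z ∧ d2 ≠ z ∧ M.Adj c d1 ∧ M.Adj c d2 := by
  classical
  by_contra hn
  push Not at hn
  have key : ∀ d, (∀ x, M.Adj c x → x = z ∨ x = d) → (∀ x, M.Adj d x → x = z ∨ x = c) →
      d ≠ z → False := by
    intro d h1 h2 hd
    by_cases he : ∃ u v, u ≠ z ∧ v ≠ z ∧ M.Adj u v ∧ u ≠ c ∧ u ≠ d
    · obtain ⟨u, v, hu, hv, huv, huc, hud⟩ := he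
      have t : ∀ x y, M.Adj x y → (x = c ∨ x = d) → M.Adj
          (if x = c then u else if x = d then v else x)
          (if y = c then u else if y = d then v else y) := by
        intro x y hxy hx
        by_cases k : x = c
        · subst k
          rcases h1 y hxy with rfl | rfl
          · simpa [hc.symm, hd.symm] using (hz u hu).symm
          · simpa [hxy.ne'] using huv
        · obtain rfl := hx.resolve_left k
          rcases h2 y hxy with rfl | rfl
          · simpa [k, hc.symm, hd.symm] using (hz v hv).symm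
          · simpa [k] using huv.symm
      let f : M →g M := ⟨fun x => if x = c then u else if x = d then v else x, fun {x y} hxy => by
        by_cases hx : x = c ∨ x = d
        · exact t x y hxy hx
        · by_cases hy : y = c ∨ y = d
          · exact (t y x hxy.symm hy).symm
          · push Not at hx hy
            simpa [hx.1, hx.2, hy.1, hy.2] using hxy⟩
      refine huc (hM f (?_ : (if u = c then u else if u = d then v else u) =
        if c = c then u else if c = d then v else c))
      simp [hud]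
    · push Not at he
      refine h3 ⟨SimpleGraph.Coloring.mk (fun x => if x = z then 2 else if x = c then 1 else 0)
        fun {x y} hxy => ?_⟩
      have := hxy.ne
      by_cases hx : x = z <;> by_cases hy : y = z <;> by_cases hx' : x = c <;>
        by_cases hy' : y = c <;> simp_all
      exact this ((he x y hx hy hxy hx').trans (he y x hy hx hxy.symm hy').symm)
  by_cases hd : ∃ d, d ≠ z ∧ M.Adj c d
  · obtain ⟨d, hd, hcd⟩ := hd
    have h1 : ∀ x, M.Adj c x → x = z ∨ x = d := fun x hx => by
      by_contra k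
      push Not at k
      exact hn x d k.2 k.1 hd hx hcd
    refine key d h1 (fun x hx => ?_) hd
    by_cases e : x = z
    · exact Or.inl e
    · refine Or.inr (hM.stiff fun u hu => ?_)
      rcases h1 u hu with rfl | rfl
      exacts [(hz x e).symm, hx.symm]
  · push Not at hd
    have h1 : ∀ x, M.Adj c x → x = z ∨ x = c := fun x hx =>
      Or.inl (by_contra fun k => hd x k hx)
    exact key c h1 h1 hc

theorem cone_core [Finite V] (h3 : ¬ M.Colorable 3) : ¬ Multiplicative M := by
  classical
  obtain ⟨c0, hc0⟩ : ∃ c, c ≠ z := by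
    by_contra k
    push Not at k
    exact h3 ⟨SimpleGraph.Coloring.mk (fun _ => 0) fun {x y} h =>
      absurd ((k x).trans (k y).symm) h.ne⟩
  obtain ⟨d0, -, -, hd0, -, hcd0, -⟩ := cone_two hM hz h3 hc0
  refine engine hM 5 (fun β hβ hI => cone_small hM hz hβ fun j hj c hc => ?_)
    (fun β hβ hS => cone_small hM hz hβ fun j hj c hc => ?_) hc0 hcd0 (hz d0 hd0)
  · refine (cone_cl hM hz hc (hβ.cl j c z)).resolve_right fun h0 => ?_
    have s1 : ∀ d, d ≠ z → M.Adj c d → β (j + 1) z d = d := fun d hd hcd => by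
      have := hβ.2 j c z z d (hz c hc).symm hcd (hz d hd)
      rw [h0] at this
      exact (cone_cl hM hz hd fun u h1 h2 => hβ.cl (j + 1) z d u h2 h1).resolve_right this.ne'
    have s2 : ∀ e, e ≠ z → β (j + 2) e c = c := fun e he => hM.stiff fun d hcd => by
      by_cases hd : d = z
      · rw [hd]; exact hβ.cl _ e c z (hz e he).symm (hz c hc).symm
      · have := hβ.2 (j + 1) z d e c (hz e he) (hz c hc) hcd.symm
        rw [s1 d hd hcd] at this
        exact this.symm
    have s3 : ∀ u, u ≠ z → ¬ M.Adj c u → β (j + 3) u z = z := fun u hu hcu => by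
      obtain ⟨e, -, -, he, -, hue, -⟩ := cone_two hM hz h3 hu
      have := hβ.2 (j + 2) e c u z hue.symm (hz e he).symm (hz c hc).symm
      rw [s2 e he] at this
      exact (cone_cl hM hz hu (hβ.cl _ u z)).resolve_left fun k => hcu (k ▸ this)
    refine h3 ⟨SimpleGraph.Coloring.mk (fun x => if x = z then 2 else if M.Adj c x then 1 else 0)
      fun {x y} hxy => ?_⟩
    have hne := hxy.ne
    have t1 : x ≠ z → y ≠ z → M.Adj c x → M.Adj c y → False := fun hx hy h1 h2 => by
      have := hI (j + 2) (by omega) x c y c hxy h2 h1.symm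
      rw [s2 x hx, s2 y hy] at this
      exact this.ne rfl
    have t2 : x ≠ z → y ≠ z → ¬ M.Adj c x → ¬ M.Adj c y → False := fun hx hy h1 h2 => by
      have := hI (j + 3) (by omega) x z y z hxy (hz y hy) (hz x hx).symm
      rw [s3 x hx h1, s3 y hy h2] at this
      exact this.ne rfl
    by_cases hx : x = z <;> by_cases hy : y = z <;> by_cases hx' : M.Adj c x <;>
      by_cases hy' : M.Adj c y <;> simp_all
  · obtain ⟨d1, d2, h12, h1, h2, k1, k2⟩ := cone_two hM hz h3 hc
    obtain ⟨m, hm, c1, c2⟩ := hS j (by omega) c z z d1 d2 (hz c hc).symm k1 k2 (hz d1 h1) (hz d2 h2)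
    have e1 := cone_cl hM hz h1 fun u a b => c1 u b a
    have e2 := cone_cl hM hz h2 fun u a b => c2 u b a
    have e : m = z := by
      rcases e1 with e1 | e1
      · exact e2.resolve_left fun e2 => h12 (e1.symm.trans e2)
      · exact e1
    exact (cone_cl hM hz hc (hβ.cl j c z)).resolve_right (e ▸ hm.ne)

end core

/-- A finite graph with a universal vertex that is not 3-colourable is not multiplicative. -/
theorem cone_not_mult [Finite V] (M : SimpleGraph V) (z : V) (hz : ∀ v, v ≠ z → M.Adj z v)
    (h3 : ¬ M.Colorable 3) : ¬ Multiplicative M := by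
  intro hm
  obtain ⟨ρ, hρ⟩ := exists_core M
  let f : M →g M.induce (Set.range ρ) := ⟨fun v => ⟨ρ v, v, rfl⟩, fun h => ρ.map_rel h⟩
  let g : M.induce (Set.range ρ) →g M := ⟨Subtype.val, fun h => h⟩
  refine cone_core hρ (z := f z) ?_ (fun h => h3 (h.of_hom f)) (hm.of_equiv f g)
  rintro ⟨_, v, rfl⟩ hv
  exact ρ.map_rel (hz v fun e => hv (by rw [e]; rfl))

end Pool.Agent.Lib.NMX
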