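import Pool.Agent.Lib.NMX.Cone
import Pool.Agent.Lib.NMX.CoindCirc

set_option autoImplicit false

namespace Pool.Agent.Lib.NMX

theorem cone_mult {V : Type} (M : SimpleGraph V) (z : V) (hz : ∀ v, v ≠ z → M.Adj z v)
    (h3 : M.Colorable 3) : Multiplicative M := by
  classical
  obtain ⟨c⟩ := h3
  by_cases h : ∃ u v, u ≠ z ∧ v ≠ z ∧ M.Adj u v
  · obtain ⟨u, v, hu, hv, huv⟩ := h
    have a := hz u hu
    have b := hz v hv
    refine Coind.K3_mult.of_equiv ⟨![z, u, v], fun {i j} hij => ?_⟩ c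
    fin_cases i <;> fin_cases j <;> simp_all [SimpleGraph.adj_comm]
  push Not at h
  by_cases h' : ∃ v, v ≠ z
  · obtain ⟨v, hv⟩ := h'
    have b := hz v hv
    refine Coind.K2_mult.of_equiv ⟨![z, v], fun {i j} hij => ?_⟩
      ⟨fun x => if x = z then 0 else 1, fun {x y} hxy => ?_⟩
    · fin_cases i <;> fin_cases j <;> simp_all [SimpleGraph.adj_comm]
    · have := hxy.ne
      have := h x y
      by_cases hx : x = z <;> by_cases hy : y = z <;> simp_all
  · push Not at h'
    exact Coind.K1_mult.of_equiv ⟨fun _ => z, fun {i j} hij => absurd (Subsingleton.elim i j) hij⟩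
      ⟨fun _ => 0, fun {x y} hxy => absurd ((h' x).trans (h' y).symm) hxy.ne⟩

theorem cone_iff {V : Type} [Finite V] (M : SimpleGraph V) (z : V) (hz : ∀ v, v ≠ z → M.Adj z v) :
    Multiplicative M ↔ M.Colorable 3 :=
  ⟨fun h => by_contra fun k => cone_not_mult M z hz k h, cone_mult M z hz⟩

end Pool.Agent.Lib.NMX
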