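import Pool.Agent.Lib.NMX.Defs

set_option autoImplicit false

namespace Pool.Agent.Lib.NMX

/-- The three-dimensional cube on `0, …, 7` (adjacent iff the binary expansions differ in exactly
one digit) with the vertex `7` deleted. -/
def cubeMinus : SimpleGraph (Fin 7) where
  Adj i j := i.val ^^^ j.val = 1 ∨ i.val ^^^ j.val = 2 ∨ i.val ^^^ j.val = 4
  symm := ⟨fun _ _ h => Nat.xor_comm _ _ ▸ h⟩
  loopless := ⟨fun _ h => by simp at h⟩

end Pool.Agent.Lib.NMX
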