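import Pool.Agent.Lib.NMX.Defs

set_option autoImplicit false

namespace Pool.Agent.Lib.NMX.Cv70

open SimpleGraph

/-- A graph that needs more than `2 |V|` colours has an odd closed walk inside a class of any map
to `V`. -/
theorem odd_walk {A V : Type} [Finite V] (G : SimpleGraph A) (f : A → V)
    (h : ¬ G.Colorable (2 * Nat.card V)) :
    ∃ (a : ℕ) (c : ℕ → A), Odd a ∧ (∀ k, G.Adj (c k) (c (k + 1))) ∧ (∀ k, c (k + a) = c k) ∧
      ∀ k, f (c k) = f (c 0) := by
  classical
  let K : SimpleGraph A :=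
    { Adj := fun x y => G.Adj x y ∧ f x = f y
      symm := ⟨fun _ _ h => ⟨h.1.symm, h.2.symm⟩⟩
      loopless := ⟨fun _ h => h.1.ne rfl⟩ }
  have hK : ¬ K.Colorable 2 := by
    rintro ⟨col⟩
    apply h
    have := Fintype.ofFinite V
    let C : G.Coloring (Fin 2 × V) := Coloring.mk (fun x => (col x, f x)) fun {x y} hxy e =>
      col.valid (show K.Adj x y from ⟨hxy, (Prod.ext_iff.1 e).2⟩) (Prod.ext_iff.1 e).1
    simpa using C.colorable
  rw [two_colorable_iff_forall_loop_even] at hK
  push Not at hK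
  obtain ⟨u, w, hw⟩ := hK
  have ho : Odd w.length := Nat.not_even_iff_odd.1 hw
  have hp : 0 < w.length := ho.pos
  have adj : ∀ k, K.Adj (w.getVert (k % w.length)) (w.getVert ((k + 1) % w.length)) := fun k => by
    have h1 := w.adj_getVert_succ (Nat.mod_lt k hp)
    rcases Nat.lt_or_ge (k % w.length + 1) w.length with h2 | h2
    · rwa [← Nat.mod_add_mod, Nat.mod_eq_of_lt h2]
    · have h3 : k % w.length + 1 = w.length := le_antisymm (Nat.mod_lt k hp) h2
      rw [← Nat.mod_add_mod, h3, Nat.mod_self, w.getVert_zero]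
      rwa [h3, w.getVert_length] at h1
  refine ⟨w.length, fun k => w.getVert (k % w.length), ho, fun k => (adj k).1, fun k => by simp,
    fun k => ?_⟩
  induction k with
  | zero => rfl
  | succ k ih => exact (adj k).2.symm.trans ih

/-- Adjacency of two maps from the cycle `0, …, b - 1` to `M`. -/
def Ex {V : Type} (M : SimpleGraph V) (b : ℕ) (f g : ℕ → V) : Prop :=
  (∀ i, i + 1 < b → M.Adj (f i) (g (i + 1)) ∧ M.Adj (f (i + 1)) (g i)) ∧
    M.Adj (f (b - 1)) (g 0) ∧ M.Adj (f 0) (g (b - 1))

theorem Ex.symm {V : Type} {M : SimpleGraph V} {b : ℕ} {f g : ℕ → V} (h : Ex M b f g) :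
    Ex M b g f :=
  ⟨fun i hi => ⟨(h.1 i hi).2.symm, (h.1 i hi).1.symm⟩, h.2.2.symm, h.2.1.symm⟩

/-- If a product of two graphs that need more than `2 |V|` colours maps to `M`, then a walk of maps
from an odd cycle joins a closed walk of `M` to a constant map. -/
theorem cone {A B V : Type} [Finite V] (G : SimpleGraph A) (H : SimpleGraph B) (M : SimpleGraph V)
    (φ : dprod G H →g M) (hG : ¬ G.Colorable (2 * Nat.card V))
    (hH : ¬ H.Colorable (2 * Nat.card V)) :
    ∃ (b r : ℕ) (w : ℕ → ℕ → V) (v : V), Odd b ∧ 3 ≤ b ∧ 0 < r ∧ Ex M b (w 0) (w 0) ∧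
      (∀ j < r, Ex M b (w j) (w (j + 1))) ∧ ∀ i, w r i = v := by
  classical
  have mp : ∀ {x x' y y'}, G.Adj x x' → H.Adj y y' → M.Adj (φ (x, y)) (φ (x', y')) :=
    fun h1 h2 => φ.map_rel (show (dprod G H).Adj (_, _) (_, _) from ⟨h1, h2⟩)
  choose b d hb hd hdp hdc using fun z : A => odd_walk H (fun y => φ (z, y)) hH
  let rep : A → A := fun x => (G.connectedComponentMk x).out
  have hrep : ∀ x, G.Reachable x (rep x) := fun x =>
    ConnectedComponent.exact (G.connectedComponentMk x).out_eq.symm
  obtain ⟨a, c, ha, hc, hcp, hcc⟩ := odd_walk G (fun x => φ (x, d (rep x) 0)) hG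
  have hz : ∀ k, rep (c k) = rep (c 0) := fun k => by
    induction k with
    | zero => rfl
    | succ k ih =>
      rw [← ih]
      exact congrArg Quot.out (ConnectedComponent.sound (hc k).symm.reachable)
  obtain ⟨p⟩ := hrep (c 0)
  simp only [hz] at hcc
  generalize rep (c 0) = z at p hcc
  have hb' := hb z
  have hd' := hd z
  have hdc' := hdc z
  have hw : H.Adj (d z (b z - 1)) (d z 0) := by
    have h1 := hd z (b z - 1)
    have h2 := hdp z 0
    rw [Nat.zero_add] at h2
    rwa [Nat.sub_add_cancel hb'.pos, h2] at h1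
  have h3 : 3 ≤ b z := by
    obtain ⟨t, ht⟩ := hb'
    rcases Nat.eq_zero_or_pos t with rfl | h
    · rw [ht] at hw
      exact absurd rfl hw.ne
    · omega
  generalize b z = n at hb' hw h3
  generalize d z = e at hd' hdc' hw hcc
  have ex : ∀ {x x'}, G.Adj x x' → Ex M n (fun i => φ (x, e i)) fun i => φ (x', e i) :=
    fun h => ⟨fun i _ => ⟨mp h (hd' i), mp h (hd' i).symm⟩, mp h hw, mp h hw.symm⟩
  let g : ℕ → ℕ → ℕ := fun k i => if i % 2 = k % 2 then k % 2 else k
  have gadj : ∀ k i i', i % 2 ≠ i' % 2 → G.Adj (c (g k i)) (c (g (k + 1) i')) := by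
    intro k i i' h
    by_cases h1 : i % 2 = k % 2
    · have h2 : i' % 2 = (k + 1) % 2 := by omega
      simp only [g, if_pos h1, if_pos h2]
      rcases Nat.mod_two_eq_zero_or_one k with h0 | h0
      · rw [h0, show (k + 1) % 2 = 0 + 1 by omega]
        exact hc 0
      · rw [h0, show (k + 1) % 2 = 0 by omega]
        exact (hc 0).symm
    · have h2 : ¬ i' % 2 = (k + 1) % 2 := by omega
      simp only [g, if_neg h1, if_neg h2]
      exact hc k
  let F : ℕ → ℕ → V := fun k i => φ (c (g k i), e i)
  have wrap : ∀ s t, M.Adj (φ (c s, e (n - 1))) (φ (c t, e 0)) := fun s t => by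
    rw [hcc t, ← hcc (s + 1)]
    exact mp (hc s) hw
  have hF : ∀ k, Ex M n (F k) (F (k + 1)) := fun k =>
    ⟨fun i _ => ⟨mp (gadj k i (i + 1) (by omega)) (hd' i),
      mp (gadj k (i + 1) i (by omega)) (hd' i).symm⟩, wrap _ _, (wrap _ _).symm⟩
  have F0 : F 0 = fun i => φ (c 0, e i) := by
    funext i
    simp [F, g]
  have Fa : F (a + 1) = F a := by
    funext i
    obtain ⟨t, ht⟩ := ha
    have c0 := hcp 0
    have c1 := hcp 1
    rw [Nat.zero_add] at c0
    rw [Nat.add_comm] at c1
    by_cases h1 : i % 2 = a % 2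
    · have h2 : ¬ i % 2 = (a + 1) % 2 := by omega
      simp only [F, g, if_pos h1, if_neg h2, c1]
      rw [show a % 2 = 1 by omega]
    · have h2 : i % 2 = (a + 1) % 2 := by omega
      simp only [F, g, if_neg h1, if_pos h2, c0]
      rw [show (a + 1) % 2 = 0 by omega]
  refine ⟨n, a + p.length, fun j => if j ≤ a then F (a - j) else
    fun i => φ (p.getVert (j - a), e i), φ (z, e 0), hb', h3, by have := ha.pos; omega, ?_,
    fun j hj => ?_, fun i => ?_⟩
  · have := hF a
    rw [Fa] at this
    simpa using this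
  · rcases lt_trichotomy j a with h | rfl | h
    · simp only [if_pos h.le, if_pos (show j + 1 ≤ a from h)]
      have := (hF (a - (j + 1))).symm
      rwa [show a - (j + 1) + 1 = a - j by omega] at this
    · simp only [le_refl, if_true, if_neg (show ¬ j + 1 ≤ j by omega), Nat.sub_self, F0,
        Nat.add_sub_cancel_left]
      have := p.adj_getVert_succ (show 0 < p.length by omega)
      rw [p.getVert_zero] at this
      exact ex this
    · simp only [if_neg (show ¬ j ≤ a by omega), if_neg (show ¬ j + 1 ≤ a by omega)]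
      rw [show j + 1 - a = j - a + 1 by omega]
      exact ex (p.adj_getVert_succ (by omega))
  · by_cases h : a + p.length ≤ a
    · have h0 : p.length = 0 := by omega
      have hz0 : c 0 = z := p.eq_of_length_eq_zero h0
      simp only [h0, Nat.add_zero, le_refl, if_true, Nat.sub_self, F0, hz0]
      exact hdc' i
    · simp only [if_neg h, Nat.add_sub_cancel_left, p.getVert_length]
      exact hdc' i

end Pool.Agent.Lib.NMX.Cv70
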