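import Mathlib

set_option autoImplicit false

namespace Pool.Agent.Lib.NMX

/-- The generalized Mycielskian of `C` with levels `0, …, r` and an apex `none`: `(i, u)` and
`(j, v)` are adjacent iff `u`, `v` are adjacent in `C` and the levels are consecutive or both zero;
the apex is adjacent to the top level. -/
def myc {W : Type} (r : ℕ) (C : SimpleGraph W) : SimpleGraph (Option (Fin (r + 1) × W)) where
  Adj x y := match x, y with
    | some a, some b => C.Adj a.2 b.2 ∧
        ((a.1 : ℕ) + 1 = b.1 ∨ (b.1 : ℕ) + 1 = a.1 ∨ ((a.1 : ℕ) = 0 ∧ (b.1 : ℕ) = 0))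
    | some a, none => (a.1 : ℕ) = r
    | none, some b => (b.1 : ℕ) = r
    | none, none => False
  symm := ⟨fun x y h => by
    cases x <;> cases y
    · exact h
    · exact h
    · exact h
    · exact ⟨h.1.symm, by have := h.2; omega⟩⟩
  loopless := ⟨fun x h => by
    cases x
    · exact h
    · exact h.1.ne rfl⟩

end Pool.Agent.Lib.NMX
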