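import Pool.Agent.Lib.NMX.Cv70
import Pool.Agent.Lib.NMX.MycDef

set_option autoImplicit false

namespace Pool.Agent.Lib.NMX.Cv70

open SimpleGraph

theorem Ex.adj {V : Type} {M : SimpleGraph V} {b : ℕ} {f g : ℕ → V} (h : Ex M b f g)
    {u v : Fin b} (e : (cycleGraph b).Adj u v) : M.Adj (f u) (g v) := by
  have key : ∀ x y : Fin b, ((x - y : Fin b) : ℕ) = 1 →
      (x : ℕ) = y + 1 ∨ ((x : ℕ) = 0 ∧ (y : ℕ) = b - 1) := fun x y hxy => by
    have hx := x.2
    have hy := y.2
    rcases le_or_gt y x with h1 | h1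
    · rw [Fin.sub_val_of_le h1] at hxy
      omega
    · rw [Fin.coe_sub_iff_lt.2 h1] at hxy
      have : (x : ℕ) < y := h1
      omega
  have hu := u.2
  have hv := v.2
  rcases cycleGraph_adj'.1 e with h1 | h1
  · rcases key _ _ h1 with h2 | ⟨h2, h3⟩
    · rw [h2]
      exact (h.1 v (by omega)).2
    · rw [h2, h3]
      exact h.2.2
  · rcases key _ _ h1 with h2 | ⟨h2, h3⟩
    · rw [h2]
      exact (h.1 u (by omega)).1
    · rw [h2, h3]
      exact h.2.1

/-- A walk of maps from a closed walk to a constant map is a homomorphism from a generalized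
Mycielskian. -/
theorem hom_of_walk {V : Type} {M : SimpleGraph V} {b r : ℕ} {w : ℕ → ℕ → V} {v : V}
    (h0 : Ex M b (w 0) (w 0)) (hs : ∀ j < r + 1, Ex M b (w j) (w (j + 1)))
    (hv : ∀ i, w (r + 1) i = v) : Nonempty (myc r (cycleGraph b) →g M) := by
  have top : ∀ a : Fin (r + 1) × Fin b, (a.1 : ℕ) = r → M.Adj (w a.1 a.2) v := fun a ha => by
    have h1 := hs r (by omega)
    have h2 := a.2.2
    rw [ha]
    rcases Nat.lt_or_ge (a.2 + 1) b with h3 | h3
    · exact hv _ ▸ (h1.1 a.2 h3).1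
    · rw [show (a.2 : ℕ) = b - 1 by omega]
      exact hv _ ▸ h1.2.1
  refine ⟨⟨fun x => x.elim v fun a => w a.1 a.2, fun {x y} h => ?_⟩⟩
  rcases x with _ | a <;> rcases y with _ | c
  · exact h.elim
  · exact (top c h).symm
  · exact top a h
  · show M.Adj (w a.1 a.2) (w c.1 c.2)
    rcases h.2 with h1 | h1 | ⟨h1, h2⟩
    · rw [← h1]
      exact (hs _ a.1.2).adj h.1
    · rw [← h1]
      exact (hs _ c.1.2).symm.adj h.1
    · rw [h1, h2]
      exact h0.adj h.1

/-- If a product of two graphs that need more than `2 |V|` colours maps to a graph on `V`, then so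
does a generalized Mycielskian of an odd cycle. -/
theorem converse {A B V : Type} [Finite V] (G : SimpleGraph A) (H : SimpleGraph B)
    (M : SimpleGraph V) (φ : dprod G H →g M) (hG : ¬ G.Colorable (2 * Nat.card V))
    (hH : ¬ H.Colorable (2 * Nat.card V)) :
    ∃ r k : ℕ, 0 < k ∧ Nonempty (myc r (cycleGraph (2 * k + 1)) →g M) := by
  obtain ⟨b, r, w, v, ⟨k, rfl⟩, h3, hr, h0, hs, hv⟩ := cone G H M φ hG hH
  obtain ⟨r, rfl⟩ : ∃ t, r = t + 1 := ⟨r - 1, by omega⟩
  exact ⟨r, k, by omega, hom_of_walk h0 hs hv⟩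

end Pool.Agent.Lib.NMX.Cv70
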