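import Pool.Agent.Lib.NMX.Engine

set_option autoImplicit false

namespace Pool.Agent.Lib.NMX

open Finset

variable {V : Type}

/-- circular adjacency of two integer positions -/
def CA (p q k l : ℤ) : Prop := (q ≤ l - k ∧ l - k + q ≤ p) ∨ (q ≤ k - l ∧ k - l + q ≤ p)

/-- integer coordinates on a circular clique -/
def Frame (M : SimpleGraph V) (p q : ℤ) (x : ℤ → V) : Prop :=
  (∀ k l, CA p q k l → M.Adj (x k) (x l)) ∧
  (∀ k l, l - k ≤ p → k - l ≤ p → M.Adj (x k) (x l) → CA p q k l) ∧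
  ∀ (w : ℤ) v, ∃ k, w ≤ k ∧ k < w + p ∧ x k = v

variable {M : SimpleGraph V} {p q : ℤ} {x : ℤ → V}

theorem Frame.shift (h : Frame M p q x) (c : ℤ) : Frame M p q fun l => x (c + l) := by
  refine ⟨fun k l e => h.1 _ _ (by unfold CA at *; omega), fun k l h1 h2 e => ?_, fun w v => ?_⟩
  · have := h.2.1 _ _ (by omega) (by omega) e
    unfold CA at *; omega
  · obtain ⟨k, h1, h2, rfl⟩ := h.2.2 (c + w) v
    exact ⟨k - c, by omega, by omega, congrArg x (by omega)⟩

theorem Frame.mirror (h : Frame M p q x) (c : ℤ) : Frame M p q fun l => x (c - l) := by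
  refine ⟨fun k l e => h.1 _ _ (by unfold CA at *; omega), fun k l h1 h2 e => ?_, fun w v => ?_⟩
  · have := h.2.1 _ _ (by omega) (by omega) e
    unfold CA at *; omega
  · obtain ⟨k, h1, h2, rfl⟩ := h.2.2 (c - w - p + 1) v
    exact ⟨c - k, by omega, by omega, congrArg x (by omega)⟩

theorem Frame.pin (h : Frame M p q x) {a b : ℤ} {m : V} (hc : Cl M (x a) (x b) m) :
    ∃ k, 0 ≤ k ∧ k < p ∧ x k = m ∧ (∀ t, 0 ≤ t → t ≤ p → M.Adj m (x t) → CA p q k t) ∧
      ∀ y, 0 ≤ y → y ≤ p → CA p q a y → CA p q b y → CA p q k y := by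
  obtain ⟨k, h1, h2, rfl⟩ := h.2.2 0 m
  exact ⟨k, h1, by omega, rfl, fun t _ _ e => h.2.1 _ _ (by omega) (by omega) e,
    fun y _ _ e1 e2 => h.2.1 _ _ (by omega) (by omega) (hc _ (h.1 _ _ e1) (h.1 _ _ e2))⟩

/-- Katona's cycle lemma. -/
theorem Frame.katona {p q : ℕ} (h : Frame M p q x) (hp : 2 * q ≤ p) (S : Finset V)
    (hS : ∀ a ∈ S, ∀ b ∈ S, ¬ M.Adj a b) : S.card ≤ q := by
  rcases S.eq_empty_or_nonempty with rfl | ⟨s, hs⟩
  · simp
  obtain ⟨c, -, -, rfl⟩ := h.2.2 0 s
  choose κ h1 h2 h3 using h.2.2 (c - q + 1)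
  have h4 : ∀ a ∈ S, κ a < c + q := fun a ha => by
    have := mt (h.1 c (κ a)) (hS _ hs _ (by rwa [h3]))
    have := h2 a
    unfold CA at *; omega
  have : S.card ≤ (Ico c (c + q)).card := by
    refine card_le_card_of_injOn (fun a => if κ a < c then κ a + q else κ a) (fun a ha => ?_)
      fun a ha b hb e => ?_
    · have := h1 a
      have := h4 a ha
      simp only [coe_Ico, Set.mem_Ico]
      split_ifs <;> omega
    · have := mt (h.1 (κ a) (κ b)) (hS _ (by rwa [h3]) _ (by rwa [h3]))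
      rw [← h3 a, ← h3 b]
      congr 1
      simp only at e
      unfold CA at *
      split_ifs at e <;> omega
  simpa using this

/-- the circular clique on `ZMod p` -/
def CG (p q : ℕ) : SimpleGraph (ZMod p) where
  Adj a b := 0 < q ∧ ∃ d : ℤ, q ≤ d ∧ d + q ≤ p ∧ b = a + d
  symm := ⟨fun a b ⟨h, d, h1, h2, e⟩ => ⟨h, p - d, by omega, by omega, by rw [e]; simp⟩⟩
  loopless := ⟨fun a ⟨h, d, h1, h2, e⟩ => by
    have : (p : ℤ) ∣ d := (ZMod.intCast_zmod_eq_zero_iff_dvd d p).1 (by simpa using e)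
    have := Int.le_of_dvd (by omega) this
    omega⟩

theorem CG_frame (p q : ℕ) [NeZero p] (hq : 0 < q) :
    Frame (CG p q) p q fun k => (k : ZMod p) := by
  refine ⟨fun k l e => ?_, fun k l h1 h2 ⟨_, d, h3, h4, e⟩ => ?_, fun w v => ?_⟩
  · rcases e with e | e
    · exact ⟨hq, l - k, e.1, e.2, by simp⟩
    · exact (CG p q).symm.1 _ _ ⟨hq, k - l, e.1, e.2, by simp⟩
  · obtain ⟨c, hc⟩ : (p : ℤ) ∣ k + d - l :=
      (ZMod.intCast_zmod_eq_zero_iff_dvd _ p).1 (by simp only at e; simp [e])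
    have : -1 < c := by nlinarith
    have : c < 2 := by nlinarith
    unfold CA
    interval_cases c <;> omega
  · refine ⟨w + ((v - (w : ZMod p)).val : ℤ), by omega, ?_, by simp⟩
    have := ZMod.val_lt (v - (w : ZMod p))
    omega

theorem CG_core (p q : ℕ) (hq : 0 < q) (hp : 2 * q ≤ p) (hc : Nat.Coprime q p) :
    IsCore (CG p q) := by
  have : NeZero p := ⟨by omega⟩
  intro f
  have hF := CG_frame p q hq
  let n : ZMod p → ℕ := fun v => (univ.filter fun u => f u = v).card
  let W : ZMod p → ℕ := fun a => ∑ t ∈ range q, n (a + t)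
  have hW : ∀ a, W a ≤ q := fun a => by
    obtain ⟨c, -, -, rfl⟩ := hF.2.2 0 a
    simp only [W, n]
    rw [← card_biUnion]
    · refine hF.katona hp _ fun u hu v hv huv => ?_
      simp only [mem_biUnion, mem_range, mem_filter, mem_univ, true_and] at hu hv
      obtain ⟨s, hs, e1⟩ := hu
      obtain ⟨t, ht, e2⟩ := hv
      have := hF.2.1 (c + s) (c + t) (by omega) (by omega) (by simpa [e1, e2] using f.map_rel huv)
      unfold CA at this; omega
    · intro s hs t ht hst
      refine disjoint_filter.2 fun u _ e1 e2 => hst ?_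
      have hs' := mem_range.1 (mem_coe.1 hs)
      have ht' := mem_range.1 (mem_coe.1 ht)
      have e : (s : ZMod p) = t := add_left_cancel (e1.symm.trans e2)
      have := congrArg ZMod.val e
      rwa [ZMod.val_cast_of_lt (by omega), ZMod.val_cast_of_lt (by omega)] at this
  have hn : ∑ v, n v = p := by
    rw [← card_eq_sum_card_fiberwise (f := f) (s := univ) (t := univ) (fun _ _ => by simp)]
    simp
  have hs : ∑ a, W a = ∑ _a : ZMod p, q := by
    simp only [W]
    have : ∀ t : ℕ, ∑ x, n (x + t) = p := fun t =>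
      (Equiv.sum_comp (Equiv.addRight (t : ZMod p)) n).trans hn
    rw [sum_comm, sum_congr rfl fun t _ => this t]
    simp [mul_comm]
  have hW' : ∀ a, W a = q := fun a =>
    (sum_eq_sum_iff_of_le fun a _ => hW a).1 hs a (mem_univ a)
  have h1 : ∀ a, n (a + q) = n a := fun a => by
    have e1 := sum_range_succ (fun t => n (a + t)) q
    have e2 := sum_range_succ' (fun t : ℕ => n (a + t)) q
    have e3 := hW' (a + 1)
    have e4 := hW' a
    simp only [W] at e3 e4
    simp only [Nat.cast_add, Nat.cast_one, Nat.cast_zero, add_zero] at e2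
    simp only [add_comm (_ : ZMod p) 1, ← add_assoc] at e2 e3
    omega
  have h2 : ∀ (j : ℕ) a, n (a + j * q) = n a := fun j => by
    induction j with
    | zero => simp
    | succ j ih => intro a; rw [Nat.cast_succ, add_mul, one_mul, ← add_assoc, h1, ih]
  refine Finite.injective_iff_surjective.2 fun v => ?_
  have h3 := h2 ((v - f 0) * ((ZMod.unitOfCoprime q hc)⁻¹ : (ZMod p)ˣ)).val (f 0)
  rw [ZMod.natCast_zmod_val, mul_assoc, ← ZMod.coe_unitOfCoprime q hc, Units.inv_mul, mul_one,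
    add_sub_cancel] at h3
  have h4 : 0 < n (f 0) := card_pos.2 ⟨0, by simp⟩
  obtain ⟨u, hu⟩ := card_pos.1 (h3 ▸ h4 : 0 < n v)
  exact ⟨u, by simpa using hu⟩

end Pool.Agent.Lib.NMX
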