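import Pool.Agent.Lib.NMX.Defs

set_option autoImplicit false

namespace Pool.Agent.Lib.NMX.HS

variable {V : Type}

/-- `a b c d` is a four-cycle of `M` (not necessarily induced). -/
def Square (M : SimpleGraph V) (a b c d : V) : Prop :=
  M.Adj a b ∧ M.Adj b c ∧ M.Adj c d ∧ M.Adj d a ∧ a ≠ c ∧ b ≠ d

/-- `e`, `e'` are consecutive edges of a four-cycle. -/
def Consec (M : SimpleGraph V) (e e' : Sym2 V) : Prop :=
  ∃ a b c d, Square M a b c d ∧ e = s(a, b) ∧ e' = s(b, c)

/-- The square class of `e`: the edges of `M` linked to `e` by a chain of four-cycles. -/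
def sqClass (M : SimpleGraph V) (e : Sym2 V) : SimpleGraph V where
  Adj u v := M.Adj u v ∧ Relation.EqvGen (Consec M) s(u, v) e
  symm := ⟨fun _ _ h => ⟨h.1.symm, Sym2.eq_swap ▸ h.2⟩⟩
  loopless := ⟨fun _ h => h.1.ne rfl⟩

/-- The ends of the walks of length `r` from `x`. -/
def halfBall (B : SimpleGraph V) (x : V) (r : ℕ) : Set V := {z | ∃ w : B.Walk x z, w.length = r}

/-- Bipartite, and pairwise intersecting half-balls have a common vertex. -/
def BipHelly (B : SimpleGraph V) : Prop :=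
  B.IsBipartite ∧ ∀ F : Set (V × ℕ), F.Nonempty →
    (∀ a ∈ F, ∀ b ∈ F, (halfBall B a.1 a.2 ∩ halfBall B b.1 b.2).Nonempty) →
      (⋂ a ∈ F, halfBall B a.1 a.2).Nonempty

end Pool.Agent.Lib.NMX.HS
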