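import Pool.Agent.Lib.NMX.LBAxis

set_option autoImplicit false

namespace Pool.Agent.Lib.NMX.LB

open Classical Coind SimpleGraph

section
variable {Γ A B : Type} [Group Γ]

/-- holonomy of double steps along the sequence `y` over the edge `g n` -/
def En (ω : A → B → A → B → Γ) (y : ℕ → B) (g n : A) (t : ℕ) : ℕ → Γ
  | 0 => 1
  | j + 1 => En ω y g n t j * (ω g (y (t + 2 * j)) n (y (t + 2 * j + 1)) *
      ω n (y (t + 2 * j + 1)) g (y (t + 2 * j + 1 + 1)))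

variable {Λ : Subgroup Γ} {G : SimpleGraph A} {H : SimpleGraph B} {ω : A → B → A → B → Γ}
  {y : ℕ → B}

theorem En_indep (c : Conn Λ G H ω) (hy : ∀ t, H.Adj (y t) (y (t + 1))) {g n n' : A}
    (a : G.Adj g n) (a' : G.Adj g n') (t : ℕ) : ∀ j, En ω y g n t j = En ω y g n' t j
  | 0 => rfl
  | j + 1 => by
    rw [En, En, En_indep c hy a a' t j, c.sq a a.symm a' a'.symm (hy _) (hy _) (hy _) (hy _)]

theorem En_shift (g g' : A) (t : ℕ) : ∀ j, En ω y g g' t j *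
    ω g (y (t + 2 * j)) g' (y (t + 2 * j + 1)) = ω g (y t) g' (y (t + 1)) * En ω y g' g (t + 1) j
  | 0 => by simp [En]
  | j + 1 => by
    rw [En, En, ← mul_assoc, En_shift g g' t j, show t + 1 + 2 * j = t + 2 * j + 1 by ring]
    simp only [mul_assoc]
    rfl

theorem En_add (g n : A) (t i : ℕ) :
    ∀ j, En ω y g n t (i + j) = En ω y g n t i * En ω y g n (t + 2 * i) j
  | 0 => by simp [En]
  | j + 1 => by
    rw [← Nat.add_assoc, En, En, En_add g n t i j, show t + 2 * (i + j) = t + 2 * i + 2 * j by ring,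
      mul_assoc]

theorem En_per {m : ℕ} (hm : ∀ t, y (t + m) = y t) (g n : A) (t : ℕ) :
    ∀ j, En ω y g n (t + m) j = En ω y g n t j
  | 0 => rfl
  | j + 1 => by
    rw [En, En, En_per hm g n t j, ← hm (t + 2 * j), ← hm (t + 2 * j + 1),
      ← hm (t + 2 * j + 1 + 1)]
    simp only [Nat.add_right_comm _ m]

theorem En_walk (hy : ∀ t, H.Adj (y t) (y (t + 1))) (g n : A) : ∀ j h, y (0 + 2 * j) = h →
    ∃ D : H.Walk (y 0) h, Even D.length ∧ hol (swp ω) D g n = En ω y g n 0 j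
  | 0, _, rfl => ⟨.nil, by simp, rfl⟩
  | j + 1, _, rfl => by
    obtain ⟨D, h1, h2⟩ := En_walk hy g n j _ rfl
    refine ⟨D.append (.cons (hy _) (.cons (hy _) .nil)), ?_, ?_⟩
    · rw [Walk.length_append]
      exact h1.add even_two
    · rw [hol_append_even _ _ _ _ h1, h2, En]
      simp [swp]

/-- holonomies of even closed walks of the second factor -/
def QS (G : SimpleGraph A) (H : SimpleGraph B) (ω : A → B → A → B → Γ) (g : A) (h : B) (a : Γ) :
    Prop := ∃ n, G.Adj g n ∧ ∃ D : H.Walk h h, Even D.length ∧ hol (swp ω) D g n = a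

theorem QS.step (c : Conn Λ G H ω) {g g' : A} {h h' : B} (a : G.Adj g g') (e : H.Adj h h') {x : Γ}
    (k : QS G H ω g' h' x) : QS G H ω g h (ω g h g' h' * x * (ω g h g' h')⁻¹) := by
  obtain ⟨n, h1, D, h2, rfl⟩ := k
  refine ⟨g', a, .cons e (D.append (.cons e.symm .nil)), ?_, ?_⟩
  · simpa [Nat.even_add_one] using h2
  · rw [hol_cons, hol_append_even _ _ _ _ h2, hol_indep c.swap D h2 h1 a.symm,
      inv_eq_of_mul_eq_one_right (c.inv a e)]
    simp [swp, mul_assoc]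

/-- holonomies of walks of the product from the base point -/
inductive Lf (G : SimpleGraph A) (H : SimpleGraph B) (ω : A → B → A → B → Γ) (g0 : A) (h0 : B) :
    A → B → Γ → Prop
  | base : Lf G H ω g0 h0 g0 h0 1
  | step {g g' : A} {h h' : B} {γ : Γ} : Lf G H ω g0 h0 g h γ → G.Adj g g' → H.Adj h h' →
      Lf G H ω g0 h0 g' h' (γ * ω g h g' h')

theorem Lf.conj (c : Conn Λ G H ω) {g0 g : A} {h0 h : B} {γ : Γ} (k : Lf G H ω g0 h0 g h γ) :
    (∀ x, QS G H ω g h x → QS G H ω g0 h0 (γ * x * γ⁻¹)) ∧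
      ∀ x, QS G H ω g0 h0 x → QS G H ω g h (γ⁻¹ * x * γ) := by
  induction k with
  | base => simp
  | step _ a e ih =>
    refine ⟨fun x k => by simpa [mul_assoc] using ih.1 _ (k.step c a e), fun x k => ?_⟩
    have := (ih.2 x k).step c a.symm e.symm
    rw [← inv_eq_of_mul_eq_one_right (c.inv a e)] at this
    simpa [mul_assoc] using this

theorem exists_nbr {g0 g1 g : A} (a : G.Adj g0 g1) (r : G.Reachable g0 g) : ∃ n, G.Adj g n := by
  obtain ⟨p⟩ := r.symm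
  cases p with
  | nil => exact ⟨g1, a⟩
  | cons k _ => exact ⟨_, k⟩

theorem Lf.even (hΛ : Λ.index = 2) (c : Conn Λ G H ω) {g0 g g1 : A} {h0 h h1 : B}
    (a : G.Adj g0 g1) (e : H.Adj h h1) (p : G.Walk g0 g) (hp : Even p.length) (q : H.Walk h0 h)
    (hq : Even q.length) : ∃ γ ∈ Λ, Lf G H ω g0 h0 g h γ := by
  have k1 : ∀ {u v : B} (q : H.Walk u v) (hq : Even q.length) (γ : Γ), Lf G H ω g0 h0 g0 u γ →
      Lf G H ω g0 h0 g0 v (γ * hol (swp ω) q g0 g1) := fun q hq => by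
    induction q, hq using even_ind with
    | h0 u => simp
    | h2 u w x v b b' q hq ih =>
      intro γ k
      simpa [swp, mul_assoc] using ih _ ((k.step a b).step a.symm b')
  have k2 : ∀ {u v : A} (p : G.Walk u v) (hp : Even p.length) (γ : Γ), Lf G H ω g0 h0 u h γ →
      Lf G H ω g0 h0 v h (γ * hol ω p h h1) := fun p hp => by
    induction p, hp using even_ind with
    | h0 u => simp
    | h2 u w x v b b' p hp ih =>
      intro γ k
      simpa [mul_assoc] using ih _ ((k.step b e).step b' e.symm)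
  exact ⟨_, Λ.mul_mem (Λ.mul_mem Λ.one_mem ((hol_mem hΛ c.swap q a).2 hq))
    ((hol_mem hΛ c p e).2 hp), k2 p hp _ (k1 q hq _ .base)⟩

end

variable {V A B : Type} {M : SimpleGraph V} {G : SimpleGraph A} {H : SimpleGraph B}

/-- the connection pulled back along a map of the product -/
def om (M : SimpleGraph V) (μ : A → B → V) (g : A) (h : B) (g' : A) (h' : B) : FG M :=
  vo M (μ g h) (μ g' h')

variable {col : Quot (Sq M) → V → Bool} (hc : ∀ k a b, (CB M k).Adj a b → col k a ≠ col k b)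
  {μ : A → B → V} (hμ : ∀ {g g' h h'}, G.Adj g g' → H.Adj h h' → M.Adj (μ g h) (μ g' h'))
include hc hμ

theorem om_conn : Conn (sg col).ker G H (om M μ) where
  odd a e := by simp [om, sg_vo hc (hμ a e)]
  inv _ _ := by rw [om, om, ← vo_inv, inv_mul_cancel]
  sq a1 a2 a3 a4 e1 e2 e3 e4 := vo_sq (hμ a1 e1) (hμ a2 e2) (hμ a3 e3) (hμ a4 e4)

theorem En_view {y : ℕ → B} (hy : ∀ t, H.Adj (y t) (y (t + 1))) {g n : A} (a : G.Adj g n) :
    ∀ j, Ty (Sp M) (.inl (μ g (y 0))) (En (om M μ) y g n 0 j) (.inl (μ g (y (0 + 2 * j)))) ∧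
      sg col (En (om M μ) y g n 0 j) = 1
  | 0 => ⟨rfl, map_one _⟩
  | j + 1 => by
    obtain ⟨h1, h2⟩ := En_view hy a j
    refine ⟨h1.trans ((Ty_vo (hμ a (hy _))).trans (Ty_vo (hμ a.symm (hy _)))), ?_⟩
    rw [En, map_mul, map_mul, h2, om, om, sg_vo hc (hμ a (hy _)), sg_vo hc (hμ a.symm (hy _))]
    simp

theorem case_triv [Finite V] (hH : ∀ k, Helly (CB M k)) {y : ℕ → B}
    (hy : ∀ t, H.Adj (y t) (y (t + 1))) {q : ℕ} (hm : ∀ t, y (t + (2 * q + 1)) = y t) {g0 g1 : A}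
    (a0 : G.Adj g0 g1) (h : En (om M μ) y g0 g1 0 (2 * q + 1) = 1) : CompHom G M g0 := by
  have c := om_conn hc hμ
  have hm2 : ∀ t, y (t + 2 * (2 * q + 1)) = y t := fun t => by
    rw [two_mul, ← Nat.add_assoc, hm, hm]
  have e1 : ∀ g n j, En (om M μ) y g n 0 (q + 1 + j) =
      En (om M μ) y g n 0 (q + 1) * En (om M μ) y g n (0 + 1) j := fun g n j => by
    rw [En_add, show 0 + 2 * (q + 1) = 0 + 1 + (2 * q + 1) by ring, En_per hm]
  have e2 : ∀ g n j, En (om M μ) y g n 0 (j + (2 * q + 1)) =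
      En (om M μ) y g n 0 (2 * q + 1) * En (om M μ) y g n 0 j := fun g n j => by
    rw [Nat.add_comm j, En_add, En_per hm2]
  have triv : ∀ {g g' : A} (p : G.Walk g g'), (∀ n, G.Adj g n → En (om M μ) y g n 0 (2 * q + 1) = 1) →
      ∀ n, G.Adj g' n → En (om M μ) y g' n 0 (2 * q + 1) = 1 := fun p => by
    induction p with
    | nil => exact id
    | cons a p ih =>
      rename_i g g' _
      refine fun k => ih fun n a' => ?_
      have b1 := En_shift (ω := om M μ) (y := y) g g' 0 (2 * q + 1)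
      rw [k g' a, one_mul, hm2, Nat.add_right_comm, hm2, left_eq_mul] at b1
      have b2 := e1 g' g (2 * q + 1)
      rw [e2, b1, mul_one, mul_eq_right] at b2
      rw [En_indep c hy a' a.symm, b2]
  have : Nonempty V := ⟨μ g0 (y 0)⟩
  obtain ⟨o, ho⟩ := exists_centre (J := ZMod (2 * q + 1)) hH hc (by simp)
  have hn : ∀ g, ∃ n, G.Reachable g0 g → G.Adj g n := fun g => by
    by_cases r : G.Reachable g0 g
    exacts [(exists_nbr a0 r).imp fun _ h _ => h, ⟨g, fun t => absurd t r⟩]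
  choose nb hn using hn
  refine ⟨fun g => o (fun i => En (om M μ) y g (nb g) 0 i.val) fun i => μ g (y (0 + 2 * i.val)),
    fun g g' r a => ?_⟩
  have r' := r.trans a.reachable
  refine ho _ _ _ _ _ _ _ _ (om M μ g (y 0) g' (y (0 + 1)) * (En (om M μ) y g' g 0 (q + 1))⁻¹)
    (Equiv.addLeft ((q + 1 : ℕ) : ZMod (2 * q + 1))) (fun i => En_view hc hμ hy (hn g r) _)
    (fun i => En_view hc hμ hy (hn g' r') _) fun i => ?_
  have p1 : Function.Periodic (fun j => y (0 + 2 * j)) (2 * q + 1) := fun j => by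
    simp only [Nat.mul_add 2 j, ← Nat.add_assoc 0, hm2]
  have p2 : Function.Periodic (En (om M μ) y g' g 0) (2 * q + 1) := fun j => by
    obtain ⟨p⟩ := r'
    rw [e2, triv p (fun n k => En_indep c hy a0 k 0 _ ▸ h) g a.symm, one_mul]
  have b1 : (Equiv.addLeft ((q + 1 : ℕ) : ZMod (2 * q + 1)) i).val =
      (q + 1 + i.val) % (2 * q + 1) := by
    rw [Equiv.coe_addLeft, ZMod.val_add, ZMod.val_natCast, Nat.mod_add_mod]
  have b2 := p1.map_mod_nat (q + 1 + i.val)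
  rw [show 0 + 2 * (q + 1 + i.val) = 0 + 2 * i.val + 1 + (2 * q + 1) by ring, hm] at b2
  rw [b1, b2, En_indep c hy (hn g' r') a.symm, En_indep c hy (hn g r) a, p2.map_mod_nat, e1,
    mul_assoc, inv_mul_cancel_left, ← En_shift]
  exact ⟨hμ a (hy _), rfl⟩

theorem case_cyc [Finite A] [Finite B] {g0 g1 : A} {h0 h1 : B} (a0 : G.Adj g0 g1)
    (e0 : H.Adj h0 h1) (X : G.Walk g0 g0) (hX : ¬ Even X.length) (Y : H.Walk h0 h0)
    (hY : ¬ Even Y.length) {R : FG M} (hR : QS G H (om M μ) g0 h0 R) (R1 : R ≠ 1)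
    (C : G.Walk g0 g0) (hC : Even C.length) (C1 : hol (om M μ) C h0 h1 ≠ 1) :
    CompHom G M g0 ∨ CompHom H M h0 := by
  have c := om_conn hc hμ
  have hΛ : (sg col).ker.index = 2 := by
    rw [Subgroup.index_ker, show (sg col).range = ⊤ from ?_]
    · simp
    · refine eq_top_iff.2 fun x _ => ?_
      rcases Int.units_eq_one_or x with rfl | rfl
      exacts [Subgroup.one_mem _, ⟨_, sg_vo hc (hμ a0 e0)⟩]
  have comm : ∀ x, QS G H (om M μ) g0 h0 x →
      x * hol (om M μ) C h0 h1 = hol (om M μ) C h0 h1 * x := by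
    rintro _ ⟨n, a, D, hD, rfl⟩
    exact (hol_comm c C hC D hD a a e0 e0).symm
  have vw : ∀ {g h γ}, Lf G H (om M μ) g0 h0 g h γ → ∃ n, VW M n (μ g0 h0) (μ g h) γ := fun k => by
    induction k with
    | base => exact ⟨0, rfl, rfl⟩
    | step _ a e ih => exact ih.elim fun n k => ⟨_, (VW_one (hμ a e)).add k⟩
  let P : Subgroup (FG M) :=
    { carrier := {x | (∃ n, VW M n (μ g0 h0) (μ g0 h0) x) ∧ x * R = R * x}
      mul_mem' := fun ⟨⟨_, a⟩, b⟩ ⟨⟨_, a'⟩, b'⟩ => ⟨⟨_, a'.add a⟩, Commute.mul_left b b'⟩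
      one_mem' := ⟨⟨0, rfl, rfl⟩, by simp⟩
      inv_mem' := fun ⟨⟨_, a⟩, b⟩ => ⟨⟨_, a.symm⟩, Commute.inv_left b⟩ }
  obtain ⟨z, ⟨⟨n0, z1⟩, -⟩, hz⟩ := exists_gen R1 P fun _ k => k.2
  have two : ∀ {g h γ γ'}, Lf G H (om M μ) g0 h0 g h γ → Lf G H (om M μ) g0 h0 g h γ' →
      ∃ e : ℤ, γ = z ^ e * γ' := fun {g h γ γ'} k k' => by
    obtain ⟨n, b⟩ := vw k
    obtain ⟨n', b'⟩ := vw k'
    have b1 := comm _ ((k.conj c).1 _ ((k'.conj c).2 _ hR))
    rw [show γ * (γ'⁻¹ * R * γ') * γ⁻¹ = γ * γ'⁻¹ * R * (γ * γ'⁻¹)⁻¹ by group] at b1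
    exact (hz (γ * γ'⁻¹) ⟨⟨_, b'.symm.add b⟩, csa R1 (comm_trans C1 (comm _ hR) b1)⟩).imp
      fun e t => by rw [t, inv_mul_cancel_right]
  have hθ : ∀ g h, ∃ γ, G.Reachable g0 g → H.Reachable h0 h →
      γ ∈ (sg col).ker ∧ Lf G H (om M μ) g0 h0 g h γ := fun g h => by
    by_cases r : G.Reachable g0 g ∧ H.Reachable h0 h
    · obtain ⟨p, hp⟩ := exists_even_walk X hX r.1
      obtain ⟨q, hq⟩ := exists_even_walk Y hY r.2
      obtain ⟨n, e⟩ := exists_nbr e0 r.2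
      exact (Lf.even hΛ c a0 e p hp q hq).imp fun _ k _ _ => k
    · exact ⟨1, fun a b => absurd ⟨a, b⟩ r⟩
  choose θ hθ using hθ
  have sz : sg col z = -1 := by
    obtain ⟨b1, b2⟩ := hθ g1 h1 a0.reachable e0.reachable
    obtain ⟨e, b3⟩ := two (Lf.base.step a0 e0) b2
    have := congrArg (sg col) b3
    rw [one_mul, om, sg_vo hc (hμ a0 e0), map_mul, map_zpow, MonoidHom.mem_ker.1 b1] at this
    exact (Int.units_eq_one_or _).resolve_left fun t => by simp [t] at this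
  obtain ⟨q, q0, ⟨f⟩, η, hη⟩ := exists_height hc z1 sz
  let G' : SimpleGraph A :=
    { Adj := fun g g' => G.Reachable g0 g ∧ G.Adj g g'
      symm := ⟨fun _ _ k => ⟨k.1.trans k.2.reachable, k.2.symm⟩⟩
      loopless := ⟨fun _ k => k.2.ne rfl⟩ }
  let H' : SimpleGraph B :=
    { Adj := fun g g' => H.Reachable h0 g ∧ H.Adj g g'
      symm := ⟨fun _ _ k => ⟨k.1.trans k.2.reachable, k.2.symm⟩⟩
      loopless := ⟨fun _ k => k.2.ne rfl⟩ }
  refine (circClique_mult (p := 2 * q + 1) (q := q) (by omega) A B G' H'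
    ⟨⟨fun p => η (θ p.1 p.2) (μ p.1 p.2), fun {p p'} ⟨k, k'⟩ => ?_⟩⟩).imp
      (fun ⟨φ⟩ => ⟨fun g => f (φ g), fun g g' r a => f.map_rel (φ.map_rel ⟨r, a⟩)⟩)
      fun ⟨φ⟩ => ⟨fun g => f (φ g), fun g g' r a => f.map_rel (φ.map_rel ⟨r, a⟩)⟩
  have b1 := (hθ _ _ k.1 k'.1).2
  have b2 := (hθ _ _ (k.1.trans k.2.reachable) (k'.1.trans k'.2.reachable)).2
  obtain ⟨e, b3⟩ := two (b1.step k.2 k'.2) b2
  obtain ⟨n, b4⟩ := vw b1
  obtain ⟨n', b5⟩ := vw b2
  exact hη _ _ _ _ n n' e b4 b5 (hμ k.2 k'.2) b3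

omit hc hμ in
/-- Graphs whose classes of four-cycles are nice are multiplicative. -/
theorem mult_of_nice [Finite V] (hN : ∀ k, Nice (CB M k)) : Multiplicative M := by
  choose col hc using fun k => (hN k).2
  intro A B _ _ G H ⟨φ⟩
  refine hom_or_of_odd φ fun g0 X h0 Y hX hY => ?_
  have hμ : ∀ {g g' h h'}, G.Adj g g' → H.Adj h h' → M.Adj (φ (g, h)) (φ (g', h')) :=
    fun a e => φ.map_rel ⟨a, e⟩
  obtain ⟨q, hq⟩ := Nat.not_even_iff_odd.1 hY
  obtain ⟨r, hr⟩ := Nat.not_even_iff_odd.1 hX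
  obtain ⟨y, rfl, y1, y2⟩ := exists_seq Y (by omega)
  obtain ⟨x, rfl, x1, x2⟩ := exists_seq X (by omega)
  rw [hq] at y1
  rw [hr] at x1
  by_cases k1 : En (om M fun g h => φ (g, h)) y (x 0) (x 1) 0 (2 * q + 1) = 1
  · exact Or.inl (case_triv hc hμ (fun k => (hN k).1) y2 y1 (x2 0) k1)
  by_cases k2 : En (om M fun h g => φ (g, h)) x (y 0) (y 1) 0 (2 * r + 1) = 1
  · exact Or.inr (case_triv (μ := fun h g => φ (g, h)) hc (fun e a => hμ a e) (fun k => (hN k).1)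
      x2 x1 (y2 0) k2)
  obtain ⟨D, d1, d2⟩ := En_walk (ω := om M fun g h => φ (g, h)) y2 (x 0) (x 1) (2 * q + 1) (y 0)
    (by rw [two_mul, ← Nat.add_assoc, y1, y1])
  obtain ⟨C, c1, c2⟩ := En_walk (ω := om M fun h g => φ (g, h)) x2 (y 0) (y 1) (2 * r + 1) (x 0)
    (by rw [two_mul, ← Nat.add_assoc, x1, x1])
  exact case_cyc (μ := fun g h => φ (g, h)) hc hμ (x2 0) (y2 0) X hX Y hY ⟨_, x2 0, D, d1, d2⟩ k1
    C c1 (fun t => k2 (c2.symm.trans t))

end Pool.Agent.Lib.NMX.LB
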