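import Pool.Agent.Lib.NMX.HSDefs
import Pool.Agent.Lib.NMX.LBMain

set_option autoImplicit false

namespace Pool.Agent.Lib.NMX.HS

open LB Finset Classical SimpleGraph

variable {V : Type} {M B : SimpleGraph V}

theorem mem_halfBall : ∀ {r : ℕ} {x z : V}, z ∈ halfBall B x r ↔ Wk B r x z
  | 0, _, _ => ⟨fun ⟨_, h⟩ => Walk.eq_of_length_eq_zero h, fun h => by
      cases h
      exact ⟨Walk.nil, rfl⟩⟩
  | r + 1, x, z => ⟨fun ⟨w, h⟩ => by
      cases w with
      | nil => simp at h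
      | cons a w => exact ⟨_, a, mem_halfBall.1 ⟨w, by simpa using h⟩⟩,
    fun ⟨_, a, h⟩ => by
      obtain ⟨w, h⟩ := mem_halfBall.2 h
      exact ⟨Walk.cons a w, by simp [h]⟩⟩

theorem bipHelly_iff : BipHelly B ↔ Nice B := by
  have e : ∀ a b : V × ℕ, (halfBall B a.1 a.2 ∩ halfBall B b.1 b.2).Nonempty ↔
      Wk B (a.2 + b.2) a.1 b.1 := fun a b =>
    ⟨fun ⟨_, h1, h2⟩ => (mem_halfBall.1 h1).add (mem_halfBall.1 h2).symm, fun h => by
      obtain ⟨y, h1, h2⟩ := (Wk_add _ _).1 (Nat.add_comm _ _ ▸ h)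
      exact ⟨y, mem_halfBall.2 h1, mem_halfBall.2 h2.symm⟩⟩
  rw [BipHelly, Nice, and_comm]
  refine and_congr ?_ ⟨fun ⟨c⟩ => ⟨fun x => finTwoEquiv (c x), fun a b h k =>
    c.valid h (finTwoEquiv.injective k)⟩, fun ⟨c, hc⟩ =>
      ⟨Coloring.mk (fun x => finTwoEquiv.symm (c x)) fun h k =>
        hc _ _ h (finTwoEquiv.symm.injective k)⟩⟩
  simp only [Helly, e, Set.nonempty_def, Set.mem_iInter, mem_halfBall]

theorem sqClass_eq (e : Sym2 V) : sqClass M e = CB M (Quot.mk _ e) := by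
  ext u v
  exact and_congr_right fun _ => ⟨Quot.eqvGen_sound, Quot.eqvGen_exact⟩

theorem nice_of_three (h : ∀ x y z w, B.Adj x y → B.Adj y z → B.Adj z w → B.Adj x w) :
    Nice B := by
  have red : ∀ (k n : ℕ) (x z : V), Wk B (n + 1 + (k + k)) x z → Wk B (n + 1) x z := fun k => by
    induction k with
    | zero => exact fun _ _ _ => id
    | succ k ih =>
      intro n x z g
      rw [show n + 1 + (k + 1 + (k + 1)) = n + (k + k) + 1 + 1 + 1 by ring] at g
      obtain ⟨y, a1, y', a2, y'', a3, g⟩ := g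
      exact ih n x z (by
        rw [show n + 1 + (k + k) = n + (k + k) + 1 by ring]
        exact ⟨y'', h _ _ _ _ a1 a2 a3, g⟩)
  refine ⟨fun F ⟨a, ha⟩ hF => ?_, ?_⟩
  · by_cases z : ∃ b ∈ F, b.2 = 0
    · obtain ⟨b, hb, z⟩ := z
      exact ⟨b.1, fun c hc => by simpa [z] using hF c hc b hb⟩
    · obtain ⟨y, h1, -⟩ := (Wk_add _ _).1 (hF a ha a ha)
      refine ⟨y, fun b hb => ?_⟩
      obtain ⟨n, hn⟩ := Nat.exists_eq_succ_of_ne_zero fun t => z ⟨b, hb, t⟩
      have := (hF b hb a ha).add h1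
      rw [hn] at this ⊢
      exact red a.2 n _ _ (Nat.add_assoc _ _ _ ▸ this)
  · obtain ⟨c⟩ : B.Colorable 2 := two_colorable_iff_forall_loop_even.2 fun u w => by
      by_contra g
      obtain ⟨k, hk⟩ := Nat.not_even_iff_odd.1 g
      obtain ⟨y, a, rfl⟩ := red k 0 u u (mem_halfBall.1 ⟨w, by omega⟩)
      exact a.ne rfl
    exact ⟨fun x => finTwoEquiv (c x), fun a b h k => c.valid h (finTwoEquiv.injective k)⟩

theorem main [Finite V] (h : ∀ e ∈ M.edgeSet, BipHelly (sqClass M e)) : Multiplicative M := by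
  refine mult_of_nice fun k => ?_
  by_cases g : ∃ u v, (CB M k).Adj u v
  · obtain ⟨u, v, g, rfl⟩ := g
    exact bipHelly_iff.1 (sqClass_eq (M := M) s(u, v) ▸ h _ g)
  · exact nice_of_three fun x y _ _ a => absurd ⟨x, y, a⟩ g

theorem of_three (h : ∀ x y z w, B.Adj x y → B.Adj y z → B.Adj z w → B.Adj x w) : BipHelly B :=
  bipHelly_iff.2 (nice_of_three h)

theorem of_one (h : ∀ a b c d c' d', Square M a b c d → Square M a b c' d' → c = c' ∧ d = d')
    (e : Sym2 V) : BipHelly (sqClass M e) := by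
  rw [bipHelly_iff, sqClass_eq]
  generalize Quot.mk (Sq M) e = k
  by_cases hq : ∃ a b c d, Quad M a b c d ∧ cls M a b = k
  · obtain ⟨a, b, c, d, q, k1⟩ := hq
    have k2 : cls M b c = k := q.cls ▸ k1
    have k3 : cls M c d = k := q.rot.cls ▸ k2
    have k4 : cls M d a = k := q.rot.rot.cls ▸ k3
    refine Part.nice (W := {a, b, c, d}) (E := {s(a, b), s(b, c), s(c, d), s(d, a)})
      ⟨fun e he => ?_, nice_of_three fun x y z w => ?_, by simp⟩ fun x y z w q' e => ?_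
    · simp only [mem_insert, mem_singleton] at he
      rcases he with rfl | rfl | rfl | rfl
      exacts [⟨⟨q.1, k1⟩, by simp⟩, ⟨⟨q.2.1, k2⟩, by simp⟩, ⟨⟨q.2.2.1, k3⟩, by simp⟩,
        ⟨⟨q.2.2.2.1, k4⟩, by simp⟩]
    · have n1 := q.1.ne
      have n2 := q.2.1.ne
      have n3 := q.2.2.1.ne
      have n4 := q.2.2.2.1.ne
      have n5 := q.2.2.2.2
      simp only [fromEdgeSet_adj, coe_insert, coe_singleton, Set.mem_insert_iff,
        Set.mem_singleton_iff, Sym2.eq_iff]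
      clear k1 k2 k3 k4 q h
      grind
    · simp only [mem_insert, mem_singleton, Sym2.eq_iff] at e
      rcases e with (⟨rfl, rfl⟩ | ⟨rfl, rfl⟩) | (⟨rfl, rfl⟩ | ⟨rfl, rfl⟩) |
        (⟨rfl, rfl⟩ | ⟨rfl, rfl⟩) | ⟨rfl, rfl⟩ | ⟨rfl, rfl⟩
      · simp [(h _ _ _ _ _ _ q' q).1]
      · simp [(h _ _ _ _ _ _ q' q.rev.rot).1]
      · simp [(h _ _ _ _ _ _ q' q.rot).1]
      · simp [(h _ _ _ _ _ _ q' q.rev).1]
      · simp [(h _ _ _ _ _ _ q' q.rot.rot).1]
      · simp [(h _ _ _ _ _ _ q' q.rev.rot.rot.rot).1]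
      · simp [(h _ _ _ _ _ _ q' q.rot.rot.rot).1]
      · simp [(h _ _ _ _ _ _ q' q.rev.rot.rot).1]
  · by_cases g : ∃ u v, (CB M k).Adj u v
    · obtain ⟨u, v, g⟩ := g
      refine Part.nice (W := {u, v}) (E := {s(u, v)}) ⟨by simpa using g,
        nice_of_three fun x y z w => ?_, by simp⟩ fun x y z w q e =>
          absurd ⟨x, y, z, w, q, (congrArg (Quot.mk _) (mem_singleton.1 e)).trans g.2⟩ hq
      have := g.ne
      simp only [fromEdgeSet_adj, coe_singleton, Set.mem_singleton_iff, Sym2.eq_iff]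
      grind
    · exact nice_of_three fun x y _ _ a => absurd ⟨x, y, a⟩ g

end Pool.Agent.Lib.NMX.HS
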