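import Pool.Agent.Lib.NMX.Defs

set_option autoImplicit false

namespace Pool.Agent.Lib.NMX.Kn35

open Finset

variable {n : ℕ}

/-- the `k` smallest elements of `S` -/
def small (k : ℕ) (S : Finset (Fin n)) : Finset (Fin n) :=
  S.filter fun x => (S.filter (· < x)).card < k

theorem card_small (k : ℕ) (S : Finset (Fin n)) : (small k S).card = min k S.card := by
  induction S using Finset.induction_on_max with
  | empty => simp [small]
  | insert a S ha ih =>
    have hn : a ∉ S := fun h => lt_irrefl _ (ha a h)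
    have e1 : ∀ x ∈ S, (insert a S).filter (· < x) = S.filter (· < x) := fun x hx => by
      rw [filter_insert, if_neg (ha x hx).not_gt]
    have e2 : (insert a S).filter (· < a) = S := by
      rw [filter_insert, if_neg (lt_irrefl a)]
      exact filter_true_of_mem ha
    have e3 : S.filter (fun x => ((insert a S).filter (· < x)).card < k) = small k S :=
      filter_congr fun x hx => by rw [e1 x hx]
    rw [small, filter_insert, e2, e3, card_insert_of_notMem hn]
    split_ifs with h
    · rw [card_insert_of_notMem (s := small k S) fun h' => hn (mem_filter.1 h').1, ih]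
      omega
    · rw [ih]
      omega

theorem mem_small_succ {k : ℕ} {S T : Finset (Fin n)} (h : (T \ S).card ≤ 1) {x : Fin n}
    (hx : x ∈ small k S) (hT : x ∈ T) : x ∈ small (k + 1) T := by
  refine mem_filter.2 ⟨hT, ?_⟩
  have h1 := (mem_filter.1 hx).2
  have h2 : T.filter (· < x) ⊆ S.filter (· < x) ∪ T \ S := fun y hy => by
    simp only [mem_filter, mem_union, mem_sdiff] at hy ⊢
    tauto
  have h3 := (card_le_card h2).trans (card_union_le _ _)
  omega

/-- the initial segment -/
def seg (n i : ℕ) : Finset (Fin n) := univ.filter fun x => x.1 < i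

theorem card_seg {i : ℕ} (h : i ≤ n) : (seg n i).card = i := by
  rw [seg, Fin.card_filter_val_lt]
  omega

/-- the points an odd level has to avoid -/
def bad (k i : ℕ) (A : Finset (Fin n)) : Finset (Fin n) :=
  small (k + 1) (seg n (2 * k + 1) \ A ∪ seg n i) ∪ univ.filter fun x => x.1 = i

theorem card_bad (k i : ℕ) (A : Finset (Fin n)) : (bad k i A).card ≤ k + 2 := by
  refine (card_union_le _ _).trans ?_
  have h1 : (univ.filter fun x : Fin n => x.1 = i).card ≤ 1 :=
    card_le_one.2 fun a ha b hb => Fin.ext ((mem_filter.1 ha).2.trans (mem_filter.1 hb).2.symm)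
  rw [card_small]
  omega

theorem small_sub_bad {k i j : ℕ} (hn : 2 * k + 1 ≤ n) (h1 : i ≤ j) (h2 : j ≤ i + 1)
    {A B : Finset (Fin n)} (hA : A ⊆ seg n (2 * k + 1)) (hB : B ⊆ seg n (2 * k + 1))
    (cA : A.card = k) (cB : B.card = k) (hd : Disjoint A B) :
    small k (B ∪ seg n j) ⊆ bad k i A := by
  intro x hx
  have hs : B ⊆ seg n (2 * k + 1) \ A := subset_sdiff.2 ⟨hB, hd.symm⟩
  by_cases e : x.1 = i
  · exact mem_union_right _ (mem_filter.2 ⟨mem_univ _, e⟩)
  refine mem_union_left _ (mem_small_succ ?_ hx ?_)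
  · have h3 : (seg n (2 * k + 1) \ A ∪ seg n i) \ (B ∪ seg n j) ⊆
        (seg n (2 * k + 1) \ A) \ B := fun y hy => by
      simp only [seg, mem_sdiff, mem_union, mem_filter, mem_univ, true_and, not_or] at hy ⊢
      refine ⟨hy.1.resolve_right ?_, hy.2.1⟩
      have := hy.2.2
      omega
    refine (card_le_card h3).trans ?_
    rw [card_sdiff_of_subset hs, card_sdiff_of_subset hA, card_seg hn]
    omega
  · rcases mem_union.1 (mem_filter.1 hx).1 with h | h
    · exact mem_union_left _ (hs h)
    · refine mem_union_right _ (mem_filter.2 ⟨mem_univ _, ?_⟩)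
      have := (mem_filter.1 h).2
      omega

/-- cyclic intervals modulo `2k+1` -/
def cyc (n k j : ℕ) : Finset (Fin n) :=
  univ.filter fun x => ∃ t < k, x.1 = (j * k + t) % (2 * k + 1)

theorem cyc_sub (k j : ℕ) : cyc n k j ⊆ seg n (2 * k + 1) := fun x hx => by
  obtain ⟨t, -, h⟩ := (mem_filter.1 hx).2
  exact mem_filter.2 ⟨mem_univ _, h ▸ Nat.mod_lt _ (by omega)⟩

theorem mod_inj {a s t N : ℕ} (hs : s < N) (ht : t < N) (h : (a + s) % N = (a + t) % N) :
    s = t :=
  Nat.ModEq.eq_of_lt_of_lt (Nat.ModEq.add_left_cancel' a h) hs ht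

theorem card_cyc {k : ℕ} (hn : 2 * k + 1 ≤ n) (j : ℕ) : (cyc n k j).card = k := by
  refine Eq.trans (card_bij (fun t _ => (⟨(j * k + t) % (2 * k + 1),
    (Nat.mod_lt _ (by omega)).trans_le hn⟩ : Fin n)) ?_ ?_ ?_).symm (card_range k)
  · exact fun t ht => mem_filter.2 ⟨mem_univ _, t, mem_range.1 ht, rfl⟩
  · intro s hs t ht h
    have := mem_range.1 hs
    have := mem_range.1 ht
    exact mod_inj (by omega) (by omega) (Fin.ext_iff.1 h)
  · intro x hx
    obtain ⟨t, ht, h⟩ := (mem_filter.1 hx).2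
    exact ⟨t, mem_range.2 ht, Fin.ext h.symm⟩

theorem cyc_disj (k j : ℕ) : Disjoint (cyc n k j) (cyc n k (j + 1)) := by
  refine disjoint_left.2 fun x h1 h2 => ?_
  obtain ⟨s, hs, e1⟩ := (mem_filter.1 h1).2
  obtain ⟨t, ht, e2⟩ := (mem_filter.1 h2).2
  rw [Nat.add_mul, Nat.one_mul, Nat.add_assoc] at e2
  have := mod_inj (by omega) (by omega) (e1.symm.trans e2)
  omega

theorem cyc_per (k j : ℕ) : cyc n k (j + (2 * k + 1)) = cyc n k j := by
  refine filter_congr fun x _ => exists_congr fun t => and_congr_right fun _ => ?_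
  rw [show (j + (2 * k + 1)) * k + t = j * k + t + (2 * k + 1) * k by ring,
    Nat.add_mul_mod_self_left]

theorem adj_of {k : ℕ} (hk : 1 ≤ k) {a b : {s : Finset (Fin n) // s.card = k}}
    (h : Disjoint a.1 b.1) : (kneser n k).Adj a b := by
  refine ⟨fun e => ?_, h⟩
  rw [← e, disjoint_self] at h
  have := a.2
  rw [h] at this
  simp at this
  omega

/-- A cone of height `2n` over the odd cycle of length `2k+1` inside the Kneser graph. -/
theorem kn_cone {k : ℕ} (hk : 1 ≤ k) (hn : 2 * k + 2 ≤ n) :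
    ∃ F : ℕ → ℕ → {s : Finset (Fin n) // s.card = k},
      (∀ t i, F t (i + (2 * k + 1)) = F t i) ∧
      (∀ i, (kneser n k).Adj (F 0 i) (F 0 (i + 1))) ∧
      (∀ t i, (kneser n k).Adj (F t i) (F (t + 1) (i + 1)) ∧
        (kneser n k).Adj (F t (i + 1)) (F (t + 1) i)) ∧
      ∀ i j, F (2 * n) i = F (2 * n) j := by
  have hn' : 2 * k + 1 ≤ n := by omega
  have av : ∀ X : Finset (Fin n), ∃ O : Finset (Fin n), O.card = k ∧
      (X.card ≤ k + 2 → Disjoint O X) := fun X => by
    by_cases h : X.card ≤ k + 2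
    · obtain ⟨O, h1, h2⟩ := exists_subset_card_eq (s := Xᶜ) (n := k)
        (by simp only [card_compl, Fintype.card_fin]; omega)
      exact ⟨O, h2, fun _ => disjoint_left.2 fun v hv => by simpa using h1 hv⟩
    · exact ⟨cyc n k 0, card_cyc hn' 0, fun h' => absurd h' h⟩
  choose O cO dO using av
  have cE : ∀ i j, (small k (cyc n k j ∪ seg n i)).card = k := fun i j => by
    have := card_le_card (subset_union_left (s₁ := cyc n k j) (s₂ := seg n i))
    rw [card_cyc hn'] at this
    rw [card_small]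
    omega
  have key : ∀ i l a b, i ≤ l → l ≤ i + 1 → Disjoint (cyc n k a) (cyc n k b) →
      Disjoint (O (bad k i (cyc n k a))) (small k (cyc n k b ∪ seg n l)) :=
    fun i l a b h1 h2 hd => (dO _ (card_bad k i _)).mono_right
      (small_sub_bad hn' h1 h2 (cyc_sub k a) (cyc_sub k b) (card_cyc hn' a) (card_cyc hn' b) hd)
  let F : ℕ → ℕ → {s : Finset (Fin n) // s.card = k} := fun t j =>
    if t % 2 = 0 then ⟨small k (cyc n k j ∪ seg n (t / 2)), cE _ _⟩
    else ⟨O (bad k (t / 2) (cyc n k j)), cO _⟩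
  have step : ∀ t a b, Disjoint (cyc n k a) (cyc n k b) →
      (kneser n k).Adj (F t a) (F (t + 1) b) := fun t a b hd => by
    refine adj_of hk ?_
    by_cases h : t % 2 = 0
    · simp only [F, if_pos h, if_neg (show ¬ (t + 1) % 2 = 0 by omega)]
      exact (key _ _ b a (by omega) (by omega) hd.symm).symm
    · simp only [F, if_neg h, if_pos (show (t + 1) % 2 = 0 by omega)]
      exact key _ _ a b (by omega) (by omega) hd
  refine ⟨F, fun t i => ?_, fun i => adj_of hk ?_,
    fun t i => ⟨step t _ _ (cyc_disj k i), step t _ _ (cyc_disj k i).symm⟩, fun i j => ?_⟩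
  · simp only [F, cyc_per]
  · have e : ∀ j, (F 0 j).1 ⊆ cyc n k j := fun j x hx => by
      simp only [F, if_pos (Nat.zero_mod 2)] at hx
      simpa [seg] using (mem_filter.1 hx).1
    exact (cyc_disj k i).mono (e i) (e (i + 1))
  · have e : ∀ X : Finset (Fin n), X ∪ seg n (2 * n / 2) = univ := fun X =>
      eq_univ_of_forall fun x => mem_union_right _ (mem_filter.2 ⟨mem_univ _, by omega⟩)
    simp only [F, if_pos (Nat.mul_mod_right 2 n), e]

end Pool.Agent.Lib.NMX.Kn35
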