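import Pool.Agent.Lib.NMX.Frame

set_option autoImplicit false

namespace Pool.Agent.Lib.NMX

open Finset Equiv

theorem Frame.katona_eq {V : Type} {M : SimpleGraph V} {x : ℤ → V} {p q : ℕ} (h : Frame M p q x)
    (hq : 0 < q) (hp : 2 * q + 1 ≤ p) (S : Finset V) (hS : ∀ a ∈ S, ∀ b ∈ S, ¬ M.Adj a b)
    (hc : q ≤ S.card) : ∃ c : ℤ, ∀ t : ℕ, t < q → x (c + t) ∈ S := by
  have pair : ∀ c, x c ∈ S → ∀ j, c ≤ j → j < c + q → x j ∈ S ∨ x (j - q) ∈ S := by
    intro c hs j j1 j2
    choose κ h1 h2 h3 using h.2.2 (c - q + 1)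
    have h4 : ∀ a ∈ S, κ a < c + q := fun a ha => by
      have := mt (h.1 c (κ a)) (hS _ hs _ (by rwa [h3]))
      have := h2 a
      unfold CA at *; omega
    obtain ⟨a, ha, e⟩ := surjOn_of_injOn_of_card_le (s := S) (t := Ico c (c + q))
      (fun a => if κ a < c then κ a + q else κ a) (fun a ha => by
        have := h1 a
        have := h4 a ha
        simp only [coe_Ico, Set.mem_Ico]
        split_ifs <;> omega) (fun a ha b hb e => by
        have := mt (h.1 (κ a) (κ b)) (hS _ (by rwa [h3]) _ (by rwa [h3]))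
        rw [← h3 a, ← h3 b]
        congr 1
        simp only at e
        unfold CA at *
        split_ifs at e <;> omega) (by simpa using hc) (show j ∈ _ by simp [j1, j2])
    simp only at e
    split_ifs at e
    · exact Or.inr (by rwa [show j - q = κ a by omega, h3])
    · exact Or.inl (by rwa [← e, h3])
  obtain ⟨c, c1, c2⟩ : ∃ c, x c ∈ S ∧ x (c - 1) ∉ S := by
    by_contra hn
    push Not at hn
    obtain ⟨s, hs⟩ := card_pos.1 (hq.trans_le hc)
    obtain ⟨c, -, -, rfl⟩ := h.2.2 0 s
    have : ∀ t : ℕ, x (c - t) ∈ S := fun t => by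
      induction t with
      | zero => simpa using hs
      | succ t ih => simpa [sub_sub] using hn _ ih
    exact hS _ hs _ (this q) (h.1 _ _ (by unfold CA; omega))
  have c3 : x (c + q - 1) ∈ S := (pair c c1 _ (by omega) (by omega)).resolve_right
    (by rwa [show c + q - 1 - q = c - 1 by omega])
  refine ⟨c, fun t => ?_⟩
  induction t with
  | zero => simpa using fun _ => c1
  | succ t ih =>
    intro ht
    by_cases e : t + 2 = q
    · rwa [show c + (t + 1 : ℕ) = c + q - 1 by omega]
    · rcases pair _ c3 (c + q + t + 1) (by omega) (by omega) with k | k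
      · exact absurd (h.1 _ _ (by unfold CA; omega)) (hS _ (ih (by omega)) _ k)
      · rwa [show c + (t + 1 : ℕ) = c + q + t + 1 - q by omega]

theorem zval_sub {n : ℕ} [NeZero n] (a b : ZMod n) :
    ((a - b).val : ℤ) = a.val - b.val + if b.val ≤ a.val then 0 else n := by
  obtain ⟨m, rfl⟩ := Nat.exists_eq_succ_of_ne_zero (NeZero.ne n)
  exact Fin.intCast_val_sub_eq_sub_add_ite (n := m + 1) a b

theorem gen_fin (m : ℕ) (P : Perm (Fin (m + 2)) → Prop) (h1 : P 1)
    (hs : ∀ τ (a b : Fin (m + 2)), 1 ≤ a.val → b.val = a.val + 1 → P τ → P (τ * swap a b))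
    (τ : Perm (Fin (m + 2))) (h0 : τ 0 = 0) : P τ := by
  have key : ∀ σ : Perm (Fin (m + 1)), P (Perm.decomposeFin.symm (0, σ)) := fun σ => by
    have hσ : σ ∈ Submonoid.closure (Set.range fun i : Fin m ↦ swap i.castSucc i.succ) := by
      rw [Perm.mclosure_swap_castSucc_succ]; trivial
    induction hσ using Submonoid.closure_induction_right with
    | one => convert h1; ext y; refine Fin.cases ?_ (fun y => ?_) y <;> simp
    | mul_right σ _ y hy ih =>
      obtain ⟨i, rfl⟩ := hy
      convert hs _ i.castSucc.succ i.succ.succ (by simp) (by simp) ih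
      ext y
      refine Fin.cases ?_ (fun y => ?_) y
      · rw [Perm.mul_apply, swap_apply_of_ne_of_ne (Fin.succ_ne_zero _).symm
          (Fin.succ_ne_zero _).symm]
        simp
      · rw [Perm.mul_apply, (Fin.succ_injective _).swap_apply]
        simp
  obtain ⟨⟨p, σ⟩, rfl⟩ := Perm.decomposeFin.symm.surjective τ
  rw [Perm.decomposeFin_symm_apply_zero] at h0
  subst h0
  exact key σ

theorem gen_zmod {n : ℕ} (hn : 2 ≤ n) (P : Perm (ZMod n) → Prop) (h1 : P 1)
    (hs : ∀ τ (a b : ZMod n), 1 ≤ a.val → b.val = a.val + 1 → P τ → P (τ * swap a b))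
    (τ : Perm (ZMod n)) (h0 : τ 0 = 0) : P τ := by
  obtain ⟨m, rfl⟩ := Nat.exists_eq_add_of_le' hn
  exact gen_fin m P h1 hs τ h0

variable {n k : ℕ} [NeZero n]

theorem card_near (hk : k ≤ n) {α : Type} [Fintype α] (g : α ≃ ZMod n) :
    (univ.filter fun v => (g v).val < k).card = k := by
  conv_rhs => rw [← card_range k]
  refine card_nbij' (fun v => (g v).val) (fun t => g.symm t) (fun v hv => by simpa using hv)
    (fun t ht => ?_) (fun v _ => by simp) fun t ht => ?_
  all_goals have : t < n := lt_of_lt_of_le (by simpa using ht) hk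
  · simpa [ZMod.val_cast_of_lt this] using ht
  · simp [ZMod.val_cast_of_lt this]

/-- arcs of a cyclic order -/
def arc (hk : k ≤ n) (π : Fin n ≃ ZMod n) (s : ZMod n) : {s : Finset (Fin n) // s.card = k} :=
  ⟨univ.filter fun v => (π v - s).val < k, card_near hk (π.trans (Equiv.subRight s))⟩

omit [NeZero n] in
theorem kn_adj (hk : 0 < k) {a b : {s : Finset (Fin n) // s.card = k}} :
    (kneser n k).Adj a b ↔ Disjoint a.1 b.1 := by
  refine ⟨fun h => h.2, fun h => ⟨fun e => ?_, h⟩⟩
  subst e
  have := a.2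
  rw [disjoint_self_iff_empty] at h
  rw [h] at this
  simp at this
  omega

theorem centre (hk : 0 < k) (hn : 2 * k + 1 ≤ n) (f : kneser n k →g kneser n k)
    (π : Fin n ≃ ZMod n) (y : Fin n) :
    ∃ u, ∀ s, y ∈ (f (arc (by omega) π s)).1 ↔ (u - s).val < k := by
  have hF := CG_frame n k hk
  let T : Fin n → Finset (ZMod n) := fun y => univ.filter fun s => y ∈ (f (arc (by omega) π s)).1
  have hT : ∀ y, ∀ a ∈ T y, ∀ b ∈ T y, ¬ (CG n k).Adj a b := fun y a ha b hb hab => by
    refine disjoint_left.1 (f.map_rel ((kn_adj hk).2 (disjoint_filter.2 fun v _ h1 h2 => ?_))).2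
      (mem_filter.1 ha).2 (mem_filter.1 hb).2
    have := hF.2.1 (-(π v - a).val) (-(π v - b).val) (by omega) (by omega) ?_
    · unfold CA at this; omega
    obtain ⟨_, d, d1, d2, e⟩ := hab
    exact ⟨hk, d, d1, d2, by simp [e]; ring⟩
  have hs : ∑ y, (T y).card = ∑ _y : Fin n, k := by
    simp only [T, card_filter]
    rw [sum_comm]
    simp only [← card_filter, filter_mem_eq_inter, univ_inter]
    rw [sum_congr rfl fun s _ => (f (arc (by omega) π s)).2]
    simp
  have hc := (sum_eq_sum_iff_of_le fun y _ => hF.katona (by omega) _ (hT y)).1 hs y (mem_univ y)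
  obtain ⟨c, hc'⟩ := hF.katona_eq hk hn _ (hT y) hc.ge
  have : (univ.filter fun s : ZMod n => ((c + k - 1 : ℤ) - s).val < k) = T y := by
    refine eq_of_subset_of_card_le (fun s hs => ?_) ?_
    · have hs' := (mem_filter.1 hs).2
      convert hc' (k - 1 - ((c + k - 1 : ℤ) - s).val) (by omega)
      rw [Nat.cast_sub (by omega), Nat.cast_sub (by omega)]
      simp
      ring
    · rw [hc]
      exact (card_near (by omega) (Equiv.subLeft _)).ge
  refine ⟨(c + k - 1 : ℤ), fun s => ?_⟩
  have := congrArg (s ∈ ·) this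
  simpa [T] using this.symm

theorem star (hk : 2 ≤ k) (hn : 2 * k + 1 ≤ n) (f : kneser n k →g kneser n k) (y : Fin n) :
    ∃ c, ∀ s, y ∈ (f s).1 ↔ c ∈ s.1 := by
  obtain ⟨π, hπ⟩ : ∃ π : Fin n ≃ ZMod n, ∀ s, y ∈ (f (arc (by omega) π s)).1 ↔ (0 - s).val < k := by
    let π := (Fintype.equivFinOfCardEq (ZMod.card n)).symm
    obtain ⟨u, hu⟩ := centre (by omega) hn f π y
    refine ⟨π.trans (Equiv.subRight u), fun s => ?_⟩
    have := hu (s + u)
    rw [show u - (s + u) = 0 - s by ring] at this
    rw [← this]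
    congr! 3
    ext v
    simp [arc, sub_sub, add_comm]
  have all := gen_zmod (n := n) (by omega) (fun τ => ∀ s,
    y ∈ (f (arc (by omega) (π.trans τ⁻¹) s)).1 ↔ (0 - s).val < k) hπ fun τ a b ha hb ih => by
      obtain ⟨u, hu⟩ := centre (by omega) hn f (π.trans (τ * swap a b)⁻¹) y
      suffices u = 0 by rwa [this] at hu
      have b1 := ZMod.val_lt b
      have u1 := ZMod.val_lt u
      have H : ∀ s : ℕ, s < n → s + k ≠ a.val + 1 → s + k ≠ a.val + 1 + n → s ≠ a.val + 1 →
          ((s = 0 ∨ n < s + k) ↔ ((s ≤ u.val ∧ u.val < s + k) ∨ u.val + n < s + k)) := by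
        intro s s1 s2 s3 s4
        have e : arc (k := k) (by omega) (π.trans (τ * swap a b)⁻¹) s =
            arc (by omega) (π.trans τ⁻¹) s := by
          have k1 := zval_sub a s
          have k2 := zval_sub b s
          rw [ZMod.val_cast_of_lt s1] at k1 k2
          have k3 : (a - s).val < k ↔ (b - s).val < k := by split_ifs at k1 k2 <;> omega
          ext v
          simp only [arc, mem_filter, mem_univ, true_and, trans_apply, mul_inv_rev, swap_inv,
            Perm.mul_apply, swap_apply_def]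
          split_ifs with e1 e2
          · rw [e1, k3]
          · rw [e2, k3]
          · rfl
        have k0 := (ih s).symm.trans (e ▸ hu s)
        have k1 := zval_sub 0 (s : ZMod n)
        have k2 := zval_sub u s
        rw [ZMod.val_cast_of_lt s1] at k1 k2
        rw [ZMod.val_zero] at k1
        split_ifs at k1 k2 <;> omega
      have := H u.val
      have := H (n - k + 1)
      have := H (u.val - 1)
      have := H 0
      have := H (u.val + 1 - k)
      have := H (n - 1)
      exact (ZMod.val_eq_zero u).1 (by omega)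
  refine ⟨π.symm 0, fun s => ?_⟩
  have tr : ∀ t : ZMod n, (π.symm 0 ∈ s.1 ↔ (0 - t).val < k) →
      (y ∈ (f s).1 ↔ (0 - t).val < k) := fun t ht => by
    obtain ⟨σ, hσ⟩ := Perm.exists_map_finset_eq (arc (k := k) (by omega) π t).1 s.1
      ((arc _ π t).2.trans s.2.symm)
    have h1 : ∀ v, σ v ∈ s.1 ↔ (π v - t).val < k := fun v => by rw [← hσ]; simp [arc]
    let ρ := swap (σ (π.symm 0)) (π.symm 0) * σ
    have h2 : ∀ v, ρ v ∈ s.1 ↔ (π v - t).val < k := fun v => by
      have h3 := h1 (π.symm 0)
      rw [apply_symm_apply] at h3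
      simp only [ρ, Perm.mul_apply, swap_apply_def, ← h1]
      split_ifs with e1 e2
      · rw [e1, ht, h3]
      · rw [e2, ht, h3]
      · rfl
    rw [← all (π.permCongr ρ) (by simp [ρ]) t]
    congr! 3
    ext v
    obtain ⟨v, rfl⟩ := ρ.surjective v
    have : (π.permCongr ρ)⁻¹ (π (ρ v)) = π v := by rw [Perm.inv_eq_iff_eq]; simp
    rw [h2]
    simp only [arc, mem_filter, mem_univ, true_and, trans_apply, this]
  by_cases hc : π.symm 0 ∈ s.1
  · simpa [hc, show 0 < k by omega] using tr 0 (by simpa [hc] using (show 0 < k by omega))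
  · have e : ¬ ((0 : ZMod n) - (1 : ℕ)).val < k := by
      have k1 := zval_sub 0 ((1 : ℕ) : ZMod n)
      rw [ZMod.val_cast_of_lt (by omega), ZMod.val_zero] at k1
      split_ifs at k1 <;> omega
    exact (tr _ (iff_of_false hc e)).trans (iff_of_false e hc)

theorem kneser_core (hk : 2 ≤ k) (hn : 2 * k + 1 ≤ n) : IsCore (kneser n k) := by
  intro f
  choose g hg using star hk hn f
  have hs : Function.Surjective g := fun y => by
    by_contra hy
    push Not at hy
    obtain ⟨r, hr, hc⟩ := exists_subset_card_eq (s := ({y, g y} : Finset (Fin n))ᶜ) (n := k - 1)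
      (by have := card_le_two (a := y) (b := g y); simp only [card_compl, Fintype.card_fin]; omega)
    have h1 : y ∉ r := fun h => by simpa using hr h
    have h2 : g y ∉ r := fun h => by simpa using hr h
    let s : {s : Finset (Fin n) // s.card = k} :=
      ⟨insert y r, by rw [card_insert_of_notMem h1]; omega⟩
    let t : {s : Finset (Fin n) // s.card = k} :=
      ⟨insert (g y) r, by rw [card_insert_of_notMem h2]; omega⟩
    have e : (f s).1 = (f t).1 := eq_of_subset_of_card_le (fun v hv => by
      rw [hg] at hv ⊢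
      exact mem_insert_of_mem ((mem_insert.1 hv).resolve_left (hy v))) (by rw [(f s).2, (f t).2])
    have := (hg y t).2 (mem_insert_self _ _)
    rw [← e, hg] at this
    exact h2 ((mem_insert.1 this).resolve_left (hy y))
  intro s t e
  ext v
  obtain ⟨y, rfl⟩ := hs v
  rw [← hg, ← hg, e]

end Pool.Agent.Lib.NMX
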