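import Pool.Agent.Lib.NMX.KnCore

set_option autoImplicit false

namespace Pool.Agent.Lib.NMX

open Finset

variable {n l : ℕ}

theorem avoid (A : Finset (Fin n)) (r : ℕ) (h : A.card + r ≤ n) :
    ∃ t : Finset (Fin n), t.card = r ∧ ∀ v ∈ t, v ∉ A := by
  obtain ⟨t, ht, hc⟩ := exists_subset_card_eq (s := Aᶜ) (n := r)
    (by simp only [card_compl, Fintype.card_fin]; omega)
  exact ⟨t, hc, fun v hv => by simpa using ht hv⟩

theorem avoid1 (A : Finset (Fin n)) (h : A.card < n) : ∃ v, v ∉ A := by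
  obtain ⟨v, -, hv⟩ := exists_mem_notMem_of_card_lt_card (s := A) (t := univ) (by simpa using h)
  exact ⟨v, hv⟩

abbrev KV (n l : ℕ) : Type := {s : Finset (Fin n) // s.card = l + 1}

theorem kadj {a b : KV n l} : (kneser n (l + 1)).Adj a b ↔ ∀ v ∈ a.1, v ∉ b.1 :=
  (kn_adj (by omega)).trans disjoint_left

theorem kn_cl {e c m w : KV n l} (h : Cl (kneser n (l + 1)) e c m) (he : (kneser n (l + 1)).Adj w e) (hc : (kneser n (l + 1)).Adj w c) :
    ∀ y ∈ m.1, y ∈ e.1 ∨ y ∈ c.1 := by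
  intro y hy
  by_contra hn
  push Not at hn
  obtain ⟨t, ht, hc'⟩ := exists_subset_card_eq (s := w.1.erase y) (n := l)
    (by have := pred_card_le_card_erase (s := w.1) (a := y); have := w.2; omega)
  have h1 : y ∉ t := fun k => by simpa using ht k
  refine kadj.1 (h ⟨insert y t, by rw [card_insert_of_notMem h1, hc']⟩
    (kadj.2 fun v hv k => ?_) (kadj.2 fun v hv k => ?_)) y hy (mem_insert_self _ _)
  · rcases mem_insert.1 k with rfl | k
    exacts [hn.1 hv, kadj.1 he v (mem_of_mem_erase (ht k)) hv]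
  · rcases mem_insert.1 k with rfl | k
    exacts [hn.2 hv, kadj.1 hc v (mem_of_mem_erase (ht k)) hv]

/-- the state `(s; x → y)` -/
def St (β : KV n l → KV n l → KV n l) (s : Finset (Fin n)) (x y : Fin n) : Prop :=
  s.card = l ∧ x ∉ s ∧ y ∉ s ∧ x ≠ y ∧
    ∀ a b : KV n l, a.1 = insert x s → b.1 = insert y s → β a b = b

def Full (β : KV n l → KV n l → KV n l) (s : Finset (Fin n)) : Prop :=
  s.card = l ∧ ∀ x y, x ∉ s → y ∉ s → x ≠ y → St β s x y

/-- the vertex `s + x` -/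
def ins (s : Finset (Fin n)) (x : Fin n) (h : s.card = l) (hx : x ∉ s) : KV n l :=
  ⟨insert x s, by rw [card_insert_of_notMem hx, h]⟩

theorem adj_ins {s t : Finset (Fin n)} {x y : Fin n} {h1 : s.card = l} {h2 : x ∉ s}
    {h3 : t.card = l} {h4 : y ∉ t} (a : x ≠ y) (b : x ∉ t) (c : y ∉ s) (d : ∀ v ∈ t, v ∉ s) :
    (kneser n (l + 1)).Adj (ins s x h1 h2) (ins t y h3 h4) :=
  kadj.2 (by simp only [ins]; grind)

variable {β : ℕ → KV n l → KV n l → KV n l} (hβ : Chain (kneser n (l + 1)) β)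
include hβ

theorem entry {j : ℕ} {a b : KV n l} {y ε : Fin n} {t : Finset (Fin n)} (hy : y ∈ (β j a b).1)
    (hya : y ∉ a.1) (hyb : y ∈ b.1) (ht : t.card = l) (hε : ε ∉ t)
    (hd : ∀ v, v ∈ a.1 ∨ v ∈ b.1 → v ≠ ε ∧ v ∉ t) : St (β (j + 1)) t y ε := by
  refine ⟨ht, (hd y (Or.inr hyb)).2, hε, (hd y (Or.inr hyb)).1, fun e d he hd' => ?_⟩
  have ae : (kneser n (l + 1)).Adj a e := kadj.2 fun v hv => by
    rw [he, mem_insert, not_or]
    exact ⟨fun k => hya (k ▸ hv), (hd v (Or.inl hv)).2⟩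
  have ad : (kneser n (l + 1)).Adj a d := kadj.2 fun v hv => by
    rw [hd', mem_insert, not_or]; exact hd v (Or.inl hv)
  have bd : (kneser n (l + 1)).Adj b d := kadj.2 fun v hv => by
    rw [hd', mem_insert, not_or]; exact hd v (Or.inr hv)
  have h1 := kadj.1 (hβ.2 j a b e d ae ad bd) y hy
  refine Subtype.ext (eq_of_subset_of_card_le (fun v hv => ?_) (by rw [d.2, (β _ e d).2]))
  refine (kn_cl (hβ.cl _ e d) ae ad v hv).elim (fun k => ?_) id
  rw [he] at k
  rcases mem_insert.1 k with rfl | k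
  · exact absurd hv h1
  · rw [hd']; exact mem_insert_of_mem k

theorem rule {j : ℕ} {s t : Finset (Fin n)} {x y ε : Fin n} (h : St (β j) s x y) (ht : t.card = l)
    (hε : ε ∉ t) (hd : ∀ v, v = x ∨ v = y ∨ v ∈ s → v ≠ ε ∧ v ∉ t) : St (β (j + 1)) t y ε := by
  obtain ⟨h1, h2, h3, h4, h5⟩ := h
  refine entry hβ (a := ins s x h1 h2) (b := ins s y h1 h3) ?_ ?_ (mem_insert_self _ _) ht hε
    fun v hv => hd v ?_
  · rw [h5 _ _ rfl rfl]; exact mem_insert_self _ _
  · simp [ins, h4.symm, h3]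
  · simp only [ins, mem_insert] at hv; tauto

variable (hl : 1 ≤ l) (hn : 2 * l + 4 ≤ n)
include hn

theorem two {j : ℕ} {s : Finset (Fin n)} {x y ε ζ : Fin n} (h : St (β j) s x y) (h1 : ε ∉ s)
    (h2 : ε ≠ x) (h3 : ε ≠ y) (h4 : ζ ∉ s) (h5 : ζ ≠ y) (h6 : ζ ≠ ε) : St (β (j + 2)) s ε ζ := by
  obtain ⟨t, ht, hv⟩ := avoid (s ∪ {x, y, ε, ζ}) l (by
    have := card_union_le s {x, y, ε, ζ}
    have := card_le_four (a := x) (b := y) (c := ε) (d := ζ)
    have := h.1
    omega)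
  have := h.2.2.1
  simp only [mem_union, mem_insert, mem_singleton] at hv
  exact rule hβ (rule hβ h ht (by grind) (by grind)) h.1 h4 (by grind)

include hl

theorem full {j : ℕ} {s : Finset (Fin n)} {x y : Fin n} (h : St (β j) s x y) :
    Full (β (j + 4)) s := by
  refine ⟨h.1, fun x' y' h1 h2 h3 => ?_⟩
  have := h.1
  obtain ⟨ε, hε⟩ := avoid1 (s ∪ {x, y, x'}) (by
    have := card_union_le s {x, y, x'}
    have := card_le_three (a := x) (b := y) (c := x')
    omega)
  obtain ⟨ζ, hζ⟩ := avoid1 (s ∪ {y, ε, x', y'}) (by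
    have := card_union_le s {y, ε, x', y'}
    have := card_le_four (a := y) (b := ε) (c := x') (d := y')
    omega)
  simp only [mem_union, mem_insert, mem_singleton] at hε hζ
  exact two hβ hn (two hβ hn h (ε := ε) (ζ := ζ) (by grind) (by grind) (by grind) (by grind)
    (by grind) (by grind)) h1 (by grind) (by grind) h2 (by grind) h3.symm

theorem fullD {j : ℕ} {s t : Finset (Fin n)} (h : Full (β j) s) (ht : t.card = l)
    (hd : ∀ v ∈ t, v ∉ s) : Full (β (j + 5)) t := by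
  obtain ⟨r, hr, hv⟩ := avoid (s ∪ t) 3 (by
    have := card_union_le s t
    have := h.1
    omega)
  obtain ⟨x, y, ε, h1, h2, h3, rfl⟩ := card_eq_three.1 hr
  simp only [mem_union, mem_insert, mem_singleton] at hv
  exact full hβ hl hn (rule hβ (h.2 x y (by grind) (by grind) h1) ht (ε := ε) (by grind) (by grind))

theorem fullAll {j : ℕ} {s : Finset (Fin n)} (h : Full (β j) s) (i : ℕ) :
    ∀ u : Finset (Fin n), u.card = l → (u \ s).card ≤ i → Full (β (j + 10 * i)) u := by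
  induction i with
  | zero =>
    intro u hu h0
    rwa [eq_of_subset_of_card_le (sdiff_eq_empty_iff_subset.1 (card_eq_zero.1 (by omega)))
      (h.1.trans hu.symm).le]
  | succ i ih =>
    intro u hu h0
    obtain ⟨w, w1, w2, w3⟩ : ∃ w : Finset (Fin n), w.card = l ∧ (w \ s).card ≤ i ∧
        (u ∪ w).card ≤ l + 1 := by
      by_cases k : (u \ s).card ≤ i
      · exact ⟨u, hu, k, by simp [hu]⟩
      · obtain ⟨y, hy⟩ := card_pos.1 (show 0 < (u \ s).card by omega)
        obtain ⟨x, hx⟩ := card_pos.1 (show 0 < (s \ u).card by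
          rw [card_sdiff_comm (h.1.trans hu.symm)]; omega)
        rw [mem_sdiff] at hx
        refine ⟨insert x (u.erase y), ?_, ?_, ?_⟩
        · rw [card_insert_of_notMem (by simp [hx.2]), card_erase_of_mem (mem_sdiff.1 hy).1]
          omega
        · have := card_le_card (show insert x (u.erase y) \ s ⊆ (u \ s).erase y by grind)
          rw [card_erase_of_mem hy] at this
          omega
        · have := card_le_card (show u ∪ insert x (u.erase y) ⊆ insert x u by grind)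
          have := card_insert_le x u
          omega
    obtain ⟨t, ht, hv⟩ := avoid (u ∪ w) l (by omega)
    exact fullD hβ hl hn (fullD hβ hl hn (ih w w1 w2) ht (by grind)) hu (by grind)

omit hl hn in
theorem kn_small (h : ∀ s x y, ¬ St (β 1) s x y) : Small (kneser n (l + 1)) (β 0) := by
  intro a b c ha hb
  by_contra hne
  obtain ⟨y, hy, hya⟩ : ∃ y ∈ (β 0 a b).1, y ∉ a.1 := not_subset.1 fun k =>
    hne (Subtype.ext (eq_of_subset_of_card_le k (by rw [a.2, (β 0 a b).2])))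
  obtain ⟨ε, t, hε, e, ht⟩ := card_eq_succ.1 c.2
  refine h t y ε (entry hβ hy hya ((kn_cl (hβ.cl 0 a b) ha.symm hb.symm y hy).resolve_left hya)
    ht hε fun v hv => ?_)
  rw [← not_or, ← mem_insert, e]
  exact hv.elim (kadj.1 ha v) (kadj.1 hb v)

omit hβ in
theorem kneser_not_mult' : ¬ Multiplicative (kneser n (l + 1)) := by
  have : NeZero n := ⟨by omega⟩
  have three : ∀ A : Finset (Fin n), A.card + 3 ≤ n → ∃ x y z, x ≠ y ∧ x ≠ z ∧ y ≠ z ∧ x ∉ A ∧
      y ∉ A ∧ z ∉ A := fun A h => by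
    obtain ⟨r, hr, hv⟩ := avoid A 3 h
    obtain ⟨x, y, ε, h1, h2, h3, rfl⟩ := card_eq_three.1 hr
    exact ⟨x, y, ε, h1, h2, h3, hv _ (by simp), hv _ (by simp), hv _ (by simp)⟩
  obtain ⟨t, ht, -⟩ := avoid (∅ : Finset (Fin n)) l (by simp; omega)
  obtain ⟨t', ht', tt⟩ := avoid t l (by omega)
  obtain ⟨δ, δ', ε, k1, k2, k3, k4, k5, k6⟩ := three (t ∪ t') (by
    have := card_union_le t t'; omega)
  simp only [mem_union, not_or] at k4 k5 k6
  refine engine (kneser_core (by omega) (by omega)) (5 + 10 * l)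
    (fun β hβ hI => kn_small hβ fun s x y h => ?_)
    (fun β hβ hS => kn_small hβ fun s x y h => ?_)
    (a0 := ins t δ ht k4.1) (b0 := ins t ε ht k6.1) (c0 := ins t' δ' ht' k5.2)
    (fun e => ?_) (adj_ins k1 k4.2 k5.1 tt) (adj_ins k3.symm k6.2 k5.1 tt)
  · have F := fullAll hβ hl hn (full hβ hl hn h) l
    have e1 := ((F t ht (ht ▸ card_le_card sdiff_subset)).2 δ ε k4.1 k6.1 k2).2.2.2.2
      (ins t δ ht k4.1) (ins t ε ht k6.1) rfl rfl
    have e2 := ((F t' ht' (ht' ▸ card_le_card sdiff_subset)).2 δ' ε k5.2 k6.2 k3).2.2.2.2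
      (ins t' δ' ht' k5.2) (ins t' ε ht' k6.2) rfl rfl
    have := hI (1 + 4 + 10 * l) (by omega) (ins t δ ht k4.1) (ins t ε ht k6.1)
      (ins t' δ' ht' k5.2) (ins t' ε ht' k6.2) (adj_ins k1 k4.2 k5.1 tt)
      (adj_ins k3.symm k6.2 k5.1 tt) (adj_ins k2 k4.2 k6.1 tt)
    rw [e1, e2] at this
    exact kadj.1 this ε (mem_insert_self _ _) (mem_insert_self _ _)
  · obtain ⟨h1, h2, h3, h4, h5⟩ := h
    have c2 := card_le_two (a := x) (b := y)
    have c3 := card_union_le s {x, y}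
    obtain ⟨u, hu, hv⟩ := avoid (s ∪ {x, y}) l (by omega)
    obtain ⟨r, hr, hw⟩ := avoid (s ∪ {x, y} ∪ u) 2 (by
      have := card_union_le (s ∪ {x, y}) u; omega)
    obtain ⟨d1, d2, h12, rfl⟩ := card_eq_two.1 hr
    have w1 := hw d1 (by simp)
    have w2 := hw d2 (by simp)
    simp only [mem_union, mem_insert, mem_singleton, not_or] at hv w1 w2
    have us : ∀ v ∈ u, v ∉ s := fun v k => (hv v k).1
    have xu : x ∉ u := fun k => (hv x k).2.1 rfl
    have yu : y ∉ u := fun k => (hv y k).2.2 rfl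
    have a1 : (kneser n (l + 1)).Adj (ins s x h1 h2) (ins u y hu yu) := adj_ins h4 xu h3 us
    have a2 : (kneser n (l + 1)).Adj (ins s x h1 h2) (ins u d1 hu w1.2) :=
      adj_ins (Ne.symm w1.1.2.1) xu w1.1.1 us
    have a3 : (kneser n (l + 1)).Adj (ins s x h1 h2) (ins u d2 hu w2.2) :=
      adj_ins (Ne.symm w2.1.2.1) xu w2.1.1 us
    obtain ⟨m, hm, c1, c2⟩ := hS 1 (by omega) _ (ins s y h1 h3) _ _ _ a1 a2 a3
      (adj_ins (Ne.symm w1.1.2.2) yu w1.1.1 us) (adj_ins (Ne.symm w2.1.2.2) yu w2.1.1 us)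
    rw [h5 _ _ rfl rfl] at hm
    have m0 := kadj.1 hm y (mem_insert_self _ _)
    have m1 := kn_cl c1 a1 a2
    have m2 := kn_cl c2 a1 a3
    have := card_le_card (show m.1 ⊆ u by
      intro v hv
      have n1 := m1 v hv
      have n2 := m2 v hv
      have n3 : v ≠ y := fun k => m0 (k ▸ hv)
      simp only [ins, mem_insert, n3, false_or] at n1 n2
      by_contra k
      simp only [k, false_or, or_false] at n1 n2
      exact h12 (n1.symm.trans n2))
    have := m.2
    omega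
  · have : δ ∈ (ins t ε ht k6.1).1 := e ▸ mem_insert_self _ _
    exact (mem_insert.1 this).elim k2 k4.1

omit hβ hl hn in
/-- The Kneser graphs `K(n,k)` with `k ≥ 2`, `n ≥ 2k+2` are not multiplicative. -/
theorem kneser_not_mult (n k : ℕ) (hk : 2 ≤ k) (hn : 2 * k + 2 ≤ n) :
    ¬ Multiplicative (kneser n k) := by
  obtain ⟨l, rfl⟩ := Nat.exists_eq_succ_of_ne_zero (show k ≠ 0 by omega)
  exact kneser_not_mult' (by omega) (by omega)

end Pool.Agent.Lib.NMX
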