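import Pool.Agent.Lib.NMX.LBMedian
import Pool.Agent.Lib.NMX.CoindCirc

set_option autoImplicit false

namespace Pool.Agent.Lib.NMX.LB

open Classical

variable {V : Type} {M : SimpleGraph V}

/-- walks of given length and voltage -/
def VW (M : SimpleGraph V) : ℕ → V → V → FG M → Prop
  | 0, u, v, γ => u = v ∧ γ = 1
  | n + 1, u, v, γ => ∃ x, M.Adj u x ∧ VW M n x v ((vo M u x)⁻¹ * γ)

theorem VW.add {n : ℕ} {v w : V} {γ' : FG M} (h' : VW M n v w γ') :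
    ∀ {m : ℕ} {u : V} {γ : FG M}, VW M m u v γ → VW M (n + m) u w (γ * γ')
  | 0, _, _, ⟨h1, h2⟩ => by rwa [h1, h2, one_mul]
  | _ + 1, _, _, ⟨x, h1, h2⟩ => ⟨x, h1, mul_assoc _ _ γ' ▸ h'.add h2⟩

theorem VW_one {u v : V} (h : M.Adj u v) : VW M 1 u v (vo M u v) := ⟨v, h, rfl, inv_mul_cancel _⟩

theorem VW.symm : ∀ {n : ℕ} {u v : V} {γ : FG M}, VW M n u v γ → VW M n v u γ⁻¹
  | 0, _, _, _, ⟨h1, h2⟩ => ⟨h1.symm, inv_eq_one.2 h2⟩
  | n + 1, u, _, _, ⟨x, h1, h2⟩ => by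
    have := (VW_one h1.symm).add h2.symm
    rwa [← vo_inv u x, mul_inv_rev, inv_inv, mul_inv_cancel_right, Nat.add_comm] at this

theorem VW.ty : ∀ {n : ℕ} {u v : V} {γ : FG M}, VW M n u v γ → Ty (Sp M) (.inl u) γ (.inl v)
  | 0, _, _, _, ⟨h1, h2⟩ => by rw [h1, h2]; rfl
  | _ + 1, _, _, _, ⟨_, h1, h2⟩ => by simpa using (Ty_vo h1).trans h2.ty

theorem VW.walk : ∀ {n : ℕ} {u v : V} {γ : FG M}, VW M n u v γ → ∃ W : M.Walk u v, W.length = n
  | 0, _, _, _, ⟨h1, _⟩ => h1 ▸ ⟨.nil, rfl⟩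
  | _ + 1, _, _, _, ⟨_, h1, h2⟩ => h2.walk.elim fun W h => ⟨.cons h1 W, congrArg _ h⟩

theorem VW.cut {u1 v : V} (n : ℕ) : ∀ {u : V} {w γ : FG M}, Ty (Sp M) (.inl u1) w (.inl u) →
    VW M n u v γ → hd (w * γ) ≠ hd w →
      ∃ n1 n2, n = n1 + n2 ∧ VW M n1 u u1 w⁻¹ ∧ VW M n2 u1 v (w * γ) := by
  induction n with
  | zero => exact fun _ h k => absurd (by rw [h.2, mul_one]) k
  | succ n ih =>
    intro u w γ h1 h2 h3
    by_cases e : w = 1
    · subst e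
      cases h1
      exact ⟨0, n + 1, (Nat.zero_add _).symm, ⟨rfl, inv_one⟩, by rwa [one_mul]⟩
    obtain ⟨x, h4, h5⟩ := h2
    have h6 := h1.trans (Ty_vo h4)
    by_cases e' : w * vo M u x = 1
    · rw [e'] at h6
      cases h6
      rw [eq_inv_of_mul_eq_one_left e', inv_inv]
      exact ⟨1, n, Nat.add_comm _ _, VW_one h4, h5⟩
    · obtain ⟨n1, n2, a1, a2, a3⟩ := ih h6 h5 (by
        rwa [mul_assoc, mul_inv_cancel_left, show hd (w * vo M u x) = hd w from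
          stepV h1 (sp_l h4) x e e'])
      exact ⟨n1 + 1, n2, by omega, ⟨x, h4, by rwa [← mul_inv_rev]⟩, by simpa [mul_assoc] using a3⟩

theorem headV {u : V} {z : FG M} {b : V ⊕ Quot (Sq M)} (h : Ty (Sp M) (.inl u) z b) (hz : z ≠ 1) :
    ∃ c, Sp M u c ∧ hd z = some ((u, c), true) ∧
      Ty (Sp M) (.inr c) ((lt ((u, c), true))⁻¹ * z) b := by
  obtain ⟨⟨⟨x, c⟩, b⟩, hl⟩ := Option.ne_none_iff_exists'.1 (mt hd_none.1 hz)
  obtain ⟨h1, h2, h3⟩ := (Ty_hd hl).1 h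
  cases b <;> cases h2
  exact ⟨c, h1, hl, h3⟩

theorem conj_ne {Γ : Type} [Group Γ] {z : Γ} (hz : z ≠ 1) (g : Γ) : g⁻¹ * z * g ≠ 1 :=
  fun e => hz (by rw [mul_eq_one_comm, mul_inv_cancel_left] at e; exact e)

theorem exists_axis (N : ℕ) : ∀ {u : V} {z : FG M} {n : ℕ}, VW M n u u z → z ≠ 1 → nm z = N →
    ∃ g v m, VW M m u v g ∧ hd (g⁻¹ * z * g) ≠ hd (g⁻¹ * z * g)⁻¹ := by
  induction N using Nat.strong_induction_on with
  | _ N ih =>
    intro u z n h hz hN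
    by_cases k : hd z = hd z⁻¹
    swap
    · exact ⟨1, u, 0, ⟨rfl, rfl⟩, by simpa using k⟩
    obtain ⟨c, h1, hl, h3⟩ := headV h.ty hz
    obtain ⟨a1, a2⟩ := gate_spec h3
    set v := gate ((lt ((u, c), true))⁻¹ * z) u
    set l1 : (V × Quot (Sq M)) × Bool := ((u, c), true)
    set l2 : (V × Quot (Sq M)) × Bool := ((v, c), false)
    have t1 : (lt l1)⁻¹ * z ≠ 1 := fun e => by simp [e] at a1
    have a3 : hd (vt u c v)⁻¹ = some (iv l2) := by
      rw [vt, mul_inv_rev, ← lt_iv, ← lt_iv]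
      refine hd_cons ?_
      rw [hd_lt, iv_iv, ← a1]
      exact (hd_tail hl).symm
    obtain ⟨n1, -, -, a4, -⟩ := VW.cut n (Ty_vt h1 a2).inv h (by
      rw [a3, vt, mul_inv_rev, mul_assoc]
      exact hd_tail a1)
    rw [inv_inv] at a4
    have a5 : hd ((lt l1)⁻¹ * z)⁻¹ = some l1 := by
      rw [mul_inv_rev, inv_inv, hd_mul_lt _ _ (inv_ne_one.2 hz), ← k, hl]
      rwa [← inv_ne_one, mul_inv_rev, inv_inv]
    have a6 : hd ((lt l1)⁻¹ * z * lt l1) = some l2 := by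
      rw [hd_mul_lt _ _ t1 (conj_ne hz _), a1]
    have b1 := nm_tail hl
    have b2 := nm_tail a5
    have b3 := nm_tail a6
    have b4 := nm_lt_mul l2 ((lt l2)⁻¹ * ((lt l1)⁻¹ * z * lt l1))⁻¹
    rw [nm_inv, ← mul_inv_rev, nm_inv] at b2 b4
    obtain ⟨g, v', m, c1, c2⟩ := ih (nm ((vt u c v)⁻¹ * (z * vt u c v))) (by
      rw [show (vt u c v)⁻¹ * (z * vt u c v) = (lt l2)⁻¹ * ((lt l1)⁻¹ * z * lt l1) * lt l2 by
        rw [show vt u c v = lt l1 * lt l2 from rfl]; group]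
      omega) ((a4.add h).add a4.symm) (mul_assoc _ z _ ▸ conj_ne hz _) rfl
    refine ⟨vt u c v * g, v', _, c1.add a4, ?_⟩
    rwa [show (vt u c v * g)⁻¹ * z * (vt u c v * g) =
      g⁻¹ * ((vt u c v)⁻¹ * (z * vt u c v)) * g by group]

theorem VW.pow_le {u : V} {z : FG M} {l : ℕ} (hz : hd z ≠ hd z⁻¹) (hl : ∀ n, VW M n u u z → l ≤ n)
    (ht : Ty (Sp M) (.inl u) z (.inl u)) (j : ℕ) : ∀ n, VW M n u u (z ^ j) → j * l ≤ n := by
  have z1 : z ≠ 1 := fun e => hz (by rw [e, inv_one])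
  have key : ∀ j : ℕ, hd (z ^ j) ≠ hd z⁻¹ := fun j => by
    induction j with
    | zero => exact fun e => z1 (inv_eq_one.1 (hd_none.1 e.symm))
    | succ j ih =>
      have := hd_inv_mul z⁻¹ _ (inv_ne_one.2 z1) ih
      rw [inv_inv, ← pow_succ'] at this
      rwa [this]
  induction j with
  | zero => simp
  | succ j ih =>
    intro n h
    obtain ⟨n1, n2, rfl, h1, h2⟩ := VW.cut n ht.inv h (by
      rw [pow_succ', inv_mul_cancel_left]; exact key j)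
    rw [pow_succ', inv_mul_cancel_left] at h2
    rw [inv_inv] at h1
    have := hl _ h1
    have := ih _ h2
    rw [Nat.succ_mul]
    omega

theorem exists_seq {A : Type} {G : SimpleGraph A} {a : A} (W : G.Walk a a) (h : 0 < W.length) :
    ∃ y : ℕ → A, y 0 = a ∧ (∀ t, y (t + W.length) = y t) ∧ ∀ t, G.Adj (y t) (y (t + 1)) := by
  refine ⟨fun t => W.getVert (t % W.length), by simp, by simp, fun t => ?_⟩
  have h1 := Nat.mod_lt t h
  have h2 := W.adj_getVert_succ h1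
  simp only []
  by_cases e : t % W.length + 1 = W.length
  · rw [e, W.getVert_length] at h2
    rwa [← Nat.mod_add_mod, e, Nat.mod_self, W.getVert_zero]
  · rwa [← Nat.mod_add_mod, Nat.mod_eq_of_lt (a := t % W.length + 1) (by omega)]

theorem circ_hom {a : V} (W : M.Walk a a) {q : ℕ} (h : W.length = 2 * q + 1) :
    Nonempty (circClique (2 * q + 1) q →g M) := by
  obtain ⟨y, -, h1, h2⟩ := exists_seq W (by omega)
  have key : ∀ r s : ℕ, r + q ≤ s → s + q ≤ r + (2 * q + 1) → M.Adj (y (2 * r)) (y (2 * s)) :=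
    fun r s a b => by
      rcases (by omega : 2 * r + W.length = 2 * s + 1 ∨ 2 * s = 2 * r + 1 + W.length) with e | e
      · rw [← h1, e]
        exact (h2 _).symm
      · rw [e, h1]
        exact h2 _
  refine ⟨⟨fun r => y (2 * r), fun {r s} k => ?_⟩⟩
  rcases Coind.circ_adj k with e | e
  exacts [key _ _ e.1 e.2.1, (key _ _ e.1 e.2.1).symm]

variable {col : Quot (Sq M) → V → Bool} (hc : ∀ k a b, (CB M k).Adj a b → col k a ≠ col k b)
include hc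

theorem VW.sign : ∀ {n : ℕ} {u v : V} {γ : FG M}, VW M n u v γ → sg col γ = Int.negOnePow n
  | 0, _, _, _, ⟨_, h2⟩ => by simp [h2]
  | n + 1, _, _, _, ⟨_, h1, h2⟩ => by
    have := h2.sign
    rw [map_mul, map_inv, sg_vo hc h1, inv_mul_eq_iff_eq_mul] at this
    rw [this, Nat.cast_succ, Int.negOnePow_succ, neg_one_mul]

/-- The quotient of the cover by an odd element maps to an odd cycle of `M`. -/
theorem exists_height {u0 : V} {z : FG M} {n0 : ℕ} (h : VW M n0 u0 u0 z) (hz : sg col z = -1) :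
    ∃ q, 0 < q ∧ Nonempty (circClique (2 * q + 1) q →g M) ∧ ∃ η : FG M → V → Fin (2 * q + 1),
      ∀ γ u γ' u' n n' (e : ℤ), VW M n u0 u γ → VW M n' u0 u' γ' → M.Adj u u' →
        γ * vo M u u' = z ^ e * γ' → (circClique (2 * q + 1) q).Adj (η γ u) (η γ' u') := by
  obtain ⟨g, v, m, h1, h2⟩ := exists_axis _ h (fun e => by simp [e] at hz) rfl
  have h3 := (h1.add h).add h1.symm
  rw [← mul_assoc] at h3
  have h4 : ∀ e : ℤ, g⁻¹ * z ^ e = (g⁻¹ * z * g) ^ e * g⁻¹ := fun e => by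
    have := conj_zpow (i := e) (a := g⁻¹) (b := z)
    rw [inv_inv] at this
    rw [this, mul_inv_cancel_right]
  have h5 : sg col (g⁻¹ * z * g) = -1 := by
    rw [map_mul, map_mul, map_inv, hz, mul_right_comm, inv_mul_cancel, one_mul]
  generalize g⁻¹ * z * g = x at h2 h3 h4 h5
  have ex : ∃ n, VW M n v v x := ⟨_, h3⟩
  have h6 := Nat.find_spec ex
  have h7 := VW.pow_le h2 (fun n k => Nat.find_min' ex k) h3.ty
  generalize Nat.find ex = l at h6 h7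
  obtain ⟨q, rfl⟩ : Odd l := by
    rw [← Int.odd_coe_nat, ← Int.negOnePow_eq_neg_one_iff, ← h6.sign hc, h5]
  have q0 : 0 < q := Nat.pos_of_ne_zero fun e => by
    subst e
    obtain ⟨_, k1, k2, -⟩ := h6
    exact k1.ne' k2
  obtain ⟨W, hW⟩ := h6.walk
  let S : FG M → V → ℤ → Prop := fun γ u t =>
    ∃ (j : ℤ) (n : ℕ), VW M n v u (x ^ (-j) * (g⁻¹ * γ)) ∧ t = n + j * (2 * q + 1 : ℕ)
  have key : ∀ γ u, ∃ t : ℤ, (∃ n, VW M n u0 u γ) → S γ u t ∧ ∀ t', S γ u t' → t ≤ t' := by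
    intro γ u
    by_cases k : ∃ n, VW M n u0 u γ
    swap
    · exact ⟨0, fun t => absurd t k⟩
    obtain ⟨n, k⟩ := k
    have k1 := k.add h1.symm
    refine (Int.exists_least_of_bdd (P := S γ u) ⟨-(n + m : ℕ), ?_⟩
      ⟨_, 0, _, by simpa using k1, rfl⟩).imp fun t ht _ => ht
    rintro _ ⟨j, n', k2, rfl⟩
    obtain ⟨i, rfl | rfl⟩ := Int.eq_nat_or_neg j
    · have : (0 : ℤ) ≤ i * (2 * q + 1 : ℕ) := by positivity
      omega
    · have := k1.symm.add k2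
      rw [mul_inv_cancel_right, neg_neg, zpow_natCast] at this
      have : ((i * (2 * q + 1) : ℕ) : ℤ) ≤ (n + m + n' : ℕ) := Int.ofNat_le.2 (h7 _ _ this)
      push_cast at this ⊢
      linarith
  choose t ht using key
  have step : ∀ γ u γ' u' (e : ℤ), M.Adj u u' → γ * vo M u u' = z ^ e * γ' → ∀ j n,
      VW M n v u (x ^ (-j) * (g⁻¹ * γ)) → VW M (1 + n) v u' (x ^ (-(j - e)) * (g⁻¹ * γ')) :=
    fun γ u γ' u' e a b j n k => by
      have := (VW_one a).add k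
      rwa [mul_assoc, mul_assoc, b, ← mul_assoc g⁻¹, h4, mul_assoc, ← mul_assoc, ← zpow_add,
        show -j + e = -(j - e) by ring] at this
  have hp : (0 : ℤ) < (2 * q + 1 : ℕ) := by positivity
  refine ⟨q, q0, circ_hom W hW, fun γ u => ⟨(q * t γ u % (2 * q + 1 : ℕ)).toNat, by
    have := Int.emod_lt_of_pos (q * t γ u) hp
    omega⟩, fun γ u γ' u' n n' e k k' a b => ?_⟩
  obtain ⟨⟨j, i, c1, c2⟩, c3⟩ := ht γ u ⟨n, k⟩
  obtain ⟨⟨j', i', d1, d2⟩, d3⟩ := ht γ' u' ⟨n', k'⟩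
  have e1 := step _ _ _ _ e a b j i c1
  have e2 := d3 _ ⟨_, _, e1, rfl⟩
  have e3 := c3 _ ⟨_, _, step _ _ _ _ (-e) a.symm (by
    rw [← vo_inv, zpow_neg, eq_inv_mul_iff_mul_eq, ← mul_assoc, ← b, mul_inv_cancel_right])
    j' i' d1, rfl⟩
  have e4 : Even ((1 + i : ℕ) - (-(j - e) + j' + i' : ℤ)) := by
    rw [← Int.negOnePow_eq_iff, ← e1.sign hc, Int.negOnePow_add, ← d1.sign hc, Int.negOnePow_def,
      ← h5, ← map_zpow, ← map_mul, ← mul_assoc _ (x ^ (-j')), ← zpow_add, add_neg_cancel_right]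
  obtain ⟨s, hs⟩ := e4
  have e5 : t γ' u' - t γ u + e * (2 * q + 1) = 1 ∨ t γ' u' - t γ u + e * (2 * q + 1) = -1 := by
    have : t γ' u' - t γ u + e * (2 * q + 1) = 2 * (q * (j' - j + e) + (j' - j + e) + s) - 1 + 2 -
        4 * s - 2 * (j' - j + e) := by
      rw [c2, d2]; push_cast at hs ⊢; linear_combination (-1) * hs
    push_cast at e2 e3 c2 d2
    have b1 : t γ' u' - t γ u + e * (2 * q + 1) ≤ 1 := by rw [c2]; linarith
    have b2 : -1 ≤ t γ' u' - t γ u + e * (2 * q + 1) := by rw [d2]; linarith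
    omega
  have nn : ∀ y : ℤ, (((y % (2 * q + 1 : ℕ)).toNat : ℕ) : ℤ) = y % (2 * q + 1 : ℕ) :=
    fun y => Int.toNat_of_nonneg (Int.emod_nonneg _ hp.ne')
  rcases e5 with e5 | e5
  · refine Coind.emod_adj (k := -(q * e)) q0 ?_ ?_ (nn _) (nn _) <;> push_cast <;> nlinarith
  · refine Coind.emod_adj (k := -(q * e) - 1) q0 ?_ ?_ (nn _) (nn _) <;> push_cast <;> nlinarith

end Pool.Agent.Lib.NMX.LB
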