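import Pool.Agent.Lib.NMX.LBHelly

set_option autoImplicit false

namespace Pool.Agent.Lib.NMX.LB

open Finset Classical SimpleGraph

variable {V : Type} {M : SimpleGraph V}

/-- small subgraphs have density less than `9 / 7` -/
def Sparse (M : SimpleGraph V) : Prop :=
  ∀ (W : Finset V) (E : Finset (Sym2 V)), #W ≤ 10 → W.Nonempty →
    (∀ e ∈ E, e ∈ M.edgeSet ∧ ∀ v ∈ e, v ∈ W) → 7 * #E < 9 * #W

/-- a four-cycle -/
def Quad (M : SimpleGraph V) (a b c d : V) : Prop :=
  M.Adj a b ∧ M.Adj b c ∧ M.Adj c d ∧ M.Adj d a ∧ a ≠ c ∧ b ≠ d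

/-- consecutive edges of a four-cycle -/
def Sq (M : SimpleGraph V) (e e' : Sym2 V) : Prop :=
  ∃ a b c d, Quad M a b c d ∧ e = s(a, b) ∧ e' = s(b, c)

/-- the class of an edge -/
def cls (M : SimpleGraph V) (u v : V) : Quot (Sq M) := Quot.mk _ s(u, v)

theorem cls_symm (u v : V) : cls M u v = cls M v u := congrArg _ Sym2.eq_swap

theorem Quad.cls {a b c d : V} (h : Quad M a b c d) : cls M a b = cls M b c :=
  Quot.sound ⟨a, b, c, d, h, rfl, rfl⟩

theorem Quad.rot {a b c d : V} (h : Quad M a b c d) : Quad M b c d a :=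
  ⟨h.2.1, h.2.2.1, h.2.2.2.1, h.1, h.2.2.2.2.2, h.2.2.2.2.1.symm⟩

theorem Quad.rev {a b c d : V} (h : Quad M a b c d) : Quad M c b a d :=
  ⟨h.2.1.symm, h.1.symm, h.2.2.2.1.symm, h.2.2.1.symm, h.2.2.2.2.1.symm, h.2.2.2.2.2⟩

/-- the edges of one class -/
def CB (M : SimpleGraph V) (k : Quot (Sq M)) : SimpleGraph V where
  Adj u v := M.Adj u v ∧ cls M u v = k
  symm := ⟨fun u v h => ⟨h.1.symm, cls_symm u v ▸ h.2⟩⟩
  loopless := ⟨fun _ h => h.1.ne rfl⟩

theorem CB_le (k : Quot (Sq M)) : CB M k ≤ M := fun _ _ t => t.1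

/-- a part of a class that has been built -/
def Part (M : SimpleGraph V) (k : Quot (Sq M)) (W : Finset V) (E : Finset (Sym2 V)) : Prop :=
  (∀ e ∈ E, e ∈ (CB M k).edgeSet ∧ ∀ v ∈ e, v ∈ W) ∧ Nice (fromEdgeSet (E : Set (Sym2 V))) ∧
    E.Nonempty

def Clo (M : SimpleGraph V) (E : Finset (Sym2 V)) : Prop :=
  ∀ a b c d, Quad M a b c d → s(a, b) ∈ E → s(b, c) ∈ E

def Three (E : Finset (Sym2 V)) : Prop :=
  ∀ x y z w, s(x, y) ∈ E → s(y, z) ∈ E → s(z, w) ∈ E → s(x, w) ∈ E

theorem Part.nice {k : Quot (Sq M)} {W : Finset V} {E : Finset (Sym2 V)} (h : Part M k W E)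
    (hc : Clo M E) : Nice (CB M k) := by
  obtain ⟨h1, h2, e0, h3⟩ := h
  have key : ∀ e e', Relation.EqvGen (Sq M) e e' → (e ∈ E ↔ e' ∈ E) := fun e e' k => by
    induction k with
    | rel _ _ k =>
      obtain ⟨a, b, c, d, k, rfl, rfl⟩ := k
      exact ⟨hc _ _ _ _ k, fun t => Sym2.eq_swap ▸ hc _ _ _ _ k.rev (Sym2.eq_swap ▸ t)⟩
    | refl => rfl
    | symm _ _ _ ih => exact ih.symm
    | trans _ _ _ _ _ i1 i2 => exact i1.trans i2
  rwa [show CB M k = fromEdgeSet (E : Set (Sym2 V)) from ?_]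
  ext u v
  rw [fromEdgeSet_adj]
  refine ⟨fun t => ⟨?_, t.ne⟩, fun t => (h1 _ t.1).1⟩
  induction e0 using Sym2.ind with
  | _ x y => exact (key _ _ (Quot.eqvGen_exact (t.2.trans (h1 _ h3).1.2.symm))).2 h3

theorem Part.step (hM : Sparse M) {k : Quot (Sq M)} {W : Finset V} {E : Finset (Sym2 V)}
    (h : Part M k W E) (hW : #W ≤ 8) {j : ℕ} (hj : 9 * #W ≤ 7 * #E + j) (hj' : j ≤ 11)
    (h3 : j ≤ 5 ∨ Three E) {a b c d : V} (q : Quad M a b c d) (hab : s(a, b) ∈ E)
    (hbc : s(b, c) ∉ E) :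
    Part M k (insert c (insert d W)) (insert s(b, c) (insert s(c, d) (insert s(d, a) E))) ∧
      9 * #(insert c (insert d W)) + 3 ≤
        7 * #(insert s(b, c) (insert s(c, d) (insert s(d, a) E))) + j := by
  obtain ⟨h1, h2, h0⟩ := h
  obtain ⟨q1, q2, q3, q4, q5, q6⟩ := id q
  have k1 : cls M a b = k := (h1 _ hab).1.2
  have k2 : cls M b c = k := q.cls ▸ k1
  have k3 : cls M c d = k := q.rot.cls ▸ k2
  have k4 : cls M d a = k := q.rot.rot.cls ▸ k3
  have ha : a ∈ W := (h1 _ hab).2 a (by simp)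
  have hb : b ∈ W := (h1 _ hab).2 b (by simp)
  have hE : ∀ e ∈ insert s(b, c) (insert s(c, d) (insert s(d, a) E)),
      e ∈ (CB M k).edgeSet ∧ ∀ v ∈ e, v ∈ insert c (insert d W) := fun e he => by
    simp only [mem_insert] at he
    rcases he with rfl | rfl | rfl | he
    · exact ⟨⟨q2, k2⟩, by simp [hb]⟩
    · exact ⟨⟨q3, k3⟩, by simp⟩
    · exact ⟨⟨q4, k4⟩, by simp [ha]⟩
    · exact ⟨(h1 e he).1, fun v hv => by simp [(h1 e he).2 v hv]⟩
  have w1 := card_insert_le c (insert d W)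
  have w2 := card_insert_le d W
  have sp := hM _ _ (by omega) (insert_nonempty _ _) fun e he =>
    ⟨edgeSet_mono (CB_le k) (hE e he).1, (hE e he).2⟩
  have n1 : s(b, c) ∉ insert s(c, d) (insert s(d, a) E) := by
    simp [hbc, q6, q2.ne, q1.ne', q5.symm]
  have n2 : s(c, d) ∉ E → s(c, d) ∉ insert s(d, a) E := fun t => by simp [t, q3.ne, q5.symm]
  have hcd : s(c, d) ∈ E → c ∈ W ∧ d ∈ W := fun t =>
    ⟨(h1 _ t).2 c (by simp), (h1 _ t).2 d (by simp)⟩
  have hda : s(d, a) ∈ E → d ∈ W := fun t => (h1 _ t).2 d (by simp)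
  rw [card_insert_of_notMem n1] at sp ⊢
  have e1 := card_le_card (subset_insert s(c, d) (insert s(d, a) E))
  have e2 := card_le_card (subset_insert s(d, a) E)
  have hc : c ∉ W := fun hc => by
    rw [insert_eq_of_mem (mem_insert_of_mem hc)] at sp
    by_cases t : s(c, d) ∈ E
    · rw [insert_eq_of_mem (hcd t).2] at sp
      by_cases t' : s(d, a) ∈ E
      · exact hbc ((h3.resolve_left (by omega)) b a d c (Sym2.eq_swap ▸ hab) (Sym2.eq_swap ▸ t')
          (Sym2.eq_swap ▸ t))
      · have := card_insert_of_notMem t'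
        omega
    · rw [card_insert_of_notMem (n2 t)] at sp
      by_cases t' : d ∈ W
      · rw [insert_eq_of_mem t'] at sp
        omega
      · have := card_insert_of_notMem (mt hda t')
        omega
  rw [card_insert_of_notMem (n2 fun t => hc (hcd t).1)] at sp ⊢
  have two : Nice (fromEdgeSet ((insert s(d, a) E : Finset _) : Set (Sym2 V))) →
      (∀ t, s(d, t) ∈ insert s(d, a) E → s(b, t) ∈ insert s(d, a) E) →
      Part M k (insert c (insert d W)) (insert s(b, c) (insert s(c, d) (insert s(d, a) E))) :=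
    fun g1 g2 => ⟨hE, ?_, insert_nonempty _ _⟩
  · by_cases t : d ∈ W
    · rw [insert_eq_of_mem t] at sp w1
      have t' : s(d, a) ∈ E := by
        by_contra t'
        have := card_insert_of_notMem t'
        omega
      rw [insert_eq_of_mem t'] at sp
      refine ⟨two (by rwa [insert_eq_of_mem t']) fun x => ?_, ?_⟩
      · rw [insert_eq_of_mem t']
        exact (h3.resolve_left (by omega)) b a d x (Sym2.eq_swap ▸ hab) (Sym2.eq_swap ▸ t')
      · rw [insert_eq_of_mem t, insert_eq_of_mem t']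
        omega
    · have nd : ∀ x, s(d, x) ∉ E := fun x g => t ((h1 _ g).2 d (by simp))
      have only : ∀ x, s(d, x) ∈ insert s(d, a) E → x = a := fun x g =>
        Sym2.congr_right.1 ((mem_insert.1 g).resolve_right (nd x))
      refine ⟨two (h2.add d a b (fromEdgeSet_mono (by simp)) (fun u v g g1 g2 => ?_)
        (fun x g => ?_) (by simp [q4.ne]) fun x y g g' => ?_) fun x g => ?_, ?_⟩
      · simp only [fromEdgeSet_adj, mem_coe, mem_insert, Sym2.eq_iff] at g ⊢
        tauto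
      · rw [only x g.1]
        exact (fromEdgeSet_adj _).2 ⟨mem_coe.2 (Sym2.eq_swap ▸ hab), q1.ne'⟩
      · rwa [← only x g.1]
      · rw [only x g]
        exact mem_insert_of_mem (Sym2.eq_swap ▸ hab)
      · rw [card_insert_of_notMem (nd a)]
        omega
  · have only : ∀ x, s(c, x) ∈ insert s(b, c) (insert s(c, d) (insert s(d, a) E)) →
        x = b ∨ x = d := fun x g => by
      have : s(c, x) ∉ E := fun g => hc ((h1 _ g).2 c (by simp))
      simp only [mem_insert, Sym2.eq_iff, this, q2.ne', q3.ne, q5.symm] at g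
      tauto
    refine g1.add c b a (fromEdgeSet_mono ?_) (fun u v g g1 g2 => ?_) (fun x g => ?_)
      ⟨by simp, q2.ne'⟩ fun x y g g' => ?_
    · exact coe_subset.2 ((subset_insert _ _).trans (subset_insert _ _))
    · simp only [fromEdgeSet_adj, mem_coe, mem_insert, Sym2.eq_iff] at g ⊢
      tauto
    · rcases only x g.1 with rfl | rfl
      · exact ⟨by simp [hab], q1.ne⟩
      · exact ⟨by simp, q4.ne'⟩
    · rcases only x g.1 with rfl | rfl
      · exact g'
      · refine ⟨g2 y g'.1, fun t => ?_⟩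
        have := g2 y g'.1
        rw [← t] at this
        exact (hE _ (mem_insert_of_mem (mem_insert_of_mem this))).1.1.ne rfl

theorem Part.three {k : Quot (Sq M)} {W : Finset V} {E : Finset (Sym2 V)} (h : Part M k W E)
    (hW : #W ≤ 2) {a b c d : V} (q : Quad M a b c d) (k1 : s(a, b) ∈ E) :
    Three (insert s(b, c) (insert s(c, d) (insert s(d, a) E))) := by
  obtain ⟨q1, q2, q3, q4, q5, q6⟩ := q
  have hW : W = {a, b} := (eq_of_subset_of_card_le (fun x hx => by
    simp only [mem_insert, mem_singleton] at hx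
    exact (h.1 _ k1).2 x (by simpa using hx)) (by rw [card_pair q1.ne]; omega)).symm
  have key : ∀ x y, s(x, y) ∈ insert s(b, c) (insert s(c, d) (insert s(d, a) E)) ↔
      ((x = a ∨ x = c) ∧ (y = b ∨ y = d)) ∨ ((x = b ∨ x = d) ∧ (y = a ∨ y = c)) := fun x y => by
    have : s(x, y) ∈ E ↔ s(x, y) = s(a, b) := ⟨fun g => by
      have g1 := (h.1 _ g).2 x (by simp)
      have g2 := (h.1 _ g).2 y (by simp)
      have g3 : x ≠ y := (h.1 _ g).1.1.ne
      simp only [hW, mem_insert, mem_singleton] at g1 g2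
      rw [Sym2.eq_iff]
      grind, fun g => g ▸ k1⟩
    simp only [mem_insert, this, Sym2.eq_iff]
    grind
  have dis : ∀ x, (x = a ∨ x = c) → (x = b ∨ x = d) → False := by
    rintro x (rfl | rfl) (g | g)
    exacts [q1.ne g, q4.ne' g, q2.ne' g, q3.ne g]
  intro x y z w
  have := dis y
  have := dis z
  simp only [key]
  grind

theorem Part.fin (hM : Sparse M) {k : Quot (Sq M)} (i : ℕ) : ∀ {W : Finset V}
    {E : Finset (Sym2 V)}, Part M k W E → #W + 2 * i ≤ 10 → 9 * #W + 1 ≤ 7 * #E + 3 * i →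
      i ≤ 2 ∨ Three E → i ≤ 4 → Nice (CB M k) := by
  induction i with
  | zero =>
    intro W E h h1 h2 _ _
    obtain ⟨e, he⟩ := h.2.2
    have := hM W E (by omega) ⟨_, (h.1 e he).2 _ (Sym2.out_fst_mem e)⟩ fun e he =>
      ⟨edgeSet_mono (CB_le k) (h.1 e he).1, (h.1 e he).2⟩
    omega
  | succ i ih =>
    intro W E h h1 h2 h3 h4
    by_cases hc : Clo M E
    · exact h.nice hc
    simp only [Clo, not_forall] at hc
    obtain ⟨a, b, c, d, q, k1, k2⟩ := hc
    obtain ⟨g1, g2⟩ := h.step hM (by omega) (j := 3 * i + 2) (by omega) (by omega)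
      (h3.imp_left (by omega)) q k1 k2
    have w1 := card_insert_le c (insert d W)
    have w2 := card_insert_le d W
    refine ih g1 (by omega) (by omega) ?_ (by omega)
    rcases Nat.lt_or_ge i 3 with t | t
    · exact Or.inl (by omega)
    · exact Or.inr (h.three (by omega) q k1)

theorem Sparse.nice (hM : Sparse M) (k : Quot (Sq M)) : Nice (CB M k) := by
  by_cases h : ∃ u v, (CB M k).Adj u v
  · obtain ⟨u, v, h⟩ := h
    refine Part.fin hM 4 (W := {u, v}) (E := {s(u, v)}) ⟨by simpa using h,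
      ⟨helly_of_det fun x y y' a b => ?_, fun x => x = u, fun x y a => ?_⟩, by simp⟩
      (by simp [card_pair h.ne]) (by simp [card_pair h.ne]) (Or.inr fun x y z w => ?_) le_rfl
    · have := h.ne
      simp only [fromEdgeSet_adj, coe_singleton, Set.mem_singleton_iff, Sym2.eq_iff] at a b
      grind
    · have := h.ne
      simp only [fromEdgeSet_adj, coe_singleton, Set.mem_singleton_iff, Sym2.eq_iff] at a
      grind
    · have := h.ne
      simp only [mem_singleton, Sym2.eq_iff]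
      grind
  · exact ⟨helly_of_det fun x y _ a => absurd ⟨x, y, a⟩ h, fun _ => true,
      fun x y a => absurd ⟨x, y, a⟩ h⟩

end Pool.Agent.Lib.NMX.LB
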