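import Pool.Agent.Lib.NMX.LBPois
import Pool.Agent.Lib.NMX.CubeDef

set_option autoImplicit false

namespace Pool.Agent.Lib.NMX.LB

open AA

def sw : Fin 7 → Fin 7 := ![0, 1, 2, 4, 3, 6, 5]

theorem sw_inj : ∀ i j, sw i = sw j → i = j := by decide

theorem sw_adj : ∀ i j : Fin 7, cubeMinus.Adj i j ↔ ad (sw i) (sw j) := by
  unfold cubeMinus
  decide

theorem sw_edge : ∀ k, cubeMinus.Adj (sw (e1 k)) (sw (e2 k)) := by
  unfold cubeMinus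
  decide

theorem free_iff {V : Type} (M : SimpleGraph V) : cubeMinus.Free M ↔ ¬ Cub M :=
  not_congr ⟨fun ⟨φ⟩ => ⟨fun i => φ (sw i), fun _ _ e => sw_inj _ _ (φ.injective e),
    fun k => φ.toHom.map_adj (sw_edge k)⟩, fun ⟨f, h1, h2⟩ => ⟨⟨⟨fun i => f (sw i), fun a => by
      obtain ⟨k, ⟨a, b⟩ | ⟨a, b⟩⟩ := (sw_adj _ _).1 a
      exacts [a ▸ b ▸ h2 k, a ▸ b ▸ (h2 k).symm]⟩, fun _ _ e => sw_inj _ _ (h1 e)⟩⟩⟩

end Pool.Agent.Lib.NMX.LB
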