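import Mathlib

set_option autoImplicit false

namespace Pool.Agent.Lib.NMX.LB

open Finset Classical

variable {U U' : Type}

/-- walks of a given length -/
def Wk (E : SimpleGraph U) : ℕ → U → U → Prop
  | 0, x, y => x = y
  | n + 1, x, y => ∃ z, E.Adj x z ∧ Wk E n z y

variable {E : SimpleGraph U}

theorem Wk_add (n : ℕ) {z : U} : ∀ (m : ℕ) {x : U}, Wk E (n + m) x z ↔ ∃ y, Wk E m x y ∧ Wk E n y z
  | 0, x => by simp [Wk]
  | m + 1, x => by
    change (∃ a, E.Adj x a ∧ Wk E (n + m) a z) ↔ ∃ y, (∃ a, E.Adj x a ∧ Wk E m a y) ∧ Wk E n y z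
    simp only [Wk_add n m]
    exact ⟨fun ⟨a, h, y, h1, h2⟩ => ⟨y, ⟨a, h, h1⟩, h2⟩, fun ⟨y, ⟨a, h, h1⟩, h2⟩ => ⟨a, h, y, h1, h2⟩⟩

theorem Wk.add {m n : ℕ} {x y z : U} (h : Wk E m x y) (h' : Wk E n y z) : Wk E (m + n) x z := by
  rw [Nat.add_comm]
  exact (Wk_add n m).2 ⟨y, h, h'⟩

theorem Wk.symm : ∀ {n : ℕ} {x y : U}, Wk E n x y → Wk E n y x
  | 0, _, _, h => Eq.symm h
  | _ + 1, x, _, ⟨_, h1, h2⟩ => h2.symm.add (n := 1) ⟨x, h1.symm, rfl⟩

theorem Wk.map {E' : SimpleGraph U'} (f : U → U') (hf : ∀ a b, E.Adj a b → E'.Adj (f a) (f b)) :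
    ∀ {n : ℕ} {x y : U}, Wk E n x y → Wk E' n (f x) (f y)
  | 0, _, _, h => congrArg f h
  | _ + 1, _, _, ⟨z, h1, h2⟩ => ⟨f z, hf _ _ h1, h2.map f hf⟩

theorem Wk.col {c : U → Bool} (hc : ∀ a b, E.Adj a b → c a ≠ c b) :
    ∀ {n : ℕ} {x y : U}, Wk E n x y → (c x = c y ↔ Even n)
  | 0, _, _, h => by simp [show _ = _ from h]
  | _ + 1, x, y, ⟨z, h1, h2⟩ => by
    rw [Nat.even_add_one, ← h2.col hc]
    have := hc _ _ h1
    revert this
    cases c x <;> cases c y <;> cases c z <;> simp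

theorem Wk_even {z t : U} (h : E.Adj z t) : ∀ k : ℕ, Wk E (k + k) z z
  | 0 => rfl
  | k + 1 => by
    rw [show k + 1 + (k + 1) = k + k + 1 + 1 by ring]
    exact ⟨t, h, z, h.symm, Wk_even h k⟩

/-- the Helly property for sets of ends of walks of a given length -/
def Helly (E : SimpleGraph U) : Prop :=
  ∀ F : Set (U × ℕ), F.Nonempty → (∀ a ∈ F, ∀ b ∈ F, Wk E (a.2 + b.2) a.1 b.1) →
    ∃ z, ∀ a ∈ F, Wk E a.2 a.1 z

/-- bipartite with the Helly property -/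
def Nice (E : SimpleGraph U) : Prop := Helly E ∧ ∃ c : U → Bool, ∀ a b, E.Adj a b → c a ≠ c b

theorem helly_of_det (h : ∀ x y y', E.Adj x y → E.Adj x y' → y = y') : Helly E := by
  have det : ∀ (n : ℕ) (x y y' : U), Wk E n x y → Wk E n x y' → y = y' := fun n => by
    induction n with
    | zero => exact fun x y y' a b => Eq.trans (Eq.symm a) b
    | succ n ih =>
      rintro x y y' ⟨z, a1, a2⟩ ⟨z', b1, b2⟩
      exact ih z y y' a2 (h _ _ _ b1 a1 ▸ b2)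
  rintro F ⟨a, ha⟩ hF
  obtain ⟨z, hz, -⟩ := (Wk_add _ _).1 (hF a ha a ha)
  refine ⟨z, fun b hb => ?_⟩
  obtain ⟨y, h1, h2⟩ := (Wk_add _ _).1 (hF b hb a ha).symm
  exact (det _ _ _ _ h1 hz ▸ h2).symm

theorem Nice.add {B B' : SimpleGraph U} (h : Nice B) (x a b : U) (hle : B ≤ B')
    (hx : ∀ u v, B'.Adj u v → u ≠ x → v ≠ x → B.Adj u v) (hb : ∀ n, B'.Adj x n → B.Adj b n)
    (ha : B'.Adj x a) (hd : ∀ n t, B'.Adj x n → B.Adj n t → B.Adj a t) : Nice B' := by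
  let f : U → U := fun v => if v = x then b else v
  have hf : ∀ u v, B'.Adj u v → B.Adj (f u) (f v) := fun u v k => by
    by_cases e1 : u = x
    · subst e1
      simpa [f, k.ne'] using hb v k
    · by_cases e2 : v = x
      · subst e2
        simpa [f, e1] using (hb u k.symm).symm
      · simpa [f, e1, e2] using hx u v k e1 e2
  obtain ⟨hH, c, hc⟩ := h
  refine ⟨fun F hne hF => ?_, fun v => c (f v), fun u v k => hc _ _ (hf u v k)⟩
  by_cases h0 : ∃ a ∈ F, a.2 = 0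
  · obtain ⟨a, h1, h2⟩ := h0
    exact ⟨a.1, fun b hb => by simpa [h2] using hF b hb a h1⟩
  push Not at h0
  have rep : ∀ {n y : U} {L : ℕ}, B'.Adj x n → Wk B (L + 1) (f n) y → Wk B (L + 1) a y :=
    fun {n y L} k ⟨t, h1, h2⟩ => ⟨t, hd n t k (by simpa [f, k.ne'] using h1), h2⟩
  have mix : ∀ {r r' : ℕ} {y : U}, y ≠ x → r' ≠ 0 → Wk B' (r + 1 + r') x y → Wk B (r + r') a y :=
    fun {r r' y} k k' h => by
      obtain ⟨s, rfl⟩ := Nat.exists_eq_succ_of_ne_zero k'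
      rw [show r + 1 + s.succ = r + s + 1 + 1 by omega] at h
      obtain ⟨n, h1, h2⟩ := h
      have := rep h1 (h2.map f hf)
      simp only [f, if_neg k] at this
      exact this
  obtain ⟨z, hz⟩ := hH ((fun c : U × ℕ => if c.1 = x then (a, c.2 - 1) else c) '' F)
    (hne.image _) (by
      rintro _ ⟨⟨u, r⟩, hu, rfl⟩ _ ⟨⟨v, s⟩, hv, rfl⟩
      have k := hF _ hu _ hv
      obtain ⟨r, rfl⟩ := Nat.exists_eq_succ_of_ne_zero (h0 _ hu)
      obtain ⟨s, rfl⟩ := Nat.exists_eq_succ_of_ne_zero (h0 _ hv)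
      by_cases e1 : u = x <;> by_cases e2 : v = x <;>
        simp only [e1, e2, if_true, if_false, Nat.succ_sub_one] at k ⊢
      · rw [show r.succ + s.succ = r + s + 1 + 1 by omega] at k
        obtain ⟨n, h1, h2⟩ := k
        obtain ⟨n', h3, h4⟩ := h2.symm
        generalize r + s = L at h4
        cases L with
        | zero => rfl
        | succ L => exact rep h1 (rep h3 (h4.map f hf)).symm
      · exact mix e2 (by simp) k
      · rw [Nat.add_comm] at k ⊢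
        exact (mix e1 (by simp) k.symm).symm
      · simpa [f, e1, e2] using k.map f hf)
  refine ⟨z, fun ⟨u, r⟩ hu => ?_⟩
  have k := (hz _ ⟨_, hu, rfl⟩).map (E' := B') id fun _ _ t => hle t
  obtain ⟨r, rfl⟩ := Nat.exists_eq_succ_of_ne_zero (h0 _ hu)
  by_cases e : u = x <;> simp only [e, if_true, if_false, Nat.succ_sub_one, id] at k ⊢
  exacts [⟨a, ha, k⟩, k]

theorem extend {X : Type} [Finite X] (hH : Helly E) (R : ℕ → X → X → Prop)
    (Rs : ∀ r x y, R r x y → R r y x) (Ra : ∀ r s x y z, R r x y → R s y z → R (r + s) x z)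
    (Rp : ∀ r x, R r x x → Even r) {z0 t0 : U} (h0 : E.Adj z0 t0) (D : X → Prop) (φ0 : X → U)
    (h1 : ∀ x y r, D x → D y → R r x y → Wk E r (φ0 x) (φ0 y))
    (h2 : ∀ x, D x → ∃ t, E.Adj (φ0 x) t) :
    ∃ φ : X → U, (∀ x, D x → φ x = φ0 x) ∧ ∀ x y r, R r x y → Wk E r (φ x) (φ y) := by
  have := Fintype.ofFinite X
  have key : ∀ s : Finset X, ∃ φ : X → U, (∀ x, D x → φ x = φ0 x) ∧
      (∀ x y r, D x ∨ x ∈ s → D y ∨ y ∈ s → R r x y → Wk E r (φ x) (φ y)) ∧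
      ∀ x, D x ∨ x ∈ s → ∃ t, E.Adj (φ x) t := fun s => by
    induction s using Finset.induction_on with
    | empty => exact ⟨φ0, fun _ _ => rfl, by simpa using h1, by simpa using h2⟩
    | insert c s hc ih =>
      obtain ⟨φ, a1, a2, a3⟩ := ih
      by_cases hD : D c
      · have : ∀ x, D x ∨ x ∈ insert c s → D x ∨ x ∈ s := fun x k =>
          k.elim Or.inl fun k => (mem_insert.1 k).imp_left fun e : x = c => e ▸ hD
        exact ⟨φ, a1, fun x y r k k' => a2 x y r (this x k) (this y k'), fun x k => a3 x (this x k)⟩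
      obtain ⟨z, ⟨t, b1⟩, b2⟩ : ∃ z, (∃ t, E.Adj z t) ∧
          ∀ x r, D x ∨ x ∈ s → R r x c → Wk E r (φ x) z := by
        by_cases k : ∃ x r, (D x ∨ x ∈ s) ∧ R r x c
        · obtain ⟨x, r, k1, k2⟩ := k
          obtain ⟨z, hz⟩ := hH {a | ∃ x, (D x ∨ x ∈ s) ∧ R a.2 x c ∧ φ x = a.1}
            ⟨(φ x, r), x, k1, k2, rfl⟩ (by
              rintro ⟨_, r⟩ ⟨x, c1, c2, rfl⟩ ⟨_, s⟩ ⟨y, c3, c4, rfl⟩
              exact a2 x y _ c1 c3 (Ra _ _ _ _ _ c2 (Rs _ _ _ c4)))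
          refine ⟨z, ?_, fun x r k k' => hz (φ x, r) ⟨x, k, k', rfl⟩⟩
          have := (hz (φ x, r) ⟨x, k1, k2, rfl⟩).symm
          cases r with
          | zero => exact (show z = φ x from this) ▸ a3 x k1
          | succ r => exact this.imp fun _ h => h.1
        · exact ⟨z0, ⟨t0, h0⟩, fun x r k1 k2 => absurd ⟨x, r, k1, k2⟩ k⟩
      have old : ∀ x, D x ∨ x ∈ insert c s → x ≠ c → D x ∨ x ∈ s := fun x k e =>
        k.imp_right fun k => (mem_insert.1 k).resolve_left e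
      refine ⟨fun x => if x = c then z else φ x, fun x k => ?_, fun x y r k k' h => ?_,
        fun x k => ?_⟩
      · simp only [if_neg fun e : x = c => hD (e ▸ k), a1 x k]
      · by_cases e1 : x = c <;> by_cases e2 : y = c <;> simp only [e1, e2, if_true, if_false]
        · obtain ⟨j, rfl⟩ := Rp r c (by rwa [e1, e2] at h)
          exact Wk_even b1 j
        · exact (b2 y r (old y k' e2) (Rs _ _ _ (e1 ▸ h))).symm
        · exact b2 x r (old x k e1) (e2 ▸ h)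
        · exact a2 x y r (old x k e1) (old y k' e2) h
      · by_cases e1 : x = c <;> simp only [e1, if_true, if_false]
        exacts [⟨t, b1⟩, a3 x (old x k e1)]
  obtain ⟨φ, a1, a2, -⟩ := key univ
  exact ⟨φ, a1, fun x y r => a2 x y r (Or.inr (mem_univ x)) (Or.inr (mem_univ y))⟩

/-- a pendant vertex attached to every vertex that is not isolated -/
def pd (B : SimpleGraph U) : SimpleGraph (U × Bool) where
  Adj x y := (x.2 = false ∧ y.2 = false ∧ B.Adj x.1 y.1) ∨ (x.1 = y.1 ∧ x.2 ≠ y.2 ∧ ∃ t, B.Adj x.1 t)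
  symm := ⟨fun _ _ h => h.elim (fun h => Or.inl ⟨h.2.1, h.1, h.2.2.symm⟩)
    fun h => Or.inr ⟨h.1.symm, h.2.1.symm, h.1 ▸ h.2.2⟩⟩
  loopless := ⟨fun _ h => h.elim (fun h => h.2.2.ne rfl) fun h => h.2.1 rfl⟩

theorem two_maj {J : Type} [Fintype J] {s t : Finset J} (hs : Fintype.card J < 2 * #s)
    (ht : Fintype.card J < 2 * #t) : ∃ i, i ∈ s ∧ i ∈ t := by
  by_contra k
  have h1 := card_union_of_disjoint (disjoint_left.2 fun i a b => k ⟨i, a, b⟩)
  have h2 := card_le_univ (s ∪ t)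
  omega

/-- families in the support of `B` with constant colour -/
def Adm {J : Type} (B : SimpleGraph U) (c : U → Bool) (A : J → U × Bool) : Prop :=
  (∀ i, ∃ t, B.Adj (A i).1 t) ∧ ∀ i j, xor (c (A i).1) (A i).2 = xor (c (A j).1) (A j).2

/-- A symmetric majority operation. -/
theorem exists_maj [Finite U] {B : SimpleGraph U} (hH : Helly B) {c : U → Bool}
    (hc : ∀ a b, B.Adj a b → c a ≠ c b) (J : Type) [Fintype J] [Nonempty J] [Nonempty U] :
    ∃ μ : (J → U × Bool) → U,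
      (∀ A u, Adm B c A → Fintype.card J < 2 * #{i | A i = (u, false)} → μ A = u) ∧
      ∀ (A A' : J → U × Bool) (σ : Equiv.Perm J), Adm B c A → Adm B c A' →
        (∀ i, (pd B).Adj (A i) (A' (σ i))) → B.Adj (μ A) (μ A') := by
  obtain ⟨i0⟩ := ‹Nonempty J›
  by_cases h0 : ∃ z t, B.Adj z t
  swap
  · exact ⟨fun _ => Classical.arbitrary U, fun A _ h => absurd ⟨_, h.1 i0⟩ h0,
      fun A _ _ h => absurd ⟨_, h.1 i0⟩ h0⟩
  obtain ⟨z0, t0, h0⟩ := h0
  have hψ : ∀ u, ∃ v, (∃ t, B.Adj u t) → B.Adj u v := fun u => by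
    by_cases k : ∃ t, B.Adj u t
    exacts [k.imp fun _ h _ => h, ⟨u, fun t => absurd t k⟩]
  choose ψ hψ using hψ
  have hf : ∀ x y, (pd B).Adj x y →
      B.Adj (if x.2 then ψ x.1 else x.1) (if y.2 then ψ y.1 else y.1) := by
    rintro ⟨u, b⟩ ⟨v, b'⟩ (⟨rfl, rfl, h⟩ | ⟨rfl, h, h'⟩)
    · exact h
    · have := hψ u h'
      cases b <;> cases b'
      exacts [absurd rfl h, this, this.symm, absurd rfl h]
  have hcol : ∀ x y, (pd B).Adj x y → xor (c x.1) x.2 ≠ xor (c y.1) y.2 := by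
    rintro ⟨u, b⟩ ⟨v, b'⟩ (⟨rfl, rfl, h⟩ | ⟨rfl, h, -⟩)
    · simpa using hc _ _ h
    · simpa using h
  have hm : ∀ A : {A : J → U × Bool // Adm B c A}, ∃ u,
      (∃ u, Fintype.card J < 2 * #{i | A.1 i = (u, false)}) →
        Fintype.card J < 2 * #{i | A.1 i = (u, false)} := fun A => by
    by_cases k : ∃ u, Fintype.card J < 2 * #{i | A.1 i = (u, false)}
    exacts [k.imp fun _ h _ => h, ⟨z0, fun t => absurd t k⟩]
  choose φ0 hm using hm
  obtain ⟨φ, a1, a2⟩ := extend (X := {A : J → U × Bool // Adm B c A}) hH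
    (fun r A A' => ∃ σ : Equiv.Perm J, ∀ i, Wk (pd B) r (A.1 i) (A'.1 (σ i)))
    (fun r A A' ⟨σ, h⟩ => ⟨σ.symm, fun i => by simpa using (h (σ.symm i)).symm⟩)
    (fun r s A A' A'' ⟨σ, h⟩ ⟨τ, h'⟩ => ⟨σ.trans τ, fun i => (h i).add (h' (σ i))⟩)
    (fun r A ⟨σ, h⟩ => ((h i0).col hcol).1 (A.2.2 _ _)) h0
    (fun A => ∃ u, Fintype.card J < 2 * #{i | A.1 i = (u, false)}) φ0
    (fun A A' r k k' ⟨σ, h⟩ => by
      obtain ⟨i, h1, h2⟩ := two_maj (hm A k) (t := {i | A'.1 (σ i) = (φ0 A', false)})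
        ((hm A' k').trans_le (Nat.mul_le_mul_left _ (card_le_card_of_injOn σ.symm
          (fun j hj => by simpa using hj) fun _ _ _ _ e => σ.symm.injective e)))
      have := (h i).map _ hf
      rwa [(mem_filter.1 h1).2, (mem_filter.1 h2).2] at this)
    (fun A k => by
      obtain ⟨i, h1, -⟩ := two_maj (hm A k) (hm A k)
      have := A.2.1 i
      rwa [(mem_filter.1 h1).2] at this)
  refine ⟨fun A => if h : Adm B c A then φ ⟨A, h⟩ else z0, fun A u h k => ?_,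
    fun A A' σ h h' k => ?_⟩
  · obtain ⟨i, h1, h2⟩ := two_maj (hm ⟨A, h⟩ ⟨u, k⟩) k
    simp only [dif_pos h]
    rw [a1 _ ⟨u, k⟩]
    exact (Prod.ext_iff.1 ((mem_filter.1 h1).2.symm.trans (mem_filter.1 h2).2)).1
  · obtain ⟨z, h1, h2⟩ := a2 ⟨A, h⟩ ⟨A', h'⟩ 1 ⟨σ, fun i => ⟨_, k i, rfl⟩⟩
    simp only [dif_pos h, dif_pos h']
    exact (show z = _ from h2) ▸ h1

end Pool.Agent.Lib.NMX.LB
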