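import Pool.Agent.Lib.NMX.LBClass
import Pool.Agent.Lib.NMX.AACorner

set_option autoImplicit false

namespace Pool.Agent.Lib.NMX.LB

open Finset Classical SimpleGraph

variable {V : Type} {M : SimpleGraph V}

/-- small subgraphs have density at most `9 / 7` -/
def WSp (M : SimpleGraph V) : Prop :=
  ∀ (W : Finset V) (E : Finset (Sym2 V)), #W ≤ 10 →
    (∀ e ∈ E, e ∈ M.edgeSet ∧ ∀ v ∈ e, v ∈ W) → 7 * #E ≤ 9 * #W

/-- `M` contains a cube minus a vertex -/
def Cub (M : SimpleGraph V) : Prop :=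
  ∃ f : Fin 7 → V, Function.Injective f ∧ ∀ k, M.Adj (f (AA.e1 k)) (f (AA.e2 k))

def DomAt (E : Finset (Sym2 V)) (p q : V) : Prop :=
  ∀ u v, s(u, v) ∈ E → (s(u, q) ∈ E ∧ s(v, p) ∈ E) ∨ (s(u, p) ∈ E ∧ s(v, q) ∈ E)

def Full (E : Finset (Sym2 V)) : Prop := ∀ p q, s(p, q) ∈ E → DomAt E p q

def Dom (E : Finset (Sym2 V)) : Prop := ∃ p q, s(p, q) ∈ E ∧ DomAt E p q

theorem bl {x y z : Bool} (h : x ≠ y) (h' : z ≠ y) : x = z := by
  revert x y z
  decide

theorem ins_adj {E : Finset (Sym2 V)} {e : Sym2 V} {x u v : V} (hx : x ∈ e)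
    (g : (fromEdgeSet ((insert e E : Finset _) : Set (Sym2 V))).Adj u v) (g1 : u ≠ x)
    (g2 : v ≠ x) : (fromEdgeSet (E : Set (Sym2 V))).Adj u v :=
  ⟨(mem_insert.1 g.1).resolve_left fun t => by simp [← t, g1.symm, g2.symm] at hx, g.2⟩

theorem Part.col {k : Quot (Sq M)} {W : Finset V} {E : Finset (Sym2 V)} (h : Part M k W E) :
    ∃ c : V → Bool, ∀ u v, s(u, v) ∈ E → c u ≠ c v :=
  h.2.1.2.imp fun _ hc u v e => hc u v ((fromEdgeSet_adj _).2 ⟨e, (h.1 _ e).1.1.ne⟩)

theorem Part.cmp (hC : ¬ Cub M) {k : Quot (Sq M)} {W : Finset V} {E : Finset (Sym2 V)}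
    (h : Part M k W E) (hD : Dom E) {a b c d : V} (q : Quad M a b c d) (hab : s(a, b) ∈ E)
    (hda : s(d, a) ∈ E) (hc : c ∉ W) :
    (∀ t, s(d, t) ∈ E → s(b, t) ∈ E) ∨ ∀ t, s(b, t) ∈ E → s(d, t) ∈ E := by
  by_contra z
  push Not at z
  obtain ⟨⟨t, t1, t2⟩, t', t3, t4⟩ := z
  obtain ⟨col, hcol⟩ := h.col
  obtain ⟨x, y, d1, d2⟩ := hD
  have c1 := hcol _ _ hab
  have c2 := hcol _ _ hda
  have c3 := hcol _ _ t1
  have c4 := hcol _ _ t3
  obtain ⟨a', a1, a2, a3⟩ : ∃ a', s(a, a') ∈ E ∧ s(t, a') ∈ E ∧ s(t', a') ∈ E := by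
    have key : ∀ w z, s(z, w) ∈ E → col w = col a →
        s(w, if col a = col x then y else x) ∈ E := fun w z e g0 => by
      rw [← g0]
      split_ifs with g <;> rcases d2 _ _ e with ⟨-, g2⟩ | ⟨-, g2⟩
      exacts [absurd g (hcol _ _ g2), g2, g2, absurd (bl (hcol _ _ g2) (hcol _ _ d1)) g]
    exact ⟨_, key a d hda rfl, key t d t1 (bl c3.symm c2.symm), key t' b t3 (bl c4.symm c1)⟩
  have m : ∀ {u v}, s(u, v) ∈ E → M.Adj u v ∧ u ≠ c ∧ v ≠ c := fun {u v} e =>
    ⟨(h.1 _ e).1.1, fun g => hc (g ▸ (h.1 _ e).2 u (by simp)),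
      fun g => hc (g ▸ (h.1 _ e).2 v (by simp))⟩
  have c5 := hcol _ _ a1
  have n1 : a ≠ t := fun g => t2 (g ▸ Sym2.eq_swap ▸ hab)
  have n2 : a ≠ t' := fun g => t4 (g ▸ hda)
  have n3 : t ≠ t' := fun g => t2 (g ▸ t3)
  have n4 : a' ≠ b := fun g => t2 (g ▸ Sym2.eq_swap ▸ a2)
  have n5 : a' ≠ d := fun g => t4 (g ▸ Sym2.eq_swap ▸ a3)
  have n6 := q.2.2.2.2.2
  have m1 := m hab
  have m2 := m t1
  have m3 := m t3
  have m4 := m a1
  refine hC ⟨![a, b, d, a', c, t, t'], ?_, fun k => ?_⟩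
  · rw [← List.nodup_ofFn]
    simp only [List.ofFn_succ, List.ofFn_zero, Matrix.cons_val_zero, Matrix.cons_val_succ,
      List.nodup_cons, List.mem_cons, List.not_mem_nil, List.nodup_nil]
    have m5 := (m hda).2.1
    have c6 := bl c3.symm c2.symm
    have c7 := bl c4.symm c1
    have c8 := bl c2 c1.symm
    have c9 := bl c5.symm c1.symm
    replace m1 := m1.2
    replace m2 := m2.2
    replace m3 := m3.2
    replace m4 := m4.2
    clear m a1 a2 a3 d1 d2 hcol t1 t2 t3 t4 hab hda h hc q hC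
    grind
  · fin_cases k
    exacts [m1.1, (m hda).1.symm, m4.1, q.2.1.symm, q.2.2.1, m2.1.symm, (m a2).1, m3.1.symm,
      (m a3).1]

theorem Part.step2 (hM : WSp M) (hC : ¬ Cub M) {k : Quot (Sq M)} {W : Finset V} {E : Finset (Sym2 V)}
    (h : Part M k W E) (hW : #W ≤ 8) {j : ℕ} (hj : 9 * #W ≤ 7 * #E + j) (hj' : j ≤ 11)
    (h3 : j ≤ 6 ∨ Full E) (h4 : 9 * #W ≤ 7 * #E + 4 ∨ Dom E) {a b c d : V} (q : Quad M a b c d) (hab : s(a, b) ∈ E)
    (hbc : s(b, c) ∉ E) :
    Part M k (insert c (insert d W)) (insert s(b, c) (insert s(c, d) (insert s(d, a) E))) ∧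
      9 * #(insert c (insert d W)) + 3 ≤
        7 * #(insert s(b, c) (insert s(c, d) (insert s(d, a) E))) + j ∧
      (Full E → 9 * #(insert c (insert d W)) + 5 ≤
        7 * #(insert s(b, c) (insert s(c, d) (insert s(d, a) E))) + j ∨
          Dom (insert s(b, c) (insert s(c, d) (insert s(d, a) E)))) := by
  obtain ⟨col, hcol⟩ := h.col
  have cmp := h.cmp hC (a := a) (b := b) (c := c) (d := d)
  obtain ⟨h1, h2, h0⟩ := h
  obtain ⟨q1, q2, q3, q4, q5, q6⟩ := id q
  have k1 : cls M a b = k := (h1 _ hab).1.2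
  have k2 : cls M b c = k := q.cls ▸ k1
  have k3 : cls M c d = k := q.rot.cls ▸ k2
  have k4 : cls M d a = k := q.rot.rot.cls ▸ k3
  have ha : a ∈ W := (h1 _ hab).2 a (by simp)
  have hb : b ∈ W := (h1 _ hab).2 b (by simp)
  have hE : ∀ e ∈ insert s(b, c) (insert s(c, d) (insert s(d, a) E)),
      e ∈ (CB M k).edgeSet ∧ ∀ v ∈ e, v ∈ insert c (insert d W) := fun e he => by
    simp only [mem_insert] at he
    rcases he with rfl | rfl | rfl | he
    · exact ⟨⟨q2, k2⟩, by simp [hb]⟩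
    · exact ⟨⟨q3, k3⟩, by simp⟩
    · exact ⟨⟨q4, k4⟩, by simp [ha]⟩
    · exact ⟨(h1 e he).1, fun v hv => by simp [(h1 e he).2 v hv]⟩
  have w1 := card_insert_le c (insert d W)
  have w2 := card_insert_le d W
  have sp := hM _ _ (by omega) fun e he =>
    ⟨edgeSet_mono (CB_le k) (hE e he).1, (hE e he).2⟩
  have n1 : s(b, c) ∉ insert s(c, d) (insert s(d, a) E) := by
    simp [hbc, q6, q2.ne, q1.ne', q5.symm]
  have n2 : s(c, d) ∉ E → s(c, d) ∉ insert s(d, a) E := fun t => by simp [t, q3.ne, q5.symm]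
  have hcd : s(c, d) ∈ E → c ∈ W ∧ d ∈ W := fun t =>
    ⟨(h1 _ t).2 c (by simp), (h1 _ t).2 d (by simp)⟩
  have hda : s(d, a) ∈ E → d ∈ W := fun t => (h1 _ t).2 d (by simp)
  rw [card_insert_of_notMem n1] at sp ⊢
  have e1 := card_le_card (subset_insert s(c, d) (insert s(d, a) E))
  have e2 := card_le_card (subset_insert s(d, a) E)
  have hc : c ∉ W := fun hc => by
    rw [insert_eq_of_mem (mem_insert_of_mem hc)] at sp
    by_cases t : s(c, d) ∈ E
    · rw [insert_eq_of_mem (hcd t).2] at sp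
      by_cases t' : s(d, a) ∈ E
      · rcases (h3.resolve_left (by omega)) c d t b a (Sym2.eq_swap ▸ hab) with g | g
        · exact hcol _ _ g.1 (bl (hcol _ _ hab).symm (hcol _ _ t'))
        · exact hbc g.1
      · have := card_insert_of_notMem t'
        omega
    · rw [card_insert_of_notMem (n2 t)] at sp
      by_cases t' : d ∈ W
      · rw [insert_eq_of_mem t'] at sp
        omega
      · have := card_insert_of_notMem (mt hda t')
        omega
  rw [card_insert_of_notMem (n2 fun t => hc (hcd t).1)] at sp ⊢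
  have two : Nice (fromEdgeSet ((insert s(d, a) E : Finset _) : Set (Sym2 V))) →
      ((∀ t, s(d, t) ∈ insert s(d, a) E → s(b, t) ∈ insert s(d, a) E) ∨
        ∀ t, s(b, t) ∈ insert s(d, a) E → s(d, t) ∈ insert s(d, a) E) →
      Part M k (insert c (insert d W)) (insert s(b, c) (insert s(c, d) (insert s(d, a) E))) :=
    fun g1 g2 => ⟨hE, ?_, insert_nonempty _ _⟩
  · by_cases t : d ∈ W
    · rw [insert_eq_of_mem t] at sp w1
      have t' : s(d, a) ∈ E := by
        by_contra t'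
        have := card_insert_of_notMem t'
        omega
      rw [insert_eq_of_mem t'] at sp
      have := card_insert_of_notMem hc
      refine ⟨two (by rwa [insert_eq_of_mem t']) ?_, ?_, fun _ => Or.inl ?_⟩
      · rw [insert_eq_of_mem t']
        exact cmp (h4.resolve_left (by omega)) q hab t' hc
      · rw [insert_eq_of_mem t, insert_eq_of_mem t']
        omega
      · rw [insert_eq_of_mem t, insert_eq_of_mem t']
        omega
    · have nd : ∀ x, s(d, x) ∉ E := fun x g => t ((h1 _ g).2 d (by simp))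
      have only : ∀ x, s(d, x) ∈ insert s(d, a) E → x = a := fun x g =>
        Sym2.congr_right.1 ((mem_insert.1 g).resolve_right (nd x))
      refine ⟨two (h2.add d a b (fromEdgeSet_mono (by simp)) (fun u v g g1 g2 => ?_)
        (fun x g => ?_) (by simp [q4.ne]) fun x y g g' => ?_) (Or.inl fun x g => ?_), ?_,
        fun g => Or.inr ⟨a, b, by simp [hab], fun u v e => ?_⟩⟩
      · exact ins_adj (by simp) g g1 g2
      · rw [only x g.1]
        exact (fromEdgeSet_adj _).2 ⟨mem_coe.2 (Sym2.eq_swap ▸ hab), q1.ne'⟩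
      · rwa [← only x g.1]
      · rw [only x g]
        exact mem_insert_of_mem (Sym2.eq_swap ▸ hab)
      · rw [card_insert_of_notMem (nd a)]
        omega
      · have ba : s(b, a) ∈ E := Sym2.eq_swap ▸ hab
        simp only [mem_insert] at e
        rcases e with e | e | e | e
        · rcases Sym2.eq_iff.1 e with ⟨rfl, rfl⟩ | ⟨rfl, rfl⟩
          · exact Or.inr ⟨by simp [ba], by simp⟩
          · exact Or.inl ⟨by simp, by simp [ba]⟩
        · rcases Sym2.eq_iff.1 e with ⟨rfl, rfl⟩ | ⟨rfl, rfl⟩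
          · exact Or.inl ⟨by simp, by simp⟩
          · exact Or.inr ⟨by simp, by simp⟩
        · rcases Sym2.eq_iff.1 e with ⟨rfl, rfl⟩ | ⟨rfl, rfl⟩
          · exact Or.inr ⟨by simp, by simp [hab]⟩
          · exact Or.inl ⟨by simp [hab], by simp⟩
        · exact (g a b hab u v e).imp (fun z => ⟨by simp [z.1], by simp [z.2]⟩)
            fun z => ⟨by simp [z.1], by simp [z.2]⟩
  · have only : ∀ x, s(c, x) ∈ insert s(b, c) (insert s(c, d) (insert s(d, a) E)) →
        x = b ∨ x = d := fun x g => by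
      have : s(c, x) ∉ E := fun g => hc ((h1 _ g).2 c (by simp))
      simpa [this, q2.ne', q3.ne, q5.symm] using g
    have fin : ∀ b', b' = b ∨ b' = d →
        (∀ x y, x = b ∨ x = d → s(x, y) ∈ insert s(d, a) E → s(b', y) ∈ insert s(d, a) E) →
        Nice (fromEdgeSet ((insert s(b, c) (insert s(c, d) (insert s(d, a) E)) : Finset _) :
          Set (Sym2 V))) := fun b' g3 g4 => by
      refine g1.add c b' a (fromEdgeSet_mono ?_) (fun u v g g1 g2 => ?_) (fun x g => ?_)
        (by rcases g3 with rfl | rfl; exacts [⟨by simp, q2.ne'⟩, ⟨by simp, q3.ne⟩])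
        fun x y g g' => ?_
      · exact coe_subset.2 ((subset_insert _ _).trans (subset_insert _ _))
      · exact ins_adj (by simp) (ins_adj (by simp) g g1 g2) g1 g2
      · rcases only x g.1 with rfl | rfl
        · exact ⟨by simp [hab], q1.ne⟩
        · exact ⟨by simp, q4.ne'⟩
      · have := g4 x y (only x g.1) g'.1
        exact ⟨this, (hE _ (mem_insert_of_mem (mem_insert_of_mem this))).1.1.ne⟩
    rcases g2 with g2 | g2
    · exact fin b (Or.inl rfl) (by rintro x y (rfl | rfl); exacts [id, g2 y])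
    · exact fin d (Or.inr rfl) (by rintro x y (rfl | rfl); exacts [g2 y, id])

theorem Part.full {k : Quot (Sq M)} {W : Finset V} {E : Finset (Sym2 V)} (h : Part M k W E)
    (hW : #W ≤ 2) {a b c d : V} (q : Quad M a b c d) (k1 : s(a, b) ∈ E) :
    Full (insert s(b, c) (insert s(c, d) (insert s(d, a) E))) := by
  obtain ⟨q1, q2, q3, q4, q5, q6⟩ := q
  have hW : W = {a, b} := (eq_of_subset_of_card_le (fun x hx => by
    simp only [mem_insert, mem_singleton] at hx
    exact (h.1 _ k1).2 x (by simpa using hx)) (by rw [card_pair q1.ne]; omega)).symm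
  have key : ∀ x y, s(x, y) ∈ insert s(b, c) (insert s(c, d) (insert s(d, a) E)) ↔
      ((x = a ∨ x = c) ∧ (y = b ∨ y = d)) ∨ ((x = b ∨ x = d) ∧ (y = a ∨ y = c)) := fun x y => by
    have : s(x, y) ∈ E ↔ s(x, y) = s(a, b) := ⟨fun g => by
      have g1 := (h.1 _ g).2 x (by simp)
      have g2 := (h.1 _ g).2 y (by simp)
      have g3 : x ≠ y := (h.1 _ g).1.1.ne
      simp only [hW, mem_insert, mem_singleton] at g1 g2
      rw [Sym2.eq_iff]
      grind, fun g => g ▸ k1⟩
    simp only [mem_insert, this, Sym2.eq_iff]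
    grind
  intro x y g z w
  simp only [key] at g ⊢
  clear key k1 h hW
  grind

theorem Part.fin2 (hM : WSp M) (hC : ¬ Cub M) {k : Quot (Sq M)} (i : ℕ) : ∀ {W : Finset V}
    {E : Finset (Sym2 V)}, Part M k W E → #W + 2 * i ≤ 10 → 9 * #W + 1 ≤ 7 * #E + 3 * i →
      i ≤ 2 ∨ Full E → 9 * #W ≤ 7 * #E + 4 ∨ Dom E → i ≤ 4 → Nice (CB M k) := by
  induction i with
  | zero =>
    intro W E h h1 h2 _ _ _
    have := hM W E (by omega) fun e he => ⟨edgeSet_mono (CB_le k) (h.1 e he).1, (h.1 e he).2⟩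
    omega
  | succ i ih =>
    intro W E h h1 h2 h3 h5 h4
    by_cases hc : Clo M E
    · exact h.nice hc
    simp only [Clo, not_forall] at hc
    obtain ⟨a, b, c, d, q, k1, k2⟩ := hc
    obtain ⟨g1, g2, g3⟩ := h.step2 hM hC (by omega) (j := 3 * i + 2) (by omega) (by omega)
      (h3.imp_left (by omega)) h5 q k1 k2
    have w1 := card_insert_le c (insert d W)
    have w2 := card_insert_le d W
    rcases Nat.lt_or_ge i 3 with t | t
    · refine ih g1 (by omega) (by omega) (Or.inl (by omega)) ?_ (by omega)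
      rcases Nat.lt_or_ge i 2 with t' | t'
      · exact Or.inl (by omega)
      · exact (g3 (h3.resolve_left (by omega))).imp_left (by omega)
    · have := h.full (by omega) q k1
      exact ih g1 (by omega) (by omega) (Or.inr this)
        (Or.inr ⟨b, c, by simp, this b c (by simp)⟩) (by omega)

theorem WSp.nice (hM : WSp M) (hC : ¬ Cub M) (k : Quot (Sq M)) : Nice (CB M k) := by
  by_cases h : ∃ u v, (CB M k).Adj u v
  · obtain ⟨u, v, h⟩ := h
    have hF : Full ({s(u, v)} : Finset (Sym2 V)) := fun x y g z w => by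
      simp only [mem_singleton, Sym2.eq_iff] at g ⊢
      grind
    refine Part.fin2 hM hC 4 (W := {u, v}) (E := {s(u, v)}) ⟨by simpa using h,
      ⟨helly_of_det fun x y y' a b => ?_, fun x => x = u, fun x y a => ?_⟩, by simp⟩
      (by simp [card_pair h.ne]) (by simp [card_pair h.ne]) (Or.inr hF)
      (Or.inr ⟨u, v, by simp, hF u v (by simp)⟩) le_rfl
    · have := h.ne
      simp only [fromEdgeSet_adj, coe_singleton, Set.mem_singleton_iff, Sym2.eq_iff] at a b
      grind
    · have := h.ne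
      simp only [fromEdgeSet_adj, coe_singleton, Set.mem_singleton_iff, Sym2.eq_iff] at a
      grind
  · exact ⟨helly_of_det fun x y _ a => absurd ⟨x, y, a⟩ h, fun _ => true,
      fun x y a => absurd ⟨x, y, a⟩ h⟩

theorem cube_edges {f : Fin 7 → V} (hf : Function.Injective f) :
    #(univ.image fun k => s(f (AA.e1 k), f (AA.e2 k))) = 9 := by
  rw [card_image_of_injective, card_univ, Fintype.card_fin]
  intro k k' e
  rcases Sym2.eq_iff.1 e with e | e
  · exact AA.e_inj _ _ (hf e.1) (hf e.2)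
  · exact absurd (hf e.1) (AA.e12 _ _)

theorem Sparse.not_cub (hM : Sparse M) : ¬ Cub M := fun ⟨f, hf, h⟩ => by
  have h1 : #(univ.image f) = 7 := by simp [card_image_of_injective _ hf]
  have := hM (univ.image f) _ (by omega) (by simp) fun e he => by
    obtain ⟨k, -, rfl⟩ := mem_image.1 (show e ∈ univ.image fun k => s(f (AA.e1 k), f (AA.e2 k))
      from he)
    exact ⟨h k, by simp⟩
  rw [cube_edges hf] at this
  omega

theorem WSp.corner [Fintype V] (hM : WSp M) (hC : Cub M) : AA.Corner M := by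
  obtain ⟨f, hf, h⟩ := hC
  refine ⟨_, _, _, _, _, _, _, h 0, h 1, h 2, h 3, h 4, h 5, h 6, h 7, h 8, fun ⟨u, hu⟩ => ?_⟩
  have hu' : ∀ t ∈ ({0, 4, 5, 6} : Finset (Fin 7)), M.Adj (f t) u := by
    simpa using (show M.Adj (f 0) u ∧ M.Adj (f 4) u ∧ M.Adj (f 5) u ∧ M.Adj (f 6) u from hu)
  have h1 : #(univ.image f) = 7 := by simp [card_image_of_injective _ hf]
  have h2 := cube_edges hf
  have h3 : ∀ e ∈ univ.image fun k => s(f (AA.e1 k), f (AA.e2 k)),
      e ∈ M.edgeSet ∧ ∀ v ∈ e, v ∈ univ.image f := fun e he => by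
    obtain ⟨k, -, rfl⟩ := mem_image.1 he
    exact ⟨h k, by simp⟩
  by_cases k : u ∈ univ.image f
  · obtain ⟨i, -, rfl⟩ := mem_image.1 k
    have a1 := hu' _ (AA.e_mem i)
    have := hM (univ.image f) (insert s(f (AA.e3 i), f i) _) (by omega)
      (forall_mem_insert .. |>.2 ⟨⟨a1, by simp⟩, h3⟩)
    rw [card_insert_of_notMem, h1, h2] at this
    · omega
    · intro g
      obtain ⟨k', -, e⟩ := mem_image.1 g
      rcases Sym2.eq_iff.1 e with e | e
      · exact AA.e_non i k' (fun t => a1.ne (congrArg f t)) ⟨(hf e.1).symm, (hf e.2).symm⟩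
      · exact AA.e_non' i k' (hf e.2).symm
  · have := hM (insert u (univ.image f)) ((univ.image fun k => s(f (AA.e1 k), f (AA.e2 k))) ∪
      ({0, 4, 5, 6} : Finset (Fin 7)).image fun t => s(f t, u))
      ((card_insert_le _ _).trans (by omega)) fun e he => by
        rcases mem_union.1 he with he | he
        · exact ⟨(h3 e he).1, fun v hv => mem_insert_of_mem ((h3 e he).2 v hv)⟩
        · obtain ⟨t, ht, rfl⟩ := mem_image.1 he
          exact ⟨hu' t ht, by simp⟩
    rw [card_union_of_disjoint, card_insert_of_notMem k, h1, h2,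
      card_image_of_injective _ fun _ _ e => hf (Sym2.congr_left.1 e)] at this
    · simp at this
    · refine disjoint_left.2 fun e a b => ?_
      obtain ⟨t, -, rfl⟩ := mem_image.1 b
      exact k ((h3 _ a).2 u (by simp))

end Pool.Agent.Lib.NMX.LB
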