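import Pool.Agent.Lib.NMX.LBProb
import Pool.Agent.Lib.NMX.LBSharp

set_option autoImplicit false

namespace Pool.Agent.Lib.NMX.LB

open unitInterval Finset Classical Filter Topology AA

variable {n : ℕ} {p : I}

theorem prob_cub {ω : ℝ} (h1 : 1 ≤ ω) (h7 : 7 ≤ n) (h2 : (14 * ω) ^ 7 ≤ (n : ℝ) ^ 7 * p ^ 9) :
    Pr p {M : SimpleGraph (Fin n) | ¬ Cub M} ≤ 128 / ω := by
  have p0 : (0 : ℝ) ≤ p := p.2.1
  obtain ⟨ι⟩ : Nonempty (Fin 7 × Fin (n / 7) ↪ Fin n) :=
    Function.Embedding.nonempty_of_card_le (by simp; omega)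
  have h3 : ω ^ 7 ≤ ((n / 7 : ℕ) : ℝ) ^ 7 * p ^ 9 := by
    have b1 : (n : ℝ) ≤ 14 * (n / 7 : ℕ) := by exact_mod_cast (by omega : n ≤ 14 * (n / 7))
    have b2 := mul_le_mul_of_nonneg_right (pow_le_pow_left₀ n.cast_nonneg b1 7) (pow_nonneg p0 9)
    rw [mul_pow] at h2 b2
    nlinarith
  have μ0 : 0 < ((n / 7 : ℕ) : ℝ) ^ 7 * p ^ 9 := lt_of_lt_of_le (by positivity) h3
  have a1 := second_moment (p := p) univ (fun g => Cq ι g univ) μ0.le (by simp [Pr_Cq])
    (sum_pairs ι h1 h3 _ fun _ _ k => k)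
  refine le_trans (Pr_mono fun M hM => ?_)
    (le_of_mul_le_mul_right (a1.trans (le_of_eq (by ring))) (pow_pos μ0 2))
  exact fun g _ k => hM ⟨fun i => ι (i, g i), fun i j e =>
    (Prod.ext_iff.1 (ι.injective e)).1, fun t => k t (mem_univ _)⟩

theorem iff_bound {w : ℝ} (hL : 1 ≤ Real.log n) (hy : 10 ^ 6 * Real.log n ^ 3 ≤ w ^ 7)
    (hn : (n : ℝ) = (w ^ 7) ^ 90) (h1 : 14 ≤ w) :
    Pr p {M : SimpleGraph (Fin n) | Multiplicative M ↔ ¬ Cub M}ᶜ ≤ 2 ^ 60 / w := by
  have w0 : 0 < w := by linarith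
  have y1 : w ≤ w ^ 7 := le_self_pow₀ (by linarith) (by norm_num)
  have e : (14 * (w / 14)) ^ 7 = w ^ 7 := by ring
  have l1 : Real.log n ≤ Real.log n ^ 3 := le_self_pow₀ hL (by norm_num)
  generalize w ^ 7 = y at *
  have y0 : 0 < y := by linarith
  have y3 : 1 ≤ y := by linarith
  have p0 : (0 : ℝ) ≤ p := p.2.1
  have n1 : y ≤ n := hn ▸ le_self_pow₀ y3 (by norm_num)
  have n2 : 1 / (n : ℝ) ≤ 1 / y := one_div_le_one_div_of_le y0 n1
  have n3 : 1 / y ≤ 1 / w := one_div_le_one_div_of_le w0 y1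
  have y2 : 0 ≤ 1 / y := by positivity
  rw [show 2 ^ 60 / w = 2 ^ 60 * (1 / w) by ring]
  rcases le_total y ((n : ℝ) ^ 7 * p ^ 9) with c1 | c1
  · have a1 := upper_bound hL hy hn (ω := w / 14) (by linarith) (e ▸ c1)
    have a2 := prob_cub (p := p) (ω := w / 14) (by linarith)
      (by exact_mod_cast (by linarith : (7 : ℝ) ≤ n)) (e ▸ c1)
    rw [show 512 / (w / 14) + 17 / y = 7168 * (1 / w) + 17 * (1 / y) by field_simp; ring] at a1
    rw [show 128 / (w / 14) = 1792 * (1 / w) by field_simp; ring] at a2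
    refine le_trans (Pr_mono fun M hM => ?_) ((Pr_union _ _).trans
      ((add_le_add a1 a2).trans (by linarith)))
    by_contra k
    exact hM (iff_of_false (fun t => k (Or.inl t)) fun t => k (Or.inr t))
  rcases le_total (y ^ 19) (n * (p : ℝ)) with c2 | c2
  · have a0 : p * y ^ 69 ≤ 1 := by
      refine le_of_pow_le_pow_left₀ (n := 9) (by norm_num) zero_le_one
        (le_of_mul_le_mul_left ?_ (pow_pos y0 9))
      have := c1.trans (le_self_pow₀ y3 (show 9 ≠ 0 by norm_num))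
      rw [hn] at this
      nlinarith
    have a1 := sparse_corner (p := p) hL (by linarith) hn c2 (by
      have b1 : (p * y ^ 69) ^ 2 ≤ 1 := pow_le_one₀ (by positivity) a0
      have b2 : y ^ 90 * (p : ℝ) ^ 2 ≤ y ^ 138 * p ^ 2 :=
        mul_le_mul_of_nonneg_right (pow_le_pow_right₀ y3 (by norm_num)) (by positivity)
      rw [← hn] at b2
      nlinarith)
    have a2 := prob_dense (n := n) (p := p) 1 y2 fun v _ hv => by
      have b1 := (pow_le_pow_left₀ (by positivity) c1 v).trans (pow_le_pow_right₀ y3 hv)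
      have b2 : p * y ^ 17 ≤ p * y ^ 69 :=
        mul_le_mul_of_nonneg_left (pow_le_pow_right₀ y3 (by norm_num)) p0
      rw [div_pow, le_div_iff₀ (by positivity)]
      nlinarith [mul_le_mul_of_nonneg_right b1 (show 0 ≤ p * y ^ 7 by positivity)]
    rw [show 9 / (n : ℝ) = 9 * (1 / n) by ring] at a1
    refine le_trans (Pr_mono fun M hM => ?_) ((Pr_union _ _).trans
      ((add_le_add a1 a2).trans (by linarith)))
    by_contra k
    have hW : WSp M := fun W E b1 b2 => not_lt.1 fun t => by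
      obtain ⟨e, he⟩ := card_pos.1 (show 0 < #E by omega)
      exact k (Or.inr ⟨W, E, b1, ⟨_, (b2 e he).2 _ (Sym2.out_fst_mem e)⟩, b2, t⟩)
    exact hM ⟨fun t c => k (Or.inl ⟨t, hW.corner c⟩), fun c => mult_of_nice (hW.nice c)⟩
  · have a1 := prob_sparse (n := n) (p := p) y2 (by rw [div_le_one y0]; exact y3) (by
      have b1 := pow_le_pow_left₀ (by positivity) c2 9
      have b2 : y ^ 171 ≤ y ^ 173 := pow_le_pow_right₀ y3 (by norm_num)
      rw [div_pow, le_div_iff₀ (by positivity)]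
      refine le_of_mul_le_mul_left ?_ (pow_pos y0 173)
      have b3 : y ^ 173 * ((n : ℝ) ^ 7 * p ^ 9 * y ^ 7) = (n * p) ^ 9 := by rw [hn]; ring
      rw [b3]
      nlinarith)
    refine le_trans (Pr_mono fun M hM => ?_) (a1.trans (by linarith))
    exact fun k => hM (iff_of_true (mult_of_nice k.nice) k.not_cub)

/-- The random graph is multiplicative iff it has no cube minus a vertex. -/
theorem iff_cub (p : ℕ → I) :
    Tendsto (fun n => Pr (p n) {M : SimpleGraph (Fin n) | Multiplicative M ↔ ¬ Cub M}) atTop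
      (𝓝 1) := by
  let w : ℕ → ℝ := fun n => (n : ℝ) ^ ((630 : ℕ) : ℝ)⁻¹
  have hw : Tendsto w atTop atTop :=
    (tendsto_rpow_atTop (by positivity)).comp tendsto_natCast_atTop_atTop
  have hn : ∀ n : ℕ, (n : ℝ) = w n ^ 630 := fun n =>
    (Real.rpow_inv_natCast_pow n.cast_nonneg (by norm_num)).symm
  have h0 := (hw.const_div_atTop (2 ^ 60)).const_sub 1
  rw [sub_zero] at h0
  refine tendsto_of_tendsto_of_tendsto_of_le_of_le' h0 tendsto_const_nhds ?_
    (Eventually.of_forall fun n => Pr_le_one _)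
  have h1 := hw.eventually ((Real.isLittleO_pow_log_id_atTop (n := 3)).bound
    (show (0 : ℝ) < 1 / (10 ^ 6 * 630 ^ 3) by positivity))
  filter_upwards [h1, hw.eventually_ge_atTop 14,
    (Real.tendsto_log_atTop.comp tendsto_natCast_atTop_atTop).eventually_ge_atTop 1]
    with n a1 a2 a4
  have a5 := iff_bound (p := p n) a4 ?_ ((hn n).trans (by ring)) a2
  · rw [Pr_compl] at a5
    linarith
  · rw [hn n, Real.log_pow]
    rw [id, Real.norm_of_nonneg (by linarith : 0 ≤ w n)] at a1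
    have := (le_abs_self _).trans a1
    have b : w n ≤ w n ^ 7 := le_self_pow₀ (by linarith) (by norm_num)
    push_cast
    linarith

end Pool.Agent.Lib.NMX.LB
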