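import Mathlib

set_option autoImplicit false

namespace Pool.Agent.Lib.NMX.LB

open FreeGroup Classical

section
variable {α : Type}

/-- a letter as a group element -/
def lt (l : α × Bool) : FreeGroup α := mk [l]

/-- the inverse letter -/
def iv (l : α × Bool) : α × Bool := (l.1, !l.2)

/-- the first letter of the reduced word -/
noncomputable def hd (w : FreeGroup α) : Option (α × Bool) := w.toWord.head?

/-- the reduced word -/
noncomputable def wd (w : FreeGroup α) : List (α × Bool) := w.toWord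

/-- the length of the reduced word -/
noncomputable def nm (w : FreeGroup α) : ℕ := w.norm

@[simp] theorem iv_iv (l : α × Bool) : iv (iv l) = l := by simp [iv]

theorem lt_iv (l : α × Bool) : lt (iv l) = (lt l)⁻¹ := by simp [lt, iv, inv_mk, invRev]

theorem toWord_lt_mul (l : α × Bool) (w : FreeGroup α) :
    (lt l * w).toWord = if hd w = some (iv l) then w.toWord.tail else l :: w.toWord := by
  have : (lt l * w).toWord = reduce (l :: w.toWord) := by
    rw [toWord_mul, lt, toWord_mk, reduce_singleton, List.singleton_append]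
  rw [this, reduce.cons, reduce_toWord, hd]
  rcases w.toWord with _ | ⟨x, L⟩
  · simp
  · simp only [List.head?_cons, Option.some.injEq, List.tail_cons]
    congr 1
    obtain ⟨a, b⟩ := l
    obtain ⟨c, d⟩ := x
    cases b <;> cases d <;> simp [iv, eq_comm]

theorem hd_none {w : FreeGroup α} : hd w = none ↔ w = 1 := by simp [hd]

@[simp] theorem hd_one : hd (1 : FreeGroup α) = none := rfl

theorem toWord_cons {l : α × Bool} {w : FreeGroup α} (h : hd w ≠ some (iv l)) :
    (lt l * w).toWord = l :: w.toWord := by rw [toWord_lt_mul, if_neg h]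

theorem hd_cons {l : α × Bool} {w : FreeGroup α} (h : hd w ≠ some (iv l)) :
    hd (lt l * w) = some l := by rw [hd, toWord_cons h]; rfl

theorem hd_lt (l : α × Bool) : hd (lt l) = some l := by
  simpa using hd_cons (l := l) (w := 1) (by simp)

theorem toWord_tail {l : α × Bool} {w : FreeGroup α} (h : hd w = some l) :
    w.toWord = l :: ((lt l)⁻¹ * w).toWord := by
  rw [← lt_iv, toWord_lt_mul, iv_iv, if_pos h]
  exact (List.cons_head?_tail h).symm

theorem hd_tail {l : α × Bool} {w : FreeGroup α} (h : hd w = some l) :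
    hd ((lt l)⁻¹ * w) ≠ some (iv l) := fun k => by
  have h1 := congrArg List.length (toWord_tail h)
  have h2 := congrArg List.length (toWord_tail k)
  rw [lt_iv, inv_inv, mul_inv_cancel_left] at h2
  simp only [List.length_cons] at h1 h2
  omega

theorem norm_tail {l : α × Bool} {w : FreeGroup α} (h : hd w = some l) :
    w.norm = ((lt l)⁻¹ * w).norm + 1 := congrArg List.length (toWord_tail h)

theorem norm_lt (l : α × Bool) : (lt l).norm = 1 := by
  simpa using norm_tail (hd_lt l)

theorem norm_lt_mul (l : α × Bool) (w : FreeGroup α) : ((lt l)⁻¹ * w).norm ≤ w.norm + 1 := by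
  have := norm_mul_le (lt l)⁻¹ w
  rw [norm_inv_eq, norm_lt] at this
  omega

theorem wd_tail {l : α × Bool} {w : FreeGroup α} (h : hd w = some l) :
    wd w = l :: wd ((lt l)⁻¹ * w) := toWord_tail h

theorem nm_tail {l : α × Bool} {w : FreeGroup α} (h : hd w = some l) :
    nm w = nm ((lt l)⁻¹ * w) + 1 := norm_tail h

theorem nm_lt_mul (l : α × Bool) (w : FreeGroup α) : nm ((lt l)⁻¹ * w) ≤ nm w + 1 :=
  norm_lt_mul l w

theorem nm_inv (w : FreeGroup α) : nm w⁻¹ = nm w := norm_inv_eq

theorem ind {P : FreeGroup α → Prop} (h1 : P 1)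
    (h2 : ∀ l w, hd w ≠ some (iv l) → P w → P (lt l * w)) (w : FreeGroup α) : P w := by
  induction h : w.norm generalizing w with
  | zero => exact norm_eq_zero.1 h ▸ h1
  | succ n ih =>
    rcases e : hd w with _ | l
    · exact hd_none.1 e ▸ h1
    · have := h2 l _ (hd_tail e) (ih _ (by have := norm_tail e; omega))
      rwa [mul_inv_cancel_left] at this

theorem hd_mul_lt (l : α × Bool) (w : FreeGroup α) :
    w ≠ 1 → w * lt l ≠ 1 → hd (w * lt l) = hd w := by
  induction w using ind with
  | h1 => exact fun h => absurd rfl h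
  | h2 a w h ih =>
    intro _ h2
    rw [hd_cons h, mul_assoc]
    refine hd_cons fun k => ?_
    by_cases e : w = 1
    · subst e
      rw [one_mul, hd_lt, Option.some.injEq] at k
      exact h2 (by rw [k, lt_iv, mul_one, mul_inv_cancel])
    · exact h (ih e (fun t => by simp [t] at k) ▸ k)

theorem hd_inv_mul (g : FreeGroup α) :
    ∀ B, g ≠ 1 → hd B ≠ hd g → hd (g⁻¹ * B) = hd g⁻¹ := by
  induction g using ind with
  | h1 => exact fun _ h => absurd rfl h
  | h2 a g h ih =>
    intro B h1 h2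
    rw [hd_cons h] at h2
    have h3 : hd (lt (iv a) * B) = some (iv a) := hd_cons (by rwa [iv_iv])
    rw [mul_inv_rev, mul_assoc, ← lt_iv]
    by_cases e : g = 1
    · simp [e, h3, hd_lt]
    · rw [ih _ e (by rw [h3]; exact h.symm), hd_mul_lt _ _ (inv_ne_one.2 e)]
      rwa [lt_iv, ← mul_inv_rev, inv_ne_one]

theorem cent_cyclic {x : FreeGroup α} (hx : x ≠ 1) : IsCyclic (Subgroup.centralizer {x}) := by
  let C := Subgroup.centralizer {x}
  let e := IsFreeGroup.toFreeGroup C
  let y := e ⟨x, Subgroup.mem_centralizer_singleton_iff.2 rfl⟩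
  have hy : y ≠ 1 := fun k => hx (congrArg Subtype.val (e.map_eq_one_iff.1 k))
  have hc : ∀ z, z * y = y * z := fun z => by
    obtain ⟨z, rfl⟩ := e.surjective z
    rw [← e.map_mul, ← e.map_mul]
    exact congrArg e (Subtype.ext (Subgroup.mem_centralizer_singleton_iff.1 z.2))
  rcases h : hd y with _ | l
  · exact absurd (hd_none.1 h) hy
  have : Unique (IsFreeGroup.Generators C) := ⟨⟨l.1⟩, fun a => by_contra fun k => by
    have h1 : hd (lt (a, true) * y) = some (a, true) :=
      hd_cons (by rw [h]; exact fun t => k (congrArg Prod.fst (Option.some.inj t)).symm)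
    rw [hc, hd_mul_lt _ _ hy (fun t => by rw [t] at h1; simp at h1), h] at h1
    exact k (congrArg Prod.fst (Option.some.inj h1)).symm⟩
  exact isCyclic_of_surjective e.symm e.symm.surjective

theorem exists_gen {x : FreeGroup α} (hx : x ≠ 1) (H : Subgroup (FreeGroup α))
    (h : ∀ a ∈ H, a * x = x * a) : ∃ z ∈ H, ∀ a ∈ H, ∃ i : ℤ, z ^ i = a := by
  have := cent_cyclic hx
  have := Subgroup.isCyclic_of_le (H := H) (H' := Subgroup.centralizer {x})
    fun a ha => Subgroup.mem_centralizer_singleton_iff.2 (h a ha)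
  obtain ⟨z, hz⟩ := IsCyclic.exists_generator (α := H)
  exact ⟨z, z.2, fun a ha => (hz ⟨a, ha⟩).imp fun i e => congrArg Subtype.val e⟩

theorem comm_trans {x a b : FreeGroup α} (hx : x ≠ 1) (ha : a * x = x * a) (hb : b * x = x * b) :
    a * b = b * a := by
  obtain ⟨z, -, hz⟩ := exists_gen hx (Subgroup.centralizer {x})
    fun _ => Subgroup.mem_centralizer_singleton_iff.1
  obtain ⟨i, rfl⟩ := hz a (Subgroup.mem_centralizer_singleton_iff.2 ha)
  obtain ⟨j, rfl⟩ := hz b (Subgroup.mem_centralizer_singleton_iff.2 hb)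
  exact zpow_mul_comm z i j

theorem csa {x d : FreeGroup α} (hx : x ≠ 1) (h : x * (d * x * d⁻¹) = d * x * d⁻¹ * x) :
    d * x = x * d := by
  obtain ⟨z, h0, hz⟩ := exists_gen hx (Subgroup.centralizer {x})
    fun _ => Subgroup.mem_centralizer_singleton_iff.1
  have h0' := Subgroup.mem_centralizer_singleton_iff.1 h0
  have key : ∀ d : FreeGroup α, x * (d * x * d⁻¹) = d * x * d⁻¹ * x →
      ∃ i : ℤ, z ^ i = d * z * d⁻¹ := fun d h =>
    hz _ (Subgroup.mem_centralizer_singleton_iff.2 (comm_trans (x := d * x * d⁻¹)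
      (fun k => hx (by simpa using k)) (by
        calc _ = d * (z * x) * d⁻¹ := by group
          _ = _ := by rw [h0']; group) h))
  obtain ⟨a, ha⟩ := key d h
  obtain ⟨b, hb⟩ := key d⁻¹ (by
    calc _ = d⁻¹ * (d * x * d⁻¹ * x) * d := by group
      _ = _ := by rw [← h]; group)
  obtain ⟨c, rfl⟩ := hz x (Subgroup.mem_centralizer_singleton_iff.2 rfl)
  have z1 : z ≠ 1 := fun k => hx (by simp [k])
  have e : z ^ (a * b) = z ^ (1 : ℤ) := by
    rw [zpow_mul, ha, conj_zpow, hb]; group
  have e2 := injective_zpow_iff_not_isOfFinOrder.2 (not_isOfFinOrder_of_isMulTorsionFree z1) e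
  have e3 : z * (d * d) = d * d * z := by
    have e4 : z ^ (a * a) = d * d * z * (d * d)⁻¹ := by
      rw [zpow_mul, ha, conj_zpow, ha]; group
    rw [show a * a = 1 by rcases Int.eq_one_or_neg_one_of_mul_eq_one e2 with t | t <;> simp [t],
      zpow_one] at e4
    exact (mul_inv_eq_iff_eq_mul.1 e4.symm).symm
  by_cases e5 : d * d = 1
  · rw [(pow_eq_one_iff_left two_ne_zero).1 ((sq d).trans e5), one_mul, mul_one]
  · exact ((Commute.zpow_right (comm_trans e5 (mul_assoc _ _ _).symm e3) c)).eq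

end

variable {V K : Type} (S : V → K → Prop)

/-- the type of the node where a letter starts -/
def src (l : (V × K) × Bool) : V ⊕ K := if l.2 then .inl l.1.1 else .inr l.1.2

/-- alternating words -/
def Alt : List ((V × K) × Bool) → V ⊕ K → V ⊕ K → Prop
  | [], a, b => a = b
  | l :: L, a, b => S l.1.1 l.1.2 ∧ a = src l ∧ Alt L (src (iv l)) b

/-- group elements leading from a node of type `a` to a node of type `b` -/
def Ty (a : V ⊕ K) (w : FreeGroup (V × K)) (b : V ⊕ K) : Prop := Alt S (wd w) a b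

variable {S}

theorem Ty_one {a b : V ⊕ K} : Ty S a 1 b ↔ a = b := Iff.rfl

theorem Ty_hd {a b : V ⊕ K} {w : FreeGroup (V × K)} {l : (V × K) × Bool} (h : hd w = some l) :
    Ty S a w b ↔ S l.1.1 l.1.2 ∧ a = src l ∧ Ty S (src (iv l)) ((lt l)⁻¹ * w) b := by
  rw [Ty, wd_tail h]; rfl

theorem Ty.lt_mul {b : V ⊕ K} {w : FreeGroup (V × K)} {l : (V × K) × Bool} (hl : S l.1.1 l.1.2)
    (h : Ty S (src (iv l)) w b) : Ty S (src l) (lt l * w) b := by
  by_cases e : hd w = some (iv l)
  · simpa [lt_iv] using ((Ty_hd e).1 h).2.2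
  · exact (Ty_hd (hd_cons e)).2 ⟨hl, rfl, by simpa using h⟩

theorem Ty_lt {l : (V × K) × Bool} (hl : S l.1.1 l.1.2) : Ty S (src l) (lt l) (src (iv l)) := by
  simpa using Ty.lt_mul (w := 1) hl rfl

theorem Ty.mul {b c : V ⊕ K} {w' : FreeGroup (V × K)} (h' : Ty S b w' c) (w : FreeGroup (V × K)) :
    ∀ {a}, Ty S a w b → Ty S a (w * w') c := by
  induction w using ind with
  | h1 => intro a h; rwa [Ty_one.1 h, one_mul]
  | h2 l w h ih =>
    intro a k
    obtain ⟨h1, rfl, h3⟩ := (Ty_hd (hd_cons h)).1 k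
    rw [mul_assoc]
    exact (ih (by simpa using h3)).lt_mul h1

theorem Ty.trans {a b c : V ⊕ K} {w w' : FreeGroup (V × K)} (h : Ty S a w b) (h' : Ty S b w' c) :
    Ty S a (w * w') c := h'.mul w h

theorem Ty.inv {b : V ⊕ K} {w : FreeGroup (V × K)} : ∀ {a}, Ty S a w b → Ty S b w⁻¹ a := by
  induction w using ind with
  | h1 => exact fun h => Eq.symm h
  | h2 l w h ih =>
    intro a k
    obtain ⟨h1, rfl, h3⟩ := (Ty_hd (hd_cons h)).1 k
    rw [mul_inv_rev, ← lt_iv]
    exact (ih (by simpa using h3)).trans (by simpa using Ty_lt (l := iv l) h1)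

/-- the voltage of an edge `u v` of class `k` -/
def vt (u : V) (k : K) (v : V) : FreeGroup (V × K) := lt ((u, k), true) * lt ((v, k), false)

theorem lt_false (x : V × K) : lt (x, false) = (lt (x, true))⁻¹ := lt_iv (x, true)

theorem vt_inv (u : V) (k : K) (v : V) : (vt u k v)⁻¹ = vt v k u := by simp [vt, lt_false]

theorem vt_mul (u : V) (k : K) (v w : V) : vt u k v * vt v k w = vt u k w := by
  simp [vt, lt_false]

theorem Ty_vt {u v : V} {k : K} (hu : S u k) (hv : S v k) : Ty S (.inl u) (vt u k v) (.inl v) :=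
  (Ty_lt (l := ((u, k), true)) hu).trans (Ty_lt (l := ((v, k), false)) hv)

theorem stepV {u0 u : V} {k : K} {w : FreeGroup (V × K)} (h : Ty S (.inl u0) w (.inl u))
    (hu : S u k) (v : V) (h1 : w ≠ 1) (h2 : w * vt u k v ≠ 1) : hd (w * vt u k v) = hd w := by
  have h3 : w * lt ((u, k), true) ≠ 1 := fun e => by
    have := h.trans (Ty_lt (l := ((u, k), true)) hu)
    rw [e] at this
    cases this
  rw [vt, ← mul_assoc] at h2 ⊢
  rw [hd_mul_lt _ _ h3 h2, hd_mul_lt _ _ h1 h3]

theorem stepK {k0 k : K} {u v : V} {w : FreeGroup (V × K)} (h : Ty S (.inr k0) w (.inl u))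
    (hu : S u k) (hv : S v k) :
    hd (w * vt u k v) = hd w ∨ (k0 = k ∧ w = lt ((u, k), false)) := by
  have h1 : w ≠ 1 := fun e => by rw [e] at h; cases h
  have h2 : w * vt u k v ≠ 1 := fun e => by
    have := h.trans (Ty_vt hu hv)
    rw [e] at this
    cases this
  by_cases h3 : w * lt ((u, k), true) = 1
  · have := h.trans (Ty_lt (l := ((u, k), true)) hu)
    rw [h3] at this
    exact Or.inr ⟨Sum.inr.inj this, by rw [lt_false]; exact eq_inv_of_mul_eq_one_left h3⟩
  · rw [vt, ← mul_assoc] at h2 ⊢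
    rw [hd_mul_lt _ _ h3 h2, hd_mul_lt _ _ h1 h3]
    exact Or.inl rfl

end Pool.Agent.Lib.NMX.LB
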