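import Pool.Agent.Lib.NMX.LBClass
import Pool.Agent.Lib.NMX.LBTree

set_option autoImplicit false

namespace Pool.Agent.Lib.NMX.LB

open Finset Classical

variable {V : Type} {M : SimpleGraph V}

/-- the group of the tree of classes -/
abbrev FG (M : SimpleGraph V) := FreeGroup (V × Quot (Sq M))

/-- the vertices of a class -/
def Sp (M : SimpleGraph V) (u : V) (k : Quot (Sq M)) : Prop := ∃ t, (CB M k).Adj u t

/-- the voltage of an edge -/
def vo (M : SimpleGraph V) (u v : V) : FG M := vt u (cls M u v) v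

theorem sp_l {u v : V} (h : M.Adj u v) : Sp M u (cls M u v) := ⟨v, h, rfl⟩

theorem sp_r {u v : V} (h : M.Adj u v) : Sp M v (cls M u v) := ⟨u, h.symm, cls_symm v u⟩

theorem vo_inv (u v : V) : (vo M u v)⁻¹ = vo M v u := by rw [vo, vt_inv, cls_symm]; rfl

theorem Ty_vo {u v : V} (h : M.Adj u v) : Ty (Sp M) (.inl u) (vo M u v) (.inl v) :=
  Ty_vt (sp_l h) (sp_r h)

theorem vo_sq {a b c d : V} (h1 : M.Adj a b) (h2 : M.Adj b c) (h3 : M.Adj a d) (h4 : M.Adj d c) :
    vo M a b * vo M b c = vo M a d * vo M d c := by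
  by_cases e1 : a = c
  · subst e1
    rw [← vo_inv a b, ← vo_inv a d, mul_inv_cancel, mul_inv_cancel]
  by_cases e2 : b = d
  · rw [e2]
  have q : Quad M a b c d := ⟨h1, h2, h4.symm, h3.symm, e1, e2⟩
  have k1 := q.cls
  have k2 := q.rot.cls
  have k3 := q.rot.rot.cls
  rw [vo, vo, vo, vo, cls_symm a d, cls_symm d c, ← k3, ← k2, ← k1, vt_mul, vt_mul]

/-- the parity of a group element -/
noncomputable def sg (col : Quot (Sq M) → V → Bool) : FG M →* ℤˣ :=
  FreeGroup.lift fun x => if col x.2 x.1 then -1 else 1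

variable {col : Quot (Sq M) → V → Bool}

theorem sg_lt (x : V × Quot (Sq M)) (b : Bool) :
    sg col (lt (x, b)) = if col x.2 x.1 then -1 else 1 := by
  have : sg col (lt (x, true)) = if col x.2 x.1 then -1 else 1 := FreeGroup.lift_apply_of
  cases b
  · rw [lt_false, map_inv, this, Int.units_inv_eq_self]
  · exact this

theorem sg_vo (hc : ∀ k a b, (CB M k).Adj a b → col k a ≠ col k b) {u v : V} (h : M.Adj u v) :
    sg col (vo M u v) = -1 := by
  have := hc _ u v ⟨h, rfl⟩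
  rw [vo, vt, map_mul, sg_lt, sg_lt]
  revert this
  cases col (cls M u v) u <;> cases col (cls M u v) v <;> simp

/-- the vertex through which a point is seen from a class -/
noncomputable def gate (w : FG M) (u : V) : V := ((hd w).map fun l => l.1.1).getD u

/-- the projection onto a class with pendant vertices -/
noncomputable def pj (col : Quot (Sq M) → V → Bool) (k : Quot (Sq M)) (w : FG M) (u : V) :
    V × Bool := (gate w u, decide (sg col w ≠ sg col (lt ((gate w u, k), false))))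

theorem gate_eq {w : FG M} {l : (V × Quot (Sq M)) × Bool} (h : hd w = some l) (u : V) :
    gate w u = l.1.1 := by simp [gate, h]

theorem gate_spec {k : Quot (Sq M)} {w : FG M} {u : V} (h : Ty (Sp M) (.inr k) w (.inl u)) :
    hd w = some ((gate w u, k), false) ∧ Sp M (gate w u) k := by
  rcases e : hd w with _ | ⟨⟨x, k'⟩, b⟩
  · rw [hd_none.1 e] at h
    cases h
  · obtain ⟨h1, h2, -⟩ := (Ty_hd e).1 h
    rw [gate_eq e]
    cases b <;> cases h2
    exact ⟨rfl, h1⟩

theorem pj_step (hc : ∀ k a b, (CB M k).Adj a b → col k a ≠ col k b) {k : Quot (Sq M)} {w : FG M}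
    {u v : V} (h : Ty (Sp M) (.inr k) w (.inl u)) (a : M.Adj u v) :
    (pd (CB M k)).Adj (pj col k w u) (pj col k (w * vo M u v) v) := by
  rcases stepK h (sp_l a) (sp_r a) with e | ⟨rfl, rfl⟩
  · have e1 := gate_spec h
    have e2 : gate (w * vo M u v) v = gate w u := gate_eq (e.trans e1.1) v
    refine Or.inr ⟨e2.symm, ?_, e1.2⟩
    simp only [pj, e2, map_mul, sg_vo hc a]
    generalize sg col (lt ((gate w u, k), false)) = y
    rcases Int.units_eq_one_or (sg col w) with e | e <;> rcases Int.units_eq_one_or y with rfl | rfl <;>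
      simp [e]
  · have e : lt ((u, cls M u v), false) * vo M u v = lt ((v, cls M u v), false) := by
      simp [vo, vt, lt_false]
    rw [e]
    refine Or.inl ?_
    simp only [pj, gate_eq (hd_lt _), ne_eq, not_true, decide_false, true_and]
    exact ⟨a, rfl⟩

variable {J : Type} [Fintype J]

/-- a family of points of the same colour seen from a node -/
def View (col : Quot (Sq M) → V → Bool) (a : V ⊕ Quot (Sq M)) (w : J → FG M) (u : J → V)
    (ε : ℤˣ) : Prop := ∀ i, Ty (Sp M) a (w i) (.inl (u i)) ∧ sg col (w i) = ε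

/-- the node is a median -/
def Med (w : J → FG M) : Prop := ∀ l, Fintype.card J < 2 * #{i | hd (w i) ≠ some l}

omit [Fintype J] in
theorem View.adm {k : Quot (Sq M)} {w : J → FG M} {u : J → V} {ε : ℤˣ}
    (h : View col (.inr k) w u ε) : Adm (CB M k) (col k) fun i => pj col k (w i) (u i) := by
  have : ∀ i, xor (col k (pj col k (w i) (u i)).1) (pj col k (w i) (u i)).2 = decide (ε ≠ 1) :=
    fun i => by
      simp only [pj, sg_lt, (h i).2]
      rcases Int.units_eq_one_or ε with rfl | rfl <;> cases col k (gate (w i) (u i)) <;> simp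
  exact ⟨fun i => (gate_spec (h i).1).2, fun i j => (this i).trans (this j).symm⟩

omit [Fintype J] in
theorem View.mul {a b : V ⊕ Quot (Sq M)} {w : J → FG M} {u : J → V} {ε : ℤˣ} {γ : FG M}
    (h : View col a w u ε) (hγ : Ty (Sp M) b γ a) :
    View col b (fun i => γ * w i) u (sg col γ * ε) :=
  fun i => ⟨hγ.trans (h i).1, by rw [map_mul, (h i).2]⟩

theorem exists_med (hJ : Odd (Fintype.card J)) (u : J → V) (N : ℕ) :
    ∀ (a : V ⊕ Quot (Sq M)) (w : J → FG M), (∀ i, Ty (Sp M) a (w i) (.inl (u i))) →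
      ∑ i, nm (w i) = N → ∃ γ b, Ty (Sp M) b γ a ∧ Med fun i => γ * w i := by
  induction N using Nat.strong_induction_on with
  | _ N ih =>
    intro a w h hN
    by_cases k : Med w
    · exact ⟨1, a, rfl, by simpa using k⟩
    simp only [Med, not_forall, not_lt] at k
    obtain ⟨l, k⟩ := k
    have c1 := card_filter_add_card_filter_not (s := (univ : Finset J)) fun i => hd (w i) = some l
    rw [card_univ] at c1
    have c2 : #{i | hd (w i) ≠ some l} < #{i | hd (w i) = some l} := by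
      obtain ⟨q, hq⟩ := hJ
      simp only [ne_eq] at k ⊢
      omega
    obtain ⟨i, hi⟩ := card_pos.1 (Nat.zero_lt_of_lt c2)
    obtain ⟨h1, rfl, -⟩ := (Ty_hd (mem_filter.1 hi).2).1 (h i)
    have hl : Ty (Sp M) (src (iv l)) (lt l)⁻¹ (src l) := (Ty_lt h1).inv
    have c3 : ∑ i, (nm ((lt l)⁻¹ * w i) + if hd (w i) = some l then 1 else 0) ≤
        ∑ i, (nm (w i) + if hd (w i) ≠ some l then 1 else 0) := sum_le_sum fun i _ => by
      by_cases e : hd (w i) = some l
      · simp [e, nm_tail e]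
      · simpa [e] using nm_lt_mul l (w i)
    rw [sum_add_distrib, sum_add_distrib, ← card_filter, ← card_filter] at c3
    obtain ⟨γ, b, g1, g2⟩ := ih (∑ i, nm ((lt l)⁻¹ * w i)) (by omega) _
      (fun i => (lt l)⁻¹ * w i) (fun i => hl.trans (h i)) rfl
    exact ⟨γ * (lt l)⁻¹, b, g1.trans hl, by simpa only [mul_assoc] using g2⟩

theorem nbr_of_Ty {u0 u : V} {w : FG M} (h : Ty (Sp M) (.inl u0) w (.inl u)) {t : V}
    (ht : M.Adj u t) : ∃ t, M.Adj u0 t := by
  rcases e : hd w with _ | ⟨⟨x, k'⟩, b⟩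
  · rw [hd_none.1 e] at h
    cases h
    exact ⟨t, ht⟩
  · obtain ⟨⟨t, h1⟩, h2, -⟩ := (Ty_hd e).1 h
    cases b <;> cases h2
    exact ⟨t, h1.1⟩

/-- the vertex chosen for a family seen from a median -/
noncomputable def out (col : Quot (Sq M) → V → Bool) (ψ : V → V)
    (μ : Quot (Sq M) → (J → V × Bool) → V) (a : V ⊕ Quot (Sq M)) (w : J → FG M) (u : J → V)
    (ε : ℤˣ) : V :=
  a.elim (fun u0 => if ε = 1 then u0 else ψ u0) fun k => μ k fun i => pj col k (w i) (u i)

section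
variable (hc : ∀ k a b, (CB M k).Adj a b → col k a ≠ col k b) {ψ : V → V}
  (hψ : ∀ u, (∃ t, M.Adj u t) → M.Adj u (ψ u)) {μ : Quot (Sq M) → (J → V × Bool) → V}
  (hμ : ∀ k, (∀ A u, Adm (CB M k) (col k) A → Fintype.card J < 2 * #{i | A i = (u, false)} →
    μ k A = u) ∧ ∀ (A A' : J → V × Bool) (σ : Equiv.Perm J), Adm (CB M k) (col k) A →
      Adm (CB M k) (col k) A' → (∀ i, (pd (CB M k)).Adj (A i) (A' (σ i))) →
        (CB M k).Adj (μ k A) (μ k A'))
  {w w' : J → FG M} {u u' : J → V} {ε ε' : ℤˣ} {γ : FG M} {σ : Equiv.Perm J}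
  (h : ∀ i, M.Adj (u i) (u' (σ i)) ∧ γ * w' (σ i) = w i * vo M (u i) (u' (σ i)))
include h

omit [Fintype J] in
theorem swap_rel (j : J) : M.Adj (u' j) (u (σ.symm j)) ∧
    γ⁻¹ * w (σ.symm j) = w' j * vo M (u' j) (u (σ.symm j)) := by
  obtain ⟨i, rfl⟩ := σ.surjective j
  rw [σ.symm_apply_apply, ← vo_inv, eq_mul_inv_iff_mul_eq, mul_assoc, ← (h i).2,
    inv_mul_cancel_left]
  exact ⟨(h i).1.symm, rfl⟩

theorem cross (m : Med w) (m' : Med w') (hγ : γ ≠ 1) :
    ∃ i, hd (w i * vo M (u i) (u' (σ i))) ≠ hd (w i) ∧ w i * vo M (u i) (u' (σ i)) ≠ 1 ∧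
      hd (w' (σ i) * vo M (u' (σ i)) (u i)) ≠ hd (w' (σ i)) ∧
        w' (σ i) * vo M (u' (σ i)) (u i) ≠ 1 := by
  obtain ⟨l, hl⟩ := Option.ne_none_iff_exists'.1 (mt hd_none.1 hγ)
  obtain ⟨l', hl'⟩ := Option.ne_none_iff_exists'.1 (mt hd_none.1 (inv_ne_one.2 hγ))
  obtain ⟨i, h1, h2⟩ := two_maj (m l) (t := {i | hd (w' (σ i)) ≠ some l'})
    ((m' l').trans_le (Nat.mul_le_mul_left _ (card_le_card_of_injOn σ.symm
      (fun j hj => by simpa using hj) fun _ _ _ _ e => σ.symm.injective e)))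
  have a1 := (mem_filter.1 h1).2
  have a2 := (mem_filter.1 h2).2
  have a3 : hd (γ * w' (σ i)) = some l := by
    rw [← hl, ← inv_inv γ]
    exact hd_inv_mul _ _ (inv_ne_one.2 hγ) (by rwa [hl'])
  have a4 : hd (γ⁻¹ * w i) = some l' := hl' ▸ hd_inv_mul _ _ hγ (by rwa [hl])
  have a5 := (swap_rel h (σ i)).2
  rw [σ.symm_apply_apply] at a5
  rw [(h i).2] at a3
  rw [a5] at a4
  exact ⟨i, a3 ▸ a1.symm, fun e => by simp [e] at a3, a4 ▸ a2.symm, fun e => by simp [e] at a4⟩

include hc hμ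

theorem adj_VK {u0 : V} {k : Quot (Sq M)} (v : View col (.inl u0) w u ε)
    (v' : View col (.inr k) w' u' ε') (m : Med w) (m' : Med w')
    (hγ : Ty (Sp M) (.inl u0) γ (.inr k)) :
    ε = 1 ∧ M.Adj u0 (μ k fun i => pj col k (w' i) (u' i)) := by
  have g1 : γ ≠ 1 := fun e => by rw [e] at hγ; cases hγ
  obtain ⟨i, a1, a2, a3, -⟩ := cross h m m' g1
  have b1 : w i = 1 := by_contra fun e => a1 (stepV (v i).1 (sp_l (h i).1) _ e a2)
  have b2 : ε = 1 := by rw [← (v i).2, b1, map_one]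
  have b3 : u0 = u i := by have := (v i).1; rw [b1] at this; cases this; rfl
  obtain ⟨b4, b5⟩ := (stepK (v' (σ i)).1 (sp_l (h i).1.symm) (sp_r (h i).1.symm)).resolve_left a3
  have b6 : γ⁻¹ = lt ((u0, k), false) := by
    have := (h i).2
    rw [b1, b5, one_mul, vo, vt, cls_symm (u i), ← b4, ← b3, mul_left_inj] at this
    rw [this, lt_false]
  have b7 := v.mul hγ.inv
  obtain ⟨l, hl⟩ := Option.ne_none_iff_exists'.1 (mt hd_none.1 g1)
  have b8 := (hμ k).1 _ u0 b7.adm ((m l).trans_le (Nat.mul_le_mul_left _ (card_le_card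
    fun j hj => by
      have := hd_inv_mul γ (w j) g1 (by rw [hl]; exact (mem_filter.1 hj).2)
      rw [b6, hd_lt] at this
      simp [pj, gate_eq this, b6, (v j).2, b2])))
  refine ⟨b2, b8 ▸ ((hμ k).2 _ _ σ b7.adm v'.adm fun j => ?_).1⟩
  have := pj_step hc (b7 j).1 (h j).1
  rwa [mul_assoc, ← (h j).2, inv_mul_cancel_left] at this

include hψ

theorem adj_out [Nonempty J] {a a' : V ⊕ Quot (Sq M)} (v : View col a w u ε)
    (v' : View col a' w' u' ε') (m : Med w) (m' : Med w') :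
    M.Adj (out col ψ μ a w u ε) (out col ψ μ a' w' u' ε') := by
  obtain ⟨i0⟩ := ‹Nonempty J›
  have hγ : Ty (Sp M) a γ a' := by
    rw [eq_mul_inv_of_mul_eq (h i0).2]
    exact ((v i0).1.trans (Ty_vo (h i0).1)).trans (v' _).1.inv
  rcases a with u0 | k <;> rcases a' with u0' | k' <;> simp only [out, Sum.elim_inl, Sum.elim_inr]
  · by_cases e : γ = 1
    · subst e
      cases hγ
      have b1 := congrArg (sg col) (h i0).2
      rw [one_mul, map_mul, (v _).2, (v' _).2, sg_vo hc (h i0).1] at b1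
      have b2 := hψ u0 (nbr_of_Ty (v i0).1 (h i0).1)
      rcases Int.units_eq_one_or ε with rfl | rfl <;> simp [b1, b2, b2.symm]
    · obtain ⟨i, a1, a2, a3, a4⟩ := cross h m m' e
      have b1 : w i = 1 := by_contra fun e => a1 (stepV (v i).1 (sp_l (h i).1) _ e a2)
      have b2 : w' (σ i) = 1 :=
        by_contra fun e => a3 (stepV (v' _).1 (sp_l (h i).1.symm) _ e a4)
      have b3 := v i
      have b4 := v' (σ i)
      rw [b1, map_one] at b3
      rw [b2, map_one] at b4
      rw [if_pos b3.2.symm, if_pos b4.2.symm, Sum.inl.inj b3.1, Sum.inl.inj b4.1]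
      exact (h i).1
  · obtain ⟨b1, b2⟩ := adj_VK hc hμ h v v' m m' hγ
    rwa [if_pos b1]
  · obtain ⟨b1, b2⟩ := adj_VK hc hμ (swap_rel h) v' v m' m hγ.inv
    rw [if_pos b1]
    exact b2.symm
  · by_cases e : γ = 1
    · subst e
      cases hγ
      refine ((hμ k).2 _ _ σ v.adm v'.adm fun j => ?_).1
      have := pj_step hc (v j).1 (h j).1
      rwa [← (h j).2, one_mul] at this
    · obtain ⟨i, a1, -, a3, -⟩ := cross h m m' e
      obtain ⟨-, b1⟩ := (stepK (v i).1 (sp_l (h i).1) (sp_r (h i).1)).resolve_left a1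
      obtain ⟨-, b2⟩ := (stepK (v' _).1 (sp_l (h i).1.symm) (sp_r (h i).1.symm)).resolve_left a3
      have := (h i).2
      rw [b1, b2, vo, vt, cls_symm (u' (σ i)), lt_false (u i, _), inv_mul_cancel_left] at this
      exact absurd (mul_eq_right.1 this) e

end

/-- The equivariant centre of a family of points. -/
theorem exists_centre [Finite V] [Nonempty V] (hH : ∀ k, Helly (CB M k))
    (hc : ∀ k a b, (CB M k).Adj a b → col k a ≠ col k b) (hJ : Odd (Fintype.card J)) :
    ∃ o : (J → FG M) → (J → V) → V, ∀ (w w' : J → FG M) (u u' : J → V) (a a' : V ⊕ Quot (Sq M))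
      (ε ε' : ℤˣ) (γ : FG M) (σ : Equiv.Perm J), View col a w u ε → View col a' w' u' ε' →
      (∀ i, M.Adj (u i) (u' (σ i)) ∧ γ * w' (σ i) = w i * vo M (u i) (u' (σ i))) →
        M.Adj (o w u) (o w' u') := by
  have : Nonempty J := Fintype.card_pos_iff.1 hJ.pos
  choose μ hμ using fun k => exists_maj (hH k) (hc k) J
  have hψ : ∀ u, ∃ v, (∃ t, M.Adj u t) → M.Adj u v := fun u => by
    by_cases k : ∃ t, M.Adj u t
    exacts [k.imp fun _ h _ => h, ⟨u, fun t => absurd t k⟩]
  choose ψ hψ using hψ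
  have key : ∀ (w : J → FG M) (u : J → V), ∃ (γ : FG M) (b : V ⊕ Quot (Sq M)) (η : ℤˣ),
      (∃ a ε, View col a w u ε) → View col b (fun i => γ * w i) u η ∧ Med fun i => γ * w i := by
    intro w u
    by_cases k : ∃ a ε, View col a w u ε
    · obtain ⟨a, ε, k⟩ := k
      obtain ⟨γ, b, h1, h2⟩ := exists_med hJ u _ a w (fun i => (k i).1) rfl
      exact ⟨γ, b, _, fun _ => ⟨k.mul h1, h2⟩⟩
    · exact ⟨1, .inl (Classical.arbitrary V), 1, fun t => absurd t k⟩
  choose g b η key using key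
  refine ⟨fun w u => out col ψ μ (b w u) (fun i => g w u * w i) u (η w u),
    fun w w' u u' a a' ε ε' γ σ v v' h => ?_⟩
  obtain ⟨h1, h2⟩ := key w u ⟨a, ε, v⟩
  obtain ⟨h3, h4⟩ := key w' u' ⟨a', ε', v'⟩
  refine adj_out hc hψ hμ (γ := g w u * γ * (g w' u')⁻¹) (σ := σ) (fun i => ⟨(h i).1, ?_⟩)
    h1 h3 h2 h4
  rw [mul_assoc (g w u) (w i), ← (h i).2]
  group

end Pool.Agent.Lib.NMX.LB
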