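import Pool.Agent.Lib.NMX.LBIff

set_option autoImplicit false

namespace Pool.Agent.Lib.NMX.LB

open unitInterval Finset Classical Filter Topology AA

variable {n : ℕ} {p : I}

theorem none_approx {V ι : Type} [Finite V] (D : ι → Set (Sym2 V)) (A : ι → Set (SimpleGraph V))
    (h : ∀ i, Dep (D i) (A i)) {π : ℝ} (hπ : ∀ i, Pr p (A i) = π) (R : ι → ι → Prop)
    (hR : ∀ i j, ¬ R i j → Disjoint (D i) (D j)) (s : Finset ι) :
    |Pr p {M | ∀ i ∈ s, M ∉ A i} - (1 - π) ^ #s| ≤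
      ∑ i ∈ s, ∑ j ∈ s with j ≠ i ∧ R i j, (π * π + Pr p (A i ∩ A j)) := by
  induction s using Finset.induction_on with
  | empty => simp [Pr_univ]
  | insert a s ha ih =>
    have π0 : 0 ≤ π := hπ a ▸ Pr_nonneg _ _
    have π1 : π ≤ 1 := hπ a ▸ Pr_le_one _
    have t0 : ∀ i j, 0 ≤ π * π + Pr p (A i ∩ A j) := fun i j =>
      add_nonneg (mul_self_nonneg _) (Pr_nonneg _ _)
    have e1 : Pr p ({M | ∀ i ∈ s, M ∉ A i} ∩ A a) + Pr p {M | ∀ i ∈ insert a s, M ∉ A i} =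
        Pr p {M | ∀ i ∈ s, M ∉ A i} := by
      rw [show {M | ∀ i ∈ insert a s, M ∉ A i} = {M | ∀ i ∈ s, M ∉ A i} \ A a by
        ext M
        simp [and_comm]]
      exact MeasureTheory.measureReal_inter_add_sdiff (meas _)
    have e2 : Pr p (A a ∩ {M | ∀ i ∈ s.filter (¬ R a ·), M ∉ A i}) =
        π * Pr p {M | ∀ i ∈ s.filter (¬ R a ·), M ∉ A i} := by
      rw [← hπ a]
      exact indep2 (D' := {e | ∃ i, ¬ R a i ∧ e ∈ D i}) (h a) (fun M M' e k i hi =>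
        (h i).compl M M' (fun x hx => e x ⟨i, (mem_filter.1 hi).2, hx⟩) (k i hi))
        (Set.disjoint_left.2 fun e a1 ⟨i, a2, a3⟩ => Set.disjoint_left.1 (hR a i a2) a1 a3)
    have b1 : Pr p ({M | ∀ i ∈ s, M ∉ A i} ∩ A a) ≤
        Pr p (A a ∩ {M | ∀ i ∈ s.filter (¬ R a ·), M ∉ A i}) :=
      Pr_mono fun M k => ⟨k.2, fun i hi => k.1 i (mem_filter.1 hi).1⟩
    have b2 : Pr p {M | ∀ i ∈ s, M ∉ A i} ≤ Pr p {M | ∀ i ∈ s.filter (¬ R a ·), M ∉ A i} :=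
      Pr_mono fun M k i hi => k i (mem_filter.1 hi).1
    have b3 : Pr p (A a ∩ {M | ∀ i ∈ s.filter (¬ R a ·), M ∉ A i}) ≤
        Pr p ({M | ∀ i ∈ s, M ∉ A i} ∩ A a) + ∑ j ∈ s with R a j, Pr p (A a ∩ A j) :=
      le_trans (Pr_mono fun M k => (_root_.em (∀ i ∈ s, M ∉ A i)).imp (fun t => ⟨t, k.1⟩) fun t => by
        push Not at t
        obtain ⟨i, a1, a2⟩ := t
        exact ⟨i, mem_filter.2 ⟨a1, by_contra fun r => k.2 i (mem_filter.2 ⟨a1, r⟩) a2⟩, k.1, a2⟩)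
        ((Pr_union _ {M | ∃ j ∈ s.filter (R a ·), M ∈ A a ∩ A j}).trans
          (add_le_add_right (Pr_le_sum _ _ _ fun _ k => k) _))
    have b4 : Pr p {M | ∀ i ∈ s.filter (¬ R a ·), M ∉ A i} ≤
        Pr p {M | ∀ i ∈ s, M ∉ A i} + ∑ j ∈ s with R a j, Pr p (A j) :=
      le_trans (Pr_mono fun M k => (_root_.em (∀ i ∈ s, M ∉ A i)).imp id fun t => by
        push Not at t
        obtain ⟨i, a1, a2⟩ := t
        exact ⟨i, mem_filter.2 ⟨a1, by_contra fun r => k i (mem_filter.2 ⟨a1, r⟩) a2⟩, a2⟩)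
        ((Pr_union _ {M | ∃ j ∈ s.filter (R a ·), M ∈ A j}).trans
          (add_le_add_right (Pr_le_sum _ _ _ fun _ k => k) _))
    have b5 : π * ∑ j ∈ s with R a j, Pr p (A j) + ∑ j ∈ s with R a j, Pr p (A a ∩ A j) ≤
        ∑ j ∈ insert a s with j ≠ a ∧ R a j, (π * π + Pr p (A a ∩ A j)) := by
      simp only [hπ, mul_sum, ← sum_add_distrib]
      exact sum_le_sum_of_subset_of_nonneg (fun j hj => mem_filter.2 ⟨mem_insert_of_mem
        (mem_filter.1 hj).1, fun e => ha (e ▸ (mem_filter.1 hj).1), (mem_filter.1 hj).2⟩)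
        fun _ _ _ => t0 _ _
    have b6 : ∑ i ∈ s, ∑ j ∈ s with j ≠ i ∧ R i j, (π * π + Pr p (A i ∩ A j)) ≤
        ∑ i ∈ s, ∑ j ∈ insert a s with j ≠ i ∧ R i j, (π * π + Pr p (A i ∩ A j)) :=
      sum_le_sum fun i _ => sum_le_sum_of_subset_of_nonneg
        (filter_subset_filter _ (subset_insert _ _)) fun _ _ _ => t0 _ _
    have b7 : 0 ≤ ∑ j ∈ s with R a j, Pr p (A j) := sum_nonneg fun _ _ => Pr_nonneg _ _
    have b8 : 0 ≤ ∑ j ∈ s with R a j, Pr p (A a ∩ A j) := sum_nonneg fun _ _ => Pr_nonneg _ _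
    have b9 := mul_le_mul_of_nonneg_left b4 π0
    have b10 := mul_le_mul_of_nonneg_left b2 π0
    have b11 := (abs_nonneg _).trans ih
    rw [sum_insert ha, card_insert_of_notMem ha, pow_succ]
    rw [abs_le] at ih ⊢
    have c1 := mul_le_mul_of_nonneg_left ih.1 (sub_nonneg.2 π1)
    have c2 := mul_le_mul_of_nonneg_left ih.2 (sub_nonneg.2 π1)
    have c3 := mul_nonneg π0 b11
    have c4 := mul_nonneg π0 b7
    constructor <;> linarith

/-- the automorphisms -/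
def au : Fin 6 → Fin 7 → Fin 7 := ![![0, 1, 2, 3, 4, 5, 6], ![0, 2, 1, 3, 4, 6, 5],
  ![0, 1, 3, 2, 6, 5, 4], ![0, 3, 2, 1, 5, 4, 6], ![0, 2, 3, 1, 5, 6, 4], ![0, 3, 1, 2, 6, 4, 5]]

theorem au_inj : ∀ s i j, au s i = au s j → i = j := by decide
theorem au_surj : ∀ s j, ∃ i, au s i = j := by decide
theorem au_edge : ∀ s k, ∃ k', e1 k' = au s (e1 k) ∧ e2 k' = au s (e2 k) := by decide

def ad (a b : Fin 7) : Prop := ∃ k, (e1 k = a ∧ e2 k = b) ∨ (e1 k = b ∧ e2 k = a)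

instance (a b : Fin 7) : Decidable (ad a b) := by unfold ad; infer_instance

set_option synthInstance.maxSize 4000 in
theorem ad_rigid : ∀ a0 a1, ad a0 a1 → ∀ a2, ad a0 a2 → a1 ≠ a2 → ∀ a3, ad a0 a3 → a1 ≠ a3 →
    a2 ≠ a3 → ∀ a4, ad a4 a1 → ad a4 a2 → a0 ≠ a4 → ∀ a5, ad a5 a2 → ad a5 a3 → a0 ≠ a5 →
      ∀ a6, ad a6 a1 → ad a6 a3 → a0 ≠ a6 →
        (a0 = 0 ∧ a1 = 1 ∧ a2 = 2 ∧ a3 = 3 ∧ a4 = 4 ∧ a5 = 5 ∧ a6 = 6) ∨ (a1 = 2 ∧ a2 = 1) ∨
          (a1 = 3 ∧ a2 = 1) ∨ (a1 = 3 ∧ a2 = 2) ∨ (a2 = 3 ∧ a3 = 2) ∨ (a2 = 3 ∧ a3 = 1) := by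
  decide +kernel

theorem e_cov : ∀ i, ∃ k, e1 k = i ∨ e2 k = i := by decide

theorem e_bal' : ∀ J : Finset (Fin 7), J ≠ ∅ →
    64 ≤ 7 * max 1 #(univ.filter fun k => ¬ (e1 k ∈ J ∧ e2 k ∈ J)) + 9 * #J := by decide +kernel

def Srt (f : Fin 7 ↪ Fin n) : Prop := f 1 < f 2 ∧ f 2 < f 3

noncomputable def emb (s : Fin 6) : Fin 7 ≃ Fin 7 := Equiv.ofBijective (au s) ⟨au_inj s, au_surj s⟩

theorem srt_sum (f : Fin 7 ↪ Fin n) :
    ∑ s, (if Srt ((emb s).toEmbedding.trans f) then 1 else 0) = 1 := by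
  have h1 : (f 1).val ≠ (f 2).val := fun e => absurd (f.injective (Fin.ext e)) (by decide)
  have h2 : (f 1).val ≠ (f 3).val := fun e => absurd (f.injective (Fin.ext e)) (by decide)
  have h3 : (f 2).val ≠ (f 3).val := fun e => absurd (f.injective (Fin.ext e)) (by decide)
  have e : ∀ s, Srt ((emb s).toEmbedding.trans f) ↔
      (f (au s 1)).val < f (au s 2) ∧ (f (au s 2)).val < f (au s 3) := fun _ => Iff.rfl
  simp only [e, Fin.sum_univ_six]
  change ((((((if (f 1).val < f 2 ∧ (f 2).val < f 3 then 1 else 0) +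
    if (f 2).val < f 1 ∧ (f 1).val < f 3 then 1 else 0) +
    if (f 1).val < f 3 ∧ (f 3).val < f 2 then 1 else 0) +
    if (f 3).val < f 2 ∧ (f 2).val < f 1 then 1 else 0) +
    if (f 2).val < f 3 ∧ (f 3).val < f 1 then 1 else 0) +
    if (f 3).val < f 1 ∧ (f 1).val < f 2 then 1 else 0) = 1
  split_ifs <;> omega

theorem srt_card : 6 * #{f : Fin 7 ↪ Fin n | Srt f} = n.descFactorial 7 := by
  have h : ∀ s, ∑ f : Fin 7 ↪ Fin n, (if Srt ((emb s).toEmbedding.trans f) then 1 else 0) =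
      #{f : Fin 7 ↪ Fin n | Srt f} := fun s => by
    rw [card_filter]
    exact Fintype.sum_equiv (Equiv.embeddingCongr (emb s).symm (Equiv.refl _)) _ _ fun f => rfl
  have := sum_congr rfl fun (f : Fin 7 ↪ Fin n) (_ : f ∈ univ) => srt_sum f
  rw [sum_comm] at this
  simpa [h] using this

/-- the copy `f` is present -/
def Cp (f : Fin 7 ↪ Fin n) (K : Finset (Fin 9)) : Set (SimpleGraph (Fin n)) :=
  {M | ∀ k ∈ K, M.Adj (f (e1 k)) (f (e2 k))}

theorem Pr_Cp (f : Fin 7 ↪ Fin n) (K : Finset (Fin 9)) : Pr p (Cp f K) = p ^ #K :=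
  Pr_edges K _ _ (fun _ _ e => e12 _ _ (f.injective e)) fun _ _ _ _ e => by
    rcases Sym2.eq_iff.1 e with e | e
    · exact e_inj _ _ (f.injective e.1) (f.injective e.2)
    · exact absurd (f.injective e.1) (e12 _ _)

theorem cub_iff (M : SimpleGraph (Fin n)) :
    ¬ Cub M ↔ ∀ f ∈ ({f | Srt f} : Finset (Fin 7 ↪ Fin n)), M ∉ Cp f univ := by
  refine ⟨fun h f _ k => h ⟨f, f.injective, fun t => k t (mem_univ _)⟩, fun h ⟨f, h1, h2⟩ => ?_⟩
  obtain ⟨s, hs⟩ : ∃ s, Srt ((emb s).toEmbedding.trans ⟨f, h1⟩) := by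
    by_contra k
    exact absurd ((srt_sum ⟨f, h1⟩).symm.trans (sum_eq_zero fun s _ => if_neg fun t => k ⟨s, t⟩))
      one_ne_zero
  refine h _ (by simpa using hs) fun k _ => ?_
  obtain ⟨k', a, b⟩ := au_edge s k
  have := h2 k'
  rwa [a, b] at this

theorem Pr_Cp2 (f g : Fin 7 ↪ Fin n) (K : Finset (Fin 9))
    (h : ∀ k ∈ K, ∀ k', s(f (e1 k'), f (e2 k')) ≠ s(g (e1 k), g (e2 k))) :
    Pr p (Cp f univ ∩ Cp g univ) ≤ p ^ 9 * p ^ #K := by
  refine le_trans (Pr_mono (T := Cp f univ ∩ Cp g K) fun M hM =>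
    ⟨hM.1, fun k _ => hM.2 k (mem_univ k)⟩) ?_
  rw [Cp, Cp, indep2 (dep_edges _ _ _) (dep_edges _ _ _), ← Cp, ← Cp, Pr_Cp, Pr_Cp]
  · simp
  · refine Set.disjoint_left.2 ?_
    rintro _ ⟨k, -, rfl⟩ ⟨k', h1, e⟩
    exact h k' h1 k e

theorem new_edge {f g : Fin 7 ↪ Fin n} (hf : Srt f) (hg : Srt g) (h : g ≠ f) :
    ∃ k, ∀ k', s(f (e1 k'), f (e2 k')) ≠ s(g (e1 k), g (e2 k)) := by
  by_contra z
  push Not at z
  have a : ∀ i, ∃ j, f j = g i := fun i => by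
    obtain ⟨k, t⟩ := e_cov i
    obtain ⟨k', e⟩ := z k
    rcases Sym2.eq_iff.1 e with e | e <;> rcases t with rfl | rfl
    exacts [⟨_, e.1⟩, ⟨_, e.2⟩, ⟨_, e.2⟩, ⟨_, e.1⟩]
  choose τ hτ using a
  have b : ∀ k, ad (τ (e1 k)) (τ (e2 k)) := fun k => by
    obtain ⟨k', e⟩ := z k
    rw [← hτ, ← hτ] at e
    exact ⟨k', (Sym2.eq_iff.1 e).imp (fun e => ⟨f.injective e.1, f.injective e.2⟩)
      fun e => ⟨f.injective e.1, f.injective e.2⟩⟩
  have c : ∀ {i j}, i ≠ j → τ i ≠ τ j := fun t e =>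
    t (g.injective ((hτ _).symm.trans (e ▸ hτ _)))
  rw [Srt, ← hτ, ← hτ, ← hτ] at hg
  obtain ⟨f1, f2⟩ := hf
  rcases ad_rigid (τ 0) (τ 1) (b 0) (τ 2) (b 1) (c (by decide)) (τ 3) (b 2) (c (by decide))
    (c (by decide)) (τ 4) (b 3) (b 4) (c (by decide)) (τ 5) (b 5) (b 6) (c (by decide))
    (τ 6) (b 7) (b 8) (c (by decide)) with d | d | d | d | d | d
  · refine h (Function.Embedding.ext fun i => (hτ i).symm.trans (congrArg f ?_))
    fin_cases i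
    exacts [d.1, d.2.1, d.2.2.1, d.2.2.2.1, d.2.2.2.2.1, d.2.2.2.2.2.1, d.2.2.2.2.2.2]
  all_goals
    rw [d.1, d.2] at hg
    omega

theorem near_sum {C t : ℝ} (C1 : 1 ≤ C) (hC : (n : ℝ) ^ 7 * p ^ 9 ≤ C) (t0 : 0 ≤ t)
    (ht : C ^ 7 * p ≤ t ^ 7) {f : Fin 7 ↪ Fin n} (hf : Srt f) (T : Finset (Fin 7 ↪ Fin n))
    (hT : ∀ g ∈ T, Srt g ∧ g ≠ f ∧ ∃ i j, f j = g i) :
    ∑ g ∈ T, ((p : ℝ) ^ 9 * p ^ 9 + Pr p (Cp f univ ∩ Cp g univ)) ≤
      128 * (7 ^ 7 * t * (2 * p ^ 9)) := by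
  have p0 : (0 : ℝ) ≤ p := p.2.1
  rw [← sum_fiberwise (g := fun g : Fin 7 ↪ Fin n => ({i | ∃ j, f j = g i} : Finset (Fin 7)))]
  refine (sum_le_card_nsmul _ _ (7 ^ 7 * t * (2 * (p : ℝ) ^ 9)) fun J _ => ?_).trans (by simp)
  rcases eq_or_ne J ∅ with rfl | hJ
  · rw [sum_eq_zero]
    · positivity
    · intro g hg
      simp only [mem_filter, filter_eq_empty_iff] at hg
      obtain ⟨-, -, i, a⟩ := hT g hg.1
      exact absurd a (hg.2 (mem_univ i))
  have b1 := e_bal' J hJ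
  have b2 : #J ≤ 7 := (card_le_univ _).trans (by simp)
  have b3 : #(univ.filter fun k => ¬ (e1 k ∈ J ∧ e2 k ∈ J)) ≤ 9 :=
    (card_le_univ _).trans (by simp)
  refine (sum_le_card_nsmul _ _ ((p : ℝ) ^ max 1 #(univ.filter fun k => ¬ (e1 k ∈ J ∧ e2 k ∈ J)) *
    (2 * p ^ 9)) fun g hg => ?_).trans ?_
  · obtain ⟨a0, rfl⟩ := mem_filter.1 hg
    obtain ⟨a1, a2, -⟩ := hT g a0
    have c1 := pow_le_pow_of_le_one p0 p.2.2 (max_le (show 1 ≤ 9 by norm_num) b3)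
    have c2 : Pr p (Cp f univ ∩ Cp g univ) ≤ p ^ 9 * p ^ max 1 #(univ.filter fun k =>
        ¬ (e1 k ∈ ({i | ∃ j, f j = g i} : Finset _) ∧
          e2 k ∈ ({i | ∃ j, f j = g i} : Finset _))) := by
      rcases max_choice 1 _ with e | e <;> rw [e]
      · obtain ⟨k, hk⟩ := new_edge hf a1 a2
        exact Pr_Cp2 f g {k} fun k' h => mem_singleton.1 h ▸ hk
      · refine Pr_Cp2 f g _ fun k h k' e => (mem_filter.1 h).2 ?_
        simp only [mem_filter, mem_univ, true_and]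
        rcases Sym2.eq_iff.1 e with e | e
        exacts [⟨⟨_, e.1⟩, _, e.2⟩, ⟨⟨_, e.2⟩, _, e.1⟩]
    nlinarith [mul_le_mul_of_nonneg_left c1 (pow_nonneg p0 9)]
  · rw [nsmul_eq_mul, ← mul_assoc]
    refine mul_le_mul_of_nonneg_right ?_ (by positivity)
    generalize max 1 #(univ.filter fun k => ¬ (e1 k ∈ J ∧ e2 k ∈ J)) = k at *
    have c1 := card_le_card_of_injOn (s := {g ∈ T | ({i | ∃ j, f j = g i} : Finset (Fin 7)) = J})
      (t := Fintype.piFinset fun i => if i ∈ J then univ.map f else univ) (fun g => ⇑g)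
      (fun g hg => by
        rw [mem_coe, Fintype.mem_piFinset]
        intro i
        split_ifs with t
        · rw [← (mem_filter.1 hg).2] at t
          simpa using t
        · exact mem_univ _) fun _ _ _ _ e => DFunLike.coe_injective e
    rw [Fintype.card_piFinset] at c1
    simp only [apply_ite card, card_map, card_univ, Fintype.card_fin, prod_ite, prod_const,
      filter_not, filter_mem_eq_inter, univ_inter, card_univ_sdiff] at c1
    have c2 : (n : ℝ) ^ (7 - #J) * p ^ k ≤ t := by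
      refine le_of_pow_le_pow_left₀ (n := 7) (by norm_num) t0 (le_trans ?_ ((
        mul_le_mul_of_nonneg_right ((pow_le_pow_left₀ (by positivity) hC (7 - #J)).trans
          (pow_le_pow_right₀ C1 (Nat.sub_le _ _))) p0).trans ht))
      rw [mul_pow, mul_pow, ← pow_mul, ← pow_mul, ← pow_mul, ← pow_mul, mul_comm _ 7, mul_assoc,
        ← pow_succ]
      exact mul_le_mul_of_nonneg_left (pow_le_pow_of_le_one p0 p.2.2 (by omega)) (by positivity)
    have c3 := c1.trans (Nat.mul_le_mul_right _ (Nat.pow_le_pow_right (by norm_num) b2))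
    refine (mul_le_mul_of_nonneg_right (Nat.cast_le.2 c3) (by positivity)).trans ?_
    push_cast
    rw [mul_assoc]
    gcongr
    norm_num

theorem pois_bound {C t : ℝ} (C1 : 1 ≤ C) (hC : (n : ℝ) ^ 7 * p ^ 9 ≤ C) (t0 : 0 ≤ t)
    (ht : C ^ 7 * p ≤ t ^ 7) :
    |Pr p {M : SimpleGraph (Fin n) | ¬ Cub M} - Real.exp (-(n.descFactorial 7 * p ^ 9 / 6))| ≤
      C * (256 * 7 ^ 7 * t + p ^ 9) := by
  have p0 : (0 : ℝ) ≤ p := p.2.1
  have p1 : (p : ℝ) ^ 9 ≤ 1 := pow_le_one₀ p0 p.2.2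
  have p2 := pow_nonneg p0 9
  have a1 := none_approx (p := p) (fun f : Fin 7 ↪ Fin n => {e | ∃ k ∈ univ,
    e = s(f (e1 k), f (e2 k))}) (fun f => Cp f univ) (fun f => dep_edges _ _ _) (π := p ^ 9)
    (fun f => by simp [Pr_Cp]) (fun f g => ∃ i j, f j = g i) (fun f g h => by
      refine Set.disjoint_left.2 ?_
      rintro _ ⟨k, -, rfl⟩ ⟨k', -, e⟩
      rcases Sym2.eq_iff.1 e with e | e <;> exact h ⟨_, _, e.1⟩) {f | Srt f}
  have a2 := a1.trans (sum_le_card_nsmul _ _ _ fun f hf =>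
    near_sum C1 hC t0 ht (mem_filter.1 hf).2 _ fun g hg => by simpa using hg)
  have a3 : (6 : ℝ) * #{f : Fin 7 ↪ Fin n | Srt f} = n.descFactorial 7 := by
    exact_mod_cast srt_card
  have a4 : (n.descFactorial 7 : ℝ) ≤ n ^ 7 := by exact_mod_cast Nat.descFactorial_le_pow n 7
  simp only [cub_iff]
  rw [← a3] at a4 ⊢
  generalize #{f : Fin 7 ↪ Fin n | Srt f} = m at *
  have a5 : m * (p : ℝ) ^ 9 ≤ C := by
    nlinarith [mul_le_mul_of_nonneg_right a4 p2, mul_nonneg m.cast_nonneg p2]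
  generalize (p : ℝ) ^ 9 = π at *
  have a6 := abs_pow_sub_pow_le (1 - π) (Real.exp (-π)) m
  have a7 := Real.abs_exp_sub_one_sub_id_le (x := -π) (by rwa [abs_neg, abs_of_nonneg p2])
  have a8 : max |1 - π| |Real.exp (-π)| ^ (m - 1) ≤ 1 := pow_le_one₀ (by positivity) (max_le
    (by rw [abs_le]; constructor <;> linarith)
    (by rw [Real.abs_exp, Real.exp_le_one_iff]; linarith))
  rw [← Real.exp_nat_mul, abs_sub_comm (1 - π), show Real.exp (-π) - (1 - π) =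
    Real.exp (-π) - 1 - -π by ring] at a6
  have a9 := a6.trans (mul_le_mul (mul_le_mul_of_nonneg_right a7 m.cast_nonneg) a8 (by positivity)
    (by positivity))
  rw [show -(6 * m * π / 6) = m * -π by ring]
  refine (abs_sub_le _ _ _).trans ((add_le_add a2 a9).trans ?_)
  rw [nsmul_eq_mul]
  nlinarith [mul_le_mul_of_nonneg_right a5 t0, mul_le_mul_of_nonneg_right a5 p2]

theorem pois_cub (p : ℕ → I) {c : ℝ}
    (h : Tendsto (fun n : ℕ => (n : ℝ) ^ 7 * (p n : ℝ) ^ 9) atTop (𝓝 c)) :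
    Tendsto (fun n => Pr (p n) {M : SimpleGraph (Fin n) | ¬ Cub M}) atTop
      (𝓝 (Real.exp (-(c / 6)))) := by
  have h1 : Tendsto (fun n : ℕ => (n.descFactorial 7 : ℝ) * (p n : ℝ) ^ 9) atTop (𝓝 c) :=
    ((isEquivalent_descFactorial 7).mul Asymptotics.IsEquivalent.refl).symm.tendsto_nhds h
  have h2 : Tendsto (fun n : ℕ => (p n : ℝ) ^ 9) atTop (𝓝 0) := by
    refine (h.div_atTop (tendsto_pow_atTop (show 7 ≠ 0 by norm_num) |>.comp
      tendsto_natCast_atTop_atTop)).congr' ?_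
    filter_upwards [eventually_gt_atTop 0] with n hn
    simp only [Function.comp]
    field_simp
  have h3 : Tendsto (fun n : ℕ => (p n : ℝ)) atTop (𝓝 0) :=
    (h2.rpow_const_nhds_zero (p := ((9 : ℕ) : ℝ)⁻¹) (by positivity)).congr fun n =>
      Real.pow_rpow_inv_natCast (p n).2.1 (by norm_num)
  have h4 := (h3.const_mul ((|c| + 1) ^ 7))
  rw [mul_zero] at h4
  have h5 := (((h4.rpow_const_nhds_zero (p := ((7 : ℕ) : ℝ)⁻¹) (by positivity)).const_mul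
    (256 * 7 ^ 7)).add h2).const_mul (|c| + 1)
  simp only [mul_zero, add_zero] at h5
  refine ((Real.continuous_exp.tendsto _).comp (h1.div_const 6).neg).congr_dist
    (squeeze_zero' (Eventually.of_forall fun _ => dist_nonneg) ?_ h5)
  filter_upwards [h.eventually_le_const (show c < |c| + 1 by linarith [le_abs_self c])] with n a
  have b : 0 ≤ (|c| + 1) ^ 7 * (p n : ℝ) := by have := (p n).2.1; positivity
  rw [dist_comm]
  exact pois_bound (by linarith [abs_nonneg c]) a (Real.rpow_nonneg b _)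
    (Real.rpow_inv_natCast_pow b (by norm_num)).ge

theorem pois (p : ℕ → I) {c : ℝ}
    (h : Tendsto (fun n : ℕ => (n : ℝ) ^ 7 * (p n : ℝ) ^ 9) atTop (𝓝 c)) :
    Tendsto (fun n => Pr (p n) {M : SimpleGraph (Fin n) | Multiplicative M}) atTop
      (𝓝 (Real.exp (-(c / 6)))) := by
  have h0 := (iff_cub p).const_sub 1
  rw [sub_self] at h0
  refine (pois_cub p h).congr_dist (squeeze_zero (fun _ => dist_nonneg) (fun n => ?_) h0)
  rw [← Pr_compl, Real.dist_eq, abs_le]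
  have a1 : Pr (p n) {M : SimpleGraph (Fin n) | Multiplicative M} ≤ _ :=
    le_trans (Pr_mono fun M hM => (_root_.em (¬ Cub M)).imp id fun t k => t (k.1 hM))
      (Pr_union {M | ¬ Cub M} {M | Multiplicative M ↔ ¬ Cub M}ᶜ)
  have a2 : Pr (p n) {M : SimpleGraph (Fin n) | ¬ Cub M} ≤ _ :=
    le_trans (Pr_mono fun M hM => (_root_.em (Multiplicative M)).imp id fun t k => t (k.2 hM))
      (Pr_union {M | Multiplicative M} {M | Multiplicative M ↔ ¬ Cub M}ᶜ)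
  constructor <;> linarith

end Pool.Agent.Lib.NMX.LB
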