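import Pool.Agent.Lib.NMX.LBMain
import Pool.Agent.Lib.NMX.AAUpper

set_option autoImplicit false

namespace Pool.Agent.Lib.NMX.LB

open unitInterval Finset Classical Filter Topology AA

theorem prob_dense {n : ℕ} {p : I} {t : ℝ} (c : ℕ) (t0 : 0 ≤ t)
    (ht : ∀ v, 1 ≤ v → v ≤ 10 → ((n : ℝ) ^ 7 * (p : ℝ) ^ 9) ^ v * p ^ c ≤ t ^ 7) :
    Pr p {M : SimpleGraph (Fin n) | ∃ (W : Finset (Fin n)) (E : Finset (Sym2 (Fin n))),
      #W ≤ 10 ∧ W.Nonempty ∧ (∀ e ∈ E, e ∈ M.edgeSet ∧ ∀ v ∈ e, v ∈ W) ∧ 9 * #W + c ≤ 7 * #E} ≤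
        10 * (2 ^ 55 * t) := by
  have p0 : (0 : ℝ) ≤ p := p.2.1
  refine (Pr_le_card (Icc 1 10) _ (fun v => {M : SimpleGraph (Fin n) | ∃ W ∈ powersetCard v univ,
    ∃ E : Finset (Sym2 (Fin n)), E ⊆ W.sym2 ∧ 9 * v + c ≤ 7 * #E ∧ ∀ e ∈ E, e ∈ M.edgeSet})
    (2 ^ 55 * t) (fun M hM => ?_) fun v hv => ?_).trans (by simp)
  · obtain ⟨W, E, h1, h2, h3, h4⟩ := hM
    exact ⟨#W, mem_Icc.2 ⟨card_pos.2 h2, h1⟩, W, by simp, E,
      fun e he => mem_sym2_iff.2 (h3 e he).2, h4, fun e he => (h3 e he).1⟩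
  rw [mem_Icc] at hv
  rcases Nat.eq_zero_or_pos n with rfl | n0
  · rw [Pr_empty]
    · positivity
    · rintro M ⟨W, h1, -⟩
      have := card_finset_fin_le W
      rw [(mem_powersetCard.1 h1).2] at this
      omega
  have n0' : (0 : ℝ) < (n : ℝ) ^ v := by positivity
  refine (Pr_le_card (powersetCard v univ) _ (fun W => {M : SimpleGraph (Fin n) |
    ∃ E : Finset (Sym2 (Fin n)), E ⊆ W.sym2 ∧ 9 * v + c ≤ 7 * #E ∧ ∀ e ∈ E, e ∈ M.edgeSet})
    (2 ^ 55 * (t / n ^ v)) (fun M hM => hM) fun W hW => ?_).trans ?_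
  · refine (Pr_le_card W.sym2.powerset _ (fun E => {M : SimpleGraph (Fin n) |
      9 * v + c ≤ 7 * #E ∧ ∀ e ∈ E, e ∈ M.edgeSet}) (t / n ^ v)
      (fun M hM => hM.imp fun E h => ⟨mem_powerset.2 h.1, h.2⟩) fun E _ => ?_).trans ?_
    · by_cases h : 9 * v + c ≤ 7 * #E ∧ ∀ e ∈ E, ¬ e.IsDiag
      · refine (Pr_mono (T := {M | ∀ e ∈ E, e ∈ M.edgeSet}) fun M hM => hM.2).trans ?_
        rw [Pr_all E h.2, le_div_iff₀ n0']
        refine le_of_pow_le_pow_left₀ (n := 7) (by norm_num) t0 (le_trans ?_ (ht v hv.1 hv.2))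
        rw [mul_pow, mul_pow, ← pow_mul, ← pow_mul, ← pow_mul, ← pow_mul, mul_comm, mul_comm v,
          mul_assoc, ← pow_add]
        exact mul_le_mul_of_nonneg_left (pow_le_pow_of_le_one p0 p.2.2 (by omega)) (by positivity)
      · rw [Pr_empty fun M hM => h ⟨hM.1, fun e he => M.not_isDiag_of_mem_edgeSet (hM.2 e he)⟩]
        positivity
    · rw [card_powerset, card_sym2, (mem_powersetCard.1 hW).2]
      have : (v + 1).choose 2 ≤ 55 := Nat.choose_le_choose 2 (show v + 1 ≤ 11 by omega)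
      push_cast
      gcongr
      norm_num
  · rw [card_powersetCard, card_univ, Fintype.card_fin]
    have : (n.choose v : ℝ) ≤ n ^ v := by exact_mod_cast Nat.choose_le_pow n v
    refine (mul_le_mul_of_nonneg_right this (by positivity)).trans (le_of_eq ?_)
    field_simp

theorem prob_sparse {n : ℕ} {p : I} {t : ℝ} (t0 : 0 ≤ t) (t1 : t ≤ 1)
    (ht : (n : ℝ) ^ 7 * (p : ℝ) ^ 9 ≤ t ^ 7) :
    Pr p {M : SimpleGraph (Fin n) | ¬ Sparse M} ≤ 10 * (2 ^ 55 * t) := by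
  have p0 : (0 : ℝ) ≤ p := p.2.1
  refine le_trans (Pr_mono fun M hM => ?_) (prob_dense 0 t0 fun v h _ => ?_)
  · simpa [Sparse] using hM
  · rw [pow_zero, mul_one]
    exact (pow_le_of_le_one (by positivity) (ht.trans (pow_le_one₀ t0 t1)) (by omega)).trans ht

/-- Below the threshold the random graph is multiplicative. -/
theorem lower (p : ℕ → I) (h : Tendsto (fun n : ℕ => (n : ℝ) ^ 7 * (p n : ℝ) ^ 9) atTop (𝓝 0)) :
    Tendsto (fun n => Pr (p n) {M : SimpleGraph (Fin n) | Multiplicative M}) atTop (𝓝 1) := by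
  let t : ℕ → ℝ := fun n => ((n : ℝ) ^ 7 * (p n : ℝ) ^ 9) ^ ((7 : ℕ) : ℝ)⁻¹
  have ht : Tendsto t atTop (𝓝 0) := h.rpow_const_nhds_zero (by positivity)
  have h0 := ((ht.const_mul (2 ^ 55)).const_mul 10).const_sub 1
  simp only [mul_zero, sub_zero] at h0
  refine tendsto_of_tendsto_of_tendsto_of_le_of_le' h0 tendsto_const_nhds ?_
    (Eventually.of_forall fun n => Pr_le_one _)
  filter_upwards [ht.eventually_le_const one_pos] with n a1
  have a0 : 0 ≤ (n : ℝ) ^ 7 * (p n : ℝ) ^ 9 := by have := (p n).2.1; positivity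
  have a2 := prob_sparse (n := n) (p := p n) (t := t n) (Real.rpow_nonneg a0 _) a1
    (Real.rpow_inv_natCast_pow a0 (by norm_num)).ge
  have a3 := Pr_compl (p := p n) {M : SimpleGraph (Fin n) | Multiplicative M}
  have a4 : Pr (p n) {M : SimpleGraph (Fin n) | Multiplicative M}ᶜ ≤ Pr (p n) {M | ¬ Sparse M} :=
    Pr_mono fun M hM k => hM (mult_of_nice k.nice)
  linarith

end Pool.Agent.Lib.NMX.LB
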