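import Pool.Agent.Lib.NMX.PRMain

set_option autoImplicit false

namespace Pool.Agent.Lib.NMX.PR

theorem not_mult {V : Type} [Finite V] {M : SimpleGraph V} {r k : ℕ} (hk : 0 < k)
    (f : myc r (SimpleGraph.cycleGraph (2 * k + 1)) →g M) : ¬ Multiplicative M := by
  intro h
  have := Fintype.ofFinite V
  obtain ⟨A, B, _, _, G, H, h1, h2, ⟨g⟩⟩ := exists_prod r k (Fintype.card V) hk
  rcases h A B G H ⟨f.comp g⟩ with ⟨⟨u⟩⟩ | ⟨⟨u⟩⟩
  exacts [h1 (M.colorable_of_fintype.of_hom u), h2 (M.colorable_of_fintype.of_hom u)]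

/-- The Mycielskian of the triangle with one level is four-colourable. -/
def toK4 : myc 0 (SimpleGraph.cycleGraph (2 * 1 + 1)) →g (⊤ : SimpleGraph (Fin 4)) where
  toFun x := x.elim 3 fun a => a.2.castSucc
  map_rel' {x y} h := by
    rcases x with _ | a <;> rcases y with _ | b
    · exact h.elim
    · exact (Fin.castSucc_lt_last b.2).ne'
    · exact (Fin.castSucc_lt_last a.2).ne
    · exact fun e => h.1.ne (Fin.castSucc_injective _ e)

theorem four_col (n : ℕ) : ∃ (A B : Type) (_ : Finite A) (_ : Finite B)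
    (G : SimpleGraph A) (H : SimpleGraph B), ¬ G.Colorable n ∧ ¬ H.Colorable n ∧
    (dprod G H).Colorable 4 := by
  obtain ⟨A, B, hA, hB, G, H, h1, h2, ⟨g⟩⟩ := exists_prod 0 1 n one_pos
  exact ⟨A, B, hA, hB, G, H, h1, h2, ⟨toK4.comp g⟩⟩

theorem not_mult_clique {V : Type} [Finite V] {M : SimpleGraph V} (h : ¬ M.CliqueFree 4) :
    ¬ Multiplicative M :=
  not_mult one_pos ((M.topEmbeddingOfNotCliqueFree h).toHom.comp toK4)

end Pool.Agent.Lib.NMX.PR
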