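import Pool.Agent.Lib.NMX.Kn35
import Pool.Agent.Lib.NMX.PRCor

set_option autoImplicit false

namespace Pool.Agent.Lib.NMX.Kn35

theorem succ_of_sub {N : ℕ} {u v : Fin N} (h : (v - u).1 = 1) :
    v.1 = u.1 + 1 ∨ v.1 + N = u.1 + 1 := by
  have hu := u.2
  have hv := v.2
  rw [Fin.sub_def] at h
  simp only at h
  by_cases e : N - u.1 + v.1 < N
  · rw [Nat.mod_eq_of_lt e] at h
    omega
  · rw [Nat.mod_eq_sub_mod (by omega), Nat.mod_eq_of_lt (by omega)] at h
    omega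

/-- A cone over a closed walk is a homomorphism from a generalized Mycielskian of a cycle. -/
theorem hom_of_cone {V : Type} {M : SimpleGraph V} {N r : ℕ} (F : ℕ → ℕ → V)
    (h1 : ∀ t i, F t (i + N) = F t i) (h2 : ∀ i, M.Adj (F 0 i) (F 0 (i + 1)))
    (h3 : ∀ t i, M.Adj (F t i) (F (t + 1) (i + 1)) ∧ M.Adj (F t (i + 1)) (F (t + 1) i))
    (h4 : ∀ i j, F (r + 1) i = F (r + 1) j) :
    Nonempty (myc r (SimpleGraph.cycleGraph N) →g M) := by
  have nxt : ∀ {u v : Fin N}, (v - u).1 = 1 → ∀ t, F t v.1 = F t (u.1 + 1) := fun h t => by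
    rcases succ_of_sub h with e | e
    · rw [e]
    · rw [← e, h1]
  have one : ∀ {u v : Fin N}, (v - u).1 = 1 → ∀ s t : ℕ,
      (s + 1 = t ∨ t + 1 = s ∨ (s = 0 ∧ t = 0)) → M.Adj (F s u.1) (F t v.1) := fun h s t l => by
    rw [nxt h]
    rcases l with rfl | rfl | ⟨rfl, rfl⟩
    exacts [(h3 _ _).1, (h3 _ _).2.symm, h2 _]
  have top : ∀ a : Fin (r + 1) × Fin N, (a.1 : ℕ) = r → M.Adj (F a.1 a.2) (F (r + 1) 0) :=
    fun a e => by
      rw [e, h4 0 (a.2.1 + 1)]
      exact (h3 _ _).1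
  refine ⟨⟨fun x => x.elim (F (r + 1) 0) fun a => F a.1 a.2, fun {x y} h => ?_⟩⟩
  rcases x with _ | a <;> rcases y with _ | b
  · exact h.elim
  · exact (top b h).symm
  · exact top a h
  · rcases SimpleGraph.cycleGraph_adj'.1 h.1 with e | e
    · exact (one e _ _ (by have := h.2; omega)).symm
    · exact one e _ _ h.2

/-- Kneser graphs of chromatic number at least four receive a generalized Mycielskian. -/
theorem myc_to_kneser {n k : ℕ} (hk : 1 ≤ k) (hn : 2 * k + 2 ≤ n) :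
    Nonempty (myc (2 * n - 1) (SimpleGraph.cycleGraph (2 * k + 1)) →g kneser n k) := by
  obtain ⟨F, h1, h2, h3, h4⟩ := kn_cone hk hn
  exact hom_of_cone F h1 h2 h3 (by rwa [show 2 * n - 1 + 1 = 2 * n by omega])

/-- The old Kneser theorem from the new one. -/
theorem kneser_not_mult {n k : ℕ} (hk : 1 ≤ k) (hn : 2 * k + 2 ≤ n) :
    ¬ Multiplicative (kneser n k) :=
  (myc_to_kneser hk hn).elim fun f => PR.not_mult hk f

end Pool.Agent.Lib.NMX.Kn35
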