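import Pool.Agent.Lib.NMX.Circ
import Pool.Agent.Lib.NMX.CoindCirc
import Pool.Agent.Lib.NMX.Kneser
import Pool.Agent.Lib.NMX.PRKneser

set_option autoImplicit false

/-! The two former hand-ins on circular cliques and Kneser graphs, and the check that their new
parts follow from the theorem on generalized Mycielskians. -/

namespace Pool.Agent.Lib.NMX.OldRes

theorem circ_iff (p q : ℕ) (hq : 0 < q) : Multiplicative (circClique p q) ↔ p < 4 * q :=
  ⟨fun h => by_contra fun k => circ_not_mult p q hq (by omega) h, Coind.circClique_mult⟩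

theorem kneser_old (n k : ℕ) (hk : 2 ≤ k) (hn : 2 * k + 2 ≤ n) : ¬ Multiplicative (kneser n k) :=
  kneser_not_mult n k hk hn

theorem kneser_from_new (n k : ℕ) (hk : 2 ≤ k) (hn : 2 * k + 2 ≤ n) :
    ¬ Multiplicative (kneser n k) :=
  Kn35.kneser_not_mult (by omega) hn

theorem circ_from_new (p q : ℕ) (hq : 0 < q) (h : 4 * q ≤ p) :
    ¬ Multiplicative (circClique p q) := by
  let g : (⊤ : SimpleGraph (Fin 4)) →g circClique p q :=
    ⟨fun i => ⟨i * q, by have := i.2; nlinarith⟩, fun {i j} hij => by
      have hne : i ≠ j := hij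
      simp only [circClique, ne_eq, Fin.mk.injEq, Nat.dist]
      fin_cases i <;> fin_cases j <;> simp_all <;> omega⟩
  exact PR.not_mult one_pos (g.comp PR.toK4)

end Pool.Agent.Lib.NMX.OldRes
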