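import Mathlib

set_option autoImplicit false

namespace Pool.Agent.Lib.NMX.PR

variable {m : ℕ}

/-- One step of the state: every counter grows by about `S`, except at the two ends. -/
def Step (S e L : ℕ) (p p' : Fin m → ℕ) : Prop :=
  ∀ l, p' l ≤ p l + S + e ∧ (p l = 0 ∨ L ≤ p' l + e ∨ p l + S ≤ p' l + e)

/-- The candidates for the value of the clock. -/
def Cand (U Γ C : ℕ) (p : Fin m → ℕ) : Set ℕ :=
  {v | ∃ u g k, U ≤ p k ∧ p k ≤ u ∧ (∀ l, p l ≤ u ∨ u + Γ ≤ p l + g) ∧ v = u + C * g}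

/-- The clock: a softened top of the first cluster of counters. -/
noncomputable def clock (U Γ C : ℕ) (p : Fin m → ℕ) : ℕ := sInf (Cand U Γ C p)

theorem exists_gap (W Γ : ℕ) (p : Fin m → ℕ) :
    ∃ a ≤ m, ∀ l, p l ≤ W + a * Γ ∨ W + a * Γ + Γ ≤ p l := by
  by_contra h
  push Not at h
  choose f hf using fun a : Fin (m + 1) => h a (by omega)
  have key : ∀ a b : Fin (m + 1), a < b → f a ≠ f b := fun a b hab e => by
    have h1 := (hf a).2
    have h2 := (hf b).1
    have h3 : ((a : ℕ) + 1) * Γ ≤ b * Γ := Nat.mul_le_mul_right _ hab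
    rw [e] at h1
    rw [Nat.add_mul] at h3
    omega
  obtain ⟨a, b, hab, e⟩ := Fintype.exists_ne_map_eq_of_card_lt f (by simp)
  rcases lt_or_gt_of_ne hab with k | k
  exacts [key a b k e, key b a k e.symm]

theorem clock_step {S e L U W Γ C : ℕ} {p p' : Fin m → ℕ} (hs : Step S e L p p')
    (hU : U = S + e) (he : e ≤ S) (h0 : 0 < S) (hL1 : W + m * Γ + U + Γ ≤ L)
    (hL2 : W + m * Γ + U + 2 * (C * e) + e < L)
    (hC : ∀ g, Γ ≤ W + U + g → W + m * Γ + U + 2 * (C * e) < C * g)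
    {j : Fin m} (j1 : U ≤ p j) (j2 : p j ≤ W) :
    clock U Γ C p' ≤ clock U Γ C p + S + (e + 2 * (C * e)) ∧
      clock U Γ C p + S ≤ clock U Γ C p' + (e + 2 * (C * e)) := by
  obtain ⟨a, ha, hgap⟩ := exists_gap W Γ p
  have b0 : W + a * Γ ∈ Cand U Γ C p :=
    ⟨W + a * Γ, 0, j, j1, by omega, fun l => by simpa using hgap l, by simp⟩
  have b1 : clock U Γ C p ≤ W + m * Γ :=
    (Nat.sInf_le b0).trans (by have := Nat.mul_le_mul_right Γ ha; omega)
  obtain ⟨u, g, k, k1, k2, k3, k4⟩ : clock U Γ C p ∈ Cand U Γ C p := Nat.sInf_mem ⟨_, b0⟩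
  have d1 : u + U + C * (g + 2 * e) ∈ Cand U Γ C p' := by
    refine ⟨u + U, g + 2 * e, k, ?_, ?_, fun l => ?_, rfl⟩
    · have := hs k; omega
    · have := hs k; omega
    · have := hs l
      have := k3 l
      omega
  have d2 : clock U Γ C p' ≤ clock U Γ C p + S + (e + 2 * (C * e)) := by
    refine (Nat.sInf_le d1).trans ?_
    rw [k4, Nat.mul_add, Nat.mul_left_comm C 2 e]
    omega
  refine ⟨d2, ?_⟩
  obtain ⟨u', g', k', -, -, n3, n4⟩ : clock U Γ C p' ∈ Cand U Γ C p' := Nat.sInf_mem ⟨_, d1⟩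
  have q1 : p' j ≤ u' := by
    refine (n3 j).resolve_right fun h => ?_
    have := hs j
    have := hC g' (by omega)
    omega
  have q2 : p j + S ≤ p' j + e := by have := hs j; omega
  have d3 : u' + e - S + C * (g' + 2 * e) ∈ Cand U Γ C p := by
    refine ⟨u' + e - S, g' + 2 * e, j, j1, by omega, fun l => ?_, rfl⟩
    have := hs l
    have := n3 l
    omega
  have d4 : clock U Γ C p ≤ _ := Nat.sInf_le d3
  rw [Nat.mul_add, Nat.mul_left_comm C 2 e] at d4
  omega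

/-- No counter is closer than `t * U` to the level `Z`. -/
def Quiet (U Z : ℕ) (p : Fin m → ℕ) (t : ℕ) : Prop := ∀ j, p j + t * U ≤ Z ∨ Z + t * U ≤ p j

theorem Quiet.mono {U Z : ℕ} {p : Fin m → ℕ} {t t' : ℕ} (h : Quiet U Z p t) (ht : t' ≤ t) :
    Quiet U Z p t' := fun j => by
  have := h j
  have := Nat.mul_le_mul_right U ht
  omega

theorem quiet_fwd {S e L U Z t : ℕ} {p p' : Fin m → ℕ} (hs : Step S e L p p') (hU : U = S + e)
    (he : e ≤ S) (h0 : 0 < S) (hL : Z + t * U + e ≤ L) (h : Quiet U Z p (t + 1)) :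
    Quiet U Z p' t := fun j => by
  have := h j
  have := hs j
  rw [Nat.add_mul] at *
  omega

theorem quiet_bwd {S e L U Z t : ℕ} {p p' : Fin m → ℕ} (hs : Step S e L p p') (hU : U = S + e)
    (he : e ≤ S) (h0 : 0 < S) (hL : Z + e ≤ L) (hZ : t * U ≤ Z) (h : Quiet U Z p' (t + 1)) :
    Quiet U Z p t := fun j => by
  have := h j
  have := hs j
  rw [Nat.add_mul] at *
  omega

theorem quiet_sign {S e L U Z : ℕ} {p p' : Fin m → ℕ} (hs : Step S e L p p') (hU : U = S + e)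
    (he : e ≤ S) (h0 : 0 < S) (hL : Z + e ≤ L) (h : Quiet U Z p 1) (h' : Quiet U Z p' 1)
    (j : Fin m) : Z ≤ p j ↔ Z ≤ p' j := by
  have := h j
  have := h' j
  have := hs j
  omega

end Pool.Agent.Lib.NMX.PR
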