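import Mathlib

set_option autoImplicit false

namespace Pool.Agent.Lib.NMX.PR

open Finset

/-- Ramsey property of shifts of increasing sequences. -/
theorem shift_ramsey (L : ℕ) : ∀ (κ : Type) [Finite κ], ∃ n : ℕ, ∀ χ : (ℕ → ℕ) → κ,
    (∀ u v : ℕ → ℕ, (∀ i ≤ L, u i = v i) → χ u = χ v) →
    ∃ w : ℕ → ℕ, (∀ i ≤ L, w i < w (i + 1)) ∧ w (L + 1) < n ∧ χ w = χ fun i => w (i + 1) := by
  induction L with
  | zero =>
    intro κ _
    have := Fintype.ofFinite κ
    refine ⟨Fintype.card κ + 1, fun χ hχ => ?_⟩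
    obtain ⟨a, b, hab, e⟩ := Fintype.exists_ne_map_eq_of_card_lt
      (fun a : Fin (Fintype.card κ + 1) => χ fun _ => a) (by simp)
    have key : ∀ a b : Fin (Fintype.card κ + 1), a < b → (χ fun _ => a) = (χ fun _ => b) →
        ∃ w : ℕ → ℕ, (∀ i ≤ 0, w i < w (i + 1)) ∧ w (0 + 1) < Fintype.card κ + 1 ∧
          χ w = χ fun i => w (i + 1) := fun a b h e => by
      refine ⟨fun i => if i = 0 then a else b, fun i hi => ?_, by simpa using b.2, ?_⟩
      · obtain rfl : i = 0 := by omega
        simpa using h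
      · rw [hχ _ (fun _ => a) fun i hi => by simp [show i = 0 by omega], e]
        simp
    rcases lt_or_gt_of_ne hab with h | h
    exacts [key a b h e, key b a h e.symm]
  | succ L ih =>
    intro κ _
    obtain ⟨n, hn⟩ := ih (Set κ)
    refine ⟨n, fun χ hχ => ?_⟩
    obtain ⟨w, h1, h2, h3⟩ := hn
      (fun u => {c | ∃ z < n, u L < z ∧ χ (Function.update u (L + 1) z) = c}) fun u v huv => by
        ext c
        simp only [Set.mem_ofPred_eq, huv L le_rfl]
        refine exists_congr fun z => and_congr_right fun _ => and_congr_right fun _ => ?_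
        rw [hχ (Function.update u (L + 1) z) (Function.update v (L + 1) z) fun i hi => ?_]
        by_cases e : i = L + 1
        · simp [e]
        · simp [e, huv i (by omega)]
    have h4 : χ w ∈ {c | ∃ z < n, w L < z ∧ χ (Function.update w (L + 1) z) = c} :=
      ⟨w (L + 1), h2, h1 L le_rfl, by simp⟩
    simp only at h3
    rw [h3] at h4
    obtain ⟨z, z1, z2, z3⟩ := h4
    refine ⟨Function.update w (L + 2) z, fun i hi => ?_, by simpa using z1, ?_⟩
    · by_cases e : i = L + 1
      · simpa [e] using z2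
      · rw [Function.update_of_ne (by omega), Function.update_of_ne (by omega)]
        exact h1 i (by omega)
    · rw [hχ _ w fun i hi => Function.update_of_ne (by omega) _ _, ← z3]
      refine hχ _ _ fun i hi => ?_
      by_cases e : i = L + 1
      · simp [e]
      · rw [Function.update_of_ne e, Function.update_of_ne (by omega)]

/-- `t'` is a shift of `t`. -/
def Sh {L n : ℕ} (t t' : Fin L → Fin n) : Prop :=
  ∃ w : ℕ → ℕ, (∀ i < L, w i < w (i + 1)) ∧ (∀ i : Fin L, (t i : ℕ) = w i) ∧
    ∀ i : Fin L, (t' i : ℕ) = w (i + 1)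

/-- The shift graph. -/
def shiftG (L n : ℕ) : SimpleGraph (Fin L → Fin n) := SimpleGraph.fromRel Sh

theorem exists_shift (L c : ℕ) : ∃ n, ¬ (shiftG (L + 1) (n + 1)).Colorable c := by
  obtain ⟨n, hn⟩ := shift_ramsey L (Fin c)
  refine ⟨n, fun ⟨col⟩ => ?_⟩
  obtain ⟨w, h1, h2, h3⟩ := hn
    (fun u => col fun i : Fin (L + 1) => ⟨min (u i) n, by omega⟩) fun u v h => by
      congr 1
      funext i
      rw [Fin.ext_iff]
      simp only [h i (by omega)]
  have hm : ∀ j i, i + j = L + 1 → w i ≤ w (L + 1) := fun j => by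
    induction j with
    | zero => intro i hi; rw [← hi]; exact le_rfl
    | succ j ih =>
      intro i hi
      exact (h1 i (by omega)).le.trans (ih (i + 1) (by omega))
  have hb : ∀ i ≤ L + 1, min (w i) n = w i := fun i hi =>
    min_eq_left ((hm (L + 1 - i) i (by omega)).trans h2.le)
  refine col.valid ?_ h3
  refine (SimpleGraph.fromRel_adj _ _ _).2 ⟨fun e => ?_, Or.inl ⟨w, fun i hi => h1 i (by omega),
    fun i => hb _ (by omega), fun i => hb _ (by omega)⟩⟩
  have := congrArg Fin.val (congrFun e 0)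
  simp only [Fin.val_zero] at this
  rw [hb 0 (by omega), hb (0 + 1) (by omega)] at this
  exact (h1 0 (by omega)).ne this

/-- The number of thresholds above `d`, in blocks of length `S`. -/
def cnt (S : ℕ) {L n : ℕ} (t : Fin L → Fin n) (d : ℕ) : ℕ :=
  ∑ i, min S (S * (t i + 1) - d)

theorem cnt_zero (S : ℕ) {L n : ℕ} (t : Fin L → Fin n) : cnt S t 0 = S * L := by
  have : ∀ i, min S (S * (t i + 1) - 0) = S := fun i => min_eq_left (by
    rw [Nat.sub_zero, Nat.mul_add]; omega)
  simp only [cnt, this]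
  simp [mul_comm]

theorem cnt_le (S : ℕ) {L n : ℕ} (t : Fin L → Fin n) {d d' : ℕ} (h : d' ≤ d + 1) :
    cnt S t d ≤ cnt S t d' + L := by
  have : cnt S t d ≤ ∑ i, (min S (S * (t i + 1) - d') + 1) :=
    sum_le_sum fun i _ => by omega
  simpa [sum_add_distrib, cnt] using this

theorem cnt_pos {S L n : ℕ} {t : Fin L → Fin n} {d : ℕ} (h : cnt S t d ≠ 0) : d < S * n := by
  by_contra k
  refine h (sum_eq_zero fun i _ => ?_)
  have : S * (t i + 1) ≤ S * n := Nat.mul_le_mul_left _ (t i).2
  omega

theorem cnt_shift (S : ℕ) {L n : ℕ} {t t' : Fin L → Fin n} (h : Sh t t') (d : ℕ) :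
    cnt S t' d ≤ cnt S t d + S ∧
      (cnt S t d = 0 ∨ cnt S t' d = S * L ∨ cnt S t' d = cnt S t d + S) := by
  obtain ⟨w, h1, h2, h3⟩ := h
  let g : ℕ → ℕ := fun i => min S (S * (w i + 1) - d)
  have e1 : cnt S t d = ∑ i ∈ range L, g i := by
    simp only [cnt, h2]; exact Fin.sum_univ_eq_sum_range g L
  have e2 : cnt S t' d = ∑ i ∈ range L, g (i + 1) := by
    simp only [cnt, h3]; exact Fin.sum_univ_eq_sum_range (fun i => g (i + 1)) L
  have e3 : cnt S t' d + g 0 = cnt S t d + g L := by
    rw [e1, e2, ← sum_range_succ, ← sum_range_succ']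
  have hm : ∀ j i, i + j + 1 ≤ L → w i < w (i + j + 1) := fun j => by
    induction j with
    | zero => exact fun i hi => h1 i (by omega)
    | succ j ih => exact fun i hi => (ih i (by omega)).trans (h1 _ (by omega))
  have gS : g L ≤ S := min_le_left _ _
  refine ⟨by omega, ?_⟩
  by_cases a : g L = S
  · by_cases b : g 0 = 0
    · exact Or.inr (Or.inr (by omega))
    · refine Or.inr (Or.inl ?_)
      rw [e2, sum_congr rfl (g := fun _ => S) fun i hi => ?_]
      · simp [mul_comm]
      · have k1 := hm i 0 (by have := mem_range.1 hi; omega)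
        rw [Nat.zero_add] at k1
        have k2 : S * (w 0 + 1) ≤ S * w (i + 1) := Nat.mul_le_mul_left _ k1
        simp only [g, Nat.mul_add] at b k2 ⊢
        omega
  · refine Or.inl ?_
    rw [e1]
    refine sum_eq_zero fun i hi => ?_
    have hi' := mem_range.1 hi
    have k1 := hm (L - i - 1) i (by omega)
    rw [show i + (L - i - 1) + 1 = L by omega] at k1
    have k2 : S * (w i + 1) ≤ S * w L := Nat.mul_le_mul_left _ k1
    simp only [g, Nat.mul_add] at a k2 ⊢
    omega

end Pool.Agent.Lib.NMX.PR
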