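import Pool.Agent.Lib.NMX.Defs
import Pool.Agent.Lib.NMX.MycDef
import Pool.Agent.Lib.NMX.Wide
import Pool.Agent.Lib.NMX.PRShift
import Pool.Agent.Lib.NMX.PRClock

set_option autoImplicit false

namespace Pool.Agent.Lib.NMX.PR

/-- Graphs of large chromatic number with boundedly many level functions. -/
theorem exists_levels (n : ℕ) : ∃ m : ℕ, ∀ R : ℕ, ∃ (A : Type) (_ : Finite A) (G : SimpleGraph A)
    (d : A → Fin m → ℕ), ¬ G.Colorable n ∧ (∀ x, ∃ j, d x j = 0) ∧
    ∀ x y, G.Adj x y → ∀ j, d y j ≤ d x j + 1 ∧ (d x j < R → d x j ≠ d y j) := by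
  obtain ⟨m, hm⟩ := exists_wide n
  refine ⟨m, fun R => ?_⟩
  obtain ⟨A, hA, G, B, h1, h2, h3, h4⟩ := hm R
  have ne : ∀ x j, {i | x ∈ B j i ∨ R ≤ i}.Nonempty := fun x j => ⟨R, Or.inr le_rfl⟩
  refine ⟨A, hA, G, fun x j => sInf {i | x ∈ B j i ∨ R ≤ i}, h1, fun x => ?_,
    fun x y h j => ⟨?_, fun hR e => ?_⟩⟩
  · obtain ⟨j, hj⟩ := h2 x
    exact ⟨j, Nat.le_zero.1 (Nat.sInf_le (Or.inl hj))⟩
  · refine Nat.sInf_le ?_
    exact (Nat.sInf_mem (ne x j)).imp (fun k => h3 j _ x y k h) fun k => k.trans (Nat.le_succ _)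
  · beta_reduce at hR e
    have a := (Nat.sInf_mem (ne x j)).resolve_right hR.not_ge
    have b := (Nat.sInf_mem (ne y j)).resolve_right (by rw [← e]; exact hR.not_ge)
    rw [← e] at b
    exact h4 j _ hR.le x y a b h

/-- The relation between the states of two adjacent vertices. -/
def Rel (r q E : ℕ) (θ θ' : ℕ) (ε ε' : Bool) (s s' : ℕ) : Prop :=
  θ ≤ θ' + 1 ∧ θ' ≤ θ + 1 ∧ (0 < θ → 0 < θ' → ε ≠ ε') ∧
    (θ ≤ r ∨ θ' ≤ r → s' ≤ s + q * E + E ∧ s + q * E ≤ s' + E)

theorem exists_states (n r q : ℕ) (hq : 0 < q) : ∃ (A B : Type) (_ : Finite A) (_ : Finite B)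
    (G : SimpleGraph A) (H : SimpleGraph B) (E : ℕ) (θ : A × B → ℕ) (ε : A × B → Bool)
    (s : A × B → ℕ), ¬ G.Colorable n ∧ ¬ H.Colorable n ∧ 0 < E ∧ (∀ x, θ x ≤ r + 1) ∧
    ∀ x y, (dprod G H).Adj x y → Rel r q E (θ x) (θ y) (ε x) (ε y) (s x) (s y) ∨
      Rel r q E (θ y) (θ x) (ε y) (ε x) (s y) (s x) := by
  classical
  obtain ⟨m, hm⟩ := exists_levels n
  obtain ⟨e', he'⟩ : ∃ e', e' = (2 * m + 3) * (4 * r + 12) + 2 := ⟨_, rfl⟩
  obtain ⟨N, hN⟩ := exists_shift e' n
  obtain ⟨e, he⟩ : ∃ e, e = e' + 1 := ⟨_, rfl⟩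
  obtain ⟨C, hC⟩ : ∃ C, C = 4 * m + 4 := ⟨_, rfl⟩
  obtain ⟨E, hE⟩ : ∃ E, E = e + 2 * (C * e) := ⟨_, rfl⟩
  obtain ⟨S, hS⟩ : ∃ S, S = q * E := ⟨_, rfl⟩
  obtain ⟨U, hU⟩ : ∃ U, U = S + e := ⟨_, rfl⟩
  obtain ⟨T, hT⟩ : ∃ T, T = (r + 2) * U := ⟨_, rfl⟩
  obtain ⟨A, hA, G, d, g1, g2, g3⟩ := hm (S * (N + 1))
  have ES : E ≤ S := hS ▸ Nat.le_mul_of_pos_left _ hq
  have E0 : 0 < E := by omega
  have eS : e ≤ S := by omega
  have S0 : 0 < S := by omega
  have T1 : 2 * T + 2 * U ≤ (4 * r + 12) * S := by rw [hT]; nlinarith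
  have T2 : 2 * U ≤ T := hT ▸ Nat.mul_le_mul_right _ (by omega)
  have L1 : (2 * m + 3) * (2 * T + 2 * U) + 3 * S ≤ S * (e' + 1) := by
    have := Nat.mul_le_mul_left (2 * m + 3) T1
    rw [he']; nlinarith
  have L2 : m * (2 * (2 * T + 2 * U)) + 3 * (2 * T + 2 * U) + 3 * S ≤ S * (e' + 1) := by
    refine le_trans (le_of_eq ?_) L1
    ring
  let p : A × (Fin (e' + 1) → Fin (N + 1)) → Fin m → ℕ := fun x j => cnt S x.2 (d x.1 j)
  let sel : Set (Fin m) → A → Bool := fun X x =>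
    if h : X.Nonempty then decide (Even (d x h.some)) else true
  refine ⟨A, _, hA, inferInstance, G, shiftG (e' + 1) (N + 1), E,
    fun x => Nat.findGreatest (Quiet U (T + U) (p x)) (r + 1),
    fun x => sel {j | T + U ≤ p x j} x.1,
    fun x => clock U (2 * (2 * T + 2 * U)) C (p x), g1, hN, E0,
    fun x => Nat.findGreatest_le _, ?_⟩
  have main : ∀ x y : A × (Fin (e' + 1) → Fin (N + 1)), G.Adj x.1 y.1 → Sh x.2 y.2 →
      Rel r q E (Nat.findGreatest (Quiet U (T + U) (p x)) (r + 1))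
        (Nat.findGreatest (Quiet U (T + U) (p y)) (r + 1))
        (sel {j | T + U ≤ p x j} x.1) (sel {j | T + U ≤ p y j} y.1)
        (clock U (2 * (2 * T + 2 * U)) C (p x)) (clock U (2 * (2 * T + 2 * U)) C (p y)) := by
    intro x y hxy hsh
    have hs : Step S e (S * (e' + 1)) (p x) (p y) := fun l => by
      have a := cnt_shift S hsh (d x.1 l)
      have b := cnt_le S y.2 (g3 _ _ hxy l).1
      have c := cnt_le S y.2 (g3 _ _ hxy.symm l).1
      simp only [p]
      omega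
    have q0 : ∀ z, Quiet U (T + U) (p z) 0 := fun z j => by omega
    have qs : ∀ z, Quiet U (T + U) (p z) (Nat.findGreatest (Quiet U (T + U) (p z)) (r + 1)) :=
      fun z => Nat.findGreatest_spec (Nat.zero_le _) (q0 z)
    have tU : ∀ t ≤ r + 2, t * U ≤ T := fun t ht => hT ▸ Nat.mul_le_mul_right _ ht
    have fw : ∀ t ≤ r + 1, Quiet U (T + U) (p x) (t + 1) → Quiet U (T + U) (p y) t :=
      fun t ht => quiet_fwd hs hU eS S0 (by have := tU t (by omega); omega)
    have bw : ∀ t ≤ r + 1, Quiet U (T + U) (p y) (t + 1) → Quiet U (T + U) (p x) t :=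
      fun t ht => quiet_bwd hs hU eS S0 (by omega) (by have := tU t (by omega); omega)
    have lx := Nat.findGreatest_le (P := Quiet U (T + U) (p x)) (r + 1)
    have ly := Nat.findGreatest_le (P := Quiet U (T + U) (p y)) (r + 1)
    refine ⟨?_, ?_, fun h h' => ?_, fun h => ?_⟩
    · rcases hx : Nat.findGreatest (Quiet U (T + U) (p x)) (r + 1) with _ | t
      · omega
      · exact Nat.succ_le_succ (Nat.le_findGreatest (by omega) (fw t (by omega) (hx ▸ qs x)))
    · rcases hy : Nat.findGreatest (Quiet U (T + U) (p y)) (r + 1) with _ | t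
      · omega
      · exact Nat.succ_le_succ (Nat.le_findGreatest (by omega) (bw t (by omega) (hy ▸ qs y)))
    · have k := quiet_sign hs hU eS S0 (by omega) ((qs x).mono h) ((qs y).mono h')
      have k1 : {j | T + U ≤ p y j} = {j | T + U ≤ p x j} := Set.ext fun j => (k j).symm
      have k2 : {j | T + U ≤ p x j}.Nonempty := by
        obtain ⟨j, hj⟩ := g2 x.1
        refine ⟨j, ?_⟩
        simp only [p, Set.mem_ofPred_eq, hj, cnt_zero]
        omega
      have k3 : T + U ≤ p x k2.some := k2.some_mem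
      have k4 := cnt_pos (show cnt S x.2 (d x.1 k2.some) ≠ 0 by simp only [p] at k3; omega)
      have a := g3 _ _ hxy k2.some
      have b := (g3 _ _ hxy.symm k2.some).1
      have c := a.2 k4
      simp only [sel, k1, dif_pos k2, ne_eq, decide_eq_decide, Nat.even_iff]
      omega
    · have k : ¬ Quiet U (T + U) (p x) (r + 2) := fun k => by
        have a := Nat.le_findGreatest (P := Quiet U (T + U) (p x)) (le_refl (r + 1))
          (k.mono (by omega))
        have b := Nat.le_findGreatest (P := Quiet U (T + U) (p y)) (le_refl (r + 1))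
          (fw (r + 1) le_rfl k)
        omega
      simp only [Quiet, not_forall, not_or, not_le, ← hT] at k
      obtain ⟨j, j1, j2⟩ := k
      have := clock_step (W := 2 * T + U) (Γ := 2 * (2 * T + 2 * U)) (C := C) hs hU eS S0
        (by omega) (by omega) (fun g hg => ?_) (j := j) (by omega) (by omega)
      · rw [← hS]
        omega
      · have a : C * (2 * T + 2 * U) ≤ C * g := Nat.mul_le_mul_left _ (by omega)
        have b : C * (4 * e) ≤ C * (2 * T + 2 * U) := Nat.mul_le_mul_left _ (by omega)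
        have c : C * (2 * T + 2 * U) =
            2 * (m * (2 * (2 * T + 2 * U))) + 4 * (2 * T + 2 * U) := by rw [hC]; ring
        have f : C * (4 * e) = 4 * (C * e) := by ring
        omega
  intro x y h
  rcases ((SimpleGraph.fromRel_adj _ _ _).1 h.2).2 with k | k
  exacts [Or.inl (main x y h.1 k), Or.inr (main y x h.1.symm k)]

/-- The level used by a state. -/
def lev (r θ : ℕ) (ε : Bool) : ℕ :=
  if (θ + r + (if ε then 1 else 0)) % 2 = 0 then θ else θ - 1

theorem cyc_adj {k E s s' : ℕ} (hk : 0 < k) (hE : 0 < E) (h1 : s' ≤ s + (2 * k + 1) * E + E)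
    (h2 : s + (2 * k + 1) * E ≤ s' + E) : (SimpleGraph.cycleGraph (2 * k + 1)).Adj
      (Fin.ofNat _ (2 * (s / (2 * E)))) (Fin.ofNat _ (2 * (s' / (2 * E)))) := by
  have a : s / (2 * E) + k ≤ s' / (2 * E) := by
    rw [← Nat.add_mul_div_right _ _ (by omega : 0 < 2 * E)]
    refine Nat.div_le_div_right ?_
    have : (2 * k + 1) * E = k * (2 * E) + E := by ring
    omega
  have b : s' / (2 * E) ≤ s / (2 * E) + (k + 1) := by
    rw [← Nat.add_mul_div_right _ _ (by omega : 0 < 2 * E)]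
    refine Nat.div_le_div_right ?_
    have : (2 * k + 1) * E + E = (k + 1) * (2 * E) := by ring
    omega
  generalize s / (2 * E) = c at a b
  generalize s' / (2 * E) = c' at a b
  obtain ⟨k, rfl⟩ : ∃ j, k = j + 1 := ⟨k - 1, by omega⟩
  change (SimpleGraph.cycleGraph (2 * k + 1 + 2)).Adj (Fin.ofNat _ _) (Fin.ofNat _ _)
  rw [SimpleGraph.cycleGraph_adj, sub_eq_iff_eq_add', sub_eq_iff_eq_add', Fin.ext_iff,
    Fin.ext_iff, Fin.val_add, Fin.val_add]
  simp only [Fin.val_ofNat, Fin.val_one, Nat.mod_add_mod]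
  rcases (by omega : c' = c + (k + 1) ∨ c' = c + (k + 2)) with rfl | rfl
  · exact Or.inl (by
      rw [show 2 * (c + (k + 1)) + 1 = 2 * c + (2 * k + 1 + 2) by ring, Nat.add_mod_right])
  · exact Or.inr (by
      rw [show 2 * (c + (k + 2)) = 2 * c + 1 + (2 * k + 1 + 2) by ring, Nat.add_mod_right])

/-- Products of graphs of large chromatic number that map to a generalized Mycielskian. -/
theorem exists_prod (r k n : ℕ) (hk : 0 < k) : ∃ (A B : Type) (_ : Finite A) (_ : Finite B)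
    (G : SimpleGraph A) (H : SimpleGraph B), ¬ G.Colorable n ∧ ¬ H.Colorable n ∧
    Nonempty (dprod G H →g myc r (SimpleGraph.cycleGraph (2 * k + 1))) := by
  obtain ⟨A, B, hA, hB, G, H, E, θ, ε, s, h1, h2, h3, h4, h5⟩ :=
    exists_states n (r + 1) (2 * k + 1) (by omega)
  let f : A × B → Option (Fin (r + 1) × Fin (2 * k + 1)) := fun x =>
    if h : lev r (θ x - 1) (ε x) < r + 1 then
      some (⟨_, h⟩, Fin.ofNat _ (2 * (s x / (2 * E)))) else none
  have main : ∀ x y, Rel (r + 1) (2 * k + 1) E (θ x) (θ y) (ε x) (ε y) (s x) (s y) →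
      (myc r (SimpleGraph.cycleGraph (2 * k + 1))).Adj (f x) (f y) := by
    intro x y ⟨a, b, c, d⟩
    have hx := h4 x
    have hy := h4 y
    have key : (lev r (θ x - 1) (ε x) + 1 = lev r (θ y - 1) (ε y) ∨
        lev r (θ y - 1) (ε y) + 1 = lev r (θ x - 1) (ε x) ∨
        (lev r (θ x - 1) (ε x) = 0 ∧ lev r (θ y - 1) (ε y) = 0)) ∧
        lev r (θ x - 1) (ε x) ≤ r + 1 ∧ lev r (θ y - 1) (ε y) ≤ r + 1 ∧
        (lev r (θ x - 1) (ε x) < r + 1 → lev r (θ y - 1) (ε y) < r + 1 →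
          θ x ≤ r + 1 ∨ θ y ≤ r + 1) := by
      revert c
      unfold lev
      cases ε x <;> cases ε y <;> simp only [ne_eq, not_true_eq_false, imp_false, not_lt,
        Bool.false_eq_true, Bool.true_eq_false, not_false_eq_true, implies_true, if_true,
        if_false, forall_const] <;> split_ifs <;> omega
    obtain ⟨k1, k2, k3, k4⟩ := key
    simp only [f]
    split_ifs with u v v
    · exact ⟨cyc_adj hk h3 (d (k4 u v)).1 (d (k4 u v)).2, k1⟩
    · change lev r (θ x - 1) (ε x) = r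
      omega
    · change lev r (θ y - 1) (ε y) = r
      omega
    · change False
      omega
  exact ⟨A, B, hA, hB, G, H, h1, h2,
    ⟨⟨f, fun {x y} h => (h5 x y h).elim (main x y) fun k => (main y x k).symm⟩⟩⟩

end Pool.Agent.Lib.NMX.PR
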